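import Pool.Agent.TH902.J519c

set_option autoImplicit false

namespace Pool.Agent.TH902.J519

open Pool.Agent.TH716.C3 Pool.Agent.Helper281.Sc Set Topology unitInterval

/-- Projection of the reals to the unit interval. -/
noncomputable def pr (t : ℝ) : I := projIcc 0 1 zero_le_one t

theorem continuous_pr : Continuous pr := continuous_projIcc (h := zero_le_one)

theorem pr_zero {t : ℝ} (h : t ≤ 0) : pr t = 0 := projIcc_of_le_left zero_le_one h

theorem pr_one {t : ℝ} (h : 1 ≤ t) : pr t = 1 := projIcc_of_right_le zero_le_one h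

theorem pr_coe (t : I) : pr (t : ℝ) = t := projIcc_val zero_le_one t

section
variable {A X : Type} [TopologicalSpace A] [TopologicalSpace X]

/-- Concatenation of `F` reversed, `J` and `F`. -/
noncomputable def PP (F J : A × I → X) (x : A) (t : ℝ) : X :=
  if 3 * t ≤ 1 then F (x, pr (1 - 3 * t)) else
    if 3 * t ≤ 2 then J (x, pr (3 * t - 1)) else F (x, pr (3 * t - 2))

theorem continuous_PP {F J : A × I → X} (hF : Continuous F) (hJ : Continuous J)
    (h0 : ∀ x, J (x, 0) = F (x, 0)) (h1 : ∀ x, J (x, 1) = F (x, 0)) :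
    Continuous fun p : A × ℝ => PP F J p.1 p.2 := by
  unfold PP
  refine Continuous.if_le ?_ ?_ (by fun_prop) (by fun_prop) ?_
  · exact hF.comp (continuous_fst.prodMk (continuous_pr.comp (by fun_prop)))
  · refine Continuous.if_le ?_ ?_ (by fun_prop) (by fun_prop) ?_
    · exact hJ.comp (continuous_fst.prodMk (continuous_pr.comp (by fun_prop)))
    · exact hF.comp (continuous_fst.prodMk (continuous_pr.comp (by fun_prop)))
    · rintro ⟨x, t⟩ ht
      dsimp only at ht ⊢
      rw [pr_one (by linarith), pr_zero (by linarith), h1]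
  · rintro ⟨x, t⟩ ht
    dsimp only at ht ⊢
    rw [if_pos (by linarith), pr_zero (by linarith), pr_zero (by linarith), h0]

variable {F J : A × I → X} {y : X}

/-- The path family. -/
noncomputable def Ph (hF : Continuous F) (hJ : Continuous J)
    (h0 : ∀ x, J (x, 0) = F (x, 0)) (h1 : ∀ x, J (x, 1) = F (x, 0)) (hy : ∀ x, F (x, 1) = y)
    (x : A) : Path y y where
  toFun t := PP F J x t
  continuous_toFun := (continuous_PP hF hJ h0 h1).comp
    (continuous_const.prodMk continuous_subtype_val)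
  source' := by
    rw [PP, Icc.coe_zero, if_pos (by norm_num), pr_one (by norm_num), hy]
  target' := by
    rw [PP, Icc.coe_one, if_neg (by norm_num), if_neg (by norm_num), pr_one (by norm_num), hy]

theorem continuous_Ph (hF : Continuous F) (hJ : Continuous J)
    (h0 : ∀ x, J (x, 0) = F (x, 0)) (h1 : ∀ x, J (x, 1) = F (x, 0)) (hy : ∀ x, F (x, 1) = y) :
    Continuous (Ph hF hJ h0 h1 hy) := by
  rw [← Path.continuous_uncurry_iff]
  exact (continuous_PP hF hJ h0 h1).comp
    (continuous_fst.prodMk (continuous_subtype_val.comp continuous_snd))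

/-- The position on the path. -/
noncomputable def tau (s t : ℝ) : ℝ :=
  (1 - s) * (1 / 3 + t / 3) + s * max 0 (min 1 (3 * t - 1))

/-- The time of the homotopy. -/
noncomputable def sig (s t : ℝ) : ℝ := min s (min (3 * t) (3 - 3 * t))

/-- The filling. -/
noncomputable def GG (H : A × I → Path y y) (p : A × I × I) : X :=
  (H (p.1, pr (sig p.2.1 p.2.2))) (pr (tau p.2.1 p.2.2))

theorem continuous_GG {H : A × I → Path y y} (hH : Continuous H) : Continuous (GG H) := by
  unfold GG
  have h1 : Continuous fun p : A × I × I => H (p.1, pr (sig p.2.1 p.2.2)) := by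
    refine hH.comp (continuous_fst.prodMk (continuous_pr.comp ?_))
    unfold sig
    fun_prop
  have h2 : Continuous fun p : A × I × I => pr (tau p.2.1 p.2.2) := by
    refine continuous_pr.comp ?_
    unfold tau
    fun_prop
  exact h1.eval h2

theorem sig_zero_left (t : I) : sig ((0 : I) : ℝ) (t : ℝ) = 0 := by
  unfold sig
  rw [Icc.coe_zero]
  exact min_eq_left (le_min (by linarith [t.2.1]) (by linarith [t.2.2]))

theorem sig_zero_right (s : I) : sig (s : ℝ) ((0 : I) : ℝ) = 0 := by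
  unfold sig
  rw [Icc.coe_zero, mul_zero, sub_zero, min_eq_left (show (0 : ℝ) ≤ 3 by norm_num)]
  exact min_eq_right s.2.1

theorem sig_one_right (s : I) : sig (s : ℝ) ((1 : I) : ℝ) = 0 := by
  unfold sig
  rw [Icc.coe_one, show (3 : ℝ) - 3 * 1 = 0 by norm_num, min_eq_right (show (0 : ℝ) ≤ 3 * 1 by norm_num)]
  exact min_eq_right s.2.1

variable (hF : Continuous F) (hJ : Continuous J)
    (h0 : ∀ x, J (x, 0) = F (x, 0)) (h1 : ∀ x, J (x, 1) = F (x, 0)) (hy : ∀ x, F (x, 1) = y)
    {H : A × I → Path y y} (hH0 : ∀ x, H (x, 0) = Ph hF hJ h0 h1 hy x)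

include hH0 in
theorem GG_zero_left (x : A) (t : I) : GG H (x, 0, t) = J (x, t) := by
  have ht0 := t.2.1
  have ht1 := t.2.2
  have e : tau ((0 : I) : ℝ) (t : ℝ) = 1 / 3 + t / 3 := by
    unfold tau
    rw [Icc.coe_zero]
    ring
  show (H (x, pr (sig ((0 : I) : ℝ) (t : ℝ)))) (pr (tau ((0 : I) : ℝ) (t : ℝ))) = _
  rw [sig_zero_left, pr_zero le_rfl, hH0, e]
  show PP F J x ((pr (1 / 3 + t / 3) : I) : ℝ) = _
  have e2 : ((pr (1 / 3 + t / 3) : I) : ℝ) = 1 / 3 + t / 3 := by
    unfold pr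
    rw [projIcc_of_mem _ (show (1 / 3 + (t : ℝ) / 3) ∈ Icc (0 : ℝ) 1 by constructor <;> linarith)]
  rw [e2, PP]
  by_cases h : (t : ℝ) = 0
  · have h' : t = 0 := Subtype.ext h
    rw [h', Icc.coe_zero, if_pos (by norm_num), pr_zero (by norm_num), h0]
  · have h2 : 0 < (t : ℝ) := lt_of_le_of_ne ht0 (Ne.symm h)
    rw [if_neg (by linarith), if_pos (by linarith)]
    have e3 : 3 * (1 / 3 + (t : ℝ) / 3) - 1 = t := by ring
    rw [e3, pr_coe]

include hH0 in
theorem GG_zero_right (x : A) (s : I) : GG H (x, s, 0) = F (x, s) := by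
  have hs0 := s.2.1
  have hs1 := s.2.2
  have e : tau (s : ℝ) ((0 : I) : ℝ) = (1 - s) / 3 := by
    unfold tau
    rw [Icc.coe_zero, show (3 : ℝ) * 0 - 1 = -1 by norm_num,
      min_eq_right (show (-1 : ℝ) ≤ 1 by norm_num), max_eq_left (show (-1 : ℝ) ≤ 0 by norm_num)]
    ring
  show (H (x, pr (sig (s : ℝ) ((0 : I) : ℝ)))) (pr (tau (s : ℝ) ((0 : I) : ℝ))) = _
  rw [sig_zero_right, pr_zero le_rfl, hH0, e]
  show PP F J x ((pr ((1 - s) / 3) : I) : ℝ) = _
  have e2 : ((pr ((1 - s) / 3) : I) : ℝ) = (1 - s) / 3 := by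
    unfold pr
    rw [projIcc_of_mem _ (show ((1 - (s : ℝ)) / 3) ∈ Icc (0 : ℝ) 1 by constructor <;> linarith)]
  rw [e2, PP, if_pos (by linarith)]
  have e3 : 1 - 3 * ((1 - (s : ℝ)) / 3) = s := by ring
  rw [e3, pr_coe]

include hH0 in
theorem GG_one_right (x : A) (s : I) : GG H (x, s, 1) = F (x, s) := by
  have hs0 := s.2.1
  have hs1 := s.2.2
  have e : tau (s : ℝ) ((1 : I) : ℝ) = 2 / 3 + s / 3 := by
    unfold tau
    rw [Icc.coe_one, show (3 : ℝ) * 1 - 1 = 2 by norm_num,
      min_eq_left (show (1 : ℝ) ≤ 2 by norm_num), max_eq_right (show (0 : ℝ) ≤ 1 by norm_num)]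
    ring
  show (H (x, pr (sig (s : ℝ) ((1 : I) : ℝ)))) (pr (tau (s : ℝ) ((1 : I) : ℝ))) = _
  rw [sig_one_right, pr_zero le_rfl, hH0, e]
  show PP F J x ((pr (2 / 3 + s / 3) : I) : ℝ) = _
  have e2 : ((pr (2 / 3 + s / 3) : I) : ℝ) = 2 / 3 + s / 3 := by
    unfold pr
    rw [projIcc_of_mem _ (show (2 / 3 + (s : ℝ) / 3) ∈ Icc (0 : ℝ) 1 by constructor <;> linarith)]
  rw [e2, PP, if_neg (by linarith)]
  by_cases h : (s : ℝ) = 0
  · have h' : s = 0 := Subtype.ext h
    rw [h', Icc.coe_zero, if_pos (by norm_num), pr_one (by norm_num), h1]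
  · have h2 : 0 < (s : ℝ) := lt_of_le_of_ne hs0 (Ne.symm h)
    rw [if_neg (by linarith)]
    have e3 : 3 * (2 / 3 + (s : ℝ) / 3) - 2 = s := by ring
    rw [e3, pr_coe]

omit [TopologicalSpace A] in
theorem GG_one_left {H : A × I → Path y y} {om : Path y y} (hH1 : ∀ x, H (x, 1) = om)
    (x x' : A) (t : I) : GG H (x, 1, t) = GG H (x', 1, t) := by
  have e : tau ((1 : I) : ℝ) (t : ℝ) = max 0 (min 1 (3 * (t : ℝ) - 1)) := by
    unfold tau
    rw [Icc.coe_one]
    ring
  show (H (x, pr (sig ((1 : I) : ℝ) (t : ℝ)))) (pr (tau ((1 : I) : ℝ) (t : ℝ))) =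
    (H (x', pr (sig ((1 : I) : ℝ) (t : ℝ)))) (pr (tau ((1 : I) : ℝ) (t : ℝ)))
  rw [e]
  by_cases h1 : 3 * (t : ℝ) ≤ 1
  · rw [max_eq_left (show min 1 (3 * (t : ℝ) - 1) ≤ 0 from
      (min_le_right _ _).trans (by linarith)), pr_zero le_rfl, Path.source, Path.source]
  · by_cases h2 : 3 * (t : ℝ) ≤ 2
    · have e2 : sig ((1 : I) : ℝ) (t : ℝ) = 1 := by
        unfold sig
        rw [Icc.coe_one]
        exact min_eq_left (le_min (by linarith) (by linarith))
      rw [e2, pr_one le_rfl, hH1, hH1]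
    · rw [min_eq_left (show 1 ≤ 3 * (t : ℝ) - 1 by linarith),
        max_eq_right (show (0 : ℝ) ≤ 1 by norm_num), pr_one le_rfl, Path.target, Path.target]

end

/-- The retraction of `Lc (Cn K c) rs` onto `Lc K rs`. -/
theorem result : S_ret := by
  intro K hK hKf c hc N hN rs hrs hL y F hF hF0 hF1 hyp
  classical
  set p := rs.length with hp
  have hKC := isCx_Cn hK c
  have hKCf := finite_Cn hKf c
  -- the families of loops
  have hJc : ∀ {j : ℕ} (hj : j < p), Continuous fun a : Rlz K × I => jj hK rs a.1 (th hj a.2) :=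
    fun hj => continuous_jj hK hKf rs continuous_fst ((continuous_th hj).comp continuous_snd)
  have h0 : ∀ {j : ℕ} (hj : j < p) (x : Rlz K), jj hK rs x (th hj 0) = F (x, 0) := by
    intro j hj x
    rw [th_zero, jj_v0, hF0]
  have h1 : ∀ {j : ℕ} (hj : j < p) (x : Rlz K), jj hK rs x (th hj 1) = F (x, 0) := by
    intro j hj x
    rw [th_one, jj_v0, hF0]
  have hex : ∀ j : Fin p, ∃ (om : Path y y) (H : Rlz K × I → Path y y), Continuous H ∧
      (∀ x, H (x, 0) = Ph hF (hJc j.2) (h0 j.2) (h1 j.2) hF1 x) ∧ ∀ x, H (x, 1) = om :=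
    fun j => hyp _ (continuous_Ph hF (hJc j.2) (h0 j.2) (h1 j.2) hF1)
  choose om H hHc hH0 hH1 using hex
  -- the values on the product part
  let G : ∀ j : Fin p, Rlz K → I → I → Rlz (Lc K rs) := fun j x s t => GG (H j) (x, s, t)
  have hG0 : ∀ j x t, G j x 0 t = jj hK rs x (th j.2 t) := fun j x t =>
    GG_zero_left hF (hJc j.2) (h0 j.2) (h1 j.2) hF1 (hH0 j) x t
  have hGa : ∀ j x s, G j x s 0 = F (x, s) := fun j x s =>
    GG_zero_right hF (hJc j.2) (h0 j.2) (h1 j.2) hF1 (hH0 j) x s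
  have hGb : ∀ j x s, G j x s 1 = F (x, s) := fun j x s =>
    GG_one_right hF (hJc j.2) (h0 j.2) (h1 j.2) hF1 (hH0 j) x s
  have hG1 : ∀ j x x' t, G j x 1 t = G j x' 1 t := fun j x x' t => GG_one_left (hH1 j) x x' t
  have hGe : ∀ j x s t, (t = 0 ∨ t = 1) → G j x s t = F (x, s) := by
    rintro j x s t (rfl | rfl)
    · exact hGa j x s
    · exact hGb j x s
  -- uniform description
  let G' : Rlz K → I → Rlz (Th p) → Rlz (Lc K rs) := fun x s u =>
    if h : ∃ jt : Fin p × I, th jt.1.2 jt.2 = u then G h.choose.1 x s h.choose.2 else F (x, s)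
  have hG'th : ∀ (j : Fin p) x s t, G' x s (th j.2 t) = G j x s t := by
    intro j x s t
    have h : ∃ jt : Fin p × I, th jt.1.2 jt.2 = th j.2 t := ⟨(j, t), rfl⟩
    have e : G' x s (th j.2 t) = G h.choose.1 x s h.choose.2 := dif_pos h
    rw [e]
    rcases th_inj _ _ h.choose_spec with h2 | h2
    · have h3 : h.choose.1 = j := Fin.ext h2.1
      rw [h2.2, h3]
    · rw [hGe _ _ _ _ h2.1, hGe _ _ _ _ h2.2]
  have hG'v : ∀ x s, G' x s (v0 p) = F (x, s) := by
    intro x s
    by_cases h : ∃ jt : Fin p × I, th jt.1.2 jt.2 = v0 p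
    · have e : G' x s (v0 p) = G h.choose.1 x s h.choose.2 := dif_pos h
      rw [e]
      exact hGe _ _ _ _ (th_v0 _ h.choose_spec)
    · exact dif_neg h
  have hG'0 : ∀ x u, G' x 0 u = jj hK rs x u := by
    intro x u
    rcases th_surj u with h | ⟨j, hj, t, h⟩
    · rw [h, hG'v, hF0, ← jj_v0 hK]
    · rw [h]
      exact (hG'th ⟨j, hj⟩ x 0 t).trans (hG0 ⟨j, hj⟩ x t)
  have hG'1 : ∀ x x' u, G' x 1 u = G' x' 1 u := by
    intro x x' u
    rcases th_surj u with h | ⟨j, hj, t, h⟩
    · rw [h, hG'v, hG'v, hF1, hF1]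
    · rw [h]
      exact (hG'th ⟨j, hj⟩ x 1 t).trans ((hG1 ⟨j, hj⟩ x x' t).trans (hG'th ⟨j, hj⟩ x' 1 t).symm)
  -- the gluing
  have hXc : CompactSpace (Rlz (Lc K rs)) := compact_Rlz (finite_Lc hKf rs)
  have hKc : CompactSpace (Rlz K) := compact_Rlz hKf
  let q : Rlz (Lc K rs) ⊕ ((Rlz K × I) ⊕ (Σ _ : Fin p, Rlz K × I × I)) → Rlz (Lc (Cn K c) rs) :=
    Sum.elim (Rlz.sub hL) (Sum.elim (fun a => jj hKC rs (q1 hc a.1 a.2) (v0 p))
      (fun a => jj hKC rs (q1 hc a.2.1 a.2.2.1) (th a.1.2 a.2.2.2)))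
  let g : Rlz (Lc K rs) ⊕ ((Rlz K × I) ⊕ (Σ _ : Fin p, Rlz K × I × I)) → Rlz (Lc K rs) :=
    Sum.elim id (Sum.elim F (fun a => G a.1 a.2.1 a.2.2.1 a.2.2.2))
  have hq : Continuous q := by
    refine (Rlz.continuous_sub hL).sumElim (Continuous.sumElim ?_ ?_)
    · exact continuous_jj hKC hKCf rs (continuous_q1 hKf hc continuous_fst continuous_snd)
        continuous_const
    · rw [continuous_sigma_iff]
      intro j
      exact continuous_jj hKC hKCf rs (continuous_q1 hKf hc continuous_fst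
        (continuous_fst.comp continuous_snd)) ((continuous_th j.2).comp
        (continuous_snd.comp continuous_snd))
  have hg : Continuous g := by
    refine continuous_id.sumElim (hF.sumElim ?_)
    rw [continuous_sigma_iff]
    intro j
    exact continuous_GG (hHc j)
  -- description of the second and third part
  have hdesc : ∀ b : (Rlz K × I) ⊕ (Σ _ : Fin p, Rlz K × I × I), ∃ x s u,
      q (Sum.inr b) = jj hKC rs (q1 hc x s) u ∧ g (Sum.inr b) = G' x s u := by
    rintro (⟨x, s⟩ | ⟨j, x, s, t⟩)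
    · exact ⟨x, s, v0 p, rfl, (hG'v x s).symm⟩
    · exact ⟨x, s, th j.2 t, rfl, (hG'th j x s t).symm⟩
  have hsub : ∀ x u, Rlz.sub hL (jj hK rs x u) = jj hKC rs (q1 hc x 0) u := by
    intro x u
    apply Subtype.ext
    have e : (q1 hc x 0).1 = x.1 := by
      funext v
      show (1 - ((0 : I) : ℝ)) * x.1 v + ((0 : I) : ℝ) * (if v = c then 1 else 0) = x.1 v
      rw [Icc.coe_zero]
      ring
    show lft (fun e => cpl x.1 u.1 e.1 e.2) = lft (fun e => cpl (q1 hc x 0).1 u.1 e.1 e.2)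
    rw [e]
  -- vertices of `Lc K rs` do not use `c`
  have hno : ∀ S ∈ Lc K rs, ∀ a, Sum.inl (c, a) ∉ S := by
    rintro S (⟨t, ht, rfl⟩ | ⟨j, hj, hS⟩) a ha
    · obtain ⟨e, he, hea⟩ := Finset.mem_image.1 ha
      have he' : e = (c, a) := Sum.inl_injective hea
      subst he'
      exact lt_irrefl _ (hc _ ht.1 c (Finset.mem_image_of_mem Prod.fst he))
    · -- walk vertices are vertices of `K`
      have hwk : ∀ i, wk j (rs.getD j []) i ≠ (c, a) := by
        have hr : rs.getD j [] ∈ rs := by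
          rw [List.getD_eq_getElem _ _ hj]
          exact List.getElem_mem hj
        have h0c : 0 < c := hc {0} (hN ⟨by simp, Or.inl rfl⟩) 0 (by simp)
        have hNc : ∀ m < N, 2 * m + 1 < c ∧ 2 * m + 2 < c := by
          intro m hm
          refine ⟨hc {2 * m + 1} (hN ⟨by simp, Or.inr ⟨m, hm, Or.inl (by simp)⟩⟩) _ (by simp),
            hc {2 * m + 2} (hN ⟨by simp, Or.inr ⟨m, hm, Or.inr (Or.inr (by simp))⟩⟩) _ (by simp)⟩
        intro i h
        unfold wk at h
        split_ifs at h with h2 h3 h4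
        · have := congrArg Prod.fst h
          dsimp only at this
          omega
        · have := congrArg Prod.fst h
          dsimp only at this
          omega
        · have := congrArg Prod.fst h
          dsimp only at this
          omega
        · have := congrArg Prod.fst h
          dsimp only at this
          unfold wv at this
          split at this
          · omega
          · rename_i m b hmb
            have hm : m < N := (hrs _ hr).2 (m, b) (List.mem_of_getElem? hmb)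
            have := hNc m hm
            split_ifs at * <;> omega
      obtain ⟨_, i, hi, hS⟩ := hS
      have hnot : ∀ k l m : ℕ, ∀ T : Finset ((ℕ × ℕ) ⊕ (ℕ × ℕ)), S ⊆ T → Sum.inl (c, a) ∈ T :=
        fun _ _ _ T hT => hT ha
      rcases hS with hS | hS | hS
      · have := hnot 0 0 0 _ hS
        simp only [Finset.mem_insert, Finset.mem_singleton, Sum.inl.injEq, reduceCtorEq,
          or_false] at this
        rcases this with h | h
        · exact hwk _ h.symm
        · exact hwk _ h.symm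
      · have := hnot 0 0 0 _ hS
        simp only [Finset.mem_insert, Finset.mem_singleton, Sum.inl.injEq, reduceCtorEq,
          or_false] at this
        exact hwk _ this.symm
      · have := hnot 0 0 0 _ hS
        simp only [Finset.mem_insert, Finset.mem_singleton, reduceCtorEq, or_false] at this
  have hmix : ∀ z x s u, Rlz.sub hL z = jj hKC rs (q1 hc x s) u → z = G' x s u := by
    intro z x s u h
    have hs : s = 0 := by
      have h2 : ∀ a, cpl (q1 hc x s).1 u.1 c a = 0 := by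
        intro a
        have h3 : z.1 (Sum.inl (c, a)) = cpl (q1 hc x s).1 u.1 c a :=
          congrFun (congrArg Subtype.val h) (Sum.inl (c, a))
        rw [← h3]
        obtain ⟨S, hS, hz⟩ := z.2
        exact hz.2.1 _ (hno S hS a)
      obtain ⟨S1, _, hS1⟩ := (q1 hc x s).2
      obtain ⟨S2, _, hS2⟩ := u.2
      have h3 := sum_cpl_snd hS1 hS2 c
      rw [q1_c] at h3
      apply Subtype.ext
      rw [← h3]
      exact Finset.sum_eq_zero fun a _ => h2 a
    subst hs
    rw [← hsub] at h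
    rw [Rlz.sub_injective hL h, hG'0]
  have hcompat : ∀ a b, q a = q b → g a = g b := by
    rintro (z | a) (z' | b) h
    · exact Rlz.sub_injective hL h
    · obtain ⟨x, s, u, e1, e2⟩ := hdesc b
      rw [e1] at h
      rw [e2]
      exact hmix z x s u h
    · obtain ⟨x, s, u, e1, e2⟩ := hdesc a
      rw [e1] at h
      rw [e2]
      exact (hmix z' x s u h.symm).symm
    · obtain ⟨x, s, u, e1, e2⟩ := hdesc a
      obtain ⟨x', s', u', e1', e2'⟩ := hdesc b
      rw [e1, e1'] at h
      rw [e2, e2']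
      obtain ⟨h2, h3⟩ := jj_inj hKC rs h
      obtain ⟨h4, h5⟩ := q1_inj hc h2
      subst h4 h3
      rcases h5 with h5 | h5
      · rw [h5]
      · rw [h5]
        exact hG'1 _ _ _
  have hx0 : Nonempty (Rlz K) := by
    refine ⟨⟨fun w => if w = 0 then 1 else 0, {0}, hN ⟨by simp, Or.inl rfl⟩, fun w => ?_,
      fun w hw => if_neg (by simpa using hw), by simp⟩⟩
    dsimp only
    split_ifs <;> norm_num
  obtain ⟨x0⟩ := hx0
  have hsurj : Function.Surjective q := by
    intro z
    obtain ⟨S, hS, hz⟩ := z.2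
    rcases hS with ⟨t, ht, rfl⟩ | ⟨j, hj, hS⟩
    · obtain ⟨x, u, hxu⟩ := jj_surj hKC rs z ht hz
      obtain ⟨y', s, hy'⟩ := q1_surj hc x0 x
      rcases th_surj u with h | ⟨j, hj, t, h⟩
      · refine ⟨Sum.inr (Sum.inl (y', s)), ?_⟩
        rw [hxu, hy', h]
        rfl
      · refine ⟨Sum.inr (Sum.inr ⟨⟨j, hj⟩, y', s, t⟩), ?_⟩
        rw [hxu, hy', h]
        rfl
    · exact ⟨Sum.inl ⟨z.1, S, Or.inr ⟨j, hj, hS⟩, hz⟩, rfl⟩
  obtain ⟨r, hr, hrq⟩ := glue_exists q hq hsurj g hg hcompat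
  exact ⟨r, hr, fun z => hrq (Sum.inl z)⟩

end Pool.Agent.TH902.J519
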