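import Pool.Agent.TH970.MDS.Defs

/-! Job 3755 (MDS-A1): hop to a Chebyshev point. -/

set_option autoImplicit false

namespace Pool.Agent.TH902.J3755

open Real Pool.Agent.TH970.MDS

theorem nn_le' (x : ℝ) (z : ℤ) : nn x ≤ |x - z| := H372R3.MD.nn_le x z

theorem nn_nonneg' (x : ℝ) : 0 ≤ nn x := H372R3.MD.nn_nonneg x

theorem nn_half' (x : ℝ) : nn x ≤ 1 / 2 := H372R3.MD.nn_le_half x

/-- multiples of an irrational number modulo one, with a nonzero factor -/
theorem approx (β c η : ℝ) (hβ : Irrational β) (hη : 0 < η) :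
    ∃ l z : ℤ, l ≠ 0 ∧ |l * β + z - c| < η := by
  have hd : Dense (AddSubgroup.closure {β, 1} : Set ℝ) := by
    rw [dense_addSubgroupClosure_pair_iff, div_one]
    exact hβ
  obtain ⟨x, hx1, hx2⟩ := hd.exists_mem_open (U := Set.Ioo c (min (c + η) (⌊c⌋ + 1))) isOpen_Ioo
    (Set.nonempty_Ioo.2 (lt_min (by linarith) (Int.lt_floor_add_one c)))
  rw [SetLike.mem_coe, AddSubgroup.mem_closure_pair] at hx1
  obtain ⟨l, z, hlz⟩ := hx1
  simp only [zsmul_eq_mul, mul_one] at hlz
  obtain ⟨h1, h2⟩ := hx2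
  rw [lt_min_iff] at h2
  refine ⟨l, z, ?_, ?_⟩
  · rintro rfl
    rw [Int.cast_zero, zero_mul, zero_add] at hlz
    rw [← hlz] at h1 h2
    have h3 : ⌊c⌋ < z := Int.floor_lt.2 h1
    have h4 : z < ⌊c⌋ + 1 := by exact_mod_cast h2.2
    omega
  · rw [hlz, abs_lt]
    constructor <;> linarith [h2.1]

theorem t_A1 : StTh → StCh → StPer → StA1 := by
  intro hTh hCh hPer C hC k r t ε δ hk hodd hcop hε hδ
  obtain ⟨hth0, hth1, hthq, hirr, hDth, hDe, -⟩ := hTh C hC
  obtain ⟨c1, c2, c3, c4, c5, c6, c7⟩ := hCh C hC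
  -- growth
  have hgrow : ∀ n : ℕ, (n : ℤ) ≤ ch C n := by
    intro n
    induction n with
    | zero => simpa using c1 0
    | succ n ih =>
      have := c2 n
      have h0 := c1 n
      push_cast
      linarith
  have hthlt : th C < 1 := by
    have h5 : 1 < √5 := by
      rw [show (1 : ℝ) = √1 by simp]
      exact Real.sqrt_lt_sqrt (by norm_num) (by norm_num)
    linarith
  set N := ch C (k + 1) with hN
  set s := ch C k with hs
  have hN1 : 1 ≤ N := by
    have h1 := c2 k
    have h2 := c1 k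
    linarith
  have hNr : (1 : ℝ) ≤ N := by exact_mod_cast hN1
  have hN0 : (0 : ℝ) < N := by linarith
  -- the approximation
  obtain ⟨l, z0, hl, hlz⟩ := approx (2 * N * th C) (t / (N : ℝ) ^ 2) (δ / 2) (by
    have h2N : (2 * N : ℤ) ≠ 0 := by omega
    have := hirr.intCast_mul h2N
    push_cast at this
    exact this) (by linarith)
  set L := |l| with hL
  have hL1 : 1 ≤ L := Int.one_le_abs hl
  have hLr : (1 : ℝ) ≤ L := by exact_mod_cast hL1
  obtain ⟨σ, hσ⟩ : ∃ σ : ℤ, L = σ * l := by
    rcases abs_choice l with h | h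
    · exact ⟨1, by rw [hL, h, one_mul]⟩
    · exact ⟨-1, by rw [hL, h]; ring⟩
  have hLabs : (L : ℝ) = |(l : ℝ)| := by rw [hL, Int.cast_abs]
  set H := 4 * N ^ 3 * L with hH
  have hH1 : 1 ≤ H := by
    have : 0 < N := by linarith
    have : 0 < L := by linarith
    have : 0 < H := by positivity
    linarith
  obtain ⟨p, hp, hper⟩ := hPer C H hH1
  obtain ⟨u, hu⟩ : H ∣ ch C p := by
    have := hper 0 1
    rwa [mul_one, zero_add, ch_zero, sub_zero] at this
  have hchp : 0 < ch C p := by
    have := hgrow p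
    have : (1 : ℤ) ≤ p := by exact_mod_cast hp
    linarith
  have hu1 : 1 ≤ u := by
    rw [hu] at hchp
    have : 0 < u := (mul_pos_iff_of_pos_left (by linarith : 0 < H)).1 hchp
    linarith
  set Q := 2 * N ^ 2 * u with hQ
  have hpQ : ch C p = 2 * N * L * Q := by rw [hu, hH, hQ]; ring
  have hQ1 : 1 ≤ Q := by
    have h1 : 0 < N := by linarith
    have h2 : 0 < u := by linarith
    have h3 : 0 < Q := by positivity
    linarith
  have hQr : (1 : ℝ) ≤ Q := by exact_mod_cast hQ1
  obtain ⟨w, hw⟩ := exists_nat_gt (4 * N * L / δ + Q * N ^ 2 * L / ε + 1 : ℝ)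
  have hw1 : 1 ≤ w := by
    have h1 : (0 : ℝ) ≤ 4 * N * L / δ := by positivity
    have h2 : (0 : ℝ) ≤ Q * N ^ 2 * L / ε := by positivity
    have : (1 : ℝ) ≤ w := by linarith
    exact_mod_cast this
  have hpw : 1 ≤ p * w := Nat.mul_pos hp hw1
  have hppw : p ≤ p * w := Nat.le_mul_of_pos_right p hw1
  have hwpw : w ≤ p * w := Nat.le_mul_of_pos_left w hp
  set κ := k + p * w with hκ
  set N' := ch C (κ + 1) with hN'
  set s' := ch C κ with hs'
  obtain ⟨a, ha⟩ : H ∣ N' - N := by
    have := hper (k + 1) w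
    rwa [show k + 1 + p * w = κ + 1 by omega] at this
  obtain ⟨b, hb⟩ : H ∣ s' - s := hper k w
  set W := 1 + 4 * N ^ 2 * L * a with hW
  have hNW : N' = N * W := by
    rw [hW]
    have : N' = N + H * a := by linarith
    rw [this, hH]
    ring
  have hs'eq : s' = s + 4 * N ^ 3 * L * b := by
    have : s' = s + H * b := by linarith
    rw [this, hH]
  have hN'w : (w : ℝ) ≤ N' := by
    have h1 := hgrow (κ + 1)
    have h2 : (w : ℤ) ≤ ((κ + 1 : ℕ) : ℤ) := by
      have : w ≤ κ + 1 := by omega
      exact_mod_cast this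
    exact_mod_cast h2.trans h1
  have hN'0 : (0 : ℝ) < N' := by
    have : (1 : ℝ) ≤ w := by exact_mod_cast hw1
    linarith
  have hN'z : 0 < N' := by exact_mod_cast hN'0
  have hW0 : 0 < W := by
    rw [hNW] at hN'z
    exact (mul_pos_iff_of_pos_left (by linarith : 0 < N)).1 hN'z
  have hWr : (0 : ℝ) < W := by exact_mod_cast hW0
  have hNWr : (N' : ℝ) = N * W := by exact_mod_cast hNW
  have big1 : 4 * N * L < δ * N' := by
    have h2 : (0 : ℝ) ≤ Q * N ^ 2 * L / ε := by positivity
    have h3 : 4 * N * L / δ < N' := by linarith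
    rw [div_lt_iff₀ hδ] at h3
    linarith
  have big2 : Q * N ^ 2 * L < ε * N' := by
    have h2 : (0 : ℝ) ≤ 4 * N * L / δ := by positivity
    have h3 : Q * N ^ 2 * L / ε < N' := by linarith
    rw [div_lt_iff₀ hε] at h3
    linarith
  set r' := r * W + 2 * N * l with hr'
  have hr'r : (r' : ℝ) = r * W + 2 * N * l := by rw [hr']; push_cast; ring
  have hs'r : (s' : ℝ) = s + 4 * N ^ 3 * L * b := by rw [hs'eq]; push_cast; ring
  -- coordinates
  have hcx : cx C κ r' 0 = r' * s' / N' := by
    unfold cx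
    rw [zero_div, add_zero]
  have hcy : cy C κ r' = r' / (2 * N') := rfl
  have hcxk : cx C k r t = r * s / N + t / (N : ℝ) ^ 2 := rfl
  have hcyk : cy C k r = r / (2 * N) := rfl
  have hx : cx C κ r' 0 = r * s / N + 4 * r * N ^ 2 * L * b + 2 * N * l * s' / N' := by
    rw [hcx, hr'r, hNWr]
    have h1 : (r * W + 2 * N * l) * s' / (N * W) = r * s' / N + 2 * N * l * s' / (N * W : ℝ) := by
      field_simp
    rw [h1]
    congr 1
    rw [hs'r]
    field_simp
  have hy : cy C κ r' = r / (2 * N) + N * l / N' := by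
    rw [hcy, hr'r, hNWr]
    field_simp
  have hths : |th C - s' / N'| ≤ 1 / N' := by
    have h1 := c6 κ
    have h2 : th C - s' / N' = th C ^ (κ + 1) / N' := by
      rw [← h1]
      field_simp
      rfl
    rw [h2, abs_of_nonneg (by positivity)]
    gcongr
    exact pow_le_one₀ hth0.le hthlt.le
  have hodd' : Odd s' := by
    rw [hs'eq, show 4 * N ^ 3 * L * b = 2 * (2 * N ^ 3 * L * b) by ring]
    exact hodd.add_even (even_two_mul _)
  have hcop' : IsCoprime r' (2 * N') := by
    have e1 : 2 * N' = (2 * N) * W := by rw [hNW]; ring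
    rw [e1]
    refine IsCoprime.mul_right ?_ ?_
    · have e2 : r' = r + (2 * N) * (2 * N * L * a * r + l) := by
        rw [hr', hW]
        ring
      rw [e2]
      exact hcop.add_mul_left_left _
    · have e2 : r' = 2 * N * l + W * r := by
        rw [hr']
        ring
      rw [e2]
      refine IsCoprime.add_mul_left_left ?_ _
      have e3 : W = 1 + (2 * N * l) * (2 * N * σ * a) := by
        rw [hW, hσ]
        ring
      rw [e3]
      exact isCoprime_one_right.add_mul_left_right _
  refine ⟨κ, r', z0 - 4 * r * N ^ 2 * L * b, by omega, hodd', hcop', ?_, ?_, ?_⟩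
  · rw [hx, hcxk]
    push_cast
    have e1 : r * s / N + 4 * r * N ^ 2 * L * b + 2 * N * l * s' / N' +
        (z0 - 4 * r * N ^ 2 * L * b) - (r * s / N + t / (N : ℝ) ^ 2) =
        (l * (2 * N * th C) + z0 - t / (N : ℝ) ^ 2) - 2 * N * l * (th C - s' / N') := by
      ring
    rw [e1]
    have h2 : |(2 * N * l : ℝ) * (th C - s' / N')| ≤ 2 * N * L * (1 / N') := by
      rw [abs_mul, abs_mul, ← hLabs, abs_of_pos (by positivity : (0 : ℝ) < 2 * N)]
      gcongr
    have h3 : 2 * N * L * (1 / N') < δ / 2 := by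
      rw [mul_one_div, div_lt_iff₀ hN'0]
      linarith
    refine (abs_sub _ _).trans_lt ?_
    linarith
  · rw [hy, hcyk, add_sub_cancel_left, abs_div, abs_mul, ← hLabs, abs_of_pos hN0,
      abs_of_pos hN'0, div_lt_iff₀ hN'0]
    have : (0 : ℝ) < N * L := by positivity
    linarith
  · -- the upper bound property
    have hDe2 : (0 : ℝ) ≤ 1 / (2 * De C) := by positivity
    intro m hm1 hm2
    have hmr : (0 : ℝ) ≤ (m : ℝ) + 1 := by
      have : (0 : ℤ) ≤ m := by linarith
      have : (0 : ℝ) ≤ m := by exact_mod_cast this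
      linarith
    rcases lt_or_ge m Q with hmQ | hmQ
    · refine ⟨2 * N, by linarith, hm1, ?_⟩
      have h1 : (m : ℝ) + 1 ≤ Q := by exact_mod_cast hmQ
      have h2 := nn_half' (((2 * N : ℤ) : ℝ) * cx C κ r' 0)
      have h3 : nn (((2 * N : ℤ) : ℝ) * cy C κ r') ≤ 2 * N ^ 2 * L / N' := by
        refine (nn_le' _ r).trans (le_of_eq ?_)
        have e1 : ((2 * N : ℤ) : ℝ) * cy C κ r' - r = 2 * N ^ 2 * l / N' := by
          rw [hy]
          push_cast
          field_simp
          ring
        rw [e1, abs_div, abs_mul, ← hLabs, abs_of_pos (by positivity : (0 : ℝ) < 2 * N ^ 2),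
          abs_of_pos hN'0]
      have h4 : nn (((2 * N : ℤ) : ℝ) * cx C κ r' 0) * nn (((2 * N : ℤ) : ℝ) * cy C κ r') ≤
          1 / 2 * (2 * N ^ 2 * L / N') :=
        mul_le_mul h2 h3 (nn_nonneg' _) (by norm_num)
      have h5 : ((m : ℝ) + 1) * (nn (((2 * N : ℤ) : ℝ) * cx C κ r' 0) *
          nn (((2 * N : ℤ) : ℝ) * cy C κ r')) ≤ Q * (1 / 2 * (2 * N ^ 2 * L / N')) :=
        mul_le_mul h1 h4 (mul_nonneg (nn_nonneg' _) (nn_nonneg' _)) (by positivity)
      have h6 : Q * (1 / 2 * (2 * N ^ 2 * L / N')) < ε := by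
        have : Q * (1 / 2 * (2 * N ^ 2 * L / N')) = Q * N ^ 2 * L / (N' : ℝ) := by ring
        rw [this, div_lt_iff₀ hN'0]
        exact big2
      linarith
    · rcases lt_or_ge m N' with hmN | hmN
      · refine ⟨Q, hQ1, hmQ, ?_⟩
        have h1 : (m : ℝ) + 1 ≤ N' := by exact_mod_cast hmN
        have hLL : (l : ℝ) * l = L * L := by
          rw [hLabs, abs_mul_abs_self]
        have hchp' : (ch C p : ℝ) = 2 * N * L * Q := by exact_mod_cast hpQ
        -- second coordinate
        have h2 : nn ((Q : ℝ) * cy C κ r') ≤ ch C p / (2 * N') := by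
          refine (nn_le' _ (N * u * r)).trans (le_of_eq ?_)
          have e1 : (Q : ℝ) * cy C κ r' - ((N * u * r : ℤ) : ℝ) = Q * N * l / N' := by
            rw [hy, hQ]
            push_cast
            field_simp
            ring
          rw [e1, abs_div, abs_mul, ← hLabs, abs_of_pos (by positivity : (0 : ℝ) < Q * N),
            abs_of_pos hN'0, hchp']
          field_simp
        -- first coordinate
        obtain ⟨i, hi⟩ : ∃ i, p = i + 1 := ⟨p - 1, by omega⟩
        have h3 := c4 i (κ + 1 - p)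
        rw [show i + (κ + 1 - p) = κ by omega, ← hi] at h3
        have h3r : (ch C p : ℝ) * s' - ch C i * N' = ch C (κ + 1 - p) := by exact_mod_cast h3
        have h4 : nn ((Q : ℝ) * cx C κ r' 0) ≤ ch C (κ + 1 - p) / N' := by
          have hσr : (L : ℝ) = σ * l := by exact_mod_cast hσ
          have hσ2 : (σ : ℝ) * L = l := by
            have hl' : (l : ℝ) ≠ 0 := by exact_mod_cast hl
            have h7 : (L : ℝ) * L = (σ * L) * l := by rw [hσr]; ring
            rw [← hLL] at h7
            exact (mul_right_cancel₀ hl' h7).symm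
          have hσabs : |(σ : ℝ)| = 1 := by
            have h8 : |(σ : ℝ)| * |(L : ℝ)| = |(l : ℝ)| := by rw [← abs_mul, hσ2]
            rw [← hLabs, abs_of_pos (by positivity : (0 : ℝ) < L)] at h8
            have h9 : (L : ℝ) ≠ 0 := by positivity
            exact mul_right_cancel₀ h9 (by rw [h8, one_mul])
          refine (nn_le' _ (2 * N * u * r * s' + σ * ch C i)).trans (le_of_eq ?_)
          have e1 : (Q : ℝ) * cx C κ r' 0 - ((2 * N * u * r * s' + σ * ch C i : ℤ) : ℝ) =
              σ * (ch C (κ + 1 - p) / N') := by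
            rw [← h3r, hchp', hcx, hr'r, hQ, ← hσ2, hNWr]
            push_cast
            field_simp
            ring
          rw [e1, abs_mul, hσabs, one_mul, abs_of_nonneg]
          have := c1 (κ + 1 - p)
          have : (0 : ℝ) ≤ ch C (κ + 1 - p) := by exact_mod_cast this
          positivity
        have h5 : De C * (ch C p * ch C (κ + 1 - p)) ≤ N' := by
          have := c7 p (κ + 1 - p)
          rwa [show p + (κ + 1 - p) = κ + 1 by omega] at this
        have p0 : (0 : ℝ) ≤ ch C p := by exact_mod_cast c1 p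
        have p1 : (0 : ℝ) ≤ ch C (κ + 1 - p) := by exact_mod_cast c1 (κ + 1 - p)
        have h6 : nn ((Q : ℝ) * cx C κ r' 0) * nn ((Q : ℝ) * cy C κ r') ≤
            ch C (κ + 1 - p) / N' * (ch C p / (2 * N')) :=
          mul_le_mul h4 h2 (nn_nonneg' _) (by positivity)
        have h7 : ((m : ℝ) + 1) * (nn ((Q : ℝ) * cx C κ r' 0) * nn ((Q : ℝ) * cy C κ r')) ≤
            N' * (ch C (κ + 1 - p) / N' * (ch C p / (2 * N'))) :=
          mul_le_mul h1 h6 (mul_nonneg (nn_nonneg' _) (nn_nonneg' _)) hN'0.le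
        have h8 : N' * (ch C (κ + 1 - p) / N' * (ch C p / (2 * N'))) ≤ 1 / (2 * De C) := by
          have e1 : (N' : ℝ) * (ch C (κ + 1 - p) / N' * (ch C p / (2 * N'))) =
              ch C p * ch C (κ + 1 - p) / (2 * N') := by
            field_simp
          rw [e1, div_le_div_iff₀ (by positivity) (by positivity)]
          linarith
        linarith
      · refine ⟨N', by linarith, hmN, ?_⟩
        have h1 : nn ((N' : ℝ) * cx C κ r' 0) = 0 := by
          refine le_antisymm ((nn_le' _ (r' * s')).trans (le_of_eq ?_)) (nn_nonneg' _)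
          rw [hcx]
          push_cast
          rw [abs_eq_zero, sub_eq_zero]
          field_simp
        rw [h1, zero_mul, mul_zero]
        linarith

end Pool.Agent.TH902.J3755
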