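import Mathlib
import Pool.Agent.TH202.FlRes
import Pool.Agent.TH202.RL
import Pool.Agent.TH202.Cen
import Pool.Agent.TH796.C8_XM2
import Pool.Agent.TH551.C8_XM1
import Pool.Agent.TH573.C8_BPF
import Pool.Agent.TH828.FL_RA
import Pool.Agent.TH592.FL_IR
import Pool.Agent.TH75.FL_PAIR
import Pool.Agent.TH142.FL_PRIME
import Pool.Agent.TH26.FL_GAUSS

/-!
# Classification of the primes of X (job FL-CL of helper202)
-/

set_option autoImplicit false
namespace Pool.Agent.TH902.FL_CL
open Pool.Agent.H436R3.Fol Pool.Agent.TH202 MvPolynomial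
open Pool.Agent.TH828.FL_RA Pool.Agent.TH796.C8_XM2
open Pool.Agent.TH592.FL_IR (ind2_of_RA)
open Pool.Agent.TH75.FL_PAIR (exists_pair)
open Pool.Agent.TH142.FL_PRIME (trdeg_eq)
open Pool.Agent.TH26.FL_GAUSS (gauss)

variable {K : Type} [Field K] [Algebra ℂ K] [Algebra.EssFiniteType ℂ K]

omit [Algebra.EssFiniteType ℂ K] in
theorem reg_gen {t : Fin 3 → K} {w : DVal K} (hl : IsLocalRing' (IC t) w) (j : Fin 3) :
    w.Reg (t j) :=
  hl.1 _ (Subalgebra.algebraMap_mem (integralClosure (Algebra.adjoin ℂ (Set.range t)) K)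
    ⟨t j, Algebra.subset_adjoin ⟨j, rfl⟩⟩)

/-- Vertical primes are Gauss extensions. -/
theorem class_vert {d : Dat K} (h : XiAlg d) (w : DVal K) (hw : IsPrimeOn (Xd d h) w)
    (hc : w.ord d.c ≤ 0) (hnt : ¬ IsTriv d w) : IsGauss d w := by
  rcases prime_cases d h w hw with ⟨ta, tb, tc, ha, hb, hc', hl⟩ | ⟨hl, hwa⟩
  · have ma : d.a ∈ IntermediateField.adjoin ℂ (Set.range ![ta, tb, tc]) :=
      mem_field_a ![ta, tb, tc] (j := 0) rfl ha
    have mb : d.b ∈ IntermediateField.adjoin ℂ (Set.range ![ta, tb, tc]) :=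
      mem_field_a ![ta, tb, tc] (j := 1) rfl hb
    have mc : d.c ∈ IntermediateField.adjoin ℂ (Set.range ![ta, tb, tc]) :=
      mem_field_a ![ta, tb, tc] (j := 2) rfl hc'
    have halg := alg_of d _ ma mb mc
    obtain ⟨f, g, hfg⟩ := exists_pair (trdeg_eq d) (Set.range ![ta, tb, tc]) (Set.finite_range _)
      halg w hl
    have r0 : w.Reg ta := reg_gen hl 0
    have r1 : w.Reg tb := reg_gen hl 1
    have r2 : w.Reg tc := reg_gen hl 2
    have fa : d.a ∈ Fc d := TH189.C8_VS.mem_kap_of_k0 d (TH189.C8_VS.a_mem_k0 d)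
    have fb : d.b ∈ Fc d := TH189.C8_VS.mem_kap_of_k0 d (TH189.C8_VS.b_mem_k0 d)
    have hreg : w.Reg d.c⁻¹ := by
      right
      rw [w.ord_inv d.c_ne]
      omega
    have hT : ∀ t ∈ Set.range ![ta, tb, tc], RA w (insert d.c⁻¹ ({ta, tb} : Set K)) t := by
      rintro _ ⟨j, rfl⟩
      fin_cases j
      · exact RA_mem r0 (by simp)
      · exact RA_mem r1 (by simp)
      · change RA w _ tc
        rcases hc' with h1 | h1
        · have h2 : w.ord d.c = 0 := by
            rw [h1] at r2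
            have := r2.resolve_left d.c_ne
            omega
          have h3 := RA_inv (S := insert d.c⁻¹ ({ta, tb} : Set K)) (inv_ne_zero d.c_ne)
            (RA_mem hreg (by simp)) (by rw [w.ord_inv d.c_ne, h2, neg_zero])
          rw [inv_inv] at h3
          rwa [h1]
        · rw [h1]
          exact RA_mem hreg (by simp)
    refine gauss hnt (S := {ta, tb}) ?_ (Or.inr rfl) hreg hfg ?_ ?_
    · rintro t (rfl | rfl)
      · refine ⟨?_, r0⟩
        rcases ha with h1 | h1
        · rwa [h1]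
        · rw [h1]; exact inv_mem fa
      · refine ⟨?_, r1⟩
        rcases hb with h1 | h1
        · rwa [h1]
        · rw [h1]; exact inv_mem fb
    · exact RA_all hT hl hfg.1
    · exact RA_all hT hl hfg.2.1
  · exfalso
    have h2 : w.Reg (d.c / d.a) := reg_gen hl 2
    have h3 := h2.resolve_left (div_ne_zero d.c_ne d.a_ne)
    rw [w.ord_div d.c_ne d.a_ne] at h3
    omega

/-- The prime divisor over the origin. -/
theorem class_G {d : Dat K} (h : XiAlg d) (w : DVal K) (hw : IsPrimeOn (Xd d h) w)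
    (hS : Sb d w = 0) (hc : 0 < w.ord d.c) :
    IsLocalRing' (IC ![d.a, d.b / d.a, d.c / d.a]) w ∧ 0 < w.ord d.a := by
  have hcR : (0 : ℝ) < w.ord d.c := by exact_mod_cast hc
  have hmn : mn d w = w.ord d.c := by
    have h1 : ps (w.ord d.c) - mn d w = 0 := hS
    rw [ps, max_eq_right hcR.le] at h1
    linarith
  have hmin : (w.ord d.c : ℝ) ≤ min (w.ord d.a : ℝ) (min (w.ord d.b : ℝ) (w.ord d.c : ℝ)) := by
    rw [mn] at hmn
    rcases max_choice (0 : ℝ) (min (w.ord d.a : ℝ) (min (w.ord d.b : ℝ) (w.ord d.c : ℝ))) with h1 | h1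
    · rw [h1] at hmn
      linarith
    · rw [h1] at hmn
      exact hmn.ge
  have hwa : 0 < w.ord d.a := by
    have h1 : (w.ord d.c : ℝ) ≤ w.ord d.a := hmin.trans (min_le_left _ _)
    have h2 : w.ord d.c ≤ w.ord d.a := by exact_mod_cast h1
    omega
  have hwb : 0 < w.ord d.b := by
    have h1 : (w.ord d.c : ℝ) ≤ w.ord d.b :=
      hmin.trans ((min_le_right _ _).trans (min_le_left _ _))
    have h2 : w.ord d.c ≤ w.ord d.b := by exact_mod_cast h1
    omega
  rcases prime_cases d h w hw with ⟨ta, tb, tc, ha, hb, hc', hl⟩ | h2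
  · exfalso
    have ma : d.a ∈ IntermediateField.adjoin ℂ (Set.range ![ta, tb, tc]) :=
      mem_field_a ![ta, tb, tc] (j := 0) rfl ha
    have mb : d.b ∈ IntermediateField.adjoin ℂ (Set.range ![ta, tb, tc]) :=
      mem_field_a ![ta, tb, tc] (j := 1) rfl hb
    have mc : d.c ∈ IntermediateField.adjoin ℂ (Set.range ![ta, tb, tc]) :=
      mem_field_a ![ta, tb, tc] (j := 2) rfl hc'
    have halg := alg_of d _ ma mb mc
    obtain ⟨f, g, hfg⟩ := exists_pair (trdeg_eq d) (Set.range ![ta, tb, tc]) (Set.finite_range _)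
      halg w hl
    have key : ∀ x t : K, x ≠ 0 → 0 < w.ord x → (t = x ∨ t = x⁻¹) → w.Reg t →
        RA w (∅ : Set K) t := by
      intro x t hx hpos ht hr
      rcases ht with rfl | rfl
      · exact RA_pos (Or.inr hpos)
      · exfalso
        have := hr.resolve_left (inv_ne_zero hx)
        rw [w.ord_inv hx] at this
        omega
    have hT : ∀ t ∈ Set.range ![ta, tb, tc], RA w (∅ : Set K) t := by
      rintro _ ⟨j, rfl⟩
      fin_cases j
      · exact key _ _ d.a_ne hwa ha (reg_gen hl 0)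
      · exact key _ _ d.b_ne hwb hb (reg_gen hl 1)
      · exact key _ _ d.c_ne hc hc' (reg_gen hl 2)
    obtain ⟨f', hf', _⟩ := ind2_of_RA (S := (∅ : Set K)) (fun t ht => absurd ht (Set.notMem_empty t))
      hfg (RA_all hT hl hfg.1) (RA_all hT hl hfg.2.1)
    exact hf'
  · exact h2

omit [Algebra.EssFiniteType ℂ K] in
theorem class_triv {d : Dat K} (w : DVal K) (hS : Sb d w = 0) (htr : IsTriv d w) :
    w.ord d.c ≤ 0 := by
  by_contra hc
  push Not at hc
  have fa : d.a ∈ Fc d := TH189.C8_VS.mem_kap_of_k0 d (TH189.C8_VS.a_mem_k0 d)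
  have h0 : w.ord d.a = 0 := htr _ fa d.a_ne
  have hcR : (0 : ℝ) < w.ord d.c := by exact_mod_cast hc
  have hmn : mn d w = 0 := by
    rw [mn]
    apply max_eq_left
    refine (min_le_left _ _).trans ?_
    rw [h0]
    simp
  have h1 : ps (w.ord d.c) - mn d w = 0 := hS
  rw [ps, max_eq_right hcR.le, hmn] at h1
  linarith

end Pool.Agent.TH902.FL_CL

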