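import Mathlib
import Pool.Agent.TH202.FlRes
import Pool.Agent.TH202.Cen
import Pool.Agent.TH202.RL

/-!
# Principal divisors have finite support (job FL-FSP of helper202)
-/

set_option autoImplicit false
namespace Pool.Agent.TH902.FL_FSP
open Pool.Agent.H436R3.Fol Pool.Agent.TH202 MvPolynomial

section
variable {K : Type} [Field K] [Algebra ℂ K]

theorem finSupp_prin [Algebra.EssFiniteType ℂ K] (X : Model K) {P : DVal K → ℝ}
    (hP : P ∈ Prin K) : FinSupp X P := by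
  obtain ⟨m, r, g, hg, hPv⟩ := exists_rep hP
  choose Z hZ hZ' using fun (i : Fin (X.n + 1)) (j : Fin m) =>
    Pool.Agent.TH670.C8_HARTP.finite_ord_ne (R_fg (X := X) i) (R_frac X i)
      (R_normal X i) (g j) (hg j)
  refine ⟨⋃ i, ⋃ j, Z i j, Set.finite_iUnion fun i => Set.finite_iUnion fun j => hZ i j, ?_⟩
  rintro w ⟨i, hi⟩ hw
  by_cases h0 : ∀ j, w.ord (g j) = 0
  · exfalso
    apply hw
    rw [hPv]
    exact Finset.sum_eq_zero fun j _ => by rw [h0 j]; simp
  · push Not at h0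
    obtain ⟨j, hj⟩ := h0
    obtain ⟨z, hz, hwz⟩ := hZ' i j w hi hj
    exact ⟨z, Set.mem_iUnion.2 ⟨i, Set.mem_iUnion.2 ⟨j, hz⟩⟩, hwz⟩

end

end Pool.Agent.TH902.FL_FSP
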