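import Pool.Agent.TH902.J219a

/-! The surface with three necks: charts and tangent planes. -/

set_option autoImplicit false
namespace Pool.Agent.TH619
open Set Topology Filter
open scoped InnerProductSpace Manifold ContDiff
open Pool.Agent.Helper874.Odd

namespace J219

/-- `W1 = k * W2` with positive `k` -/
def PW (f g f' g' : V →L[ℝ] ℝ) : Prop :=
  ∃ k > 0, ∀ a c : V, Wedge f g a c = k * Wedge f' g' a c

theorem PW.symm {f g f' g' : V →L[ℝ] ℝ} (h : PW f g f' g') : PW f' g' f g := by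
  obtain ⟨k, hk, h⟩ := h
  refine ⟨k⁻¹, inv_pos.2 hk, fun a c => ?_⟩
  rw [h a c, ← mul_assoc, inv_mul_cancel₀ hk.ne', one_mul]

theorem PW.refl (f g : V →L[ℝ] ℝ) : PW f g f g := ⟨1, one_pos, fun a c => (one_mul _).symm⟩

/-- orientation compatibility of the local models of the surface with one neck -/
theorem MM_or (i j : Kd) {m : V × ℝ} (hm : m ∈ MM) (hi : m ∈ Wk i) (hj : m ∈ Wk j) :
    PW (fderiv ℝ (F1 i) m.1) (fderiv ℝ (F2 i) m.1) (fderiv ℝ (F1 j) m.1) (fderiv ℝ (F2 j) m.1) := by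
  have hM : ∀ i, ∀ m ∈ Wk i, m ∈ MM ↔ F1 i m.1 = 0 ∧ F2 i m.1 = 0 ∧ m.2 = bk i m.1 := by
    intro i m hm
    cases i with
    | Z => exact MM_Z hm
    | A => exact MM_A hm
    | B => exact MM_B hm
    | C => exact MM_C hm
    | D => exact MM_D hm
  have hZA : ∀ m ∈ MM, m ∈ Wk .Z → m ∈ Wk .A → PW
      (fderiv ℝ (F1 .Z) m.1) (fderiv ℝ (F2 .Z) m.1) (fderiv ℝ (F1 .A) m.1) (fderiv ℝ (F2 .A) m.1) := by
    intro m hm h1 h2
    have e1 := (hM _ _ h1).1 hm
    have e2 := (hM _ _ h2).1 hm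
    exact or_ZA ⟨e1.1, e1.2.1⟩ h2.1 h2.2.1 ⟨e2.1, e2.2.1⟩
  have hZB : ∀ m ∈ MM, m ∈ Wk .Z → m ∈ Wk .B → PW
      (fderiv ℝ (F1 .Z) m.1) (fderiv ℝ (F2 .Z) m.1) (fderiv ℝ (F1 .B) m.1) (fderiv ℝ (F2 .B) m.1) := by
    intro m hm h1 h2
    have e1 := (hM _ _ h1).1 hm
    have e2 := (hM _ _ h2).1 hm
    exact or_ZB ⟨e1.1, e1.2.1⟩ h2.1 h2.2.1 ⟨e2.1, e2.2.1⟩
  have hAC : ∀ m ∈ MM, m ∈ Wk .A → m ∈ Wk .C → PW
      (fderiv ℝ (F1 .A) m.1) (fderiv ℝ (F2 .A) m.1) (fderiv ℝ (F1 .C) m.1) (fderiv ℝ (F2 .C) m.1) := by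
    intro m hm h1 h2
    have e1 := (hM _ _ h1).1 hm
    exact or_AC hm h1 h2 ⟨e1.1, e1.2.1⟩
  have hBD : ∀ m ∈ MM, m ∈ Wk .B → m ∈ Wk .D → PW
      (fderiv ℝ (F1 .B) m.1) (fderiv ℝ (F2 .B) m.1) (fderiv ℝ (F1 .D) m.1) (fderiv ℝ (F2 .D) m.1) := by
    intro m hm h1 h2
    have e1 := (hM _ _ h1).1 hm
    exact or_BD hm h1 h2 ⟨e1.1, e1.2.1⟩
  have hCD : ∀ m ∈ MM, m ∈ Wk .C → m ∈ Wk .D → PW
      (fderiv ℝ (F1 .C) m.1) (fderiv ℝ (F2 .C) m.1) (fderiv ℝ (F1 .D) m.1) (fderiv ℝ (F2 .D) m.1) := by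
    intro m hm h1 h2
    have e1 := (hM _ _ h1).1 hm
    exact or_CD h1.1 h2.1 h1.2.1 h1.2.2 ⟨e1.1, e1.2.1⟩
  have hnZN : ∀ m ∈ MM, m ∈ Wk .Z → nz m.1 < 1 / 8 → nw m.1 < 1 / 8 → False := by
    intro m hm h1 h2 h3
    have e1 := (hM _ _ h1).1 hm
    obtain ⟨-, -, -, -, -, -, -, -, -, -, -, -, h, -⟩ := near_facts h2 h3
    exact h ⟨e1.1, e1.2.1⟩
  have hnAB : ∀ m ∈ MM, m ∈ Wk .A → m ∈ Wk .B → False := by
    intro m hm h1 h2
    have e1 := (hM _ _ h1).1 hm
    have e2 := (hM _ _ h2).1 hm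
    have hs : m.2 = 0 := e2.2.2
    have hp : m.1.2.2.1 = 0 := e2.2.1
    have hr : m.1.2.2.2 = 0 := e1.2.1
    have h0 : alp (0 : ℝ) = 0 := alp_eq_zero_iff.2 (by norm_num)
    have hB : PsB m.1 = 0 := e2.1
    apply h1.2.2.2
    refine ⟨hs, hp, ?_, hB⟩
    unfold PsB at hB
    rw [hr, h0] at hB
    have : bet (kB m.1 - 1 / 2) = 1 := by linarith
    by_contra hcon
    push Not at hcon
    have h3 : bet (kB m.1 - 1 / 2) = 0 := bet_eq_zero (by linarith)
    rw [h3] at this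
    norm_num at this
  have hnAD : ∀ m ∈ MM, m ∈ Wk .A → m ∈ Wk .D → False := by
    intro m hm h1 h2
    have e1 := (hM _ _ h1).1 hm
    obtain ⟨hx1, -, -, -, -, -, -, hkA, -, hal, -, -, -, hSA, -⟩ := near_facts h2.2.1 h2.2.2
    have hr : m.1.2.2.2 = 0 := e1.2.1
    have hA : m.1 ∈ SA := by
      refine ⟨hr, ?_, e1.1⟩
      have hA : PsA m.1 = 0 := e1.1
      unfold PsA at hA
      rw [hal] at hA
      by_contra hcon
      push Not at hcon
      have h3 : bet (kA m.1 - 1 / 2) = 0 := bet_eq_zero (by linarith)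
      rw [h3] at hA
      norm_num at hA
    have hX := (hSA.1 hA).1
    have : nw m.1 = 0 := by
      unfold nw
      rw [hX, hr]
      simp
    have h4 := h2.1
    rw [this] at h4
    exact lt_irrefl _ h4
  have hnBC : ∀ m ∈ MM, m ∈ Wk .B → m ∈ Wk .C → False := by
    intro m hm h1 h2
    have e1 := (hM _ _ h1).1 hm
    obtain ⟨-, hx1, -, -, -, -, -, -, hkB, -, hal, -, -, -, hSB⟩ := near_facts h2.2.1 h2.2.2
    have hr : m.1.2.2.1 = 0 := e1.2.1
    have hB : m.1 ∈ SB := by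
      refine ⟨hr, ?_, e1.1⟩
      have hB : PsB m.1 = 0 := e1.1
      unfold PsB at hB
      rw [hal] at hB
      by_contra hcon
      push Not at hcon
      have h3 : bet (kB m.1 - 1 / 2) = 0 := bet_eq_zero (by linarith)
      rw [h3] at hB
      norm_num at hB
    have hX := (hSB.1 hB).1
    have : nz m.1 = 0 := by
      unfold nz
      rw [hX, hr]
      simp
    have h4 := h2.1
    rw [this] at h4
    exact lt_irrefl _ h4
  cases i with
  | Z =>
    cases j with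
    | Z => exact PW.refl _ _
    | A => exact hZA m hm hi hj
    | B => exact hZB m hm hi hj
    | C => exact (hnZN m hm hi hj.2.1 hj.2.2).elim
    | D => exact (hnZN m hm hi hj.2.1 hj.2.2).elim
  | A =>
    cases j with
    | Z => exact (hZA m hm hj hi).symm
    | A => exact PW.refl _ _
    | B => exact (hnAB m hm hi hj).elim
    | C => exact hAC m hm hi hj
    | D => exact (hnAD m hm hi hj).elim
  | B =>
    cases j with
    | Z => exact (hZB m hm hj hi).symm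
    | A => exact (hnAB m hm hj hi).elim
    | B => exact PW.refl _ _
    | C => exact (hnBC m hm hi hj).elim
    | D => exact hBD m hm hi hj
  | C =>
    cases j with
    | Z => exact (hnZN m hm hj hi.2.1 hi.2.2).elim
    | A => exact (hAC m hm hj hi).symm
    | B => exact (hnBC m hm hj hi).elim
    | C => exact PW.refl _ _
    | D => exact hCD m hm hi hj
  | D =>
    cases j with
    | Z => exact (hnZN m hm hj hi.2.1 hi.2.2).elim
    | A => exact (hnAD m hm hj hi).elim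
    | B => exact (hBD m hm hj hi).symm
    | C => exact (hCD m hm hj hi).symm
    | D => exact PW.refl _ _

theorem contDiff_sh (j : Fin 3) : ContDiff ℝ ∞ (sh j) := by
  have h : sh j = fun v => v - (cc j, 0) := by
    funext v
    unfold sh
    ext <;> simp
  rw [h]
  exact contDiff_id.sub contDiff_const

theorem contDiff_scl : ContDiff ℝ ∞ scl := by
  have h : scl = fun v => sclL v := by
    funext v
    rw [sclL_apply]
  rw [h]
  exact sclL.contDiff

theorem Bx_open (j : Fin 3) (ρ : ℝ) : IsOpen (Bx j ρ) := by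
  have e : Bx j ρ = {v : V | |v.1 - cc j| < ρ} ∩ {v : V | |v.2.1| < ρ} := rfl
  rw [e]
  exact (isOpen_lt (by fun_prop) continuous_const).inter (isOpen_lt (by fun_prop) continuous_const)

theorem Wd_open (i : Option (Fin 3 × Kd)) : IsOpen (Wd i) := by
  cases i with
  | none =>
    have : Wd none = ⋂ j : Fin 3, ({m : V × ℝ | |m.1.1 - cc j| ≤ 7 / 8} ∩
        {m : V × ℝ | |m.1.2.1| ≤ 7 / 8})ᶜ := by
      ext m
      simp only [mem_iInter]
      rfl
    rw [this]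
    refine isOpen_iInter_of_finite fun j => isOpen_compl_iff.2 ?_
    exact (isClosed_le (by fun_prop) continuous_const).inter
      (isClosed_le (by fun_prop) continuous_const)
  | some i =>
    obtain ⟨j, k⟩ := i
    have h1 : IsOpen {m : V × ℝ | m.1 ∈ Bx j (15 / 16)} := (Bx_open j _).preimage continuous_fst
    have h2 : IsOpen {m : V × ℝ | (sh j m.1, m.2) ∈ Wk k} :=
      (Wk_open k).preimage (((contDiff_sh j).continuous.comp continuous_fst).prodMk continuous_snd)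
    exact h1.inter h2

theorem F_contDiffAt (k : Kd) {m : V × ℝ} (hm : m ∈ Wk k) : ContDiffAt ℝ ∞ (F1 k) m.1 ∧
    ContDiffAt ℝ ∞ (F2 k) m.1 ∧ ContDiffAt ℝ ∞ (bk k) m.1 := by
  cases k with
  | Z => exact ⟨G1_contDiff.contDiffAt, G2_contDiff.contDiffAt, contDiffAt_const⟩
  | A => exact ⟨PsA_contDiff.contDiffAt, (by
      show ContDiffAt ℝ ∞ (fun v : V => v.2.2.2) m.1
      fun_prop), lab_contDiff.contDiffAt⟩
  | B => exact ⟨PsB_contDiff.contDiffAt, (by
      show ContDiffAt ℝ ∞ (fun v : V => v.2.2.1) m.1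
      fun_prop), contDiffAt_const⟩
  | C => exact ⟨(FC_contDiffAt hm.1).1, (FC_contDiffAt hm.1).2, contDiffAt_const⟩
  | D => exact ⟨(FD_contDiffAt hm.1).1, (FD_contDiffAt hm.1).2, contDiffAt_const⟩

theorem D_contDiffAt (i : Option (Fin 3 × Kd)) {m : V × ℝ} (hm : m ∈ Wd i) :
    ContDiffAt ℝ ∞ (D1 i) m.1 ∧ ContDiffAt ℝ ∞ (D2 i) m.1 ∧ ContDiffAt ℝ ∞ (bd i) m.1 := by
  cases i with
  | none =>
    exact ⟨(G1_contDiff.comp contDiff_scl).contDiffAt, (G2_contDiff.comp contDiff_scl).contDiffAt,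
      contDiffAt_const⟩
  | some i =>
    obtain ⟨j, k⟩ := i
    obtain ⟨h1, h2, h3⟩ := F_contDiffAt k hm.2
    exact ⟨h1.comp m.1 (contDiff_sh j).contDiffAt, h2.comp m.1 (contDiff_sh j).contDiffAt,
      h3.comp m.1 (contDiff_sh j).contDiffAt⟩

theorem W_some (j : Fin 3) (k : Kd) {m : V × ℝ} (hm : m ∈ Wd (some (j, k))) (a c : V) :
    Wedge (fderiv ℝ (D1 (some (j, k))) m.1) (fderiv ℝ (D2 (some (j, k))) m.1) a c =
      Wedge (fderiv ℝ (F1 k) (sh j m.1)) (fderiv ℝ (F2 k) (sh j m.1)) a c := by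
  obtain ⟨h1, h2, -⟩ := F_contDiffAt k hm.2
  have e1 : ∀ a, fderiv ℝ (D1 (some (j, k))) m.1 a = fderiv ℝ (F1 k) (sh j m.1) a :=
    fun a => fderiv_comp_sh j (h1.differentiableAt (by simp)) a
  have e2 : ∀ a, fderiv ℝ (D2 (some (j, k))) m.1 a = fderiv ℝ (F2 k) (sh j m.1) a :=
    fun a => fderiv_comp_sh j (h2.differentiableAt (by simp)) a
  unfold Wedge
  rw [e1, e1, e2, e2]

theorem D_reg (i : Option (Fin 3 × Kd)) {m : V × ℝ} (hM : m ∈ MT) (hm : m ∈ Wd i) :
    ∃ a c : V, Wedge (fderiv ℝ (D1 i) m.1) (fderiv ℝ (D2 i) m.1) a c ≠ 0 := by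
  cases i with
  | none =>
    have h1 : scl m.1 ∈ M0 := ((MT_far hm).1 hM).1
    obtain ⟨a, c, h⟩ := reg_Z h1
    have e1 : ∀ a, fderiv ℝ (D1 none) m.1 a = fderiv ℝ G1 (scl m.1) (scl a) :=
      fun a => fderiv_comp_scl (G1_contDiff.differentiable (by simp)).differentiableAt a
    have e2 : ∀ a, fderiv ℝ (D2 none) m.1 a = fderiv ℝ G2 (scl m.1) (scl a) :=
      fun a => fderiv_comp_scl (G2_contDiff.differentiable (by simp)).differentiableAt a
    have e3 : ∀ a : V, scl (4 * a.1, 4 * a.2.1, a.2.2) = a := by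
      intro a
      unfold scl
      ext <;> simp
    refine ⟨(4 * a.1, 4 * a.2.1, a.2.2), (4 * c.1, 4 * c.2.1, c.2.2), ?_⟩
    unfold Wedge
    rw [e1, e1, e2, e2, e3, e3]
    exact h
  | some i =>
    obtain ⟨j, k⟩ := i
    have h1 : (sh j m.1, m.2) ∈ MM := (MT_local hm.1).1 hM
    have key : ∃ a c : V, Wedge (fderiv ℝ (F1 k) (sh j m.1)) (fderiv ℝ (F2 k) (sh j m.1)) a c ≠ 0 := by
      have hk := hm.2
      cases k with
      | Z =>
        have e := (MM_Z hk).1 h1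
        exact reg_Z ⟨e.1, e.2.1⟩
      | A =>
        have e := (MM_A hk).1 h1
        exact reg_A hk.1 e.1 e.2.1
      | B =>
        have e := (MM_B hk).1 h1
        exact reg_B hk.1 e.1 e.2.1
      | C => exact reg_C hk.1
      | D => exact reg_D hk.1
    obtain ⟨a, c, h⟩ := key
    exact ⟨a, c, by rw [W_some j k hm]; exact h⟩

/-- the flat part and the part away from the copies -/
theorem none_some (j : Fin 3) (k : Kd) {m : V × ℝ} (h1 : m ∈ Wd none)
    (h2 : m ∈ Wd (some (j, k))) :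
    PW (fderiv ℝ (D1 none) m.1) (fderiv ℝ (D2 none) m.1) (fderiv ℝ (D1 (some (j, k))) m.1)
      (fderiv ℝ (D2 (some (j, k))) m.1) := by
  have hno : ¬ (|(sh j m.1).1| < 7 / 8 ∧ |(sh j m.1).2.1| < 7 / 8) :=
    fun h => h1 j ⟨h.1.le, h.2.le⟩
  obtain ⟨hB, hk⟩ := h2
  cases k with
  | Z =>
    have hev : ∀ᶠ v in 𝓝 m.1, v ∈ Bx j (15 / 16) := (Bx_open j _).mem_nhds hB
    have hal : ∀ v ∈ Bx j (15 / 16), alp (v.1 / 4) = 0 ∧ alp (v.2.1 / 4) = 0 ∧
        alp (v.1 - cc j) = 0 ∧ alp v.2.1 = 0 := by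
      intro v hv
      have hx := abs_x_lt (j := j) (v := v) (s := 15 / 16) hv.1
      have hy := hv.2
      refine ⟨alp_eq_zero_iff.2 ?_, alp_eq_zero_iff.2 ?_, alp_eq_zero_iff.2 hv.1.le,
        alp_eq_zero_iff.2 hy.le⟩
      · rw [abs_div, abs_of_pos (by norm_num : (0 : ℝ) < 4)]
        linarith
      · rw [abs_div, abs_of_pos (by norm_num : (0 : ℝ) < 4)]
        linarith
    have e1 : D1 none =ᶠ[𝓝 m.1] D1 (some (j, .Z)) := by
      filter_upwards [hev] with v hv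
      obtain ⟨a1, a2, a3, a4⟩ := hal v hv
      show alp (v.1 / 4) + Bf v.2.2.1 v.2.2.2 - 1 = alp (v.1 - cc j) + Bf v.2.2.1 v.2.2.2 - 1
      rw [a1, a3]
    have e2 : D2 none =ᶠ[𝓝 m.1] D2 (some (j, .Z)) := by
      filter_upwards [hev] with v hv
      obtain ⟨a1, a2, a3, a4⟩ := hal v hv
      show alp (v.2.1 / 4) + Rf v.2.2.1 v.2.2.2 - 1 = alp v.2.1 + Rf v.2.2.1 v.2.2.2 - 1
      rw [a2, a4]
    rw [e1.fderiv_eq, e2.fderiv_eq]
    exact PW.refl _ _
  | A =>
    have h := kA_bd (v := sh j m.1) (s := 5 / 8) hk.1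
    exact (hno ⟨by linarith [h.1], by linarith [h.2]⟩).elim
  | B =>
    have h := kB_bd (v := sh j m.1) (s := 5 / 8) hk.1
    exact (hno ⟨by linarith [h.1], by linarith [h.2]⟩).elim
  | C => exact (hno (box_near hk.2.1 hk.2.2)).elim
  | D => exact (hno (box_near hk.2.1 hk.2.2)).elim

theorem D_or (i i' : Option (Fin 3 × Kd)) {m : V × ℝ} (hM : m ∈ MT) (h1 : m ∈ Wd i)
    (h2 : m ∈ Wd i') : PW (fderiv ℝ (D1 i) m.1) (fderiv ℝ (D2 i) m.1) (fderiv ℝ (D1 i') m.1)
      (fderiv ℝ (D2 i') m.1) := by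
  cases i with
  | none =>
    cases i' with
    | none => exact PW.refl _ _
    | some i' =>
      obtain ⟨j, k⟩ := i'
      exact none_some j k h1 h2
  | some i =>
    obtain ⟨j, k⟩ := i
    cases i' with
    | none => exact (none_some j k h2 h1).symm
    | some i' =>
      obtain ⟨j', k'⟩ := i'
      have hj : j' = j := by
        apply eq_of_box (v := m.1)
        · have : |(sh j m.1).1| < 15 / 16 := h1.1.1
          linarith
        · have : |(sh j' m.1).1| < 15 / 16 := h2.1.1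
          linarith
      subst hj
      have h3 : (sh j' m.1, m.2) ∈ MM := (MT_local h1.1).1 hM
      obtain ⟨κ, hκ, h⟩ := MM_or k k' h3 h1.2 h2.2
      refine ⟨κ, hκ, fun a c => ?_⟩
      rw [W_some j' k h1, W_some j' k' h2]
      exact h a c

/-- the common kernel of two functionals with nonzero wedge product has dimension two -/
theorem finrank_ker2 (f g : V →L[ℝ] ℝ) (h : ∃ a c, Wedge f g a c ≠ 0) :
    Module.finrank ℝ (LinearMap.ker ((f : V →ₗ[ℝ] ℝ).prod (g : V →ₗ[ℝ] ℝ))) = 2 := by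
  set T : V →ₗ[ℝ] ℝ × ℝ := (f : V →ₗ[ℝ] ℝ).prod (g : V →ₗ[ℝ] ℝ) with hT
  have hTs : LinearMap.range T = ⊤ := by
    rw [LinearMap.range_eq_top]
    rintro ⟨x, y⟩
    obtain ⟨p, q, hpq⟩ := h
    unfold Wedge at hpq
    refine ⟨((x * g q - y * f q) / (f p * g q - f q * g p)) • p +
      ((f p * y - g p * x) / (f p * g q - f q * g p)) • q, ?_⟩
    have h1 : T (((x * g q - y * f q) / (f p * g q - f q * g p)) • p +
      ((f p * y - g p * x) / (f p * g q - f q * g p)) • q) =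
      (f (((x * g q - y * f q) / (f p * g q - f q * g p)) • p +
      ((f p * y - g p * x) / (f p * g q - f q * g p)) • q),
      g (((x * g q - y * f q) / (f p * g q - f q * g p)) • p +
      ((f p * y - g p * x) / (f p * g q - f q * g p)) • q)) := rfl
    rw [h1, map_add, map_add, map_smul, map_smul, map_smul, map_smul]
    simp only [smul_eq_mul]
    refine Prod.ext ?_ ?_
    · show (x * g q - y * f q) / (f p * g q - f q * g p) * f p +
        (f p * y - g p * x) / (f p * g q - f q * g p) * f q = x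
      rw [div_mul_eq_mul_div, div_mul_eq_mul_div, ← add_div, div_eq_iff hpq]
      ring
    · show (x * g q - y * f q) / (f p * g q - f q * g p) * g p +
        (f p * y - g p * x) / (f p * g q - f q * g p) * g q = y
      rw [div_mul_eq_mul_div, div_mul_eq_mul_div, ← add_div, div_eq_iff hpq]
      ring
  have hrk := LinearMap.finrank_range_add_finrank_ker T
  rw [hTs, finrank_top] at hrk
  have h2 : Module.finrank ℝ (ℝ × ℝ) = 2 := by simp
  have h4 : Module.finrank ℝ V = 4 := by simp [V]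
  rw [h2, h4] at hrk
  omega

end J219

open J219

/-- the surface is a closed smooth surface, immersed; its tangent planes -/
theorem MT_surface : ∃ (_ : ChartedSpace (E 2) MT), Imm fM ∧
    ∀ (i : Option (Fin 3 × Kd)) (m : MT), m.1 ∈ Wd i → ∀ u : E 4, u ∈ TP fM m ↔
      ∃ a : V, toE a = u ∧ fderiv ℝ (D1 i) m.1.1 a = 0 ∧ fderiv ℝ (D2 i) m.1.1 a = 0 := by
  obtain ⟨C, hman, hsm, hinj, -, hker⟩ := exists_surface (M := MT) Wd D1 D2 bd Wd_open
    (fun m hm => Wd_cover hm) (fun i m hm => D_contDiffAt i hm) (fun i m hm => MT_iff i hm)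
    (fun i m hM hm => D_reg i hM hm) (fun i i' m hM h1 h2 => D_or i i' hM h1 h2)
  refine ⟨C, ?_⟩
  have hf : ContMDiff (𝓡 2) 𝓘(ℝ, EuclideanSpace ℝ (Fin 4)) ∞ fM := hsm
  have hfd : ∀ m : MT, MDifferentiableAt (𝓡 2) 𝓘(ℝ, EuclideanSpace ℝ (Fin 4)) fM m :=
    fun m => (hf m).mdifferentiableAt (by simp)
  -- the derivative in a chart
  have hcomp : ∀ (x : MT) (q : E 2), q ∈ (chartAt (E 2) x).target →
      fderiv ℝ (rd fM x) q = (mfderiv (𝓡 2) 𝓘(ℝ, EuclideanSpace ℝ (Fin 4)) fM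
        ((chartAt (E 2) x).symm q)).comp (mfderiv (𝓡 2) (𝓡 2) (chartAt (E 2) x).symm q) := by
    intro x q hq
    have h1 : MDifferentiableAt (𝓡 2) (𝓡 2) (chartAt (E 2) x).symm q :=
      mdifferentiableAt_atlas_symm (chart_mem_atlas _ _) hq
    have h2 := mfderiv_comp q (hfd _) h1
    rw [← h2, ← mfderiv_eq_fderiv]
    rfl
  have hbij : ∀ (x : MT) (q : E 2), q ∈ (chartAt (E 2) x).target →
      Function.Bijective (mfderiv (𝓡 2) (𝓡 2) (chartAt (E 2) x).symm q) := by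
    intro x q hq
    have h1 := (mdifferentiable_chart (I := 𝓡 2) x).symm
    exact h1.mfderiv_bijective hq
  refine ⟨fun x => ⟨?_, fun q hq => ?_⟩, ?_⟩
  · have h1 : ContMDiffOn (𝓡 2) (𝓡 2) ∞ (chartAt (E 2) x).symm (chartAt (E 2) x).target :=
      contMDiffOn_chart_symm
    have h2 := hf.comp_contMDiffOn h1
    exact contMDiffOn_iff_contDiffOn.1 h2
  · rw [hcomp x q hq]
    exact (hinj _).comp (hbij x q hq).injective
  · intro i m hm u
    have hq : (chartAt (E 2) m) m ∈ (chartAt (E 2) m).target :=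
      (chartAt (E 2) m).map_source (mem_chart_source _ _)
    set K := (LinearMap.ker ((fderiv ℝ (D1 i) m.1.1 : V →ₗ[ℝ] ℝ).prod
      (fderiv ℝ (D2 i) m.1.1 : V →ₗ[ℝ] ℝ))) with hK
    have hKmem : ∀ a, a ∈ K ↔ fderiv ℝ (D1 i) m.1.1 a = 0 ∧ fderiv ℝ (D2 i) m.1.1 a = 0 := by
      intro a
      rw [hK, LinearMap.mem_ker]
      exact Prod.ext_iff
    have hK2 : Module.finrank ℝ K = 2 := finrank_ker2 _ _ (D_reg i m.2 hm)
    have hle : K.map (toE : V →ₗ[ℝ] E 4) ≤ TP fM m := by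
      rintro _ ⟨a, ha, rfl⟩
      obtain ⟨h1, h2⟩ := (hKmem a).1 ha
      obtain ⟨w, hw⟩ := hker i m hm a h1 h2
      obtain ⟨w', hw'⟩ := (hbij m _ hq).surjective (show E 2 from w)
      refine ⟨w', ?_⟩
      have e1 := congrArg (fun T : E 2 →L[ℝ] E 4 => T w') (hcomp m _ hq)
      refine e1.trans ?_
      refine Eq.trans (congrArg (mfderiv (𝓡 2) 𝓘(ℝ, EuclideanSpace ℝ (Fin 4)) fM
        ((chartAt (E 2) m).symm ((chartAt (E 2) m) m))) hw') ?_
      have : ∀ (y : MT), y = m → (mfderiv (𝓡 2) 𝓘(ℝ, EuclideanSpace ℝ (Fin 4)) fM y :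
          E 2 →L[ℝ] E 4) w = toE a := by
        rintro y rfl
        exact hw
      exact this _ ((chartAt (E 2) m).left_inv (mem_chart_source _ _))
    have hdim : Module.finrank ℝ (TP fM m) ≤ 2 := by
      have h1 := LinearMap.finrank_range_le (fderiv ℝ (rd fM m) (chartAt (E 2) m m)).toLinearMap
      rw [finrank_euclideanSpace, Fintype.card_fin] at h1
      exact h1
    have hmap : Module.finrank ℝ (K.map (toE : V →ₗ[ℝ] E 4)) = 2 := by
      rw [← hK2]
      exact (Submodule.equivMapOfInjective (toE : V →ₗ[ℝ] E 4) toE_injective K).finrank_eq.symm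
    have heq : K.map (toE : V →ₗ[ℝ] E 4) = TP fM m :=
      Submodule.eq_of_le_of_finrank_le hle (by rw [hmap]; exact hdim)
    rw [← heq]
    constructor
    · rintro ⟨a, ha, rfl⟩
      obtain ⟨h1, h2⟩ := (hKmem a).1 ha
      exact ⟨a, rfl, h1, h2⟩
    · rintro ⟨a, rfl, h1, h2⟩
      exact ⟨a, (hKmem a).2 ⟨h1, h2⟩, rfl⟩

end Pool.Agent.TH619
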