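import Pool.Agent.TH902.J220a

/-! The surface with three necks is tight. -/

set_option autoImplicit false
namespace Pool.Agent.TH619
open Set Topology Filter
open Pool.Agent.Helper874.Odd

namespace J220

/-- the translation to the `j`-th copy -/
def tr (j : Fin 3) (v : V) : V := (v.1 + cc j, v.2)

theorem sh_tr (j : Fin 3) (v : V) : sh j (tr j v) = v := by
  unfold sh tr
  simp

theorem tr_sh (j : Fin 3) (v : V) : tr j (sh j v) = v := by
  unfold sh tr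
  simp

theorem continuous_tr (j : Fin 3) : Continuous (tr j) := by
  unfold tr
  fun_prop

theorem hh_tr (l : V) (j : Fin 3) (v : V) : hh l (tr j v) = hh l v + l.1 * cc j := by
  unfold hh tr
  ring

/-- the base surface in the coordinates of the `j`-th copy -/
def Bj (j : Fin 3) : Set V := {v | tr j v ∈ BL}

theorem conn_Bj (l : V) (j : Fin 3) : Conn (Bj j) l := by
  intro c
  have h : {v : V | v ∈ Bj j ∧ c ≤ hh l v} =
      sh j '' {v : V | v ∈ BL ∧ c + l.1 * cc j ≤ hh l v} := by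
    ext v
    constructor
    · rintro ⟨h1, h2⟩
      refine ⟨tr j v, ⟨h1, ?_⟩, sh_tr j v⟩
      rw [hh_tr]
      linarith
    · rintro ⟨w, ⟨h1, h2⟩, rfl⟩
      refine ⟨by show tr j (sh j w) ∈ BL; rwa [tr_sh], ?_⟩
      have := hh_tr l j (sh j w)
      rw [tr_sh] at this
      linarith
  rw [h]
  exact (conn_BL l _).image _ (J219sh j).continuousOn
where
  J219sh (j : Fin 3) : Continuous (sh j) := by
    unfold sh
    fun_prop

theorem BL_loc {j : Fin 3} {v : V} (hx : |v.1| < 1) (hy : |v.2.1| < 7 / 8) (hv : v.2.2 ∈ Vt)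
    (hD : v ∉ DiA ∪ DiB) : v ∈ Bj j := by
  have h1 : |(sh j (tr j v)).1| < 1 := by rwa [sh_tr]
  have h2 := abs_x_lt h1
  refine ⟨(ML_flat (v := tr j v) (by linarith) (by
    show |v.2.1| < 15 / 4
    linarith)).2 hv, fun j' h => ?_⟩
  have h3 := (J219.box_D h).1
  have hjj : j' = j := J219.eq_of_box (v := tr j v) h1 (by linarith)
  rw [hjj, sh_tr] at h
  exact hD h

theorem bdA {j : Fin 3} {w : V} (h : w ∈ SA) (h1 : |w.2.2.1| = 1) (h2 : kA w = 9 / 16) :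
    w ∈ Bj j := by
  have h3 := bdA_mem h h1 h2
  have h4 := J219.box_A h
  refine BL_loc (by linarith [h4.1]) h4.2 ?_ h3.2
  exact (M0_flat (v := w) (by linarith [h4.1]) (by linarith [h4.2])).1 h3.1

theorem bdB {j : Fin 3} {w : V} (h : w ∈ SB) (h1 : |w.2.2.2| = 1) (h2 : kB w = 9 / 16) :
    w ∈ Bj j := by
  have h3 := bdB_mem h h1 h2
  have h4 := J219.box_B h
  refine BL_loc (by linarith [h4.1]) h4.2 ?_ h3.2
  exact (M0_flat (v := w) (by linarith [h4.1]) (by linarith [h4.2])).1 h3.1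

/-- locally the base surface is `M0` without discs -/
theorem Bj_M0 {j : Fin 3} {v : V} (hx : |v.1| < 15 / 16) (hy : |v.2.1| < 15 / 16)
    (h : v ∈ Bj j) : v ∈ M0 \ (DiA ∪ DiB) := by
  have h1 := (BL_M0 (j := j) (v := tr j v) (by rw [sh_tr]; exact hx) hy h.1).1
  rw [sh_tr] at h1
  refine ⟨h1, fun hD => h.2 j ?_⟩
  rwa [sh_tr]

theorem near_Bj {j : Fin 3} (v : V) (hz : nz v < 1 / 8) (hw : nw v < 1 / 8) : v ∉ Bj j := by
  intro h
  have h4 := J219.box_near hz hw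
  have h1 := Bj_M0 (by linarith [h4.1]) (by linarith [h4.2]) h
  obtain ⟨-, -, -, -, -, -, -, -, -, -, -, -, hM, -⟩ := near_facts hz hw
  exact hM h1.1

theorem DA_Bj {j : Fin 3} {v : V} (h : v ∈ DA) : v ∉ Bj j := by
  obtain ⟨h1, h2, h3⟩ := h
  have h4 : nw v < 1 / 8 := by unfold nw; rw [h1, h2]; norm_num
  exact near_Bj v (by linarith) h4

theorem DB_Bj {j : Fin 3} {v : V} (h : v ∈ DB) : v ∉ Bj j := by
  obtain ⟨h1, h2, h3⟩ := h
  have h4 : nz v < 1 / 8 := by unfold nz; rw [h1, h2]; norm_num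
  exact near_Bj v h4 (by linarith)

theorem lab_zero {j : Fin 3} {v : V} (hA : v ∈ SA) (h0 : v ∈ Bj j) : lab v = 0 := by
  have h4 := J219.box_A hA
  exact mmc_lab_zero hA (Bj_M0 (by linarith [h4.1]) (by linarith [h4.2]) h0).1

theorem up_A (l : V) (j : Fin 3) {v : V} (h : v ∈ SA) : ∃ b ∈ Bj j, hh l v ≤ hh l b := by
  obtain ⟨w, hw, h1, h2, h3⟩ := tubeA_up (l := l) h
  exact ⟨w, bdA hw h1 h2, h3.le⟩

theorem up_B (l : V) (j : Fin 3) {v : V} (h : v ∈ SB) : ∃ b ∈ Bj j, hh l v ≤ hh l b := by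
  obtain ⟨w, hw, h1, h2, h3⟩ := tubeB_up (l := l) h
  exact ⟨w, bdB hw h1 h2, h3.le⟩

theorem up_C (l : V) (j : Fin 3) {v : V} (h : v ∈ SC) : ∃ b ∈ Bj j, hh l v ≤ hh l b := by
  obtain ⟨w, hw, h1, h2⟩ := neck_up (l := l) h
  rcases h1 with ⟨h1, h3, h4⟩ | ⟨h1, h3, h4⟩
  · obtain ⟨b, hb, hle⟩ := up_A l j (mmc_neckA h1 h3 h4).1
    exact ⟨b, hb, h2.le.trans hle⟩
  · obtain ⟨b, hb, hle⟩ := up_B l j (mmc_neckB h1 h3 h4).1
    exact ⟨b, hb, h2.le.trans hle⟩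

theorem Bj_closed (j : Fin 3) : IsClosed (Bj j) := BL_closed.preimage (continuous_tr j)

end J220

open J220

/-- the surface with three necks is tight -/
theorem MT_conn (l : V) (c : ℝ) : IsPreconnected {m : V × ℝ | m ∈ MT ∧ c ≤ hh l m.1} := by
  classical
  set E : Set (V × ℝ) := {m : V × ℝ | m ∈ MT ∧ c ≤ hh l m.1} with hE
  rcases E.eq_empty_or_nonempty with he | ⟨m0, hm0, hc0⟩
  · rw [he]; exact isPreconnected_empty
  -- base point
  have hlift : ∀ (j : Fin 3) (v : V), c ≤ hh l v → (∃ b ∈ Bj j, hh l (sh j v) ≤ hh l b) →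
      ∃ b ∈ BL, c ≤ hh l b := by
    rintro j v hv ⟨b, hb, hle⟩
    refine ⟨tr j b, hb, ?_⟩
    have e1 := hh_tr l j (sh j v)
    rw [tr_sh] at e1
    rw [hh_tr]
    linarith
  have hbase : ∃ b ∈ BL, c ≤ hh l b := by
    rcases hm0 with ⟨-, h⟩ | ⟨j, (⟨-, h | h⟩ | ⟨-, h⟩)⟩
    · exact ⟨m0.1, h, hc0⟩
    · exact hlift j m0.1 hc0 (up_B l j h.1)
    · exact hlift j m0.1 hc0 (up_C l j h)
    · exact hlift j m0.1 hc0 (up_A l j h.1)
  obtain ⟨b, hb, hbc⟩ := hbase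
  -- the sheets
  let g1 : Fin 3 → V → V × ℝ := fun j v => (tr j v, if v ∈ SA then lab v else 0)
  let g2 : Fin 3 → V → V × ℝ := fun j v => (tr j v, 0)
  have hg2 : ∀ j, Continuous (g2 j) := fun j => (continuous_tr j).prodMk continuous_const
  have hg1 : ∀ j, ContinuousOn (g1 j) (Bj j ∪ SA) := by
    intro j
    refine ContinuousOn.union_of_isClosed ?_ ?_ (Bj_closed j) SA_compact.isClosed
    · refine (hg2 j).continuousOn.congr fun v hv => ?_
      by_cases hA : v ∈ SA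
      · simp only [g1, g2, if_pos hA, lab_zero hA hv]
      · simp only [g1, g2, if_neg hA]
    · have h1 : ContinuousOn (fun v : V => (tr j v, lab v)) SA :=
        ((continuous_tr j).prodMk mmc_lab_cont).continuousOn
      refine h1.congr fun v hv => ?_
      simp only [g1, if_pos hv]
  let P1 : Fin 3 → Set V := fun j => {v | v ∈ (Bj j ∪ SA) \ DA ∧ c - l.1 * cc j ≤ hh l v}
  let P2 : Fin 3 → Set V := fun j => {v | v ∈ (Bj j ∪ SB) \ DB ∧ c - l.1 * cc j ≤ hh l v}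
  have hc1 : ∀ j, IsPreconnected (g1 j '' P1 j) := fun j =>
    (conn_A (conn_Bj l j) (fun w h h1 h2 => bdA h h1 h2) near_Bj _).image (g1 j)
      ((hg1 j).mono fun v hv => hv.1.1)
  have hc2 : ∀ j, IsPreconnected (g2 j '' P2 j) := fun j =>
    (conn_B (conn_Bj l j) (fun w h h1 h2 => bdB h h1 h2) near_Bj _).image (g2 j)
      (hg2 j).continuousOn
  have hlev : ∀ j v, c - l.1 * cc j ≤ hh l v → c ≤ hh l (tr j v) := by
    intro j v h
    rw [hh_tr]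
    linarith
  have hlev' : ∀ j v, c ≤ hh l v → c - l.1 * cc j ≤ hh l (sh j v) := by
    intro j v h
    have e1 := hh_tr l j (sh j v)
    rw [tr_sh] at e1
    linarith
  have hs1 : ∀ j, g1 j '' P1 j ⊆ E := by
    rintro j _ ⟨v, ⟨⟨hv, hD⟩, hvc⟩, rfl⟩
    refine ⟨?_, hlev j v hvc⟩
    by_cases hA : v ∈ SA
    · right
      refine ⟨j, Or.inr ?_⟩
      show (if v ∈ SA then lab v else 0) = lab (sh j (tr j v)) ∧ sh j (tr j v) ∈ SA \ DA
      rw [sh_tr, if_pos hA]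
      exact ⟨rfl, hA, hD⟩
    · left
      refine ⟨if_neg hA, ?_⟩
      exact hv.resolve_right hA
  have hs2 : ∀ j, g2 j '' P2 j ⊆ E := by
    rintro j _ ⟨v, ⟨⟨hv, hD⟩, hvc⟩, rfl⟩
    refine ⟨?_, hlev j v hvc⟩
    rcases hv with hv | hv
    · exact Or.inl ⟨rfl, hv⟩
    · refine Or.inr ⟨j, Or.inl ⟨rfl, Or.inl ?_⟩⟩
      show sh j (tr j v) ∈ SB \ DB
      rw [sh_tr]
      exact ⟨hv, hD⟩
  have hbj : ∀ j, sh j b ∈ Bj j := fun j => by
    show tr j (sh j b) ∈ BL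
    rwa [tr_sh]
  have hb1 : ∀ j, ((b, 0) : V × ℝ) ∈ g1 j '' P1 j := by
    intro j
    refine ⟨sh j b, ⟨⟨Or.inl (hbj j), fun h => DA_Bj h (hbj j)⟩, hlev' j b hbc⟩, ?_⟩
    by_cases hA : sh j b ∈ SA
    · simp only [g1, if_pos hA, lab_zero hA (hbj j), tr_sh]
    · simp only [g1, if_neg hA, tr_sh]
  have hb2 : ∀ j, ((b, 0) : V × ℝ) ∈ g2 j '' P2 j := by
    intro j
    refine ⟨sh j b, ⟨⟨Or.inl (hbj j), fun h => DB_Bj h (hbj j)⟩, hlev' j b hbc⟩, ?_⟩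
    simp only [g2, tr_sh]
  refine isPreconnected_of_forall ((b, 0) : V × ℝ) fun m hm => ?_
  obtain ⟨hm, hmc⟩ := hm
  obtain ⟨v, s⟩ := m
  rcases hm with ⟨h0, h⟩ | ⟨j, (⟨h0, h | h⟩ | ⟨h0, h⟩)⟩
  · simp only at h0 h
    have hvj : sh 0 v ∈ Bj 0 := by
      show tr 0 (sh 0 v) ∈ BL
      rwa [tr_sh]
    refine ⟨g2 0 '' P2 0, hs2 0, hb2 0, ⟨sh 0 v, ⟨⟨Or.inl hvj, fun h' => DB_Bj h' hvj⟩,
      hlev' 0 v hmc⟩, ?_⟩, hc2 0⟩
    simp only [g2, h0, tr_sh]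
  · simp only at h0
    refine ⟨g2 j '' P2 j, hs2 j, hb2 j, ⟨sh j v, ⟨⟨Or.inr h.1, h.2⟩, hlev' j v hmc⟩, ?_⟩, hc2 j⟩
    simp only [g2, h0, tr_sh]
  · simp only at h0 h hmc
    subst h0
    obtain ⟨w, hw, h1, T, hT, hTc, hvT, hwT, hTh⟩ := neck_up (l := l) h
    have hTl : ∀ u ∈ T, c - l.1 * cc j ≤ hh l u := fun u hu =>
      (hlev' j v hmc).trans (hTh u hu)
    have hsT : g2 j '' T ⊆ E := by
      rintro _ ⟨u, hu, rfl⟩
      refine ⟨Or.inr ⟨j, Or.inl ⟨rfl, Or.inr ?_⟩⟩, hlev j u (hTl u hu)⟩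
      show sh j (tr j u) ∈ SC
      rw [sh_tr]
      exact hT hu
    have hcT : IsPreconnected (g2 j '' T) := hTc.image (g2 j) (hg2 j).continuousOn
    have hvim : ((v, 0) : V × ℝ) ∈ g2 j '' T := ⟨sh j v, hvT, by simp only [g2, tr_sh]⟩
    rcases h1 with ⟨h1, h3, h4⟩ | ⟨h1, h3, h4⟩
    · obtain ⟨hA, hD, hl⟩ := mmc_neckA h1 h3 h4
      refine ⟨g2 j '' T ∪ g1 j '' P1 j, union_subset hsT (hs1 j), Or.inr (hb1 j), Or.inl hvim, ?_⟩
      refine IsPreconnected.union (g2 j w) ⟨w, hwT, rfl⟩ ?_ hcT (hc1 j)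
      refine ⟨w, ⟨⟨Or.inr hA, hD⟩, hTl w hwT⟩, ?_⟩
      simp only [g1, g2, if_pos hA, hl]
    · obtain ⟨hB, hD⟩ := mmc_neckB h1 h3 h4
      refine ⟨g2 j '' T ∪ g2 j '' P2 j, union_subset hsT (hs2 j), Or.inr (hb2 j), Or.inl hvim, ?_⟩
      refine IsPreconnected.union (g2 j w) ⟨w, hwT, rfl⟩ ?_ hcT (hc2 j)
      exact ⟨w, ⟨⟨Or.inr hB, hD⟩, hTl w hwT⟩, rfl⟩
  · simp only at h0 h
    refine ⟨g1 j '' P1 j, hs1 j, hb1 j, ⟨sh j v, ⟨⟨Or.inr h.1, h.2⟩, hlev' j v hmc⟩, ?_⟩, hc1 j⟩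
    simp only [g1, if_pos h.1, h0, tr_sh]

theorem MT_compact : IsCompact MT := by
  have hML : IsCompact ML := by
    rw [ML_image]
    exact M0_compact.image continuous_sci
  have hBL : IsCompact BL := hML.of_isClosed_subset BL_closed fun v hv => hv.1
  have hSA : IsCompact (SA \ DA) := by
    rw [SA_DA_eq]
    exact SA_compact.inter_right ((isClosed_le continuous_const nw_cont').union
        (isClosed_le continuous_const nz_cont'))
  have hSB : IsCompact (SB \ DB) := by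
    rw [SB_DB_eq]
    exact SB_compact.inter_right ((isClosed_le continuous_const nz_cont').union
        (isClosed_le continuous_const nw_cont'))
  have h0 : ∀ j, Continuous fun v : V => (tr j v, (0 : ℝ)) := fun j =>
    (continuous_tr j).prodMk continuous_const
  have h1 : ∀ j, Continuous fun v : V => (tr j v, lab v) := fun j =>
    (continuous_tr j).prodMk mmc_lab_cont
  have h2 : Continuous fun v : V => (v, (0 : ℝ)) := continuous_id.prodMk continuous_const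
  have e : MT = (fun v : V => (v, (0 : ℝ))) '' BL ∪ ⋃ j : Fin 3,
      ((fun v : V => (tr j v, (0 : ℝ))) '' (SB \ DB) ∪ (fun v : V => (tr j v, (0 : ℝ))) '' SC ∪
        (fun v : V => (tr j v, lab v)) '' (SA \ DA)) := by
    ext ⟨v, s⟩
    simp only [mem_union, mem_iUnion]
    constructor
    · rintro (⟨h, h'⟩ | ⟨j, (⟨h, h' | h'⟩ | ⟨h, h'⟩)⟩)
      · exact Or.inl ⟨v, h', by simp only at h; rw [h]⟩
      · exact Or.inr ⟨j, Or.inl (Or.inl ⟨sh j v, h', by simp only at h; simp only [tr_sh, h]⟩)⟩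
      · exact Or.inr ⟨j, Or.inl (Or.inr ⟨sh j v, h', by simp only at h; simp only [tr_sh, h]⟩)⟩
      · exact Or.inr ⟨j, Or.inr ⟨sh j v, h', by simp only at h; simp only [tr_sh, h]⟩⟩
    · rintro (⟨w, h', h⟩ | ⟨j, ((⟨w, h', h⟩ | ⟨w, h', h⟩) | ⟨w, h', h⟩)⟩)
      · simp only [Prod.mk.injEq] at h
        obtain ⟨rfl, rfl⟩ := h
        exact Or.inl ⟨rfl, h'⟩
      · simp only [Prod.mk.injEq] at h
        obtain ⟨rfl, rfl⟩ := h
        exact Or.inr ⟨j, Or.inl ⟨rfl, Or.inl (by rw [sh_tr]; exact h')⟩⟩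
      · simp only [Prod.mk.injEq] at h
        obtain ⟨rfl, rfl⟩ := h
        exact Or.inr ⟨j, Or.inl ⟨rfl, Or.inr (by rw [sh_tr]; exact h')⟩⟩
      · simp only [Prod.mk.injEq] at h
        obtain ⟨rfl, rfl⟩ := h
        exact Or.inr ⟨j, Or.inr ⟨by rw [sh_tr], by rw [sh_tr]; exact h'⟩⟩
  rw [e]
  refine (hBL.image h2).union (isCompact_iUnion fun j => ?_)
  exact ((hSB.image (h0 j)).union (SC_compact.image (h0 j))).union (hSA.image (h1 j))

theorem MT_nonempty : MT.Nonempty := by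
  -- a point of the first neck
  let w : V := (-(1 / 32), 1 / 4 + 1 / 32, 0, 0)
  have hw : w ∈ SC := by
    refine ⟨1 / 16, 0, 0, by norm_num, le_rfl, le_rfl, by norm_num, ?_, ?_, ?_, ?_, ?_⟩
    · rw [bet_zero, bet_eq_zero (le_refl (1 / 16 : ℝ))]
      norm_num
    · show (1 / 4 + 1 / 32 : ℝ) - (-(1 / 32)) - 1 / 4 = 1 / 16 * Real.cos 0
      rw [Real.cos_zero]
      norm_num
    · show (0 : ℝ) = 1 / 16 * Real.sin 0
      rw [Real.sin_zero]
      norm_num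
    · show (-(1 / 32) : ℝ) + (1 / 4 + 1 / 32) - 1 / 4 = 0 * Real.cos 0
      norm_num
    · show (0 : ℝ) = -(0 * Real.sin 0)
      norm_num
  refine ⟨(tr 0 w, 0), Or.inr ⟨0, Or.inl ⟨rfl, Or.inr ?_⟩⟩⟩
  show sh 0 (tr 0 w) ∈ SC
  rwa [sh_tr]

end Pool.Agent.TH619
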