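import Pool.Agent.TH280.LS.StmC
import Pool.Agent.TH228.LS_T4

set_option autoImplicit false

/-! # LSC-T4K: the `L^4` bound in several variables with two weights -/

open MeasureTheory Set
open scoped ENNReal

namespace Pool.Agent.TH902.T4K

open Pool.Agent.TH280.LS
open Pool.Agent.TH228.T4 (H_meas gauss_int H_bound ae_pos mc_meas ms_meas mc_bound ms_bound)

/-- the general form -/
theorem main {m : ℕ} (hm : 0 < m) {ρ κ : (Fin m → ℝ) → ℝ} (hρ : Measurable ρ) (hκm : Measurable κ)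
    {C4 C1 : ℝ} (hC4 : 0 < C4)
    (hE4 : ∀ (H : (Fin m → ℝ) → ℂ), Integrable H →
      ∫⁻ y : Fin m → ℝ, ‖∫ η : Fin m → ℝ, e (∑ i, y i * η i) * H η‖ₑ ^ 4 ≤
      ENNReal.ofReal (C4) * ∫⁻ η : Fin m → ℝ, ENNReal.ofReal (ρ η ^ 2) * ‖H η‖ₑ ^ 4)
    {M : ℝ → ℝ → ℝ} (hM : Measurable (Function.uncurry M)) {K κ0 : ℝ} (hκ : 0 < κ0)
    (hMb : ∀ t ∈ Icc (1 : ℝ) 2, ∀ r, |M t r| ≤ K * Real.exp (-(κ0 * r ^ 2)))
    (hone : ∀ (η : Fin m → ℝ) (G : ℝ → ℂ), 0 < Real.sqrt (∑ i, η i ^ 2) → Integrable G →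
      ∫⁻ t in Icc (1 : ℝ) 2, ∫⁻ x : ℝ, ‖Ux (Real.sqrt (∑ i, η i ^ 2)) (M t) G x‖ₑ ^ 4 ≤
        ENNReal.ofReal C1 * (ENNReal.ofReal (κ η ^ 4) * ∫⁻ x : ℝ, ‖G x‖ₑ ^ 4))
    {G : (Fin m → ℝ) → ℝ → ℂ} (hG : Adm m G) :
    ∫⁻ t in Icc (1 : ℝ) 2, ∫⁻ x : ℝ, ∫⁻ y : Fin m → ℝ, ‖Tm m (M t) G y x‖ₑ ^ 4 ≤
      ENNReal.ofReal (C4 * C1) * ∫⁻ x : ℝ, ∫⁻ η : Fin m → ℝ,
        ENNReal.ofReal (ρ η ^ 2 * κ η ^ 4) * ‖G η x‖ₑ ^ 4 := by
  obtain ⟨hGm, g, hg, hGg⟩ := hG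
  obtain ⟨H, hH⟩ : ∃ H : ℝ → ℝ → (Fin m → ℝ) → ℂ, ∀ t x η, H t x η =
      Ux (Real.sqrt (∑ i, η i ^ 2)) (M t) (G η) x := ⟨_, fun _ _ _ => rfl⟩
  obtain ⟨w, hw⟩ : ∃ w : (Fin m → ℝ) → ℝ≥0∞, ∀ η, w η = ENNReal.ofReal (ρ η ^ 2) :=
    ⟨_, fun _ => rfl⟩
  obtain ⟨v, hv⟩ : ∃ v : (Fin m → ℝ) → ℝ≥0∞, ∀ η, v η = ENNReal.ofReal (κ η ^ 4) :=
    ⟨_, fun _ => rfl⟩
  have hHm : StronglyMeasurable (fun p : ℝ × ℝ × (Fin m → ℝ) => H p.1 p.2.1 p.2.2) := by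
    have h := H_meas hGm hM
    simp only [← hH] at h
    exact h
  have hwm : Measurable w := by
    have h : w = fun η => ENNReal.ofReal (ρ η ^ 2) := funext hw
    rw [h]
    exact ENNReal.measurable_ofReal.comp (hρ.pow_const 2)
  have hvm : Measurable v := by
    have h : v = fun η => ENNReal.ofReal (κ η ^ 4) := funext hv
    rw [h]
    exact ENNReal.measurable_ofReal.comp (hκm.pow_const 4)
  have hw_top : ∀ η, w η ≠ ⊤ := fun η => by rw [hw]; exact ENNReal.ofReal_ne_top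
  have hv_top : ∀ η, v η ≠ ⊤ := fun η => by rw [hv]; exact ENNReal.ofReal_ne_top
  have hwv : ∀ η, ENNReal.ofReal (ρ η ^ 2 * κ η ^ 4) = w η * v η := fun η => by
    rw [hw, hv, ENNReal.ofReal_mul (sq_nonneg _)]
  obtain ⟨N, hN⟩ : ∃ N : ℝ → ℝ → (Fin m → ℝ) → ℝ≥0∞, ∀ t x η, N t x η = ‖H t x η‖ₑ ^ 4 :=
    ⟨_, fun _ _ _ => rfl⟩
  have hHe : Measurable (fun p : ℝ × ℝ × (Fin m → ℝ) => N p.1 p.2.1 p.2.2) := by
    simp only [hN]
    exact hHm.measurable.enorm.pow_const 4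
  simp only [hwv]
  -- step 1: E4 at fixed `t`, `x`
  have h1 : ∀ t ∈ Icc (1 : ℝ) 2, ∀ x : ℝ, ∫⁻ y : Fin m → ℝ, ‖Tm m (M t) G y x‖ₑ ^ 4 ≤
      ENNReal.ofReal (C4) * ∫⁻ η : Fin m → ℝ, w η * N t x η := by
    intro t ht x
    have hk : Integrable (fun η => H t x η) := ?_
    · have h := hE4 (fun η => H t x η) hk
      simp only [hH, ← hw] at h
      simp only [hN, hH]
      exact h
    refine Integrable.mono' ((gauss_int (m := m) hκ).const_mul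
      (K * (∫ z, g z) * ∫ ξ : ℝ, Real.exp (-κ0 * ξ ^ 2))) ?_ ?_
    · refine (hHm.comp_measurable
        (by fun_prop : Measurable fun η : Fin m → ℝ => ((t, x, η) : ℝ × ℝ × (Fin m → ℝ)))).aestronglyMeasurable
    · refine Filter.Eventually.of_forall fun η => ?_
      rw [hH]
      exact H_bound hg hGg hκ (hMb t ht) x η
  -- step 2: integrate
  have h2 : ∫⁻ t in Icc (1 : ℝ) 2, ∫⁻ x : ℝ, ∫⁻ y : Fin m → ℝ, ‖Tm m (M t) G y x‖ₑ ^ 4 ≤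
      ENNReal.ofReal (C4) * ∫⁻ t in Icc (1 : ℝ) 2, ∫⁻ x : ℝ, ∫⁻ η : Fin m → ℝ,
        w η * N t x η := by
    rw [← lintegral_const_mul' _ _ ENNReal.ofReal_ne_top]
    refine setLIntegral_mono' measurableSet_Icc ?_
    intro t ht
    rw [← lintegral_const_mul' _ _ ENNReal.ofReal_ne_top]
    exact lintegral_mono fun x => h1 t ht x
  refine le_trans h2 ?_
  have h3 : ∫⁻ t in Icc (1 : ℝ) 2, ∫⁻ x : ℝ, ∫⁻ η : Fin m → ℝ, w η * N t x η =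
      ∫⁻ η : Fin m → ℝ, w η * ∫⁻ t in Icc (1 : ℝ) 2, ∫⁻ x : ℝ, N t x η := by
    have e1 : ∀ t : ℝ, ∫⁻ x : ℝ, ∫⁻ η : Fin m → ℝ, w η * N t x η =
        ∫⁻ η : Fin m → ℝ, w η * ∫⁻ x : ℝ, N t x η := by
      intro t
      have hm1 : Measurable (fun p : ℝ × (Fin m → ℝ) => N t p.1 p.2) :=
        hHe.comp (by fun_prop : Measurable fun p : ℝ × (Fin m → ℝ) =>
          ((t, p.1, p.2) : ℝ × ℝ × (Fin m → ℝ)))
      have hm2 : Measurable (fun p : ℝ × (Fin m → ℝ) => w p.2 * N t p.1 p.2) :=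
        (hwm.comp measurable_snd).mul hm1
      have hm3 : AEMeasurable (Function.uncurry (fun (x : ℝ) (η : Fin m → ℝ) => w η * N t x η))
          ((volume : Measure ℝ).prod (volume : Measure (Fin m → ℝ))) := hm2.aemeasurable
      rw [lintegral_lintegral_swap hm3]
      refine lintegral_congr fun η => ?_
      rw [lintegral_const_mul' _ _ (hw_top η)]
    have hm4 : Measurable (fun q : (ℝ × (Fin m → ℝ)) × ℝ => N q.1.1 q.2 q.1.2) :=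
      hHe.comp (by fun_prop : Measurable fun q : (ℝ × (Fin m → ℝ)) × ℝ =>
        ((q.1.1, q.2, q.1.2) : ℝ × ℝ × (Fin m → ℝ)))
    have hm5 : Measurable (fun p : ℝ × (Fin m → ℝ) => ∫⁻ x : ℝ, N p.1 x p.2) :=
      Measurable.lintegral_prod_right' (f := fun q : (ℝ × (Fin m → ℝ)) × ℝ => N q.1.1 q.2 q.1.2)
        hm4
    have hm6 : Measurable (fun p : ℝ × (Fin m → ℝ) => w p.2 * ∫⁻ x : ℝ, N p.1 x p.2) :=
      (hwm.comp measurable_snd).mul hm5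
    have hm7 : AEMeasurable (Function.uncurry
        (fun (t : ℝ) (η : Fin m → ℝ) => w η * ∫⁻ x : ℝ, N t x η))
        (((volume : Measure ℝ).restrict (Icc (1 : ℝ) 2)).prod (volume : Measure (Fin m → ℝ))) :=
      hm6.aemeasurable
    rw [lintegral_congr e1, lintegral_lintegral_swap hm7]
    refine lintegral_congr fun η => ?_
    rw [lintegral_const_mul' _ _ (hw_top η)]
  rw [h3]
  have h4 : ∫⁻ η : Fin m → ℝ, w η * ∫⁻ t in Icc (1 : ℝ) 2, ∫⁻ x : ℝ, N t x η ≤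
      ENNReal.ofReal C1 * ∫⁻ η : Fin m → ℝ, (w η * v η) * ∫⁻ x : ℝ, ‖G η x‖ₑ ^ 4 := by
    rw [← lintegral_const_mul' _ _ ENNReal.ofReal_ne_top]
    refine lintegral_mono_ae ?_
    filter_upwards [ae_pos hm] with η hη
    have hGi : Integrable (G η) := by
      refine Integrable.mono' hg ?_ (Filter.Eventually.of_forall fun x => hGg η x)
      exact (hGm.comp (by fun_prop : Measurable fun x : ℝ =>
        ((η, x) : (Fin m → ℝ) × ℝ))).aestronglyMeasurable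
    have h := hone η (G η) hη hGi
    have h' : ∫⁻ t in Icc (1 : ℝ) 2, ∫⁻ x : ℝ, N t x η ≤
        ENNReal.ofReal C1 * (v η * ∫⁻ x : ℝ, ‖G η x‖ₑ ^ 4) := by
      simp only [hN, hH, hv]
      exact h
    calc w η * ∫⁻ t in Icc (1 : ℝ) 2, ∫⁻ x : ℝ, N t x η
        ≤ w η * (ENNReal.ofReal C1 * (v η * ∫⁻ x : ℝ, ‖G η x‖ₑ ^ 4)) := mul_le_mul_right h' _
      _ = ENNReal.ofReal C1 * ((w η * v η) * ∫⁻ x : ℝ, ‖G η x‖ₑ ^ 4) := by ring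
  have h5 : ∫⁻ η : Fin m → ℝ, (w η * v η) * ∫⁻ x : ℝ, ‖G η x‖ₑ ^ 4 =
      ∫⁻ x : ℝ, ∫⁻ η : Fin m → ℝ, (w η * v η) * ‖G η x‖ₑ ^ 4 := by
    have hm1 : Measurable (fun p : ℝ × (Fin m → ℝ) => ‖G p.2 p.1‖ₑ ^ 4) :=
      (hGm.comp (by fun_prop : Measurable fun p : ℝ × (Fin m → ℝ) => (p.2, p.1))).enorm.pow_const 4
    have hm2 : Measurable (fun p : ℝ × (Fin m → ℝ) => (w p.2 * v p.2) * ‖G p.2 p.1‖ₑ ^ 4) :=
      ((hwm.mul hvm).comp measurable_snd).mul hm1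
    have hm3 : AEMeasurable (Function.uncurry (fun (x : ℝ) (η : Fin m → ℝ) =>
        (w η * v η) * ‖G η x‖ₑ ^ 4))
        ((volume : Measure ℝ).prod (volume : Measure (Fin m → ℝ))) := hm2.aemeasurable
    rw [lintegral_lintegral_swap hm3]
    refine lintegral_congr fun η => ?_
    rw [lintegral_const_mul' _ _ (ENNReal.mul_ne_top (hw_top η) (hv_top η))]
  calc ENNReal.ofReal (C4) * ∫⁻ η : Fin m → ℝ, w η *
        ∫⁻ t in Icc (1 : ℝ) 2, ∫⁻ x : ℝ, N t x η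
      ≤ ENNReal.ofReal (C4) * (ENNReal.ofReal C1 *
        ∫⁻ η : Fin m → ℝ, (w η * v η) * ∫⁻ x : ℝ, ‖G η x‖ₑ ^ 4) := mul_le_mul_right h4 _
    _ = ENNReal.ofReal (C4 * C1) * ∫⁻ x : ℝ, ∫⁻ η : Fin m → ℝ, (w η * v η) * ‖G η x‖ₑ ^ 4 := by
        rw [h5, ← mul_assoc, ENNReal.ofReal_mul (by positivity)]

lemma kp_meas (m : ℕ) (s2 : ℝ) : Measurable (kp m s2) := by
  unfold kp nr
  fun_prop

lemma kp_four (m : ℕ) (s2 : ℝ) (η : Fin m → ℝ) :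
    (1 + Real.sqrt (∑ i, η i ^ 2)) ^ (-(4 * s2)) = kp m s2 η ^ 4 := by
  have h : 0 ≤ 1 + Real.sqrt (∑ i, η i ^ 2) := by positivity
  unfold kp nr
  rw [← Real.rpow_natCast, ← Real.rpow_mul h]
  congr 1
  push_cast
  ring

theorem t4k_thm : S_ONEK → S_T4K := by
  intro hO m ρ s1 s2 hm hρ _ hE hs1 hs2
  obtain ⟨C4, hC4, hE4⟩ := hE
  obtain ⟨C1, hC1, hone⟩ := hO s1 s2 hs1 hs2
  have hs : 0 < s1 + s2 := by linarith
  refine ⟨C4 * C1, by positivity, ?_⟩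
  intro τ G hτ hτ1 hG
  refine ⟨?_, ?_⟩
  · refine main hm hρ (kp_meas m s2) hC4 hE4 (mc_meas (s1 + s2) τ) hτ (fun t _ r => mc_bound hs t r)
      (fun η G' ha hG' => ?_) hG
    have h := (hone _ τ G' ha hτ hτ1 hG').1
    rw [kp_four, ENNReal.ofReal_mul hC1.le, mul_assoc] at h
    exact h
  · refine main hm hρ (kp_meas m s2) hC4 hE4 (ms_meas (s1 + s2) τ) (half_pos hτ)
      (fun t ht r => ms_bound hs hτ t r ht)
      (fun η G' ha hG' => ?_) hG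
    have h := (hone _ τ G' ha hτ hτ1 hG').2
    rw [kp_four, ENNReal.ofReal_mul hC1.le, mul_assoc] at h
    exact h

end Pool.Agent.TH902.T4K
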