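import Pool.Agent.TH280.LS.Stm

/-!
# LS-T2: the `L²` bound in several variables
-/

set_option autoImplicit false

open MeasureTheory Set Pool.Agent.TH280.LS
open scoped ENNReal

namespace Pool.Agent.TH902.T2

/-! ### bounds of the multipliers -/

theorem mc_bound {s τ t r : ℝ} (hs : 0 < s) : |mc s τ t r| ≤ 1 * Real.exp (-(τ * r ^ 2)) := by
  unfold mc
  rw [abs_mul, abs_of_pos (Real.exp_pos _), mul_comm]
  refine mul_le_mul_of_nonneg_right ?_ (Real.exp_pos _).le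
  rw [abs_mul]
  have h1 := Real.abs_cos_le_one (2 * Real.pi * (t * r))
  have hb : (1 : ℝ) ≤ 1 + 4 * Real.pi ^ 2 * r ^ 2 := by
    have : 0 ≤ 4 * Real.pi ^ 2 * r ^ 2 := by positivity
    linarith
  have h2 : |(1 + 4 * Real.pi ^ 2 * r ^ 2) ^ (-(s / 2))| ≤ 1 := by
    rw [abs_of_nonneg (by positivity)]
    exact Real.rpow_le_one_of_one_le_of_nonpos hb (by linarith)
  calc _ ≤ (1 : ℝ) * 1 := mul_le_mul h1 h2 (abs_nonneg _) zero_le_one
    _ = 1 := one_mul 1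

theorem ms_bound {s τ t r : ℝ} (hs : 0 < s) (hr : 0 ≤ r) (ht0 : 1 ≤ t) (ht : t ≤ 2) :
    |ms s τ t r| ≤ 3 * Real.exp (-(τ * r ^ 2)) := by
  unfold ms
  rw [abs_mul, abs_of_pos (Real.exp_pos _), mul_comm]
  refine mul_le_mul_of_nonneg_right ?_ (Real.exp_pos _).le
  rcases hr.eq_or_lt with rfl | hr
  · simp
  have hpi := Real.pi_pos
  have hR : 0 < 2 * Real.pi * r := by positivity
  rw [abs_mul, abs_div, abs_of_pos hR]
  have hb : (1 : ℝ) ≤ 1 + 4 * Real.pi ^ 2 * r ^ 2 := by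
    have : 0 ≤ 4 * Real.pi ^ 2 * r ^ 2 := by positivity
    linarith
  have h2 : |(1 + 4 * Real.pi ^ 2 * r ^ 2) ^ ((1 - s) / 2)| ≤ 1 + 2 * Real.pi * r := by
    rw [abs_of_nonneg (by positivity)]
    calc (1 + 4 * Real.pi ^ 2 * r ^ 2) ^ ((1 - s) / 2)
        ≤ (1 + 4 * Real.pi ^ 2 * r ^ 2) ^ ((1 : ℝ) / 2) :=
          Real.rpow_le_rpow_of_exponent_le hb (by linarith)
      _ = Real.sqrt (1 + 4 * Real.pi ^ 2 * r ^ 2) := by rw [Real.sqrt_eq_rpow]
      _ ≤ 1 + 2 * Real.pi * r := by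
          rw [Real.sqrt_le_left (by positivity)]
          nlinarith
  have h1 := Real.abs_sin_le_one (2 * Real.pi * (t * r))
  have h1' : |Real.sin (2 * Real.pi * (t * r))| ≤ t * (2 * Real.pi * r) := by
    refine (Real.abs_sin_le_abs).trans ?_
    rw [abs_of_nonneg (by positivity)]
    linarith
  calc |Real.sin (2 * Real.pi * (t * r))| / (2 * Real.pi * r) *
        |(1 + 4 * Real.pi ^ 2 * r ^ 2) ^ ((1 - s) / 2)|
      ≤ |Real.sin (2 * Real.pi * (t * r))| / (2 * Real.pi * r) * (1 + 2 * Real.pi * r) :=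
        mul_le_mul_of_nonneg_left h2 (by positivity)
    _ = |Real.sin (2 * Real.pi * (t * r))| / (2 * Real.pi * r) +
        |Real.sin (2 * Real.pi * (t * r))| := by field_simp
    _ ≤ t + 1 := by
        refine add_le_add ?_ h1
        rw [div_le_iff₀ hR]
        exact h1'
    _ ≤ 3 := by linarith

/-! ### the core estimate for a multiplier with Gaussian decay -/

section core

variable {m : ℕ} {M : ℝ → ℝ} {G : (Fin m → ℝ) → ℝ → ℂ} {B τ : ℝ}

/-- the squared norm -/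
theorem ra_sq (η : Fin m → ℝ) (ξ : ℝ) :
    ra (Real.sqrt (∑ i, η i ^ 2)) ξ ^ 2 = ξ ^ 2 + ∑ i, η i ^ 2 := by
  have h : 0 ≤ ∑ i, η i ^ 2 := Finset.sum_nonneg fun i _ => sq_nonneg _
  unfold ra
  rw [Real.sq_sqrt (by positivity), Real.sq_sqrt h]

theorem M_bound (hB : ∀ r, 0 ≤ r → |M r| ≤ B * Real.exp (-(τ * r ^ 2))) (η : Fin m → ℝ) (ξ : ℝ) :
    |M (ra (Real.sqrt (∑ i, η i ^ 2)) ξ)| ≤
      B * (Real.exp (-τ * ξ ^ 2) * Real.exp (-τ * ∑ i, η i ^ 2)) := by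
  have h0 : 0 ≤ ra (Real.sqrt (∑ i, η i ^ 2)) ξ := Real.sqrt_nonneg _
  refine (hB _ h0).trans (le_of_eq ?_)
  rw [ra_sq, ← Real.exp_add]
  congr 2
  ring

theorem measurable_ft (hG : Measurable (Function.uncurry G)) :
    Measurable (fun p : (Fin m → ℝ) × ℝ => ft (G p.1) p.2) := by
  have h : Measurable (fun p : ((Fin m → ℝ) × ℝ) × ℝ => e (-(p.2 * p.1.2)) * G p.1.1 p.2) := by
    refine (measurable_e.comp ?_).mul ?_
    · fun_prop
    · exact hG.comp (by fun_prop : Measurable fun p : ((Fin m → ℝ) × ℝ) × ℝ => (p.1.1, p.2))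
  exact (h.stronglyMeasurable.integral_prod_right (ν := (volume : Measure ℝ))).measurable

theorem measurable_q (hM : Measurable M) (hG : Measurable (Function.uncurry G)) :
    Measurable (fun p : (Fin m → ℝ) × ℝ =>
      ((M (ra (Real.sqrt (∑ i, p.1 i ^ 2)) p.2) : ℝ) : ℂ) * ft (G p.1) p.2) := by
  refine (Complex.measurable_ofReal.comp (hM.comp ?_)).mul (measurable_ft hG)
  unfold ra
  fun_prop

theorem measurable_U (hM : Measurable M) (hG : Measurable (Function.uncurry G)) :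
    Measurable (fun p : (Fin m → ℝ) × ℝ => Ux (Real.sqrt (∑ i, p.1 i ^ 2)) M (G p.1) p.2) := by
  have h : Measurable (fun p : ((Fin m → ℝ) × ℝ) × ℝ => e (p.1.2 * p.2) *
      (((M (ra (Real.sqrt (∑ i, p.1.1 i ^ 2)) p.2) : ℝ) : ℂ) * ft (G p.1.1) p.2)) := by
    refine (measurable_e.comp ?_).mul ?_
    · fun_prop
    · exact (measurable_q hM hG).comp
        (by fun_prop : Measurable fun p : ((Fin m → ℝ) × ℝ) × ℝ => (p.1.1, p.2))
  exact (h.stronglyMeasurable.integral_prod_right (ν := (volume : Measure ℝ))).measurable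

theorem integrable_gauss (hτ : 0 < τ) : Integrable (fun η : Fin m → ℝ =>
    Real.exp (-τ * ∑ i, η i ^ 2)) := by
  have h : (fun η : Fin m → ℝ => Real.exp (-τ * ∑ i, η i ^ 2)) =
      fun η => ∏ i, Real.exp (-τ * η i ^ 2) := by
    funext η
    rw [← Real.exp_sum, Finset.mul_sum]
  rw [h]
  exact Integrable.fintype_prod fun i => integrable_exp_neg_mul_sq hτ

theorem memLp_two_of_bound {X : Type*} [MeasurableSpace X] {μ : Measure X} {f : X → ℂ}
    (hf : Integrable f μ) {K : ℝ} (hK : ∀ x, ‖f x‖ ≤ K) : MemLp f 2 μ := by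
  rw [memLp_two_iff_integrable_sq_norm hf.1]
  refine (hf.norm.const_mul K).mono' (hf.1.norm.pow 2) (Filter.Eventually.of_forall fun x => ?_)
  rw [Real.norm_eq_abs, abs_of_nonneg (sq_nonneg _), sq]
  exact mul_le_mul_of_nonneg_right (hK x) (norm_nonneg _)

theorem core_bound (hM : Measurable M) (hB0 : 0 ≤ B) (hτ : 0 < τ)
    (hB : ∀ r, 0 ≤ r → |M r| ≤ B * Real.exp (-(τ * r ^ 2))) (hG : Adm m G) :
    ∫⁻ x : ℝ, ∫⁻ y : Fin m → ℝ, ‖Tm m M G y x‖ₑ ^ 2 ≤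
      ENNReal.ofReal (B ^ 2) * ∫⁻ x : ℝ, ∫⁻ η : Fin m → ℝ, ‖G η x‖ₑ ^ 2 := by
  obtain ⟨hGm, g, hg, hGg⟩ := hG
  have hg0 : ∀ x, 0 ≤ g x := fun x => (norm_nonneg _).trans (hGg 0 x)
  set γ : ℝ := ∫ x, g x with hγ
  have hγ0 : 0 ≤ γ := integral_nonneg hg0
  have hGi : ∀ η, Integrable (G η) := fun η =>
    hg.mono' (hGm.comp measurable_prodMk_left).aestronglyMeasurable
      (Filter.Eventually.of_forall fun x => hGg η x)
  have hft : ∀ η ξ, ‖ft (G η) ξ‖ ≤ γ := fun η ξ =>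
    (norm_ft_le _ _).trans (integral_mono (hGi η).norm hg fun x => hGg η x)
  -- the function q
  set q : (Fin m → ℝ) → ℝ → ℂ := fun η ξ =>
    ((M (ra (Real.sqrt (∑ i, η i ^ 2)) ξ) : ℝ) : ℂ) * ft (G η) ξ with hq
  have hqm : Measurable (fun p : (Fin m → ℝ) × ℝ => q p.1 p.2) := measurable_q hM hGm
  have hqb : ∀ η ξ, ‖q η ξ‖ ≤ B * γ * Real.exp (-τ * ∑ i, η i ^ 2) * Real.exp (-τ * ξ ^ 2) := by
    intro η ξ
    simp only [hq, norm_mul, Complex.norm_real, Real.norm_eq_abs]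
    calc |M (ra (Real.sqrt (∑ i, η i ^ 2)) ξ)| * ‖ft (G η) ξ‖
        ≤ B * (Real.exp (-τ * ξ ^ 2) * Real.exp (-τ * ∑ i, η i ^ 2)) * γ :=
          mul_le_mul (M_bound hB η ξ) (hft η ξ) (norm_nonneg _) (by positivity)
      _ = _ := by ring
  have hE1 : ∀ ξ : ℝ, Real.exp (-τ * ξ ^ 2) ≤ 1 := fun ξ => by
    rw [Real.exp_le_one_iff]
    nlinarith [sq_nonneg ξ]
  have hqi : ∀ η, Integrable (q η) := fun η =>
    ((integrable_exp_neg_mul_sq hτ).const_mul (B * γ * Real.exp (-τ * ∑ i, η i ^ 2))).mono'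
      (hqm.comp measurable_prodMk_left).aestronglyMeasurable
      (Filter.Eventually.of_forall fun ξ => hqb η ξ)
  have hq2 : ∀ η, MemLp (q η) 2 := fun η => by
    refine memLp_two_of_bound (hqi η) (K := B * γ * Real.exp (-τ * ∑ i, η i ^ 2)) fun ξ => ?_
    exact (hqb η ξ).trans (mul_le_of_le_one_right (by positivity) (hE1 ξ))
  -- the function U
  set U : (Fin m → ℝ) → ℝ → ℂ := fun η x => Ux (Real.sqrt (∑ i, η i ^ 2)) M (G η) x with hU
  have hUq : ∀ η x, U η x = ∫ ξ : ℝ, e (x * ξ) * q η ξ := fun η x => rfl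
  have hUm : Measurable (fun p : (Fin m → ℝ) × ℝ => U p.1 p.2) := measurable_U hM hGm
  set K0 : ℝ := ∫ ξ : ℝ, Real.exp (-τ * ξ ^ 2) with hK0
  have hK00 : 0 ≤ K0 := integral_nonneg fun ξ => (Real.exp_pos _).le
  have hUb : ∀ η x, ‖U η x‖ ≤ B * γ * K0 * Real.exp (-τ * ∑ i, η i ^ 2) := by
    intro η x
    rw [hUq]
    refine (norm_integral_le_integral_norm _).trans ?_
    have h1 : ∀ ξ, ‖e (x * ξ) * q η ξ‖ ≤
        B * γ * Real.exp (-τ * ∑ i, η i ^ 2) * Real.exp (-τ * ξ ^ 2) := fun ξ => by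
      rw [norm_mul, norm_e, one_mul]
      exact hqb η ξ
    have h2 : Integrable (fun ξ => B * γ * Real.exp (-τ * ∑ i, η i ^ 2) * Real.exp (-τ * ξ ^ 2)) :=
      (integrable_exp_neg_mul_sq hτ).const_mul _
    have h3 : Integrable (fun ξ => ‖e (x * ξ) * q η ξ‖) := by
      have : (fun ξ => ‖e (x * ξ) * q η ξ‖) = fun ξ => ‖q η ξ‖ := by
        funext ξ
        rw [norm_mul, norm_e, one_mul]
      rw [this]
      exact (hqi η).norm
    refine (integral_mono h3 h2 h1).trans (le_of_eq ?_)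
    rw [integral_const_mul]
    ring
  have hgi := integrable_gauss (m := m) hτ
  have hUi : ∀ x, Integrable (fun η => U η x) := fun x =>
    (hgi.const_mul (B * γ * K0)).mono'
      (hUm.comp measurable_prodMk_right).aestronglyMeasurable
      (Filter.Eventually.of_forall fun η => hUb η x)
  have hE2 : ∀ η : Fin m → ℝ, Real.exp (-τ * ∑ i, η i ^ 2) ≤ 1 := fun η => by
    rw [Real.exp_le_one_iff]
    have : 0 ≤ ∑ i, η i ^ 2 := Finset.sum_nonneg fun i _ => sq_nonneg _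
    nlinarith
  have hU2 : ∀ x, MemLp (fun η => U η x) 2 := fun x => by
    refine memLp_two_of_bound (hUi x) (K := B * γ * K0) fun η => ?_
    exact (hUb η x).trans (mul_le_of_le_one_right (by positivity) (hE2 η))
  -- step 1
  have s1 : ∀ x, ∫⁻ y : Fin m → ℝ, ‖Tm m M G y x‖ₑ ^ 2 = ∫⁻ η : Fin m → ℝ, ‖U η x‖ₑ ^ 2 :=
    fun x => ftm_planch (fun η => U η x) (hUi x) (hU2 x)
  have s2 : ∀ η, ∫⁻ x : ℝ, ‖U η x‖ₑ ^ 2 = ∫⁻ ξ : ℝ, ‖q η ξ‖ₑ ^ 2 := fun η =>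
    ift_planch (q η) (hqi η) (hq2 η)
  have s3 : ∀ η, ∫⁻ ξ : ℝ, ‖ft (G η) ξ‖ₑ ^ 2 ≤ ∫⁻ x : ℝ, ‖G η x‖ₑ ^ 2 := by
    intro η
    by_cases h : MemLp (G η) 2
    · exact (ft_planch (G η) (hGi η) h).le
    · have : ∫⁻ x : ℝ, ‖G η x‖ₑ ^ 2 = ⊤ := by
        by_contra hne
        refine h ⟨(hGi η).1, ?_⟩
        rw [eLpNorm_lt_top_iff_lintegral_rpow_enorm_lt_top (by norm_num) (by norm_num)]
        simp only [ENNReal.toReal_ofNat, ENNReal.rpow_ofNat]
        exact lt_top_iff_ne_top.mpr hne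
      rw [this]
      exact le_top
  have s4 : ∀ η, ∫⁻ ξ : ℝ, ‖q η ξ‖ₑ ^ 2 ≤ ENNReal.ofReal (B ^ 2) * ∫⁻ x : ℝ, ‖G η x‖ₑ ^ 2 := by
    intro η
    refine le_trans ?_ (mul_le_mul_right (s3 η) _)
    rw [← lintegral_const_mul' _ _ ENNReal.ofReal_ne_top]
    refine lintegral_mono fun ξ => ?_
    have h1 : ‖q η ξ‖ₑ ≤ ENNReal.ofReal B * ‖ft (G η) ξ‖ₑ := by
      simp only [hq]
      rw [enorm_mul]
      refine mul_le_mul_left ?_ _
      rw [← ofReal_norm]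
      refine ENNReal.ofReal_le_ofReal ?_
      rw [Complex.norm_real, Real.norm_eq_abs]
      refine (M_bound hB η ξ).trans (mul_le_of_le_one_right hB0 ?_)
      exact mul_le_one₀ (hE1 ξ) (Real.exp_pos _).le (hE2 η)
    calc ‖q η ξ‖ₑ ^ 2 ≤ (ENNReal.ofReal B * ‖ft (G η) ξ‖ₑ) ^ 2 := by gcongr
      _ = ENNReal.ofReal (B ^ 2) * ‖ft (G η) ξ‖ₑ ^ 2 := by
        rw [mul_pow, ENNReal.ofReal_pow hB0]
  calc ∫⁻ x : ℝ, ∫⁻ y : Fin m → ℝ, ‖Tm m M G y x‖ₑ ^ 2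
      = ∫⁻ x : ℝ, ∫⁻ η : Fin m → ℝ, ‖U η x‖ₑ ^ 2 := lintegral_congr s1
    _ = ∫⁻ η : Fin m → ℝ, ∫⁻ x : ℝ, ‖U η x‖ₑ ^ 2 := by
        refine lintegral_lintegral_swap ?_
        have : Measurable (fun p : ℝ × (Fin m → ℝ) => U p.2 p.1) := hUm.comp measurable_swap
        exact (this.enorm.pow_const 2).aemeasurable
    _ ≤ ∫⁻ η : Fin m → ℝ, ENNReal.ofReal (B ^ 2) * ∫⁻ x : ℝ, ‖G η x‖ₑ ^ 2 := by
        refine lintegral_mono fun η => ?_
        rw [s2 η]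
        exact s4 η
    _ = ENNReal.ofReal (B ^ 2) * ∫⁻ η : Fin m → ℝ, ∫⁻ x : ℝ, ‖G η x‖ₑ ^ 2 :=
        lintegral_const_mul' _ _ ENNReal.ofReal_ne_top
    _ = ENNReal.ofReal (B ^ 2) * ∫⁻ x : ℝ, ∫⁻ η : Fin m → ℝ, ‖G η x‖ₑ ^ 2 := by
        congr 1
        refine lintegral_lintegral_swap ?_
        exact (hGm.enorm.pow_const 2).aemeasurable

end core

theorem measurable_mc (s τ t : ℝ) : Measurable (mc s τ t) := by
  unfold mc
  fun_prop

theorem measurable_ms (s τ t : ℝ) : Measurable (ms s τ t) := by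
  unfold ms
  fun_prop

theorem t_int {A : ℝ≥0∞} {f : ℝ → ℝ≥0∞} (h : ∀ t ∈ Icc (1 : ℝ) 2, f t ≤ A) :
    ∫⁻ t in Icc (1 : ℝ) 2, f t ≤ A := by
  refine (setLIntegral_mono' measurableSet_Icc h).trans ?_
  rw [lintegral_const, Measure.restrict_apply_univ, Real.volume_Icc]
  norm_num

theorem t2_thm : S_T2 := by
  intro m s hs
  refine ⟨3 ^ 2, by norm_num, fun τ G hτ hG => ⟨?_, ?_⟩⟩
  · refine t_int fun t ht => ?_
    refine (core_bound (measurable_mc s τ t) zero_le_one hτ (fun r _ => mc_bound hs) hG).trans ?_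
    gcongr
    norm_num
  · refine t_int fun t ht => ?_
    exact core_bound (measurable_ms s τ t) (by norm_num) hτ
      (fun r hr => ms_bound hs hr ht.1 ht.2) hG

end Pool.Agent.TH902.T2
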