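import Pool.Agent.TH605.AP.WF

set_option autoImplicit false

open Set Topology Filter

namespace Pool.Agent.TH902.J2845

open Pool.Agent.TH605.AP

lemma s_inj (B : BF) (i : Fin 4) : Function.Injective (s i) := by
  intro x y h
  have := congrArg (s i) h
  rwa [B.s_s, B.s_s] at this

lemma sg_inj (W : WF) (w : List (Fin 4)) : Function.Injective (sg w) := by
  intro x y h
  have := congrArg (sg w.reverse) h
  rwa [W.sg_reverse, W.sg_reverse] at this

lemma sg_rev' (W : WF) (w : List (Fin 4)) (z : OnePoint ℂ) : sg w (sg w.reverse z) = z := by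
  have := W.sg_reverse w.reverse z
  rwa [List.reverse_reverse] at this

lemma isCirc_sg (C : CF) (V : Set (OnePoint ℂ)) (hV : IsCirc V) (w : List (Fin 4)) :
    IsCirc (sg w '' V) := by
  induction w with
  | nil =>
    have : sg [] '' V = V := by
      show (fun z => z) '' V = V
      exact Set.image_id' V
    rw [this]
    exact hV
  | cons i w ih =>
    have : sg (i :: w) '' V = s i '' (sg w '' V) := by
      rw [Set.image_image]
      rfl
    rw [this]
    exact C.isCirc_s _ ih i

lemma uniq_image {f : OnePoint ℂ → OnePoint ℂ} {A : Set (OnePoint ℂ)}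
    (h : ∃! p, p ∈ A) : ∃! q, q ∈ f '' A := by
  obtain ⟨p, hp, hu⟩ := h
  refine ⟨f p, ⟨p, hp, rfl⟩, ?_⟩
  rintro q ⟨p', hp', rfl⟩
  rw [hu p' hp']

lemma uniq_sing (p : OnePoint ℂ) : ∃! q, q ∈ ({p} : Set (OnePoint ℂ)) := ⟨p, rfl, fun _ h => h⟩

lemma sg_append_image (W : WF) (u v : List (Fin 4)) (A : Set (OnePoint ℂ)) :
    sg (u ++ v) '' A = sg u '' (sg v '' A) := by
  rw [Set.image_image]
  refine Set.image_congr (fun z _ => ?_)
  exact W.sg_append u v z

lemma sg_cons_image (i : Fin 4) (w : List (Fin 4)) (A : Set (OnePoint ℂ)) :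
    sg (i :: w) '' A = s i '' (sg w '' A) := by
  rw [Set.image_image]
  rfl

lemma sg_nil_image (A : Set (OnePoint ℂ)) : sg [] '' A = A := by
  show (fun z => z) '' A = A
  exact Set.image_id' A

lemma sg_single_image (i : Fin 4) (A : Set (OnePoint ℂ)) : sg [i] '' A = s i '' A := by
  rw [sg_cons_image, sg_nil_image]

lemma others (i : Fin 4) : ∃ j k l : Fin 4, i ≠ j ∧ i ≠ k ∧ i ≠ l ∧ j ≠ k ∧ j ≠ l ∧ k ≠ l := by
  revert i; decide

lemma fourth (i j k : Fin 4) : i ≠ j → i ≠ k → j ≠ k → ∃ l : Fin 4, i ≠ l ∧ j ≠ l ∧ k ≠ l := by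
  revert i j k; decide

/-- first inclusion -/
lemma incl1 (B : BF) (W : WF) (C : CF) : Ob ⊆ PK := by
  rintro S ⟨w, k, rfl⟩
  unfold PK
  rw [Set.mem_sInter]
  rintro F ⟨h0, h1, h2, h3, hF⟩
  revert k
  induction w using List.reverseRecOn with
  | nil =>
    intro k
    rw [sg_nil_image]
    fin_cases k
    · exact h0
    · exact h1
    · exact h2
    · exact h3
  | append_singleton w i ih =>
    intro k
    rw [sg_append_image W, sg_single_image]
    by_cases hk : i = k
    · subst hk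
      obtain ⟨j1, j2, j3, n1, n2, n3, n4, n5, n6⟩ := others i
      have hw := sg_inj W w
      have hsi := s_inj B i
      have e1 := B.s_Cir i j1 n1
      have e2 := B.s_Cir i j2 n2
      have e3 := B.s_Cir i j3 n3
      have tan : ∀ a b : Fin 4, a ≠ b → ∃! p, p ∈ Cir a ∩ Cir b := by
        intro a b hab
        obtain ⟨c, d, hc⟩ : ∃ c d : Fin 4, a ≠ c ∧ a ≠ d ∧ b ≠ c ∧ b ≠ d ∧ c ≠ d := by
          revert a b; decide
        rw [B.Cir_inter a b c d hab hc.1 hc.2.1 hc.2.2.1 hc.2.2.2.1 hc.2.2.2.2]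
        exact uniq_sing _
      have V_tan : ∀ a : Fin 4, i ≠ a → ∃! p, p ∈ sg w '' (s i '' Cir i) ∩ sg w '' Cir a := by
        intro a ha
        have ea := B.s_Cir i a ha
        have : sg w '' (s i '' Cir i) ∩ sg w '' Cir a = sg w '' (s i '' (Cir i ∩ Cir a)) := by
          rw [Set.image_inter hsi, Set.image_inter hw, ea]
        rw [this]
        exact uniq_image (uniq_image (tan i a ha))
      refine hF _ (ih j1) _ (ih j2) _ (ih j3) _ ?_ ?_ ?_ ?_ ?_ (V_tan j1 n1) (V_tan j2 n2) (V_tan j3 n3)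
      · exact isCirc_sg C _ (C.isCirc_s _ (C.isCirc_Cir i) i) w
      · rw [← Set.image_inter hw]
        exact uniq_image (tan j1 j2 n4)
      · rw [← Set.image_inter hw]
        exact uniq_image (tan j2 j3 n6)
      · rw [← Set.image_inter hw]
        exact uniq_image (tan j1 j3 n5)
      · rw [← Set.image_inter hw, ← Set.image_inter hw, B.Cir_triple j1 j2 j3 n4 n5 n6,
          Set.image_empty]
    · rw [B.s_Cir i k hk]
      exact ih k

/-- reduced addresses -/
def Adr (w : List (Fin 4)) (k : Fin 4) : Prop := IsRed w ∧ ∀ u i, w = u ++ [i] → i = k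

lemma exists_adr (B : BF) (W : WF) : ∀ (n : ℕ) (w : List (Fin 4)) (k : Fin 4), w.length ≤ n →
    ∃ w' k', Adr w' k' ∧ sg w '' Cir k = sg w' '' Cir k' := by
  intro n
  induction n with
  | zero =>
    intro w k hw
    have hw0 : w = [] := List.length_eq_zero_iff.mp (by omega)
    subst hw0
    refine ⟨[], k, ⟨List.isChain_nil, ?_⟩, rfl⟩
    intro u i h
    exact absurd h (by simp)
  | succ n ih =>
    intro w k hw
    by_cases hA : Adr w k
    · exact ⟨w, k, hA, rfl⟩
    · unfold Adr at hA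
      rw [not_and_or] at hA
      rcases hA with hA | hA
      · -- not reduced
        obtain ⟨u, i, v, rfl⟩ : ∃ u i v, w = u ++ i :: i :: v := by
          by_contra hcon
          apply hA
          unfold IsRed
          rw [List.isChain_iff_forall_rel_of_append_cons_cons]
          intro a b l₁ l₂ hl hab
          subst hab
          exact hcon ⟨l₁, a, l₂, hl⟩
        have e : sg (u ++ i :: i :: v) '' Cir k = sg (u ++ v) '' Cir k := by
          rw [sg_append_image W, sg_append_image W, sg_cons_image, sg_cons_image]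
          congr 1
          rw [Set.image_image]
          simp only [B.s_s]
          exact Set.image_id' _
        rw [e]
        refine ih _ k ?_
        simp only [List.length_append, List.length_cons] at hw ⊢
        omega
      · push Not at hA
        obtain ⟨u, i, hu, hik⟩ := hA
        subst hu
        have e : sg (u ++ [i]) '' Cir k = sg u '' Cir k := by
          rw [sg_append_image W, sg_single_image, B.s_Cir i k hik]
        rw [e]
        refine ih _ k ?_
        simp only [List.length_append, List.length_cons, List.length_nil] at hw ⊢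
        omega

lemma head_sub (B : BF) : ∀ (v : List (Fin 4)) (a k : Fin 4), Adr (a :: v) k →
    sg (a :: v) '' Cir k ⊆ DiscI a := by
  intro v
  induction v with
  | nil =>
    intro a k h
    have hak : a = k := h.2 [] a rfl
    subst hak
    rw [sg_single_image]
    rintro _ ⟨z, hz, rfl⟩
    rw [B.s_DiscI]
    exact fun h' => Set.disjoint_left.mp (B.Cir_Disc a) hz h'
  | cons b v ih =>
    intro a k h
    have hab : a ≠ b := by
      have := h.1
      unfold IsRed at this
      rw [List.isChain_cons_cons] at this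
      exact this.1
    have h' : Adr (b :: v) k := by
      refine ⟨?_, ?_⟩
      · have := h.1
        unfold IsRed at this ⊢
        rw [List.isChain_cons_cons] at this
        exact this.2
      · intro u i hu
        exact h.2 (a :: u) i (by rw [hu]; rfl)
    rw [sg_cons_image]
    rintro _ ⟨z, hz, rfl⟩
    rw [B.s_DiscI]
    have h2 := ih b k h' hz
    exact fun h3 => Set.disjoint_left.mp (B.interI b a hab.symm) h2 h3

/-- the letter `a` is compatible with the address -/
def Cmp (a : Fin 4) (w : List (Fin 4)) (k : Fin 4) : Prop := (w = [] ∧ k ≠ a) ∨ ∃ v, w = a :: v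

lemma cmp_of (B : BF) {a k k2 : Fin 4} {v w2 : List (Fin 4)} (h1 : Adr (a :: v) k) (h2 : Adr w2 k2)
    (hne : (sg (a :: v) '' Cir k ∩ sg w2 '' Cir k2).Nonempty) : Cmp a w2 k2 := by
  obtain ⟨z, hz1, hz2⟩ := hne
  have g1 := head_sub B v a k h1 hz1
  cases w2 with
  | nil =>
    left
    refine ⟨rfl, ?_⟩
    rintro rfl
    rw [sg_nil_image] at hz2
    exact Set.disjoint_left.mp (B.Cir_Disc k2) hz2 (B.sub k2 g1)
  | cons b v2 =>
    right
    have g2 := head_sub B v2 b k2 h2 hz2
    have : b = a := by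
      by_contra hba
      exact Set.disjoint_left.mp (B.interI b a hba) g2 (B.sub a g1)
    subst this
    exact ⟨v2, rfl⟩

lemma cmp_tail (B : BF) {a k : Fin 4} {w : List (Fin 4)} (hA : Adr w k) (h : Cmp a w k) :
    Adr w.tail k ∧ sg w '' Cir k = s a '' (sg w.tail '' Cir k) := by
  rcases h with ⟨rfl, hk⟩ | ⟨v, rfl⟩
  · refine ⟨hA, ?_⟩
    rw [List.tail_nil, sg_nil_image, B.s_Cir a k hk.symm]
  · refine ⟨⟨?_, ?_⟩, ?_⟩
    · exact List.IsChain.tail hA.1
    · intro u i hu
      rw [List.tail_cons] at hu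
      exact hA.2 (a :: u) i (by rw [hu]; rfl)
    · rw [List.tail_cons, sg_cons_image]

lemma triple (B : BF) : ∀ (n : ℕ) (w1 w2 w3 : List (Fin 4)) (k1 k2 k3 : Fin 4),
    w1.length + w2.length + w3.length ≤ n → Adr w1 k1 → Adr w2 k2 → Adr w3 k3 →
    (sg w1 '' Cir k1 ∩ sg w2 '' Cir k2).Nonempty → (sg w2 '' Cir k2 ∩ sg w3 '' Cir k3).Nonempty →
    (sg w1 '' Cir k1 ∩ sg w3 '' Cir k3).Nonempty →
    ∃ b : List (Fin 4), sg w1 '' Cir k1 = sg b '' Cir k1 ∧ sg w2 '' Cir k2 = sg b '' Cir k2 ∧
      sg w3 '' Cir k3 = sg b '' Cir k3 := by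
  intro n
  induction n with
  | zero =>
    intro w1 w2 w3 k1 k2 k3 hn _ _ _ _ _ _
    have e1 : w1 = [] := List.length_eq_zero_iff.mp (by omega)
    have e2 : w2 = [] := List.length_eq_zero_iff.mp (by omega)
    have e3 : w3 = [] := List.length_eq_zero_iff.mp (by omega)
    subst e1 e2 e3
    exact ⟨[], rfl, rfl, rfl⟩
  | succ n ih =>
    intro w1 w2 w3 k1 k2 k3 hn A1 A2 A3 h12 h23 h13
    by_cases hall : w1 = [] ∧ w2 = [] ∧ w3 = []
    · obtain ⟨e1, e2, e3⟩ := hall
      subst e1 e2 e3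
      exact ⟨[], rfl, rfl, rfl⟩
    · -- a common letter
      obtain ⟨a, c1, c2, c3, hlen⟩ : ∃ a, Cmp a w1 k1 ∧ Cmp a w2 k2 ∧ Cmp a w3 k3 ∧
          1 ≤ w1.length + w2.length + w3.length := by
        cases w1 with
        | cons a v =>
          exact ⟨a, Or.inr ⟨v, rfl⟩, cmp_of B A1 A2 h12, cmp_of B A1 A3 h13, by
            simp only [List.length_cons]; omega⟩
        | nil =>
          cases w2 with
          | cons a v =>
            exact ⟨a, cmp_of B A2 A1 (by rwa [Set.inter_comm] at h12), Or.inr ⟨v, rfl⟩,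
              cmp_of B A2 A3 h23, by simp only [List.length_cons]; omega⟩
          | nil =>
            cases w3 with
            | cons a v =>
              exact ⟨a, cmp_of B A3 A1 (by rwa [Set.inter_comm] at h13),
                cmp_of B A3 A2 (by rwa [Set.inter_comm] at h23), Or.inr ⟨v, rfl⟩, by
                  simp only [List.length_cons]; omega⟩
            | nil => exact absurd ⟨rfl, rfl, rfl⟩ hall
      obtain ⟨A1', e1⟩ := cmp_tail B A1 c1
      obtain ⟨A2', e2⟩ := cmp_tail B A2 c2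
      obtain ⟨A3', e3⟩ := cmp_tail B A3 c3
      have hsa := s_inj B a
      rw [e1, e2, ← Set.image_inter hsa, Set.image_nonempty] at h12
      rw [e2, e3, ← Set.image_inter hsa, Set.image_nonempty] at h23
      rw [e1, e3, ← Set.image_inter hsa, Set.image_nonempty] at h13
      obtain ⟨b, b1, b2, b3⟩ := ih w1.tail w2.tail w3.tail k1 k2 k3 (by
        simp only [List.length_tail]
        omega) A1' A2' A3' h12 h23 h13
      refine ⟨a :: b, ?_, ?_, ?_⟩
      · rw [e1, b1, sg_cons_image]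
      · rw [e2, b2, sg_cons_image]
      · rw [e3, b3, sg_cons_image]

theorem PK_eq (B : BF) (W : WF) (C : CF)
    (hapol : ∀ V : Set (OnePoint ℂ), IsCirc V → ∀ i j k l : Fin 4,
      i ≠ j → i ≠ k → i ≠ l → j ≠ k → j ≠ l → k ≠ l →
      (∃! p, p ∈ V ∩ Cir i) → (∃! p, p ∈ V ∩ Cir j) → (∃! p, p ∈ V ∩ Cir k) →
      V = Cir l ∨ V = s l '' Cir l) : PK = Ob := by
  refine Set.Subset.antisymm ?_ (incl1 B W C)
  refine Set.sInter_subset_of_mem ?_
  refine ⟨⟨[], 0, (sg_nil_image _).symm⟩, ⟨[], 1, (sg_nil_image _).symm⟩,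
    ⟨[], 2, (sg_nil_image _).symm⟩, ⟨[], 3, (sg_nil_image _).symm⟩, ?_⟩
  rintro S ⟨u1, q1, hS⟩ T ⟨u2, q2, hT⟩ U ⟨u3, q3, hU⟩ V hV hST hTU hSU _ hVS hVT hVU
  obtain ⟨w1, k1, A1, e1⟩ := exists_adr B W _ u1 q1 le_rfl
  obtain ⟨w2, k2, A2, e2⟩ := exists_adr B W _ u2 q2 le_rfl
  obtain ⟨w3, k3, A3, e3⟩ := exists_adr B W _ u3 q3 le_rfl
  rw [e1] at hS
  rw [e2] at hT
  rw [e3] at hU
  subst hS hT hU
  obtain ⟨b, b1, b2, b3⟩ := triple B _ w1 w2 w3 k1 k2 k3 le_rfl A1 A2 A3 hST.exists hTU.exists hSU.exists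
  rw [b1, b2] at hST
  rw [b2, b3] at hTU
  rw [b1, b3] at hSU
  rw [b1] at hVS
  rw [b2] at hVT
  rw [b3] at hVU
  have hb := sg_inj W b
  have dist : ∀ i j : Fin 4, (∃! p, p ∈ sg b '' Cir i ∩ sg b '' Cir j) → i ≠ j := by
    rintro i j hu rfl
    rw [Set.inter_self] at hu
    obtain ⟨p, q, hpq, hp, hq⟩ := B.two i
    exact hpq (hb (hu.unique ⟨p, hp, rfl⟩ ⟨q, hq, rfl⟩))
  have d12 := dist _ _ hST
  have d23 := dist _ _ hTU
  have d13 := dist _ _ hSU
  obtain ⟨l, l1, l2, l3⟩ := fourth k1 k2 k3 d12 d13 d23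
  have hbr := sg_inj W b.reverse
  have tr : ∀ i : Fin 4, (∃! p, p ∈ V ∩ sg b '' Cir i) → ∃! p, p ∈ sg b.reverse '' V ∩ Cir i := by
    intro i hu
    have e : sg b.reverse '' V ∩ Cir i = sg b.reverse '' (V ∩ sg b '' Cir i) := by
      rw [Set.image_inter hbr]
      congr 1
      rw [Set.image_image]
      simp only [W.sg_reverse]
      exact (Set.image_id' _).symm
    rw [e]
    exact uniq_image hu
  have hres := hapol (sg b.reverse '' V) (isCirc_sg C V hV _) k1 k2 k3 l d12 d13 l1 d23 l2 l3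
    (tr k1 hVS) (tr k2 hVT) (tr k3 hVU)
  have hVb : V = sg b '' (sg b.reverse '' V) := by
    rw [Set.image_image]
    simp only [sg_rev' W]
    exact (Set.image_id' _).symm
  rcases hres with h | h
  · refine ⟨b, l, ?_⟩
    rw [hVb, h]
  · refine ⟨b ++ [l], l, ?_⟩
    rw [sg_append_image W, sg_single_image, hVb, h]

end Pool.Agent.TH902.J2845
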