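import Pool.Agent.TH902.JMilCalc

/-!
# MIL-U: bounds for the oscillating functions of `u`
-/

set_option autoImplicit false

namespace Pool.Agent.TH902.Mil

open Set Filter Topology MeasureTheory Pool.Agent.TH168.Mil
open scoped ContDiff

theorem hasDerivAt_Sp (L u : ℝ) : HasDerivAt (Sp L) (Sp1 L u) u := by
  have := ((Real.hasDerivAt_exp u).pow 3).const_mul L
  refine HasDerivAt.congr_deriv this ?_
  unfold Sp1
  push_cast
  ring

theorem hasDerivAt_Sp1 (L u : ℝ) : HasDerivAt (Sp1 L) (3 * Sp1 L u) u := by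
  have := ((Real.hasDerivAt_exp u).pow 3).const_mul (3 * L)
  refine HasDerivAt.congr_deriv this ?_
  unfold Sp1
  push_cast
  ring

theorem hasDerivAt_Sp1' (L u : ℝ) : HasDerivAt (fun u => 3 * Sp1 L u) (9 * Sp1 L u) u := by
  have := (hasDerivAt_Sp1 L u).const_mul 3
  refine HasDerivAt.congr_deriv this ?_
  ring

theorem Sp1_pos {L : ℝ} (hL : 1 ≤ L) (u : ℝ) : 0 < Sp1 L u := by
  unfold Sp1
  have := Real.exp_pos u
  positivity

theorem contDiff_rho : ContDiff ℝ ∞ rho := by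
  unfold rho
  exact Real.smoothTransition.contDiff.comp ((contDiff_const.mul contDiff_id).sub contDiff_const)

theorem contDiff_rr (c : ℝ) : ContDiff ℝ ∞ (fun u => rho (Real.exp u + c)) :=
  contDiff_rho.comp (Real.contDiff_exp.add contDiff_const)

theorem rho_zero {r : ℝ} (h : r ≤ 5 / 4) : rho r = 0 := by
  unfold rho
  exact Real.smoothTransition.zero_of_nonpos (by linarith)

theorem rho_one {r : ℝ} (h : 7 / 4 ≤ r) : rho r = 1 := by
  unfold rho
  exact Real.smoothTransition.one_of_one_le (by linarith)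

theorem rr_bdd {c : ℝ} (hc : c < 1) : ∃ N : ℝ, 1 ≤ N ∧ ∀ x,
    |rho (Real.exp x + c)| ≤ N ∧ |deriv (fun u => rho (Real.exp u + c)) x| ≤ N ∧
    |deriv (deriv (fun u => rho (Real.exp u + c))) x| ≤ N := by
  refine bdd_of_const (contDiff_rr c) (a := Real.log (5 / 4 - c)) (b := Real.log (7 / 4 - c))
    (c1 := 0) (c2 := 1) (fun x hx => ?_) (fun x hx => ?_)
  · have : Real.exp x < 5 / 4 - c := (Real.lt_log_iff_exp_lt (by linarith)).mp hx
    exact rho_zero (by linarith)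
  · have : 7 / 4 - c < Real.exp x := (Real.log_lt_iff_lt_exp (by linarith)).mp hx
    exact rho_one (by linarith)

theorem contDiff_Sp (L : ℝ) : ContDiff ℝ ∞ (Sp L) := by
  unfold Sp
  exact contDiff_const.mul (Real.contDiff_exp.pow 3)

theorem contDiff_Sp1 (L : ℝ) : ContDiff ℝ ∞ (Sp1 L) := by
  unfold Sp1
  exact contDiff_const.mul (Real.contDiff_exp.pow 3)

theorem pa_smooth {L : ℝ} (hL : 1 ≤ L) : ContDiff ℝ ∞ (pa L) := by
  unfold pa
  have h1 : ContDiff ℝ ∞ (fun u => rho (Real.exp u)) := contDiff_rho.comp Real.contDiff_exp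
  refine ContDiff.div ?_ ((contDiff_Sp1 L).pow 2) (fun u => (pow_pos (Sp1_pos hL u) 2).ne')
  refine ((contDiff_const.mul h1).mul (Real.contDiff_sin.comp (contDiff_Sp L))).add ?_
  exact (contDiff_const.mul (h1.pow 2)).mul
    (Real.contDiff_cos.comp (contDiff_const.mul (contDiff_Sp L)))

theorem Pc_smooth {L : ℝ} (hL : 1 ≤ L) : ContDiff ℝ ∞ (Pc L) := by
  unfold Pc
  have h1 : ContDiff ℝ ∞ (fun u => rho (Real.exp u)) := contDiff_rho.comp Real.contDiff_exp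
  refine ContDiff.div ?_ (contDiff_Sp1 L) (fun u => (Sp1_pos hL u).ne')
  refine (h1.div (Real.contDiff_exp.pow 2) (fun u => (pow_pos (Real.exp_pos u) 2).ne')).mul ?_
  exact Real.contDiff_cos.comp ((contDiff_Sp L).div_const 2)

theorem Ps_smooth {L : ℝ} (hL : 1 ≤ L) : ContDiff ℝ ∞ (Ps L) := by
  unfold Ps
  have h1 : ContDiff ℝ ∞ (fun u => rho (Real.exp u)) := contDiff_rho.comp Real.contDiff_exp
  refine ContDiff.div ?_ (contDiff_Sp1 L) (fun u => (Sp1_pos hL u).ne')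
  refine (h1.div (Real.contDiff_exp.pow 2) (fun u => (pow_pos (Real.exp_pos u) 2).ne')).mul ?_
  exact Real.contDiff_sin.comp ((contDiff_Sp L).div_const 2)

/-- weight divided by `exp (2 u)` -/
theorem D2_weight {w w1 w2 : ℝ → ℝ} (h : D2 w w1 w2) :
    D2 (fun u => w u / Real.exp u ^ 2) (fun u => (w1 u - 2 * w u) / Real.exp u ^ 2)
      (fun u => (w2 u - 4 * w1 u + 4 * w u) / Real.exp u ^ 2) := by
  have he : ∀ x : ℝ, HasDerivAt (fun u => Real.exp u ^ 2) (2 * Real.exp x ^ 2) x := by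
    intro x
    refine HasDerivAt.congr_deriv ((Real.hasDerivAt_exp x).pow 2) ?_
    push_cast
    ring
  refine ⟨fun x => ?_, fun x => ?_⟩
  · have hx := (Real.exp_pos x).ne'
    refine HasDerivAt.congr_deriv ((h.d1 x).div (he x) (pow_ne_zero 2 hx)) ?_
    field_simp
  · have hx := (Real.exp_pos x).ne'
    refine HasDerivAt.congr_deriv
      (((h.d2 x).sub ((h.d1 x).const_mul 2)).div (he x) (pow_ne_zero 2 hx)) ?_
    simp only [Pi.sub_apply]
    field_simp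
    ring

theorem u_bounds : ∃ M : ℝ, 0 < M ∧ ∀ L : ℝ, 1 ≤ L → ∀ u : ℝ, 0 ≤ u →
    |pa L u| ≤ M / (L * Real.exp u ^ 3) ^ 2 ∧
    |deriv (pa L) u| ≤ M / (L * Real.exp u ^ 3) ∧
    |deriv (deriv (pa L)) u - Up (Real.exp u) (Sp L u)| ≤ M / (L * Real.exp u ^ 3) ∧
    |Pc L u| ≤ M / (L * Real.exp u ^ 5) ∧
    |deriv (Pc L) u + rho (Real.exp u) / Real.exp u ^ 2 * Real.sin (Sp L u / 2) / 2| ≤
      M / (L * Real.exp u ^ 5) ∧
    |deriv (deriv (Pc L)) u| ≤ M * L * Real.exp u ∧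
    |Ps L u| ≤ M / (L * Real.exp u ^ 5) ∧
    |deriv (Ps L) u - rho (Real.exp u) / Real.exp u ^ 2 * Real.cos (Sp L u / 2) / 2| ≤
      M / (L * Real.exp u ^ 5) ∧
    |deriv (deriv (Ps L)) u| ≤ M * L * Real.exp u := by
  obtain ⟨N, hN1, hN⟩ := rr_bdd (c := 0) (by norm_num)
  simp only [add_zero] at hN
  have hrr : ContDiff ℝ ∞ (fun u => rho (Real.exp u)) := contDiff_rho.comp Real.contDiff_exp
  obtain ⟨r0, hr0⟩ : ∃ r0 : ℝ → ℝ, r0 = fun u => rho (Real.exp u) := ⟨_, rfl⟩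
  obtain ⟨r1, hr1⟩ : ∃ r1 : ℝ → ℝ, r1 = deriv (fun u => rho (Real.exp u)) := ⟨_, rfl⟩
  obtain ⟨r2, hr2⟩ : ∃ r2 : ℝ → ℝ, r2 = deriv (deriv (fun u => rho (Real.exp u))) := ⟨_, rfl⟩
  have hD : D2 r0 r1 r2 := by
    rw [hr0, hr1, hr2]
    exact D2.of_smooth hrr
  have hb : ∀ x, |r0 x| ≤ N ∧ |r1 x| ≤ N ∧ |r2 x| ≤ N := by
    rw [hr0, hr1, hr2]
    exact hN
  have hrho : ∀ x, rho (Real.exp x) = r0 x := fun x => by rw [hr0]
  have hNN : N ≤ N ^ 2 := by nlinarith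
  have hN0 : 0 < N := by linarith
  refine ⟨5000 * N ^ 2, by positivity, fun L hL u hu => ?_⟩
  have hE : 1 ≤ Real.exp u := Real.one_le_exp hu
  have hE0 : 0 < Real.exp u := Real.exp_pos u
  have hL0 : 0 < L := by linarith
  have hP0 : 0 < Sp1 L u := Sp1_pos hL u
  have hE3 : 1 ≤ Real.exp u ^ 3 := one_le_pow₀ hE
  have hLE : 1 ≤ L * Real.exp u ^ 3 := by nlinarith
  have hPL : L * Real.exp u ^ 3 ≤ Sp1 L u := by
    unfold Sp1
    nlinarith
  have hP1 : 1 ≤ Sp1 L u := hLE.trans hPL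
  obtain ⟨b0, b1', b2'⟩ := hb u
  obtain ⟨⟨ws0, ws1, ws2⟩, ⟨wc0, wc1, wc2⟩, ⟨wd0, wd1, wd2⟩, ⟨we0, we1, we2⟩⟩ := W_bounds (Sp L u)
  have hQ : |3 * Sp1 L u| ≤ 3 * Sp1 L u := by rw [abs_of_pos (by positivity)]
  have hR : |9 * Sp1 L u| ≤ 9 * Sp1 L u := by rw [abs_of_pos (by positivity)]
  -- the function pa
  have hA := hD.const_mul (-(1 / 40))
  have hB := (hD.mul hD).const_mul eta
  have hdA := h2_d2 hA D2_sin (hasDerivAt_Sp L) (hasDerivAt_Sp1 L) (hasDerivAt_Sp1' L)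
    (fun x => (Sp1_pos hL x).ne')
  have hdB := h2_d2 hB D2_cos2 (hasDerivAt_Sp L) (hasDerivAt_Sp1 L) (hasDerivAt_Sp1' L)
    (fun x => (Sp1_pos hL x).ne')
  have hpa : pa L = fun u => (-(1 / 40) * r0 u) * Real.sin (Sp L u) / Sp1 L u ^ 2 +
      (eta * (r0 u * r0 u)) * Real.cos (2 * Sp L u) / Sp1 L u ^ 2 := by
    funext x
    unfold pa
    rw [hrho]
    ring
  have hdpa := hdA.add hdB
  have habsA : ∀ x : ℝ, |x| ≤ N → |-(1 / 40) * x| ≤ N ^ 2 := by
    intro x hx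
    rw [abs_mul]
    have : |(-(1 / 40) : ℝ)| = 1 / 40 := by norm_num [abs_of_neg]
    rw [this]
    nlinarith [abs_nonneg x]
  have habsB : ∀ x : ℝ, |x| ≤ 4 * N ^ 2 → |eta * x| ≤ N ^ 2 := by
    intro x hx
    have : |eta| = 1 / 10 ^ 6 := by unfold eta; norm_num
    rw [abs_mul, this]
    nlinarith [abs_nonneg x]
  obtain ⟨s0, s1, s2⟩ := sq_bounds hN1 b0 b1' b2'
  obtain ⟨l0, l1, l2⟩ := lin_bounds hN1 b0 b1' b2'
  obtain ⟨a1, a2, a3⟩ := b2 (w2 := -(1 / 40) * r2 u) hP1 (habsA _ b0) (habsA _ b1') (habsA _ b2')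
    ws0 ws1 hQ hR
  obtain ⟨c1, c2, c3⟩ := b2 (w := eta * (r0 u * r0 u))
    (w1 := eta * (r1 u * r0 u + r0 u * r1 u))
    (w2 := eta * (r2 u * r0 u + 2 * (r1 u * r1 u) + r0 u * r2 u)) hP1
    (habsB _ s0) (habsB _ s1) (habsB _ s2)
    wc0 wc1 hQ hR
  -- the weights for P
  have hw := D2_weight hD
  have hdc := h1_d2 hw D2_cosh (hasDerivAt_Sp L) (hasDerivAt_Sp1 L) (hasDerivAt_Sp1' L)
    (fun x => (Sp1_pos hL x).ne')
  have hds := h1_d2 hw D2_sinh (hasDerivAt_Sp L) (hasDerivAt_Sp1 L) (hasDerivAt_Sp1' L)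
    (fun x => (Sp1_pos hL x).ne')
  have hPc : Pc L = fun u => r0 u / Real.exp u ^ 2 * Real.cos (Sp L u / 2) / Sp1 L u := by
    funext x
    unfold Pc
    rw [hrho]
  have hPs : Ps L = fun u => r0 u / Real.exp u ^ 2 * Real.sin (Sp L u / 2) / Sp1 L u := by
    funext x
    unfold Ps
    rw [hrho]
  have hE2 : 0 < Real.exp u ^ 2 := by positivity
  have hwt : ∀ x : ℝ, |x| ≤ 9 * N ^ 2 → |x / Real.exp u ^ 2| ≤ 9 * N ^ 2 / Real.exp u ^ 2 := by
    intro x hx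
    rw [abs_div, abs_of_pos hE2]
    exact div_le_div_of_nonneg_right hx hE2.le
  have w0 := hwt _ l0
  have w1 := hwt _ l1
  have w2 := hwt _ l2
  obtain ⟨d1, d2, d3⟩ := b1 hP1 w0 w1 w2 wd0 wd1 wd2 hQ hR
  obtain ⟨e1, e2, e3⟩ := b1 hP1 w0 w1 w2 we0 we1 we2 hQ hR
  have hN2 : 0 < N ^ 2 := by positivity
  have q1 : ∀ c : ℝ, 0 ≤ c → c ≤ 5000 * N ^ 2 → c / Sp1 L u ≤
      5000 * N ^ 2 / (L * Real.exp u ^ 3) := by
    intro c hc0 hc
    exact div_le_div₀ (by positivity) hc (by positivity) hPL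
  have q2 : ∀ c : ℝ, 0 ≤ c → c ≤ 5000 * N ^ 2 → c / Sp1 L u ^ 2 ≤
      5000 * N ^ 2 / (L * Real.exp u ^ 3) ^ 2 := by
    intro c hc0 hc
    exact div_le_div₀ (by positivity) hc (by positivity)
      (pow_le_pow_left₀ (by positivity) hPL 2)
  have q3 : ∀ c : ℝ, 0 ≤ c → c ≤ 5000 * N ^ 2 → c / Real.exp u ^ 2 / Sp1 L u ≤
      5000 * N ^ 2 / (L * Real.exp u ^ 5) := by
    intro c hc0 hc
    rw [div_div]
    refine div_le_div₀ (by positivity) hc (by positivity) ?_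
    calc L * Real.exp u ^ 5 = Real.exp u ^ 2 * (L * Real.exp u ^ 3) := by ring
      _ ≤ Real.exp u ^ 2 * Sp1 L u := mul_le_mul_of_nonneg_left hPL hE2.le
  have q4 : 40 * (9 * N ^ 2 / Real.exp u ^ 2 * 4) * Sp1 L u ≤ 5000 * N ^ 2 * L * Real.exp u := by
    have : 40 * (9 * N ^ 2 / Real.exp u ^ 2 * 4) * Sp1 L u = 4320 * N ^ 2 * L * Real.exp u := by
      unfold Sp1
      field_simp
      ring
    rw [this]
    have : 0 ≤ N ^ 2 * L * Real.exp u := by positivity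
    linarith
  refine ⟨?_, ?_, ?_, ?_, ?_, ?_, ?_, ?_, ?_⟩
  · rw [hpa]
    refine (abs_add_le _ _).trans ?_
    refine (add_le_add a1 c1).trans ?_
    rw [← add_div]
    exact q2 _ (by positivity) (by linarith)
  · rw [hpa, hdpa.deriv_eq]
    refine (abs_add_le _ _).trans ?_
    refine (add_le_add a2 c2).trans ?_
    rw [← add_div]
    exact q1 _ (by positivity) (by linarith)
  · rw [hpa, hdpa.deriv2_eq]
    have hUp : Up (Real.exp u) (Sp L u) = (-(1 / 40) * r0 u) * (-Real.sin (Sp L u)) +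
        (eta * (r0 u * r0 u)) * (-4 * Real.cos (2 * Sp L u)) := by
      unfold Up
      rw [hrho]
      ring
    rw [hUp]
    have := (abs_add_le _ _).trans (add_le_add a3 c3)
    rw [← add_div] at this
    refine le_trans (le_of_eq ?_) (this.trans (q1 _ (by positivity) (by linarith)))
    congr 1
    ring
  · rw [hPc]
    refine d1.trans ?_
    rw [div_mul_eq_mul_div]
    exact q3 _ (by positivity) (by linarith)
  · rw [hPc, hdc.deriv_eq]
    have h1 : 4 * (9 * N ^ 2 / Real.exp u ^ 2 * 4) / Sp1 L u =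
        (144 * N ^ 2) / Real.exp u ^ 2 / Sp1 L u := by ring
    rw [h1] at d2
    refine le_trans (le_of_eq ?_) (d2.trans (q3 _ (by positivity) (by linarith)))
    rw [hrho]
    congr 1
    ring
  · rw [hPc, hdc.deriv2_eq]
    exact d3.trans q4
  · rw [hPs]
    refine e1.trans ?_
    rw [div_mul_eq_mul_div]
    exact q3 _ (by positivity) (by linarith)
  · rw [hPs, hds.deriv_eq]
    have h1 : 4 * (9 * N ^ 2 / Real.exp u ^ 2 * 4) / Sp1 L u =
        (144 * N ^ 2) / Real.exp u ^ 2 / Sp1 L u := by ring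
    rw [h1] at e2
    refine le_trans (le_of_eq ?_) (e2.trans (q3 _ (by positivity) (by linarith)))
    rw [hrho]
    congr 1
    ring
  · rw [hPs, hds.deriv2_eq]
    exact e3.trans q4

end Pool.Agent.TH902.Mil
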