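import Pool.Agent.TH902.J1787

/-!
# MIL-V: bounds for the oscillating functions of `v`
-/

set_option autoImplicit false

namespace Pool.Agent.TH902.Mil

open Set Filter Topology MeasureTheory Pool.Agent.TH168.Mil
open scoped ContDiff

/-- derivative of `Sm1` -/
noncomputable def Sm2 (L v : ℝ) : ℝ :=
  3 * L * Real.exp v * (Real.exp v + 1 / 500) ^ 2 +
    6 * L * Real.exp v ^ 2 * (Real.exp v + 1 / 500)

/-- derivative of `Sm2` -/
noncomputable def Sm3 (L v : ℝ) : ℝ :=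
  3 * L * Real.exp v * (Real.exp v + 1 / 500) ^ 2 +
    18 * L * Real.exp v ^ 2 * (Real.exp v + 1 / 500) + 6 * L * Real.exp v ^ 3

theorem hasDerivAt_rv (v : ℝ) : HasDerivAt (fun v => Real.exp v + 1 / 500) (Real.exp v) v :=
  (Real.hasDerivAt_exp v).add_const _

theorem hasDerivAt_Sm (L v : ℝ) : HasDerivAt (Sm L) (Sm1 L v) v := by
  have := ((hasDerivAt_rv v).pow 3).const_mul L
  refine HasDerivAt.congr_deriv this ?_
  unfold Sm1
  push_cast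
  ring

theorem hasDerivAt_Sm1 (L v : ℝ) : HasDerivAt (Sm1 L) (Sm2 L v) v := by
  have := ((Real.hasDerivAt_exp v).const_mul (3 * L)).mul ((hasDerivAt_rv v).pow 2)
  refine HasDerivAt.congr_deriv this ?_
  unfold Sm2
  simp only [Pi.pow_apply]
  push_cast
  ring

theorem hasDerivAt_Sm2 (L v : ℝ) : HasDerivAt (Sm2 L) (Sm3 L v) v := by
  have := (((Real.hasDerivAt_exp v).const_mul (3 * L)).mul ((hasDerivAt_rv v).pow 2)).add
    ((((Real.hasDerivAt_exp v).pow 2).const_mul (6 * L)).mul (hasDerivAt_rv v))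
  refine HasDerivAt.congr_deriv this ?_
  unfold Sm3
  simp only [Pi.pow_apply]
  push_cast
  ring

theorem Sm1_pos {L : ℝ} (hL : 1 ≤ L) (v : ℝ) : 0 < Sm1 L v := by
  unfold Sm1
  have := Real.exp_pos v
  positivity

theorem contDiff_rv : ContDiff ℝ ∞ (fun v : ℝ => Real.exp v + 1 / 500) :=
  Real.contDiff_exp.add contDiff_const

theorem contDiff_Sm (L : ℝ) : ContDiff ℝ ∞ (Sm L) := by
  unfold Sm
  exact contDiff_const.mul (contDiff_rv.pow 3)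

theorem contDiff_Sm1 (L : ℝ) : ContDiff ℝ ∞ (Sm1 L) := by
  unfold Sm1
  exact (contDiff_const.mul Real.contDiff_exp).mul (contDiff_rv.pow 2)

theorem pb_smooth {L : ℝ} (hL : 1 ≤ L) : ContDiff ℝ ∞ (pb L) := by
  unfold pb
  have h1 : ContDiff ℝ ∞ (fun v => rho (Real.exp v + 1 / 500)) := contDiff_rr _
  refine ContDiff.div ?_ ((contDiff_Sm1 L).pow 2) (fun u => (pow_pos (Sm1_pos hL u) 2).ne')
  refine ((contDiff_const.mul h1).mul (Real.contDiff_sin.comp (contDiff_Sm L))).sub ?_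
  exact (contDiff_const.mul (h1.pow 2)).mul
    (Real.contDiff_cos.comp (contDiff_const.mul (contDiff_Sm L)))

theorem Qc_smooth {L : ℝ} (hL : 1 ≤ L) : ContDiff ℝ ∞ (Qc L) := by
  unfold Qc
  refine ContDiff.div ?_ (contDiff_Sm1 L) (fun u => (Sm1_pos hL u).ne')
  exact Real.contDiff_cos.comp ((contDiff_Sm L).div_const 2)

theorem Qs_smooth {L : ℝ} (hL : 1 ≤ L) : ContDiff ℝ ∞ (Qs L) := by
  unfold Qs
  refine ContDiff.div ?_ (contDiff_Sm1 L) (fun u => (Sm1_pos hL u).ne')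
  exact Real.contDiff_sin.comp ((contDiff_Sm L).div_const 2)

theorem D2_one : D2 (fun _ => 1) (fun _ => 0) (fun _ => 0) :=
  ⟨fun x => hasDerivAt_const x 1, fun x => hasDerivAt_const x 0⟩

theorem Sm_facts {L v : ℝ} (hL : 1 ≤ L) (hv : 0 ≤ v) :
    L * Real.exp v ^ 3 ≤ Sm1 L v ∧ |Sm2 L v| ≤ 3 * Sm1 L v ∧ |Sm3 L v| ≤ 9 * Sm1 L v ∧
      Sm1 L v ≤ 4 * L * Real.exp v ^ 3 := by
  have hE : 1 ≤ Real.exp v := Real.one_le_exp hv
  obtain ⟨e, he⟩ : ∃ e, e = Real.exp v := ⟨_, rfl⟩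
  unfold Sm1 Sm2 Sm3
  rw [← he] at hE ⊢
  have hL0 : 0 < L := by linarith
  have he0 : 0 < e := by linarith
  have h1 : e ^ 2 ≤ (e + 1 / 500) ^ 2 := by nlinarith
  have h2 : e * (e + 1 / 500) ≤ (e + 1 / 500) ^ 2 := by nlinarith
  have hLe : 0 < L * e := by positivity
  have k1 : L * e * e ^ 2 ≤ L * e * (e + 1 / 500) ^ 2 := mul_le_mul_of_nonneg_left h1 hLe.le
  have k2 : L * e * (e * (e + 1 / 500)) ≤ L * e * (e + 1 / 500) ^ 2 :=
    mul_le_mul_of_nonneg_left h2 hLe.le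
  have k3 : 0 ≤ L * e * (e + 1 / 500) ^ 2 := by positivity
  have h3 : (e + 1 / 500) ^ 2 ≤ 4 / 3 * e ^ 2 := by nlinarith
  have k4 : L * e * (e + 1 / 500) ^ 2 ≤ L * e * (4 / 3 * e ^ 2) :=
    mul_le_mul_of_nonneg_left h3 hLe.le
  refine ⟨?_, ?_, ?_, ?_⟩
  · nlinarith
  · rw [abs_of_pos (by positivity)]
    nlinarith
  · rw [abs_of_pos (by positivity)]
    nlinarith
  · nlinarith

theorem v_bounds : ∃ M : ℝ, 0 < M ∧ ∀ L : ℝ, 1 ≤ L → ∀ v : ℝ, 0 ≤ v →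
    |pb L v| ≤ M / (L * Real.exp v ^ 3) ^ 2 ∧
    |deriv (pb L) v| ≤ M / (L * Real.exp v ^ 3) ∧
    |deriv (deriv (pb L)) v - Um (Real.exp v + 1 / 500) (Sm L v)| ≤ M / (L * Real.exp v ^ 3) ∧
    |Qc L v| ≤ M / (L * Real.exp v ^ 3) ∧
    |deriv (Qc L) v + Real.sin (Sm L v / 2) / 2| ≤ M / (L * Real.exp v ^ 3) ∧
    |deriv (deriv (Qc L)) v| ≤ M * L * Real.exp v ^ 3 ∧
    |Qs L v| ≤ M / (L * Real.exp v ^ 3) ∧
    |deriv (Qs L) v - Real.cos (Sm L v / 2) / 2| ≤ M / (L * Real.exp v ^ 3) ∧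
    |deriv (deriv (Qs L)) v| ≤ M * L * Real.exp v ^ 3 := by
  obtain ⟨N, hN1, hN⟩ := rr_bdd (c := 1 / 500) (by norm_num)
  obtain ⟨r0, hr0⟩ : ∃ r0 : ℝ → ℝ, r0 = fun u => rho (Real.exp u + 1 / 500) := ⟨_, rfl⟩
  obtain ⟨r1, hr1⟩ : ∃ r1 : ℝ → ℝ, r1 = deriv (fun u => rho (Real.exp u + 1 / 500)) := ⟨_, rfl⟩
  obtain ⟨r2, hr2⟩ : ∃ r2 : ℝ → ℝ, r2 = deriv (deriv (fun u => rho (Real.exp u + 1 / 500))) :=
    ⟨_, rfl⟩
  have hD : D2 r0 r1 r2 := by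
    rw [hr0, hr1, hr2]
    exact D2.of_smooth (contDiff_rr _)
  have hb : ∀ x, |r0 x| ≤ N ∧ |r1 x| ≤ N ∧ |r2 x| ≤ N := by
    rw [hr0, hr1, hr2]
    exact hN
  have hrho : ∀ x, rho (Real.exp x + 1 / 500) = r0 x := fun x => by rw [hr0]
  have hNN : N ≤ N ^ 2 := by nlinarith
  have hN21 : 1 ≤ N ^ 2 := by nlinarith
  have hN0 : 0 < N := by linarith
  refine ⟨5000 * N ^ 2, by positivity, fun L hL v hv => ?_⟩
  have hE : 1 ≤ Real.exp v := Real.one_le_exp hv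
  have hE0 : 0 < Real.exp v := Real.exp_pos v
  have hL0 : 0 < L := by linarith
  have hP0 : 0 < Sm1 L v := Sm1_pos hL v
  have hE3 : 1 ≤ Real.exp v ^ 3 := one_le_pow₀ hE
  have hLE : 1 ≤ L * Real.exp v ^ 3 := by nlinarith
  obtain ⟨hPL, hQ, hR, hPU⟩ := Sm_facts hL hv
  have hP1 : 1 ≤ Sm1 L v := hLE.trans hPL
  obtain ⟨b0, b1', b2'⟩ := hb v
  obtain ⟨⟨ws0, ws1, ws2⟩, ⟨wc0, wc1, wc2⟩, ⟨wd0, wd1, wd2⟩, ⟨we0, we1, we2⟩⟩ := W_bounds (Sm L v)
  -- the function pb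
  have hA := hD.const_mul (-(1 / 40))
  have hB := (hD.mul hD).const_mul eta
  have hdA := h2_d2 hA D2_sin (hasDerivAt_Sm L) (hasDerivAt_Sm1 L) (hasDerivAt_Sm2 L)
    (fun x => (Sm1_pos hL x).ne')
  have hdB := h2_d2 hB D2_cos2 (hasDerivAt_Sm L) (hasDerivAt_Sm1 L) (hasDerivAt_Sm2 L)
    (fun x => (Sm1_pos hL x).ne')
  have hpb : pb L = fun u => (-(1 / 40) * r0 u) * Real.sin (Sm L u) / Sm1 L u ^ 2 -
      (eta * (r0 u * r0 u)) * Real.cos (2 * Sm L u) / Sm1 L u ^ 2 := by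
    funext x
    unfold pb
    rw [hrho]
    ring
  have hdpb := hdA.sub hdB
  have habsA : ∀ x : ℝ, |x| ≤ N → |-(1 / 40) * x| ≤ N ^ 2 := by
    intro x hx
    rw [abs_mul]
    have : |(-(1 / 40) : ℝ)| = 1 / 40 := by norm_num [abs_of_neg]
    rw [this]
    nlinarith [abs_nonneg x]
  have habsB : ∀ x : ℝ, |x| ≤ 4 * N ^ 2 → |eta * x| ≤ N ^ 2 := by
    intro x hx
    have : |eta| = 1 / 10 ^ 6 := by unfold eta; norm_num
    rw [abs_mul, this]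
    nlinarith [abs_nonneg x]
  obtain ⟨s0, s1, s2⟩ := sq_bounds hN1 b0 b1' b2'
  obtain ⟨a1, a2, a3⟩ := b2 (w2 := -(1 / 40) * r2 v) hP1 (habsA _ b0) (habsA _ b1') (habsA _ b2')
    ws0 ws1 hQ hR
  obtain ⟨c1, c2, c3⟩ := b2 (w := eta * (r0 v * r0 v))
    (w1 := eta * (r1 v * r0 v + r0 v * r1 v))
    (w2 := eta * (r2 v * r0 v + 2 * (r1 v * r1 v) + r0 v * r2 v)) hP1
    (habsB _ s0) (habsB _ s1) (habsB _ s2)
    wc0 wc1 hQ hR
  have hdc := h1_d2 D2_one D2_cosh (hasDerivAt_Sm L) (hasDerivAt_Sm1 L) (hasDerivAt_Sm2 L)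
    (fun x => (Sm1_pos hL x).ne')
  have hds := h1_d2 D2_one D2_sinh (hasDerivAt_Sm L) (hasDerivAt_Sm1 L) (hasDerivAt_Sm2 L)
    (fun x => (Sm1_pos hL x).ne')
  have hQc : Qc L = fun u => 1 * Real.cos (Sm L u / 2) / Sm1 L u := by
    funext x
    unfold Qc
    rw [one_mul]
  have hQs : Qs L = fun u => 1 * Real.sin (Sm L u / 2) / Sm1 L u := by
    funext x
    unfold Qs
    rw [one_mul]
  have i1 : |(1 : ℝ)| ≤ 1 := by norm_num
  have i0 : |(0 : ℝ)| ≤ 1 := by norm_num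
  obtain ⟨d1, d2, d3⟩ := b1 hP1 i1 i0 i0 wd0 wd1 wd2 hQ hR
  obtain ⟨e1, e2, e3⟩ := b1 hP1 i1 i0 i0 we0 we1 we2 hQ hR
  have q1 : ∀ c : ℝ, 0 ≤ c → c ≤ 5000 * N ^ 2 → c / Sm1 L v ≤
      5000 * N ^ 2 / (L * Real.exp v ^ 3) := by
    intro c hc0 hc
    exact div_le_div₀ (by positivity) hc (by positivity) hPL
  have q2 : ∀ c : ℝ, 0 ≤ c → c ≤ 5000 * N ^ 2 → c / Sm1 L v ^ 2 ≤
      5000 * N ^ 2 / (L * Real.exp v ^ 3) ^ 2 := by
    intro c hc0 hc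
    exact div_le_div₀ (by positivity) hc (by positivity)
      (pow_le_pow_left₀ (by positivity) hPL 2)
  have q4 : 40 * (1 * 4) * Sm1 L v ≤ 5000 * N ^ 2 * L * Real.exp v ^ 3 := by
    have h1 : L * Real.exp v ^ 3 ≤ N ^ 2 * (L * Real.exp v ^ 3) :=
      le_mul_of_one_le_left (by positivity) hN21
    have h2 : 0 ≤ L * Real.exp v ^ 3 := by positivity
    linarith
  refine ⟨?_, ?_, ?_, ?_, ?_, ?_, ?_, ?_, ?_⟩
  · rw [hpb]
    refine (abs_sub _ _).trans ?_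
    refine (add_le_add a1 c1).trans ?_
    rw [← add_div]
    exact q2 _ (by positivity) (by linarith)
  · rw [hpb, hdpb.deriv_eq]
    refine (abs_sub _ _).trans ?_
    refine (add_le_add a2 c2).trans ?_
    rw [← add_div]
    exact q1 _ (by positivity) (by linarith)
  · rw [hpb, hdpb.deriv2_eq]
    have hUm : Um (Real.exp v + 1 / 500) (Sm L v) = (-(1 / 40) * r0 v) * (-Real.sin (Sm L v)) -
        (eta * (r0 v * r0 v)) * (-4 * Real.cos (2 * Sm L v)) := by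
      unfold Um
      rw [hrho]
      ring
    rw [hUm]
    have := (abs_sub _ _).trans (add_le_add a3 c3)
    rw [← add_div] at this
    refine le_trans (le_of_eq ?_) (this.trans (q1 _ (by positivity) (by linarith)))
    congr 1
    ring
  · rw [hQc]
    exact d1.trans (q1 _ (by positivity) (by linarith))
  · rw [hQc, hdc.deriv_eq]
    refine le_trans (le_of_eq ?_) (d2.trans (q1 _ (by positivity) (by linarith)))
    congr 1
    ring
  · rw [hQc, hdc.deriv2_eq]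
    exact d3.trans q4
  · rw [hQs]
    exact e1.trans (q1 _ (by positivity) (by linarith))
  · rw [hQs, hds.deriv_eq]
    refine le_trans (le_of_eq ?_) (e2.trans (q1 _ (by positivity) (by linarith)))
    congr 1
    ring
  · rw [hQs, hds.deriv2_eq]
    exact e3.trans q4

end Pool.Agent.TH902.Mil
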