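import Pool.Agent.TH229.Coin.Defs

/-!
# Existence and uniqueness of the billiard map of a strictly convex curve (job COIN-EXIST,
helper902 for helper229)
-/

set_option autoImplicit false

namespace Pool.Agent.TH902.CoinExist

open Pool.Agent.H738R2.Cyl Complex Pool.Agent.TH229.Coin Set Filter Topology

variable {γ : ℝ → ℂ} {L : ℝ}

lemma differentiable (hγ : StrictlyConvexCurve γ L) : Differentiable ℝ γ :=
  hγ.smooth.differentiable (by simp)

lemma ne_of_mem (hγ : StrictlyConvexCurve γ L) (s : ℝ) {u : ℝ} (h0 : 0 < u) (hL : u < L) :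
    γ (s + u) ≠ γ s := by
  intro he
  have h1 := hγ.coe_eq he
  rw [← sub_eq_zero, ← AddCircle.coe_sub, AddCircle.coe_eq_zero_iff] at h1
  obtain ⟨n, hn⟩ := h1
  rw [zsmul_eq_mul, add_sub_cancel_left] at hn
  have hLp := hγ.length_pos
  have h2 : (0 : ℝ) < n := by
    by_contra hcon
    push Not at hcon
    have := mul_nonpos_of_nonpos_of_nonneg hcon hLp.le
    linarith
  have h3 : (n : ℝ) < 1 := by
    by_contra hcon
    push Not at hcon
    have := mul_le_mul_of_nonneg_right hcon hLp.le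
    linarith
  have h4 : (0 : ℤ) < n := by exact_mod_cast h2
  have h5 : n < (1 : ℤ) := by exact_mod_cast h3
  omega

lemma exists_pos {φ : ℝ → ℝ} {a b d : ℝ} (hab : a < b) (h : HasDerivAt φ d a) (hd : d < 0)
    (h0 : φ a = 0) : ∃ u, a < u ∧ u < b ∧ φ u < 0 := by
  rw [hasDerivAt_iff_tendsto_slope] at h
  have h1 : ∀ᶠ u in 𝓝[>] a, slope φ a u < 0 :=
    (h.mono_left (nhdsWithin_mono a fun u hu => ne_of_gt hu)).eventually (gt_mem_nhds hd)
  obtain ⟨u, hu1, hu2⟩ := (h1.and (Ioo_mem_nhdsGT hab)).exists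
  refine ⟨u, hu2.1, hu2.2, ?_⟩
  rw [slope_def_field, h0, sub_zero, div_neg_iff] at hu1
  rcases hu1 with h3 | h3
  · linarith [h3.2, hu2.1]
  · exact h3.1

lemma exists_neg {φ : ℝ → ℝ} {a b d : ℝ} (hab : a < b) (h : HasDerivAt φ d b) (hd : d < 0)
    (h0 : φ b = 0) : ∃ u, a < u ∧ u < b ∧ 0 < φ u := by
  rw [hasDerivAt_iff_tendsto_slope] at h
  have h1 : ∀ᶠ u in 𝓝[<] b, slope φ b u < 0 :=
    (h.mono_left (nhdsWithin_mono b fun u hu => ne_of_lt hu)).eventually (gt_mem_nhds hd)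
  obtain ⟨u, hu1, hu2⟩ := (h1.and (Ioo_mem_nhdsLT hab)).exists
  refine ⟨u, hu2.1, hu2.2, ?_⟩
  rw [slope_def_field, h0, sub_zero, div_neg_iff] at hu1
  rcases hu1 with h3 | h3
  · exact h3.1
  · linarith [h3.2, hu2.2]

lemma sin_pos_of {α : ℝ} (hα : α ∈ Ioo (0 : ℝ) Real.pi) : 0 < Real.sin α :=
  Real.sin_pos_of_pos_of_lt_pi hα.1 hα.2

/-- the chord meets the curve again -/
lemma exists_chord (hγ : StrictlyConvexCurve γ L) (s α : ℝ) (hα : α ∈ Ioo (0 : ℝ) Real.pi) :
    ∃ s₁ α₁ : ℝ, α₁ ∈ Ioo (0 : ℝ) Real.pi ∧ Chord γ s α s₁ α₁ := by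
  have hL := hγ.length_pos
  have hsin := sin_pos_of hα
  set w : ℂ := exp (α * I) * deriv γ s with hw
  have hwn : ‖w‖ = 1 := by
    rw [hw, norm_mul, hγ.unit_speed, mul_one, Complex.norm_exp_ofReal_mul_I]
  have hww : (starRingEnd ℂ) w * w = 1 := by
    rw [Complex.conj_mul', hwn]
    simp
  have hgg : (starRingEnd ℂ) (deriv γ s) * deriv γ s = 1 := by
    rw [Complex.conj_mul', hγ.unit_speed]
    simp
  set φ : ℝ → ℝ := fun u => ((starRingEnd ℂ) w * (γ (s + u) - γ s)).im with hφ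
  have hder : ∀ u, HasDerivAt φ ((starRingEnd ℂ) w * deriv γ (s + u)).im u := by
    intro u
    have h1 : HasDerivAt γ (deriv γ (s + u)) (s + u) := (differentiable hγ (s + u)).hasDerivAt
    have h2 : HasDerivAt (fun u => γ (s + u)) (deriv γ (s + u)) u := h1.comp_const_add s u
    have h3 : HasDerivAt (fun u => (starRingEnd ℂ) w * (γ (s + u) - γ s))
        ((starRingEnd ℂ) w * deriv γ (s + u)) u := (h2.sub_const _).const_mul _
    exact Complex.imCLM.hasFDerivAt.comp_hasDerivAt u h3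
  have hd0 : ((starRingEnd ℂ) w * deriv γ s).im = -Real.sin α := by
    have h1 : (starRingEnd ℂ) w * deriv γ s = (starRingEnd ℂ) (exp (α * I)) := by
      rw [hw, map_mul, mul_assoc, hgg, mul_one]
    rw [h1, Complex.conj_im, Complex.exp_ofReal_mul_I_im]
  have hφ0 : φ 0 = 0 := by
    show ((starRingEnd ℂ) w * (γ (s + 0) - γ s)).im = 0
    rw [add_zero, sub_self, mul_zero, Complex.zero_im]
  have hLc : ((s + L : ℝ) : AddCircle L) = (s : AddCircle L) := by
    rw [AddCircle.coe_add, AddCircle.coe_period, add_zero]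
  obtain ⟨hg1, hg2⟩ := hγ.eq_of_coe_eq hLc
  have hφL : φ L = 0 := by
    show ((starRingEnd ℂ) w * (γ (s + L) - γ s)).im = 0
    rw [hg1, sub_self, mul_zero, Complex.zero_im]
  have hder0 := hder 0
  rw [add_zero, hd0] at hder0
  have hderL := hder L
  rw [hg2, hd0] at hderL
  obtain ⟨a, ha0, ha1, ha2⟩ := exists_pos (b := L / 2) (by linarith) hder0 (by linarith) hφ0
  obtain ⟨b, hb0, hb1, hb2⟩ := exists_neg (a := L / 2) (by linarith) hderL (by linarith) hφL
  have hcont : ContinuousOn φ (Icc a b) := fun u _ => (hder u).continuousAt.continuousWithinAt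
  obtain ⟨u, hu, hu0⟩ := intermediate_value_Icc (by linarith) hcont ⟨ha2.le, hb2.le⟩
  have hu1 : 0 < u := lt_of_lt_of_le ha0 hu.1
  have hu2 : u < L := lt_of_le_of_lt hu.2 hb1
  have hne := ne_of_mem hγ s hu1 hu2
  set D : ℂ := γ (s + u) - γ s with hD
  set t : ℝ := ((starRingEnd ℂ) w * D).re with ht
  have hDt : D = t * w := by
    have h1 : (starRingEnd ℂ) w * D = t := by
      apply Complex.ext
      · rw [Complex.ofReal_re]
      · rw [Complex.ofReal_im]
        exact hu0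
    have h2 : D = ((starRingEnd ℂ) w * w) * D := by rw [hww, one_mul]
    rw [h2, ← h1]
    ring
  have htpos : 0 < t := by
    have h1 := hγ.strictly_convex s (s + u) hne
    rw [← hD, hDt] at h1
    have h2 : (starRingEnd ℂ) (deriv γ s) * (t * w) = t * exp (α * I) := by
      rw [hw]
      linear_combination (t * exp (α * I)) * hgg
    rw [h2, Complex.im_ofReal_mul, Complex.exp_ofReal_mul_I_im] at h1
    exact (mul_pos_iff_of_pos_right hsin).1 h1
  set v : ℂ := deriv γ (s + u) * (starRingEnd ℂ) w with hv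
  have hvn : ‖v‖ = 1 := by
    rw [hv, norm_mul, hγ.unit_speed, Complex.norm_conj, hwn, mul_one]
  have hvim : 0 < v.im := by
    have h1 := hγ.strictly_convex (s + u) s hne.symm
    have h2 : (starRingEnd ℂ) (deriv γ (s + u)) * (γ s - γ (s + u)) =
        ((-t : ℝ) : ℂ) * (starRingEnd ℂ) v := by
      have h3 : γ s - γ (s + u) = -(t * w) := by rw [← hDt, hD]; ring
      rw [h3, hv, map_mul, Complex.conj_conj]
      push_cast
      ring
    rw [h2, Complex.im_ofReal_mul, Complex.conj_im] at h1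
    have h4 : 0 < t * v.im := by linarith
    exact pos_of_mul_pos_right h4 htpos.le
  have harg : arg v ∈ Ioo (0 : ℝ) Real.pi := by
    have h1 := Complex.arg_mem_Ioc v
    have h2 : Real.sin (arg v) = v.im := by
      rw [Complex.sin_arg, hvn, div_one]
    constructor
    · by_contra hcon
      have := Real.sin_nonpos_of_nonpos_of_neg_pi_le (not_lt.1 hcon) h1.1.le
      linarith
    · refine lt_of_le_of_ne h1.2 fun he => ?_
      rw [he, Real.sin_pi] at h2
      linarith
  refine ⟨s + u, arg v, harg, t, htpos, ?_, ?_⟩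
  · rw [← hDt, hD]
    ring
  · rw [← hw]
    have h1 : exp (arg v * I) = v := by
      have := Complex.norm_mul_exp_arg_mul_I v
      rwa [hvn, Complex.ofReal_one, one_mul] at this
    rw [Complex.exp_neg, h1]
    have hv0 : v ≠ 0 := by
      intro h0
      rw [h0, norm_zero] at hvn
      exact zero_ne_one hvn
    rw [eq_comm, inv_mul_eq_iff_eq_mul₀ hv0, hv]
    linear_combination (-(deriv γ (s + u))) * hww

theorem exists_map {γ : ℝ → ℂ} {L : ℝ} (hγ : StrictlyConvexCurve γ L) :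
    ∃! T₁ : PhaseCylinder L → PhaseCylinder L, IsBilliardMap γ L T₁ := by
  have h : ∀ z : PhaseCylinder L, ∃ y : PhaseCylinder L, ∃ s s₁ : ℝ,
      (s : AddCircle L) = z.1 ∧ (s₁ : AddCircle L) = y.1 ∧ Chord γ s z.2 s₁ y.2 := by
    intro z
    obtain ⟨s, hs⟩ := QuotientAddGroup.mk_surjective z.1
    obtain ⟨s₁, α₁, hα₁, hc⟩ := exists_chord hγ s z.2 z.2.2
    exact ⟨((s₁ : AddCircle L), ⟨α₁, hα₁⟩), s, s₁, hs, rfl, hc⟩
  choose T hT using h
  refine ⟨T, hT, ?_⟩
  intro T' hT'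
  funext z
  obtain ⟨s, s₁, e1, e2, hc⟩ := hT z
  have h1 := IsBilliardMap.eq_of_chord hγ hT' hc
  have h2 : ((s : AddCircle L), z.2) = z := Prod.ext e1 rfl
  rw [h2] at h1
  rw [h1]
  exact Prod.ext e2 rfl

end Pool.Agent.TH902.CoinExist
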