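import Pool.Agent.TH32.H.Strong
import Pool.Agent.TH772.TZH_TOP

set_option autoImplicit false

/-! The strong form of the topological zeta function. -/

namespace Pool.Agent.TH902.TZH

open Polynomial Filter Topology Pool.Agent.H260TZ Pool.Agent.TH32 Pool.Agent.TH772.TZH

/-- the continuous character with value `Q` at one -/
lemma exists_char (ℓ : ℕ) [Fact ℓ.Prime] (Q : ℕ) (hQ : 1 < Q) (hmod : ℓ ∣ Q - 1) :
    ∃ E : AddChar ℤ_[ℓ] ℚ_[ℓ], Continuous E ∧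
      (∀ f : ℕ, E (f : ℤ_[ℓ]) = ((Q : ℚ) : ℚ_[ℓ]) ^ f) ∧ ∀ x, E x = 1 → x = 0 := by
  have hr : ‖(((Q - 1 : ℕ) : ℤ) : ℤ_[ℓ])‖ < 1 := by
    rw [PadicInt.norm_int_lt_one_iff_dvd]
    exact_mod_cast hmod
  have hr' : Tendsto ((((Q - 1 : ℕ) : ℤ) : ℤ_[ℓ]) ^ ·) atTop (𝓝 0) :=
    tendsto_pow_atTop_nhds_zero_of_norm_lt_one hr
  have hκ := PadicInt.continuous_addChar_of_value_at_one (p := ℓ) hr'
  have hκ1 := PadicInt.addChar_of_value_at_one_def (p := ℓ) hr'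
  set κ := PadicInt.addChar_of_value_at_one (p := ℓ) _ hr' with hκdef
  have hκQ : κ 1 = (Q : ℤ_[ℓ]) := by
    rw [hκ1]
    have : Q = 1 + (Q - 1) := by omega
    conv_rhs => rw [this]
    push_cast
    rfl
  let E : AddChar ℤ_[ℓ] ℚ_[ℓ] :=
    (PadicInt.Coe.ringHom (p := ℓ)).toMonoidHom.compAddChar κ
  have hE : ∀ x, E x = ((κ x : ℤ_[ℓ]) : ℚ_[ℓ]) := fun x => rfl
  have hEc : Continuous E := by
    have : Continuous (fun x => ((κ x : ℤ_[ℓ]) : ℚ_[ℓ])) := continuous_subtype_val.comp hκ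
    exact this
  have hEf : ∀ f : ℕ, E (f : ℤ_[ℓ]) = ((Q : ℚ) : ℚ_[ℓ]) ^ f := by
    intro f
    rw [hE, ← nsmul_one, AddChar.map_nsmul_eq_pow, hκQ]
    push_cast
    rfl
  refine ⟨E, hEc, hEf, ?_⟩
  intro x hx
  by_contra hx0
  have hall : ∀ y : ℤ_[ℓ], E (y * x) = 1 := by
    intro y
    refine PadicInt.denseRange_natCast.induction_on (p := fun y : ℤ_[ℓ] => E (y * x) = 1) y ?_ ?_
    · exact isClosed_eq (hEc.comp (continuous_id.mul continuous_const)) continuous_const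
    · intro n
      rw [← nsmul_eq_mul, AddChar.map_nsmul_eq_pow, hx, one_pow]
  have h1 := hall (((PadicInt.unitCoeff hx0)⁻¹ : ℤ_[ℓ]ˣ) : ℤ_[ℓ])
  have h2 : (((PadicInt.unitCoeff hx0)⁻¹ : ℤ_[ℓ]ˣ) : ℤ_[ℓ]) * x =
      ((ℓ ^ x.valuation : ℕ) : ℤ_[ℓ]) := by
    have h7 : (((PadicInt.unitCoeff hx0)⁻¹ : ℤ_[ℓ]ˣ) : ℤ_[ℓ]) * x =
        (((PadicInt.unitCoeff hx0)⁻¹ : ℤ_[ℓ]ˣ) : ℤ_[ℓ]) *
          ((PadicInt.unitCoeff hx0 : ℤ_[ℓ]) * (ℓ : ℤ_[ℓ]) ^ x.valuation) :=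
      congrArg _ (PadicInt.unitCoeff_spec hx0)
    rw [h7, ← mul_assoc, Units.inv_mul, one_mul]
    push_cast
    rfl
  rw [h2, hEf] at h1
  have h3 : (Q : ℚ) ^ (ℓ ^ x.valuation) = 1 := by exact_mod_cast h1
  have h4 : Q ^ (ℓ ^ x.valuation) = 1 := by exact_mod_cast h3
  have h5 : ℓ ^ x.valuation ≠ 0 := pow_ne_zero _ (Fact.out : ℓ.Prime).ne_zero
  have h6 := Nat.one_lt_pow h5 hQ
  omega

lemma cont_list {α : Type} {F : Type} [NormedField F] (q0 : F) (L : List α) (f : α → F → F)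
    (h : ∀ a ∈ L, ContinuousAt (f a) q0) :
    ContinuousAt (fun q => (L.map (fun a => f a q)).sum) q0 := by
  induction L with
  | nil => simpa using continuousAt_const
  | cons a L ih =>
    simp only [List.map_cons, List.sum_cons]
    exact (h a List.mem_cons_self).add (ih fun b hb => h b (List.mem_cons_of_mem _ hb))

lemma cont_listp {α : Type} {F : Type} [NormedField F] (q0 : F) (L : List α) (f : α → F → F)
    (h : ∀ a ∈ L, ContinuousAt (f a) q0) :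
    ContinuousAt (fun q => (L.map (fun a => f a q)).prod) q0 := by
  induction L with
  | nil => simpa using continuousAt_const
  | cons a L ih =>
    simp only [List.map_cons, List.prod_cons]
    exact (h a List.mem_cons_self).mul (ih fun b hb => h b (List.mem_cons_of_mem _ hb))

lemma cont_tm {F : Type} [NormedField F] (q0 : F) (h0 : q0 ≠ 0) (s : ℤ) (t : Tm)
    (h : ∀ d ∈ t.ds, 1 - q0 ^ d.1 * (q0 ^ (-s)) ^ d.2 ≠ 0) :
    ContinuousAt (fun q : F => t.val q (q ^ (-s))) q0 := by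
  unfold Tm.val
  have hz : ∀ n : ℤ, ContinuousAt (fun q : F => q ^ n) q0 := fun n =>
    continuousAt_zpow₀ q0 n (Or.inl h0)
  have hz2 : ∀ n : ℤ, ContinuousAt (fun q : F => (q ^ (-s)) ^ n) q0 := fun n =>
    (hz (-s)).zpow₀ n (Or.inl (zpow_ne_zero _ h0))
  refine ContinuousAt.div ((continuousAt_const.mul (hz _)).mul (hz2 _)) ?_ ?_
  · refine cont_listp q0 t.ds (fun d q => 1 - q ^ d.1 * (q ^ (-s)) ^ d.2) fun d _ => ?_
    exact continuousAt_const.sub ((hz _).mul (hz2 _))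
  · rw [Ne, List.prod_eq_zero_iff, List.mem_map]
    rintro ⟨d, hd, he⟩
    exact h d hd he

/-- the function of `q` -/
noncomputable def GG {F : Type} [Field F] (s : ℤ) (L : List PB) (q : F) : F :=
  (1 - q⁻¹) ^ 4 * tot q (q ^ (-s)) L

lemma cont_GG {F : Type} [NormedField F] (q0 : F) (h0 : q0 ≠ 0) (s : ℤ) (L : List PB)
    (h : ∀ p ∈ L, ∀ t ∈ p.L, ∀ d ∈ t.ds, 1 - q0 ^ d.1 * (q0 ^ (-s)) ^ d.2 ≠ 0) :
    ContinuousAt (GG (F := F) s L) q0 := by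
  unfold GG
  have hi : ContinuousAt (fun q : F => q⁻¹) q0 := continuousAt_inv₀ h0
  refine ((continuousAt_const.sub hi).pow 4).mul ?_
  unfold tot
  refine cont_list q0 L (fun p q => kq q p * (p.L.map (fun t => t.val q (q ^ (-s)))).sum)
    fun p hp => ?_
  refine ContinuousAt.mul ?_ ?_
  · unfold kq
    exact ((continuousAt_const.mul ((continuousAt_const.sub hi).pow _)).mul
      ((continuousAt_const.sub (continuousAt_const.mul hi)).pow _)).mul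
      ((continuousAt_const.sub (continuousAt_const.mul hi)).pow _)
  · exact cont_list q0 p.L (fun t q => t.val q (q ^ (-s))) fun t ht =>
      cont_tm q0 h0 s t (h p hp t ht)

theorem topCAsm : TopCAsm := by
  classical
  intro hI hR hLim L hok hLoc N Dn H hDn hH hlim
  refine ⟨hDn, H ∪ {s : ℤ | ∃ p ∈ L, ∃ t ∈ p.L, ∃ d ∈ t.ds, (d.2 : ℚ) * s - d.1 = 0}, ?_, ?_⟩
  · refine hH.union ?_
    have hfin : (⋃ p ∈ {p | p ∈ L}, ⋃ t ∈ {t | t ∈ p.L}, ⋃ d ∈ {d | d ∈ t.ds},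
        {s : ℤ | (d.2 : ℚ) * s - d.1 = 0}).Finite := by
      refine Set.Finite.biUnion (List.finite_toSet L) fun p hp => ?_
      refine Set.Finite.biUnion (List.finite_toSet p.L) fun t ht => ?_
      refine Set.Finite.biUnion (List.finite_toSet t.ds) fun d hd => ?_
      have hd1 : okd d = true := by
        have := ((hok p hp).1 t ht).2
        rw [List.all_eq_true] at this
        exact this d hd
      refine Set.Subsingleton.finite ?_
      intro s hs s' hs'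
      simp only [Set.mem_ofPred_eq] at hs hs'
      simp only [okd, Bool.or_eq_true, Bool.and_eq_true, decide_eq_true_eq] at hd1
      rcases hd1 with ⟨h2, h1⟩ | ⟨h2, h1⟩
      · rw [h2] at hs
        have : (d.1 : ℚ) = 0 := by push_cast at hs; linarith
        have h3 : d.1 = 0 := by exact_mod_cast this
        omega
      · have h3 : (d.2 : ℚ) ≠ 0 := by
          have : d.2 ≠ 0 := by omega
          exact_mod_cast this
        have h4 : (d.2 : ℚ) * s = d.2 * s' := by linarith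
        have h5 := mul_left_cancel₀ h3 h4
        exact_mod_cast h5
    refine hfin.subset ?_
    rintro s ⟨p, hp, t, ht, d, hd, h⟩
    simp only [Set.mem_iUnion]
    exact ⟨p, hp, t, ht, d, hd, h⟩
  intro ℓ hℓ
  refine ⟨{ℓ, 2}, by simp, ?_⟩
  intro p hp hpS
  have hpℓ : p ≠ ℓ := fun h => hpS (by simp [h])
  have hp2 : p ≠ 2 := fun h => hpS (by simp [h])
  have hℓ2 : 2 ≤ ℓ := (Fact.out : ℓ.Prime).two_le
  have hp3 : 3 ≤ p := by
    have := (Fact.out : p.Prime).two_le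
    omega
  refine ⟨ℓ - 1, by omega, ?_⟩
  intro s hs
  have hsH : s ∉ H := fun h => hs (Or.inl h)
  have hregd : ∀ p ∈ L, ∀ t ∈ p.L, ∀ d ∈ t.ds, (d.2 : ℚ) * s - d.1 ≠ 0 := by
    intro p' hp' t ht d hd h
    exact hs (Or.inr ⟨p', hp', t, ht, d, hd, h⟩)
  have hreg : ∀ p ∈ L, p.ok ∧ ∀ t ∈ p.L, t.reg s := by
    intro p' hp'
    exact ⟨hok p' hp', fun t ht d hd => hregd p' hp' t ht d hd⟩
  obtain ⟨hD0, hval⟩ := hlim s hsH
  refine ⟨hD0, ?_⟩
  -- the character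
  have hQ1 : 1 < p ^ (ℓ - 1) := Nat.one_lt_pow (by omega) (by omega)
  have hmod : ℓ ∣ p ^ (ℓ - 1) - 1 := by
    have hcop : Nat.Coprime p ℓ :=
      (Nat.coprime_primes (Fact.out : p.Prime) (Fact.out : ℓ.Prime)).2 hpℓ
    have h1 : p ^ (ℓ - 1) ≡ 1 [MOD ℓ] := by
      rw [← Nat.totient_prime (Fact.out : ℓ.Prime)]
      exact Nat.ModEq.pow_totient hcop
    exact (Nat.modEq_iff_dvd' hQ1.le).1 h1.symm
  obtain ⟨E, hEc, hEf, hE1⟩ := exists_char ℓ (p ^ (ℓ - 1)) hQ1 hmod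
  have hE0 : ∀ x, E x ≠ 0 := fun x => (AddChar.val_isUnit E x).ne_zero
  -- regular points
  have hden : ∀ x : ℤ_[ℓ], x ≠ 0 → ∀ a b : ℤ, (b : ℚ) * s - a ≠ 0 →
      1 - E x ^ a * (E x ^ (-s)) ^ b ≠ 0 := by
    intro x hx a b hab h
    have h1 : E x ^ a * (E x ^ (-s)) ^ b = E x ^ (a - b * s) := by
      rw [← zpow_mul, ← zpow_add₀ (hE0 x)]
      congr 1
      ring
    rw [h1, ← AddChar.map_zsmul_eq_zpow] at h
    have h2 := hE1 _ (sub_eq_zero.1 h).symm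
    rw [zsmul_eq_mul, mul_eq_zero] at h2
    rcases h2 with h2 | h2
    · have h3 : a - b * s = 0 := by exact_mod_cast h2
      apply hab
      have h4 : ((a - b * s : ℤ) : ℚ) = 0 := by rw [h3]; simp
      push_cast at h4
      linarith
    · exact hx h2
  -- the limit
  have ht := hLim ℚ_[ℓ] s L hreg
  have ht' : Tendsto (GG (F := ℚ_[ℓ]) s L) (𝓝[≠] 1) (𝓝 (((L.map (PB.lim s)).sum : ℚ) : ℚ_[ℓ])) := ht
  have hEt : Tendsto (fun x => E x) (𝓝[≠] (0 : ℤ_[ℓ])) (𝓝[≠] (1 : ℚ_[ℓ])) := by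
    refine tendsto_nhdsWithin_iff.2 ⟨?_, ?_⟩
    · have h1 : Tendsto (fun x => E x) (𝓝 (0 : ℤ_[ℓ])) (𝓝 (E 0)) := hEc.tendsto 0
      rw [AddChar.map_zero_eq_one] at h1
      exact h1.mono_left nhdsWithin_le_nhds
    · filter_upwards [self_mem_nhdsWithin] with x hx
      intro h
      exact hx (hE1 x h)
  refine ⟨Function.update (fun x => GG (F := ℚ_[ℓ]) s L (E x)) 0
    ((N.eval (s : ℚ) / Dn.eval (s : ℚ) : ℚ) : ℚ_[ℓ]), ?_, ?_, ?_⟩
  · rw [continuous_iff_continuousAt]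
    intro x
    by_cases hx : x = 0
    · subst hx
      rw [continuousAt_update_same, ← hval]
      exact ht'.comp hEt
    · rw [continuousAt_update_of_ne hx]
      refine ContinuousAt.comp (f := fun x => E x) (g := GG (F := ℚ_[ℓ]) s L) ?_
        hEc.continuousAt
      exact cont_GG (E x) (hE0 x) s L fun p' hp' t ht d hd =>
        hden x hx d.1 d.2 (hregd p' hp' t ht d hd)
  · exact Function.update_self _ _ _
  · intro f hf
    have hn : (ℓ - 1) * f ≠ 0 := by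
      apply mul_ne_zero <;> omega
    have hq3 : 3 ≤ p ^ ((ℓ - 1) * f) := hp3.trans (Nat.le_self_pow hn p)
    refine ⟨_, zval hI hR L hLoc p ((ℓ - 1) * f) hn hq3 s hreg, ?_⟩
    have hf0 : (f : ℤ_[ℓ]) ≠ 0 := by
      have : f ≠ 0 := by omega
      exact_mod_cast this
    rw [Function.update_of_ne hf0, hEf f]
    have e0 : (((p ^ (ℓ - 1) : ℕ) : ℚ) : ℚ_[ℓ]) ^ f = (((p ^ ((ℓ - 1) * f) : ℕ) : ℚ) : ℚ_[ℓ]) := by
      push_cast
      rw [← pow_mul]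
    rw [e0]
    unfold GG
    rw [Rat.cast_mul, tot_cast]
    have e1 : (((1 - ((p ^ ((ℓ - 1) * f) : ℕ) : ℚ)⁻¹) ^ 4 : ℚ) : ℚ_[ℓ]) =
        (1 - (((p ^ ((ℓ - 1) * f) : ℕ) : ℚ) : ℚ_[ℓ])⁻¹) ^ 4 := by
      push_cast
      rfl
    have e2 : (((((p ^ ((ℓ - 1) * f) : ℕ) : ℚ) ^ (-s) : ℚ)) : ℚ_[ℓ]) =
        (((p ^ ((ℓ - 1) * f) : ℕ) : ℚ) : ℚ_[ℓ]) ^ (-s) := Rat.cast_zpow _ _
    rw [e1, e2]

theorem cImp : CImpStmt := by
  intro d c N D h
  obtain ⟨hD, H, hH, h⟩ := h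
  refine ⟨hD, H, hH, ?_⟩
  intro ℓ hℓ
  obtain ⟨S, hS, h⟩ := h ℓ
  refine ⟨S, hS, ?_⟩
  intro p hp hpS
  obtain ⟨e, he, h⟩ := h p hpS
  refine ⟨e, he, ?_⟩
  intro s hs
  obtain ⟨hDs, g, hg, hg0, hgf⟩ := h s hs
  refine ⟨hDs, ?_⟩
  intro ε hε
  have h1 := Metric.continuous_iff.1 hg 0 ε hε
  obtain ⟨δ, hδ, hball⟩ := h1
  have hℓ2 : 2 ≤ ℓ := (Fact.out : ℓ.Prime).two_le
  obtain ⟨m, hm⟩ : ∃ m : ℕ, (ℓ : ℝ) ^ (-(m : ℤ)) < δ := by
    obtain ⟨m, hm⟩ := exists_pow_lt_of_lt_one hδ (y := ((ℓ : ℝ))⁻¹)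
      (inv_lt_one_of_one_lt₀ (by exact_mod_cast hℓ2))
    refine ⟨m, ?_⟩
    rw [zpow_neg, zpow_natCast, ← inv_pow]
    exact hm
  refine ⟨m, ?_⟩
  intro f hf hdvd
  obtain ⟨v, hv, hgv⟩ := hgf f hf
  refine ⟨v, hv, ?_⟩
  have h2 : ‖((f : ℤ) : ℤ_[ℓ])‖ ≤ (ℓ : ℝ) ^ (-(m : ℤ)) := by
    rw [PadicInt.norm_int_le_pow_iff_dvd]
    exact_mod_cast hdvd
  have h3 : dist ((f : ℤ_[ℓ])) 0 < δ := by
    rw [dist_zero_right]
    refine lt_of_le_of_lt ?_ hm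
    exact_mod_cast h2
  have h4 := hball _ h3
  rw [hgv, hg0, dist_eq_norm, ← Rat.cast_sub] at h4
  exact h4

end Pool.Agent.TH902.TZH
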