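import Pool.Agent.TH619.Geo1

/-! The surface with three necks: local models. -/

set_option autoImplicit false
namespace Pool.Agent.TH619
open Set Topology Filter
open scoped InnerProductSpace Manifold ContDiff
open Pool.Agent.Helper874.Odd

namespace J219

theorem sh_snd (j : Fin 3) (v : V) : (sh j v).2 = v.2 := rfl

theorem box_A {v : V} (h : v ∈ SA) : |v.1| < 7 / 8 ∧ |v.2.1| < 7 / 8 := by
  have h1 := kA_bd (v := v) (s := 5 / 8) (lt_of_le_of_lt h.2.1 (by norm_num))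
  exact ⟨by linarith [h1.1], by linarith [h1.2]⟩

theorem box_B {v : V} (h : v ∈ SB) : |v.1| < 7 / 8 ∧ |v.2.1| < 7 / 8 := by
  have h1 := kB_bd (v := v) (s := 5 / 8) (lt_of_le_of_lt h.2.1 (by norm_num))
  exact ⟨by linarith [h1.1], by linarith [h1.2]⟩

theorem box_DA {v : V} (h : v ∈ DiA) : |v.1| < 7 / 8 ∧ |v.2.1| < 7 / 8 := by
  have h1 := kA_bd (v := v) (s := 5 / 8) (h.2.2.trans (by norm_num))
  exact ⟨by linarith [h1.1], by linarith [h1.2]⟩

theorem box_DB {v : V} (h : v ∈ DiB) : |v.1| < 7 / 8 ∧ |v.2.1| < 7 / 8 := by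
  have h1 := kB_bd (v := v) (s := 5 / 8) (h.2.2.trans (by norm_num))
  exact ⟨by linarith [h1.1], by linarith [h1.2]⟩

theorem box_D {v : V} (h : v ∈ DiA ∪ DiB) : |v.1| < 7 / 8 ∧ |v.2.1| < 7 / 8 :=
  h.elim box_DA box_DB

theorem box_near {v : V} (hz : nz v < 1 / 8) (hw : nw v < 1 / 8) : |v.1| < 7 / 8 ∧ |v.2.1| < 7 / 8 := by
  obtain ⟨-, -, -, -, h5, h6, h7, -⟩ := near_facts hz hw
  refine ⟨by linarith, ?_⟩
  rw [abs_lt]
  constructor <;> linarith

theorem box_C {v : V} (h : v ∈ SC) : |v.1| < 7 / 8 ∧ |v.2.1| < 7 / 8 := by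
  have h1 := (SC_facts h).1
  exact box_near (lt_of_le_of_lt h1.1 (by norm_num)) (lt_of_le_of_lt h1.2 (by norm_num))

/-- a small box contains no points of the other copies -/
theorem eq_of_box {j j' : Fin 3} {v : V} (h : |(sh j v).1| < 1) (h' : |(sh j' v).1| < 1) : j' = j := by
  by_contra hne
  have := far (j := j) (j' := j') (Ne.symm hne) h
  linarith

/-- the surface near a copy -/
theorem MT_local {j : Fin 3} {m : V × ℝ} (hm : m.1 ∈ Bx j (15 / 16)) :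
    m ∈ MT ↔ (sh j m.1, m.2) ∈ MM := by
  have hx : |(sh j m.1).1| < 15 / 16 := hm.1
  have hy : |(sh j m.1).2.1| < 15 / 16 := hm.2
  have hx1 : |(sh j m.1).1| < 1 := by linarith
  have hML : m.1 ∈ ML ↔ sh j m.1 ∈ M0 := by
    have h1 := abs_x_lt hx
    have h2 := ML_flat (v := m.1) (by linarith) (by
      have : |m.1.2.1| < 15 / 16 := hm.2
      linarith)
    have h3 := M0_flat (v := sh j m.1) hx hy
    exact h2.trans h3.symm
  constructor
  · rintro (⟨h0, h1, h2⟩ | ⟨j', h⟩)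
    · exact Or.inl ⟨h0, Or.inl ⟨hML.1 h1, h2 j⟩⟩
    · have hj : j' = j := by
        apply eq_of_box hx1
        rcases h with ⟨-, h | h⟩ | ⟨-, h⟩
        · have := (box_B h.1).1; linarith
        · have := (box_C h).1; linarith
        · have := (box_A h.1).1; linarith
      subst hj
      rcases h with ⟨h0, h | h⟩ | ⟨h0, h⟩
      · exact Or.inl ⟨h0, Or.inr (Or.inl h)⟩
      · exact Or.inl ⟨h0, Or.inr (Or.inr h)⟩
      · exact Or.inr ⟨h0, h⟩
  · rintro (⟨h0, h | h | h⟩ | ⟨h0, h⟩)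
    · refine Or.inl ⟨h0, hML.2 h.1, fun j' h' => ?_⟩
      have hj : j' = j := by
        apply eq_of_box hx1
        have := (box_D h').1
        linarith
      subst hj
      exact h.2 h'
    · exact Or.inr ⟨j, Or.inl ⟨h0, Or.inl h⟩⟩
    · exact Or.inr ⟨j, Or.inl ⟨h0, Or.inr h⟩⟩
    · exact Or.inr ⟨j, Or.inr ⟨h0, h⟩⟩

/-- the surface away from the copies -/
theorem MT_far {m : V × ℝ} (hm : m ∈ Wd none) : m ∈ MT ↔ scl m.1 ∈ M0 ∧ m.2 = 0 := by
  have hno : ∀ j : Fin 3, ¬ (|(sh j m.1).1| < 7 / 8 ∧ |(sh j m.1).2.1| < 7 / 8) :=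
    fun j h => hm j ⟨h.1.le, h.2.le⟩
  constructor
  · rintro (⟨h0, h1, h2⟩ | ⟨j, (⟨-, h | h⟩ | ⟨-, h⟩)⟩)
    · exact ⟨h1, h0⟩
    · exact (hno j (box_B h.1)).elim
    · exact (hno j (box_C h)).elim
    · exact (hno j (box_A h.1)).elim
  · rintro ⟨h1, h0⟩
    exact Or.inl ⟨h0, h1, fun j h => hno j (box_D h)⟩

end J219

open J219

/-- the local models of the surface with three necks -/
theorem MT_iff (i : Option (Fin 3 × Kd)) {m : V × ℝ} (hm : m ∈ Wd i) :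
    m ∈ MT ↔ D1 i m.1 = 0 ∧ D2 i m.1 = 0 ∧ m.2 = bd i m.1 := by
  cases i with
  | none =>
    rw [MT_far hm]
    constructor
    · rintro ⟨h, h0⟩
      exact ⟨h.1, h.2, h0⟩
    · rintro ⟨h1, h2, h0⟩
      exact ⟨⟨h1, h2⟩, h0⟩
  | some i =>
    obtain ⟨j, k⟩ := i
    obtain ⟨h1, h2⟩ := hm
    rw [MT_local h1]
    cases k with
    | Z => exact MM_Z h2
    | A => exact MM_A h2
    | B => exact MM_B h2
    | C => exact MM_C h2
    | D => exact MM_D h2

theorem Wd_cover {m : V × ℝ} (hm : m ∈ MT) : ∃ i, m ∈ Wd i := by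
  by_cases h : ∃ j, |m.1.1 - cc j| ≤ 7 / 8 ∧ |m.1.2.1| ≤ 7 / 8
  · obtain ⟨j, h1, h2⟩ := h
    have hB : m.1 ∈ Bx j (15 / 16) := ⟨by linarith, by linarith⟩
    obtain ⟨k, hk⟩ := Wk_cover ((MT_local hB).1 hm)
    exact ⟨some (j, k), hB, hk⟩
  · push Not at h
    exact ⟨none, fun j hj => absurd (h j hj.1) (not_lt.2 hj.2)⟩

end Pool.Agent.TH619
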