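import Pool.Agent.TH619.Geo4
import Pool.Agent.TH902.J219a

/-! The surface with three necks is tight: preparations. -/

set_option autoImplicit false
namespace Pool.Agent.TH619
open Set Topology Filter
open Pool.Agent.Helper874.Odd

namespace J220

/-! ### the stretched surface -/

/-- the inverse of `scl` -/
def sci (w : V) : V := (4 * w.1, 4 * w.2.1, w.2.2)

theorem scl_sci (w : V) : scl (sci w) = w := by
  unfold scl sci
  ext <;> simp

theorem sci_scl (w : V) : sci (scl w) = w := by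
  unfold scl sci
  apply Prod.ext
  · show 4 * (w.1 / 4) = w.1
    ring
  · apply Prod.ext
    · show 4 * (w.2.1 / 4) = w.2.1
      ring
    · rfl

theorem continuous_sci : Continuous sci := by
  unfold sci
  fun_prop

theorem ML_image : ML = sci '' M0 := by
  ext v
  constructor
  · intro h
    exact ⟨scl v, h, sci_scl v⟩
  · rintro ⟨w, hw, rfl⟩
    show scl (sci w) ∈ M0
    rwa [scl_sci]

theorem conn_ML (l : V) : Conn ML l := by
  intro c
  have himg : {v : V | v ∈ ML ∧ c ≤ hh l v} =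
      sci '' {w : V | w ∈ M0 ∧ c ≤ hh (4 * l.1, 4 * l.2.1, l.2.2) w} := by
    ext v
    constructor
    · rintro ⟨h1, h2⟩
      refine ⟨scl v, ⟨h1, ?_⟩, sci_scl v⟩
      unfold hh at h2 ⊢
      unfold scl
      show c ≤ 4 * l.1 * (v.1 / 4) + 4 * l.2.1 * (v.2.1 / 4) + l.2.2.1 * v.2.2.1 +
        l.2.2.2 * v.2.2.2
      linarith
    · rintro ⟨w, ⟨h1, h2⟩, rfl⟩
      refine ⟨by show scl (sci w) ∈ M0; rwa [scl_sci], ?_⟩
      unfold hh at h2 ⊢
      unfold sci
      simp only at h2 ⊢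
      linarith
  rw [himg]
  exact (conn_M0 _ c).image sci continuous_sci.continuousOn

/-! ### removing the discs -/

/-- the vertex of a disc -/
def ev (q : Bool × Bool) : ℝ × ℝ :=
  if q.1 then (if q.2 then (1, 0) else (-1, 0)) else (if q.2 then (0, 1) else (0, -1))

/-- the function of a disc -/
noncomputable def kv (j : Fin 3) (q : Bool × Bool) (v : V) : ℝ :=
  if q.1 then kA (sh j v) else kB (sh j v)

/-- the disc -/
def dv (i : Fin 3 × Bool × Bool) : Set V := {v | v.2.2 = ev i.2 ∧ kv i.1 i.2 v < 9 / 16}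

theorem ev_mem (q : Bool × Bool) : ev q ∈ Vt := by
  obtain ⟨a, b⟩ := q
  unfold ev Vt
  cases a <;> cases b <;> simp

theorem ev_inj {q q' : Bool × Bool} (h : ev q = ev q') : q = q' := by
  obtain ⟨a, b⟩ := q
  obtain ⟨a', b'⟩ := q'
  unfold ev at h
  cases a <;> cases b <;> cases a' <;> cases b' <;> simp [Prod.ext_iff] at h ⊢ <;> norm_num at h

theorem ev_near (q : Bool × Bool) {w : ℝ × ℝ} (hw : w ∈ Vt) (h1 : |w.1 - (ev q).1| < 1 / 2)
    (h2 : |w.2 - (ev q).2| < 1 / 2) : w = ev q := by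
  obtain ⟨a, b⟩ := q
  obtain ⟨w1, w2⟩ := w
  simp only [Vt, mem_insert_iff, mem_singleton_iff, Prod.mk.injEq] at hw
  cases a <;> cases b <;>
    simp only [ev, if_true, if_false, Bool.false_eq_true] at h1 h2 ⊢ <;>
    rcases hw with ⟨rfl, rfl⟩ | ⟨rfl, rfl⟩ | ⟨rfl, rfl⟩ | ⟨rfl, rfl⟩ | ⟨rfl, rfl⟩ | ⟨rfl, rfl⟩ <;>
    first | rfl | (exfalso; norm_num [abs_lt] at h1; done) | (exfalso; norm_num [abs_lt] at h2; done)

theorem kv_bd {j : Fin 3} {q : Bool × Bool} {v : V} (h : kv j q v < 5 / 8) :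
    |(sh j v).1| < 7 / 8 ∧ |v.2.1| < 7 / 8 := by
  unfold kv at h
  split_ifs at h
  · have h1 := kA_bd h
    exact ⟨by linarith [h1.1], by have := h1.2; rw [J219.sh_snd] at this; linarith⟩
  · have h1 := kB_bd h
    exact ⟨by linarith [h1.1], by have := h1.2; rw [J219.sh_snd] at this; linarith⟩

theorem ML_vt {j : Fin 3} {v : V} (h : |(sh j v).1| < 7 / 8 ∧ |v.2.1| < 7 / 8) :
    v ∈ ML ↔ v.2.2 ∈ Vt := by
  have h1 := abs_x_lt h.1
  exact ML_flat (by linarith) (by linarith [h.2])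

/-- removing one disc -/
theorem disc_gen {S : Set V} {l : V} (hS : Conn S l) (k : V → ℝ) (s : ℝ)
    (hk : ∀ v, k v = mm (v.1 + s) + mm v.2.1) (e : ℝ × ℝ)
    (hvert : ∀ v ∈ S, k v < 9 / 16 → |v.2.2.1 - e.1| < 1 / 2 → |v.2.2.2 - e.2| < 1 / 2 →
      v.2.2 = e)
    (hin : ∀ v : V, v.2.2 = e → k v < 5 / 8 → v ∈ S) :
    Conn (S \ {v | v.2.2 = e ∧ k v < 9 / 16}) l := by
  have hmm : Continuous mm := mm_contDiff.continuous
  have hkc : Continuous k := by
    have : k = fun v => mm (v.1 + s) + mm v.2.1 := funext hk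
    rw [this]
    fun_prop
  apply conn_diff (bd := {v | v.2.2 = e ∧ k v = 9 / 16}) hS
  · rintro v ⟨h1, h2⟩
    refine ⟨hin v h1 (by rw [h2]; norm_num), ?_⟩
    rintro ⟨-, h3⟩
    rw [h2] at h3
    exact lt_irrefl _ h3
  · intro c
    have himg : {v : V | v ∈ {v : V | v.2.2 = e ∧ k v = 9 / 16} ∧ c ≤ hh l v} =
        (fun w : ℝ × ℝ => ((w.1 - s, w.2, e.1, e.2) : V)) ''
          {w : ℝ × ℝ | w ∈ Gam (9 / 16) ∧
            c - (-(l.1 * s) + l.2.2.1 * e.1 + l.2.2.2 * e.2) ≤ l.1 * w.1 + l.2.1 * w.2} := by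
      ext v
      constructor
      · rintro ⟨⟨h1, h2⟩, h3⟩
        refine ⟨(v.1 + s, v.2.1), ⟨?_, ?_⟩, ?_⟩
        · show mm (v.1 + s) + mm v.2.1 = 9 / 16
          rw [← hk, h2]
        · unfold hh at h3
          rw [← h1]
          show c - (-(l.1 * s) + l.2.2.1 * v.2.2.1 + l.2.2.2 * v.2.2.2) ≤
            l.1 * (v.1 + s) + l.2.1 * v.2.1
          linarith
        · show ((v.1 + s - s, v.2.1, e.1, e.2) : V) = v
          rw [← h1, add_sub_cancel_right]
      · rintro ⟨w, ⟨h1, h2⟩, rfl⟩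
        refine ⟨⟨rfl, ?_⟩, ?_⟩
        · rw [hk]
          show mm (w.1 - s + s) + mm w.2 = 9 / 16
          rw [sub_add_cancel]
          exact h1
        · unfold hh
          show c ≤ l.1 * (w.1 - s) + l.2.1 * w.2 + l.2.2.1 * e.1 + l.2.2.2 * e.2
          linarith
    rw [himg]
    apply (Gam_conn (by norm_num) l.1 l.2.1 _).image
    apply Continuous.continuousOn
    fun_prop
  · rintro a ⟨h1, h2⟩
    obtain ⟨σ, hσ, hσl⟩ : ∃ σ : ℝ, (σ = 1 ∨ σ = -1) ∧ 0 ≤ l.1 * σ := by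
      rcases le_total 0 l.1 with h | h
      · exact ⟨1, Or.inl rfl, by linarith⟩
      · exact ⟨-1, Or.inr rfl, by linarith⟩
    have hfc : Continuous (fun t : ℝ => k (a.1 + σ * t, a.2.1, a.2.2)) :=
      hkc.comp (by fun_prop)
    have hT : (0 : ℝ) ≤ |a.1 + s| + 1 := by positivity
    have hf0 : k (a.1 + σ * 0, a.2.1, a.2.2) ≤ 9 / 16 := by
      rw [mul_zero, add_zero]
      exact h2.le
    have hf1 : 9 / 16 ≤ k (a.1 + σ * (|a.1 + s| + 1), a.2.1, a.2.2) := by
      rw [hk]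
      show 9 / 16 ≤ mm (a.1 + σ * (|a.1 + s| + 1) + s) + mm a.2.1
      have g1 := abs_le_mm (a.1 + σ * (|a.1 + s| + 1) + s)
      have g2 := abs_le_mm a.2.1
      have g3 := abs_nonneg a.2.1
      have g4 : 1 ≤ |a.1 + σ * (|a.1 + s| + 1) + s| := by
        rcases hσ with rfl | rfl
        · have := neg_abs_le (a.1 + s)
          refine le_trans ?_ (le_abs_self _)
          linarith
        · have := le_abs_self (a.1 + s)
          refine le_trans ?_ (neg_le_abs _)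
          linarith
      linarith
    obtain ⟨t, ht, hkt⟩ := intermediate_value_Icc hT hfc.continuousOn ⟨hf0, hf1⟩
    refine ⟨(a.1 + σ * t, a.2.1, a.2.2), ⟨h1, hkt⟩, ?_⟩
    unfold hh
    show l.1 * a.1 + l.2.1 * a.2.1 + l.2.2.1 * a.2.2.1 + l.2.2.2 * a.2.2.2 ≤
      l.1 * (a.1 + σ * t) + l.2.1 * a.2.1 + l.2.2.1 * a.2.2.1 + l.2.2.2 * a.2.2.2
    have := mul_nonneg hσl ht.1
    linarith
  · have hcl : IsClosed {v : V | v.2.2 = e ∧ k v ≤ 9 / 16} := by
      apply IsClosed.inter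
      · exact isClosed_eq (by fun_prop) continuous_const
      · exact isClosed_le hkc continuous_const
    have hsub : {v : V | v.2.2 = e ∧ k v < 9 / 16} ⊆ {v : V | v.2.2 = e ∧ k v ≤ 9 / 16} :=
      fun v hv => ⟨hv.1, hv.2.le⟩
    intro v hv
    obtain ⟨g1, g2⟩ := closure_minimal hsub hcl hv
    rcases lt_or_eq_of_le g2 with g | g
    · exact Or.inl ⟨g1, g⟩
    · exact Or.inr ⟨g1, g⟩
  · refine ⟨{v : V | k v < 9 / 16} ∩ ({v : V | |v.2.2.1 - e.1| < 1 / 2} ∩
      {v : V | |v.2.2.2 - e.2| < 1 / 2}), ?_, ?_⟩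
    · apply IsOpen.inter (isOpen_lt hkc continuous_const)
      apply IsOpen.inter
      · exact isOpen_lt (by fun_prop) continuous_const
      · exact isOpen_lt (by fun_prop) continuous_const
    · ext v
      constructor
      · rintro ⟨h1, h2, h3, h4⟩
        exact ⟨hvert v h1 h2 h3 h4, h2⟩
      · rintro ⟨h1, h2⟩
        refine ⟨hin v h1 (lt_trans h2 (by norm_num)), h2, ?_, ?_⟩
        · show |v.2.2.1 - e.1| < 1 / 2
          rw [h1]; simp
        · show |v.2.2.2 - e.2| < 1 / 2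
          rw [h1]; simp

/-- the surface without some of the discs -/
def SS (T : Finset (Fin 3 × Bool × Bool)) : Set V := {v | v ∈ ML ∧ ∀ i ∈ T, v ∉ dv i}

theorem conn_SS (l : V) (T : Finset (Fin 3 × Bool × Bool)) : Conn (SS T) l := by
  classical
  induction T using Finset.induction_on with
  | empty =>
    have : SS ∅ = ML := by
      ext v
      simp [SS]
    rw [this]
    exact conn_ML l
  | insert i T hi ih =>
    obtain ⟨j, q⟩ := i
    have heq : SS (insert (j, q) T) = SS T \ {v | v.2.2 = ev q ∧ kv j q v < 9 / 16} := by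
      ext v
      simp only [SS, Finset.mem_insert, Set.mem_sdiff, mem_ofPred_eq]
      constructor
      · rintro ⟨h1, h2⟩
        exact ⟨⟨h1, fun i hi => h2 i (Or.inr hi)⟩, h2 (j, q) (Or.inl rfl)⟩
      · rintro ⟨⟨h1, h2⟩, h3⟩
        refine ⟨h1, ?_⟩
        rintro i (rfl | hi)
        · exact h3
        · exact h2 i hi
    rw [heq]
    refine disc_gen ih (kv j q) (if q.1 then - cc j + 1 / 4 else - cc j - 1 / 4) ?_ (ev q) ?_ ?_
    · intro v
      unfold kv
      split_ifs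
      · show mm (v.1 - cc j + 1 / 4) + mm v.2.1 = _
        rw [← add_assoc, ← sub_eq_add_neg]
      · show mm (v.1 - cc j - 1 / 4) + mm v.2.1 = _
        rw [← add_sub_assoc, ← sub_eq_add_neg]
    · intro v hv hk h1 h2
      have hb := kv_bd (j := j) (q := q) (v := v) (hk.trans (by norm_num))
      exact ev_near q ((ML_vt hb).1 hv.1) h1 h2
    · intro v h1 h2
      have hb := kv_bd h2
      refine ⟨(ML_vt hb).2 (by rw [h1]; exact ev_mem q), ?_⟩
      rintro ⟨j', q'⟩ hi' hd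
      have hqq : q' = q := ev_inj (hd.1.symm.trans h1)
      have hb' := kv_bd (j := j') (q := q') (v := v) (hd.2.trans (by norm_num))
      have hjj : j' = j := J219.eq_of_box (v := v) (by linarith [hb.1]) (by linarith [hb'.1])
      rw [hqq, hjj] at hi'
      exact hi hi'

theorem BL_eq : BL = SS Finset.univ := by
  have hA : ∀ v : V, v ∈ DiA ↔ ∃ b : Bool, v.2.2 = ev (true, b) ∧ kA v < 9 / 16 := by
    rintro ⟨x, y, p, r⟩
    show (r = 0 ∧ |p| = 1 ∧ _) ↔ _
    constructor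
    · rintro ⟨h1, h2, h3⟩
      rcases (abs_eq (by norm_num)).1 h2 with h | h
      · exact ⟨true, by simp [ev, h, h1], h3⟩
      · exact ⟨false, by simp [ev, h, h1], h3⟩
    · rintro ⟨b, h1, h3⟩
      cases b
      · simp only [ev, Prod.mk.injEq, if_true, if_false, Bool.false_eq_true] at h1
        exact ⟨h1.2, by rw [h1.1]; norm_num, h3⟩
      · simp only [ev, Prod.mk.injEq, if_true] at h1
        exact ⟨h1.2, by rw [h1.1]; norm_num, h3⟩
  have hB : ∀ v : V, v ∈ DiB ↔ ∃ b : Bool, v.2.2 = ev (false, b) ∧ kB v < 9 / 16 := by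
    rintro ⟨x, y, p, r⟩
    show (p = 0 ∧ |r| = 1 ∧ _) ↔ _
    constructor
    · rintro ⟨h1, h2, h3⟩
      rcases (abs_eq (by norm_num)).1 h2 with h | h
      · exact ⟨true, by simp [ev, h, h1], h3⟩
      · exact ⟨false, by simp [ev, h, h1], h3⟩
    · rintro ⟨b, h1, h3⟩
      cases b
      · simp only [ev, Prod.mk.injEq, if_false, Bool.false_eq_true] at h1
        exact ⟨h1.1, by rw [h1.2]; norm_num, h3⟩
      · simp only [ev, Prod.mk.injEq, if_true, if_false, Bool.false_eq_true] at h1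
        exact ⟨h1.1, by rw [h1.2]; norm_num, h3⟩
  ext v
  constructor
  · rintro ⟨h1, h2⟩
    refine ⟨h1, ?_⟩
    rintro ⟨j, a, b⟩ - hd
    apply h2 j
    cases a
    · exact Or.inr ((hB _).2 ⟨b, hd⟩)
    · exact Or.inl ((hA _).2 ⟨b, hd⟩)
  · rintro ⟨h1, h2⟩
    refine ⟨h1, fun j hd => ?_⟩
    rcases hd with hd | hd
    · obtain ⟨b, h⟩ := (hA _).1 hd
      exact h2 (j, true, b) (Finset.mem_univ _) h
    · obtain ⟨b, h⟩ := (hB _).1 hd
      exact h2 (j, false, b) (Finset.mem_univ _) h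

theorem conn_BL (l : V) : Conn BL l := by
  rw [BL_eq]
  exact conn_SS l _

/-! ### adding a tube and removing the disc of the crossing -/

theorem conn_A {B : Set V} {l : V} (hB : Conn B l)
    (hbd : ∀ w ∈ SA, |w.2.2.1| = 1 → kA w = 9 / 16 → w ∈ B)
    (hnr : ∀ v, nz v < 1 / 8 → nw v < 1 / 8 → v ∉ B) : Conn ((B ∪ SA) \ DA) l := by
  have hS : Conn (B ∪ SA) l := conn_union hB (fun a ha => by
    obtain ⟨w, hw, h1, h2, hup⟩ := tubeA_up (l := l) ha
    exact ⟨w, hbd w hw h1 h2, hup.mono subset_union_right⟩)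
  have hnw : ∀ v : V, X1 v = 0 → v.2.2.2 = 0 → nw v = 0 := by
    intro v h1 h2
    unfold nw
    rw [h1, h2]
    norm_num
  refine conn_diff (bd := {v | X1 v = 0 ∧ v.2.2.2 = 0 ∧ nz v = 1 / 16}) hS ?_ (circ_A l) ?_ ?_ ?_
  · rintro v ⟨h1, h2, h3⟩
    have hn := hnw v h1 h2
    obtain ⟨-, -, -, -, -, -, -, -, -, -, -, -, -, hSA, -⟩ := near_facts (v := v)
      (by rw [h3]; norm_num) (by rw [hn]; norm_num)
    refine ⟨Or.inr (hSA.2 ⟨h1, h2⟩), fun h4 => ?_⟩
    have := h4.2.2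
    rw [h3] at this
    exact lt_irrefl _ this
  · rintro a ⟨h1, h2, h3⟩
    unfold nz at h3
    obtain ⟨h4, h5⟩ := conn_SA'_sq h3
    obtain ⟨p', hp1, hp2⟩ := conn_SA'_pick l.2.2.1 a.2.2.1 _ h4
    rw [Real.sq_sqrt h5] at hp1
    refine ⟨(a.1, a.2.1, p', a.2.2.2), ⟨h1, h2, ?_⟩, ?_⟩
    · exact conn_SA'_sq2 hp1
    · change l.1 * a.1 + l.2.1 * a.2.1 + l.2.2.1 * a.2.2.1 + l.2.2.2 * a.2.2.2 ≤
        l.1 * a.1 + l.2.1 * a.2.1 + l.2.2.1 * p' + l.2.2.2 * a.2.2.2
      linarith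
  · have hcl : closure DA ⊆ {v : V | X1 v = 0 ∧ v.2.2.2 = 0 ∧ nz v ≤ 1 / 16} := by
      refine closure_minimal (fun v hv => ⟨hv.1, hv.2.1, hv.2.2.le⟩) ?_
      refine (isClosed_eq conn_SA'_X1 continuous_const).inter
        ((isClosed_eq (by fun_prop) continuous_const).inter
          (isClosed_le conn_SA'_nz continuous_const))
    intro v hv
    obtain ⟨h1, h2, h3⟩ := hcl hv
    rcases lt_or_eq_of_le h3 with h4 | h4
    · exact Or.inl ⟨h1, h2, h4⟩
    · exact Or.inr ⟨h1, h2, h4⟩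
  · refine ⟨{v | nz v < 1 / 16} ∩ {v | nw v < 1 / 16},
      (isOpen_lt conn_SA'_nz continuous_const).inter (isOpen_lt conn_SA'_nw continuous_const), ?_⟩
    ext v
    constructor
    · rintro ⟨hv, hz, hw⟩
      have hz' : nz v < 1 / 16 := hz
      have hw' : nw v < 1 / 16 := hw
      obtain ⟨-, -, -, -, -, -, -, -, -, -, -, -, hM, hSA, -⟩ := near_facts (v := v)
        (by linarith) (by linarith)
      rcases hv with hv | hv
      · exact absurd hv (hnr v (by linarith) (by linarith))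
      · obtain ⟨h1, h2⟩ := hSA.1 hv
        exact ⟨h1, h2, hz'⟩
    · rintro ⟨h1, h2, h3⟩
      have hn := hnw v h1 h2
      obtain ⟨-, -, -, -, -, -, -, -, -, -, -, -, -, hSA, -⟩ := near_facts (v := v)
        (by linarith) (by rw [hn]; norm_num)
      refine ⟨Or.inr (hSA.2 ⟨h1, h2⟩), h3, ?_⟩
      change nw v < 1 / 16
      rw [hn]
      norm_num

theorem conn_B {B : Set V} {l : V} (hB : Conn B l)
    (hbd : ∀ w ∈ SB, |w.2.2.2| = 1 → kB w = 9 / 16 → w ∈ B)
    (hnr : ∀ v, nz v < 1 / 8 → nw v < 1 / 8 → v ∉ B) : Conn ((B ∪ SB) \ DB) l := by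
  have hS : Conn (B ∪ SB) l := conn_union hB (fun a ha => by
    obtain ⟨w, hw, h1, h2, hup⟩ := tubeB_up (l := l) ha
    exact ⟨w, hbd w hw h1 h2, hup.mono subset_union_right⟩)
  have hnz : ∀ v : V, X2 v = 0 → v.2.2.1 = 0 → nz v = 0 := by
    intro v h1 h2
    unfold nz
    rw [h1, h2]
    norm_num
  refine conn_diff (bd := {v | X2 v = 0 ∧ v.2.2.1 = 0 ∧ nw v = 1 / 16}) hS ?_ (circ_B l) ?_ ?_ ?_
  · rintro v ⟨h1, h2, h3⟩
    have hn := hnz v h1 h2
    obtain ⟨-, -, -, -, -, -, -, -, -, -, -, -, -, -, hSB⟩ := near_facts (v := v)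
      (by rw [hn]; norm_num) (by rw [h3]; norm_num)
    refine ⟨Or.inr (hSB.2 ⟨h1, h2⟩), fun h4 => ?_⟩
    have := h4.2.2
    rw [h3] at this
    exact lt_irrefl _ this
  · rintro a ⟨h1, h2, h3⟩
    unfold nw at h3
    obtain ⟨h4, h5⟩ := conn_SA'_sq h3
    obtain ⟨p', hp1, hp2⟩ := conn_SA'_pick l.2.2.2 a.2.2.2 _ h4
    rw [Real.sq_sqrt h5] at hp1
    refine ⟨(a.1, a.2.1, a.2.2.1, p'), ⟨h1, h2, ?_⟩, ?_⟩
    · exact conn_SA'_sq2 hp1
    · change l.1 * a.1 + l.2.1 * a.2.1 + l.2.2.1 * a.2.2.1 + l.2.2.2 * a.2.2.2 ≤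
        l.1 * a.1 + l.2.1 * a.2.1 + l.2.2.1 * a.2.2.1 + l.2.2.2 * p'
      linarith
  · have hcl : closure DB ⊆ {v : V | X2 v = 0 ∧ v.2.2.1 = 0 ∧ nw v ≤ 1 / 16} := by
      refine closure_minimal (fun v hv => ⟨hv.1, hv.2.1, hv.2.2.le⟩) ?_
      refine (isClosed_eq conn_SA'_X2 continuous_const).inter
        ((isClosed_eq (by fun_prop) continuous_const).inter
          (isClosed_le conn_SA'_nw continuous_const))
    intro v hv
    obtain ⟨h1, h2, h3⟩ := hcl hv
    rcases lt_or_eq_of_le h3 with h4 | h4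
    · exact Or.inl ⟨h1, h2, h4⟩
    · exact Or.inr ⟨h1, h2, h4⟩
  · refine ⟨{v | nz v < 1 / 16} ∩ {v | nw v < 1 / 16},
      (isOpen_lt conn_SA'_nz continuous_const).inter (isOpen_lt conn_SA'_nw continuous_const), ?_⟩
    ext v
    constructor
    · rintro ⟨hv, hz, hw⟩
      have hz' : nz v < 1 / 16 := hz
      have hw' : nw v < 1 / 16 := hw
      obtain ⟨-, -, -, -, -, -, -, -, -, -, -, -, hM, -, hSB⟩ := near_facts (v := v)
        (by linarith) (by linarith)
      rcases hv with hv | hv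
      · exact absurd hv (hnr v (by linarith) (by linarith))
      · obtain ⟨h1, h2⟩ := hSB.1 hv
        exact ⟨h1, h2, hw'⟩
    · rintro ⟨h1, h2, h3⟩
      have hn := hnz v h1 h2
      obtain ⟨-, -, -, -, -, -, -, -, -, -, -, -, -, -, hSB⟩ := near_facts (v := v)
        (by rw [hn]; norm_num) (by linarith)
      refine ⟨Or.inr (hSB.2 ⟨h1, h2⟩), ?_, h3⟩
      change nz v < 1 / 16
      rw [hn]
      norm_num

end J220

end Pool.Agent.TH619
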