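import Pool.Agent.TH981.SD.Stm

set_option autoImplicit false

open Pool.Agent.TH981.SD
open Finset Set Filter
open scoped BigOperators Topology Classical

namespace Pool.Agent.TH902.J2250

lemma ratio_tendsto (α : ℝ) (h0 : 0 < α) (h1 : α < 1) (d : ℕ) (C : ℝ) :
    Tendsto (fun n : ℕ => lam α (d + n) * C * 2 / ((n : ℝ) + 1)) atTop (𝓝 0) := by
  have h : Tendsto (fun x : ℝ => x ^ (α - 1)) atTop (𝓝 0) := by
    have := tendsto_rpow_neg_atTop (show 0 < 1 - α by linarith)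
    simpa using this
  have h2 : Tendsto (fun n : ℕ => ((d + 1 + n : ℕ) : ℝ)) atTop atTop := by
    refine tendsto_natCast_atTop_atTop.comp ?_
    refine tendsto_atTop_mono (fun n => ?_) tendsto_id
    simp only [id]
    omega
  have h3 := (h.comp h2).const_mul (|C| * 2 * (d + 1))
  rw [mul_zero] at h3
  refine squeeze_zero_norm (fun n => ?_) h3
  simp only [Function.comp_apply]
  have hn : (0 : ℝ) < (n : ℝ) + 1 := by positivity
  have hdn : (0 : ℝ) < ((d + 1 + n : ℕ) : ℝ) := by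
    exact_mod_cast (by omega : 0 < d + 1 + n)
  have hdn' : (0:ℝ) ≤ ((d + n : ℕ) : ℝ) := by positivity
  have hlam0 : 0 ≤ lam α (d + n) := Real.rpow_nonneg hdn' _
  rw [Real.norm_eq_abs, abs_div, abs_mul, abs_mul, abs_of_pos hn, abs_of_pos (by norm_num : (0:ℝ) < 2),
    abs_of_nonneg hlam0, div_le_iff₀ hn]
  have e1 : lam α (d + n) ≤ ((d + 1 + n : ℕ) : ℝ) ^ α := by
    unfold lam
    exact Real.rpow_le_rpow hdn' (by exact_mod_cast (by omega : d + n ≤ d + 1 + n)) h0.le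
  have e2 : ((d + 1 + n : ℕ) : ℝ) ^ α = ((d + 1 + n : ℕ) : ℝ) ^ (α - 1) * ((d + 1 + n : ℕ) : ℝ) := by
    rw [Real.rpow_sub_one hdn.ne']
    field_simp
  have e3 : ((d + 1 + n : ℕ) : ℝ) ≤ ((d : ℝ) + 1) * (n + 1) := by
    push_cast
    have : (0 : ℝ) ≤ (d : ℝ) * n := by positivity
    nlinarith
  have hp : 0 ≤ ((d + 1 + n : ℕ) : ℝ) ^ (α - 1) := Real.rpow_nonneg hdn.le _
  calc lam α (d + n) * |C| * 2 = lam α (d + n) * (|C| * 2) := by ring
    _ ≤ (((d + 1 + n : ℕ) : ℝ) ^ (α - 1) * (((d : ℝ) + 1) * (n + 1))) * (|C| * 2) := by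
        refine mul_le_mul_of_nonneg_right ?_ (by positivity)
        refine e1.trans ?_
        rw [e2]
        exact mul_le_mul_of_nonneg_left e3 hp
    _ = |C| * 2 * (↑d + 1) * ((d + 1 + n : ℕ) : ℝ) ^ (α - 1) * (↑n + 1) := by ring

/-- the majorant -/
noncomputable def mj (α : ℝ) (d : ℕ) (C : ℝ) (n : ℕ) : ℝ :=
  (∏ i ∈ Finset.range n, lam α (d + i)) * C ^ n / (n.factorial : ℝ) * 2 ^ (d + n)

lemma lam_pos (α : ℝ) (d : ℕ) (hd : 1 ≤ d) : 0 < lam α d := by
  unfold lam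
  exact Real.rpow_pos_of_pos (by exact_mod_cast hd) _

lemma mj_pos (α : ℝ) (d : ℕ) (hd : 1 ≤ d) (C : ℝ) (hC : 0 < C) (n : ℕ) : 0 < mj α d C n := by
  unfold mj
  have : 0 < ∏ i ∈ Finset.range n, lam α (d + i) :=
    Finset.prod_pos (fun i _ => lam_pos α _ (by omega))
  positivity

lemma mj_summable (α : ℝ) (h0 : 0 < α) (h1 : α < 1) (d : ℕ) (hd : 1 ≤ d) (C : ℝ) (hC : 0 < C) :
    Summable (mj α d C) := by
  refine summable_of_ratio_test_tendsto_lt_one (l := 0) (by norm_num)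
    (Eventually.of_forall fun n => (mj_pos α d hd C hC n).ne') ?_
  refine (ratio_tendsto α h0 h1 d C).congr (fun n => ?_)
  have hP : 0 < mj α d C n := mj_pos α d hd C hC n
  have hP' : 0 < mj α d C (n + 1) := mj_pos α d hd C hC (n + 1)
  rw [Real.norm_of_nonneg hP.le, Real.norm_of_nonneg hP'.le, eq_div_iff hP.ne']
  unfold mj
  have hf : ((n.factorial : ℕ) : ℝ) ≠ 0 := by positivity
  have hn : (n : ℝ) + 1 ≠ 0 := by positivity
  rw [Finset.prod_range_succ, Nat.factorial_succ, pow_succ, ← add_assoc, pow_succ (2:ℝ) (d + n)]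
  push_cast
  field_simp

theorem vb (h1 : S_EARLY) (h2 : S_EXP) (h3 : S_TM) (h4 : S_YF) : S_VB := by
  intro α K X N hα0 hα1 hK
  obtain ⟨C1, hC1, hE⟩ := h1 α hα0 hα1
  have hK1 : 0 < Real.log K := Real.log_pos (by linarith)
  have hbet : 0 ≤ bet α := by
    unfold bet
    have e1 : (1 : ℝ) ≤ (2 : ℝ) ^ α := Real.one_le_rpow (by norm_num) hα0.le
    have e2 : (2 : ℝ) ^ α ≤ (2 : ℝ) := by
      have := Real.rpow_le_rpow_of_exponent_le (show (1:ℝ) ≤ 2 by norm_num) hα1.le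
      simpa using this
    exact div_nonneg (by linarith) (by linarith)
  obtain ⟨R, hR⟩ : ∃ R, R = Real.exp ((1 + bet α) * (Real.log K + C1)) := ⟨_, rfl⟩
  have hRpos : 0 < R := by rw [hR]; exact Real.exp_pos _
  obtain ⟨Ch, hCh⟩ : ∃ Ch, Ch = (1 + K) * (Real.log K + C1 + |X|) := ⟨_, rfl⟩
  have hChpos : 0 < Ch := by
    rw [hCh]
    have := abs_nonneg X
    positivity
  refine ⟨∑ d ∈ Finset.Icc 1 N, ((2:ℝ) ^ d + ∑' n, mj α d Ch n), (R + 1) / (R + 2), ?_, ?_, ?_⟩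
  · rw [lt_div_iff₀ (by linarith)]
    linarith
  · rw [div_lt_one (by linarith)]
    linarith
  intro z Y V tM hz0 hz1 hY hV htM0 htM d t hd1 hdN ht0 htX
  have hz12 : 1 / 2 < z := by
    refine lt_trans ?_ hz0
    rw [lt_div_iff₀ (by linarith)]
    linarith
  have hterm : (2:ℝ) ^ d + ∑' n, mj α d Ch n ≤
      ∑ d ∈ Finset.Icc 1 N, ((2:ℝ) ^ d + ∑' n, mj α d Ch n) := by
    refine Finset.single_le_sum (f := fun d => (2:ℝ) ^ d + ∑' n, mj α d Ch n) (fun e he => ?_)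
      (Finset.mem_Icc.mpr ⟨hd1, hdN⟩)
    have : 0 ≤ ∑' n, mj α e Ch n :=
      tsum_nonneg (fun n => (mj_pos α e (Finset.mem_Icc.mp he).1 Ch hChpos n).le)
    positivity
  refine le_trans ?_ hterm
  have hsn : 0 ≤ ∑' n, mj α d Ch n := tsum_nonneg (fun n => (mj_pos α d hd1 Ch hChpos n).le)
  obtain ⟨-, hTM⟩ := h3 α z Y hα0 hα1 hz12 hz1 hY
  obtain ⟨hlog, -, -⟩ := hTM tM htM0 htM
  -- `a0 ≥ 0`
  have hzR : R < z / (1 - z) := by
    rw [lt_div_iff₀ (by linarith)]
    rw [div_lt_iff₀ (by linarith)] at hz0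
    nlinarith
  have ha0 : 0 ≤ tM - Real.log K - C1 := by
    have e1 : (1 + bet α) * (Real.log K + C1) < Real.log (z / (1 - z)) := by
      rw [Real.lt_log_iff_exp_lt (lt_trans hRpos hzR), ← hR]
      exact hzR
    have e2 : (1 + bet α) * (Real.log K + C1) < (1 + bet α) * tM := lt_of_lt_of_le e1 hlog
    have e3 := lt_of_mul_lt_mul_left e2 (by linarith)
    linarith
  -- bound in the early phase
  have hearly : ∀ s, 0 ≤ s → s ≤ tM - Real.log K - C1 → ∀ e, V (e + 1) s ≤ 2 ^ (e + 1) := by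
    intro s hs0 hs1 e
    obtain ⟨g1, g2⟩ := hE K z Y V tM hK hz12 hz1 hY hV htM0 htM s hs0 hs1
    induction e with
    | zero => simpa using g1
    | succ e ih =>
      have := g2 (e + 1) (by omega)
      rw [pow_succ]
      linarith
  rcases le_or_gt t (tM - Real.log K - C1) with hta | hta
  · obtain ⟨e, rfl⟩ : ∃ e, d = e + 1 := ⟨d - 1, by omega⟩
    have := hearly t ht0 hta e
    linarith
  obtain ⟨a, ha⟩ : ∃ a, a = tM - Real.log K - C1 := ⟨_, rfl⟩
  rw [← ha] at ha0 hta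
  obtain ⟨v, hv0, hvs, -, hvb, -, -, -⟩ := h2 α z K a Y V hα0 hα1 (by linarith) hz1 (by linarith) ha0 hY hV
  obtain ⟨-, -, -, hm1, -, -, -⟩ := h4 α z Y hα0 hα1 (by linarith) hz1 hY
  have hI : |∫ s in a..t, cc Y K s| ≤ Ch := by
    have hb : ∀ x ∈ Set.uIoc a t, ‖cc Y K x‖ ≤ 1 + K := by
      intro x hx
      rw [Set.uIoc_of_le hta.le] at hx
      have hx0 : 0 ≤ x := ha0.trans hx.1.le
      obtain ⟨g1, g2⟩ := hm1 x hx0
      have g3 := hY.pos 1 x hx0
      have g4 := hY.le 1 x hx0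
      have g5 : 0 ≤ m1 Y x := by
        refine le_trans ?_ g1
        exact mul_nonneg g3.le (by linarith)
      unfold cc
      rw [Real.norm_eq_abs, abs_of_nonneg (by positivity)]
      nlinarith
    have hn := intervalIntegral.norm_integral_le_of_norm_le_const hb
    rw [Real.norm_eq_abs] at hn
    refine hn.trans ?_
    rw [hCh, abs_of_pos (by linarith)]
    refine mul_le_mul_of_nonneg_left ?_ (by linarith)
    have := le_abs_self X
    linarith
  have hle : ∀ n, v d n t ≤ mj α d Ch n := by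
    intro n
    refine (hvb d n t hta.le).trans ?_
    unfold mj
    have hP : 0 < ∏ i ∈ Finset.range n, lam α (d + i) :=
      Finset.prod_pos (fun i _ => lam_pos α _ (by omega))
    have g1 : (∫ s in a..t, cc Y K s) ^ n ≤ Ch ^ n := by
      refine (le_abs_self _).trans ?_
      rw [abs_pow]
      exact pow_le_pow_left₀ (abs_nonneg _) hI n
    have g2 : V (d + n) a ≤ 2 ^ (d + n) := by
      obtain ⟨e, he⟩ : ∃ e, d + n = e + 1 := ⟨d + n - 1, by omega⟩
      rw [he]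
      exact hearly a ha0 ha.le e
    have g3 : 0 ≤ V (d + n) a := (hV.pos _ _ ha0).le
    have hf : (0:ℝ) < (n.factorial : ℝ) := by positivity
    calc (∏ i ∈ Finset.range n, lam α (d + i)) * (∫ s in a..t, cc Y K s) ^ n / (n.factorial : ℝ) *
          V (d + n) a
        ≤ (∏ i ∈ Finset.range n, lam α (d + i)) * Ch ^ n / (n.factorial : ℝ) * V (d + n) a := by
          refine mul_le_mul_of_nonneg_right ?_ g3
          exact div_le_div_of_nonneg_right (mul_le_mul_of_nonneg_left g1 hP.le) hf.le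
      _ ≤ (∏ i ∈ Finset.range n, lam α (d + i)) * Ch ^ n / (n.factorial : ℝ) * 2 ^ (d + n) := by
          refine mul_le_mul_of_nonneg_left g2 ?_
          positivity
  have hsum := hvs d t hta.le
  have : V d t ≤ ∑' n, mj α d Ch n := by
    rw [← hsum.tsum_eq]
    exact hsum.summable.tsum_le_tsum hle (mj_summable α hα0 hα1 d hd1 Ch hChpos)
  have h2d : (0:ℝ) < 2 ^ d := by positivity
  linarith

end Pool.Agent.TH902.J2250
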