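import Pool.Agent.TH981.SD.Stm

set_option autoImplicit false

open Pool.Agent.TH981.SD
open Finset Set Filter
open scoped BigOperators Topology Classical

namespace Pool.Agent.TH902.J2259

/-- comparison for a scalar linear differential inequality -/
lemma cmp (F F' A : ℝ → ℝ) (a b M : ℝ) (hc : ContinuousOn F (Set.Icc a b))
    (hd : ∀ t ∈ Set.Ico a b, HasDerivWithinAt F (F' t) (Set.Ici t) t)
    (hle : ∀ t ∈ Set.Ico a b, F' t ≤ A t * F t) (hA : ∀ t ∈ Set.Ico a b, A t ≤ M) (h0 : F a ≤ 0) :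
    ∀ t ∈ Set.Icc a b, F t ≤ 0 := by
  intro t ht
  have key : ∀ ε : ℝ, 0 < ε → F t ≤ ε * Real.exp ((|M| + 1) * (t - a)) := by
    intro ε hε
    refine image_le_of_deriv_right_lt_deriv_boundary (f := F) (f' := F')
      (B := fun x => ε * Real.exp ((|M| + 1) * (x - a)))
      (B' := fun x => ε * (Real.exp ((|M| + 1) * (x - a)) * (|M| + 1))) hc hd ?_ ?_ ?_ ht
    · simp only [sub_self, mul_zero, Real.exp_zero, mul_one]
      linarith
    · intro x
      have h1 : HasDerivAt (fun x : ℝ => (|M| + 1) * (x - a)) (|M| + 1) x := by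
        simpa using ((hasDerivAt_id x).sub_const a).const_mul (|M| + 1)
      exact h1.exp.const_mul ε
    · intro x hx hFx
      have hFx' : F x = ε * Real.exp ((|M| + 1) * (x - a)) := hFx
      have hpos : 0 < ε * Real.exp ((|M| + 1) * (x - a)) := by positivity
      have g1 := hle x hx
      have g2 := hA x hx
      have g3 : A x * F x ≤ |M| * F x := by
        rw [hFx']
        exact mul_le_mul_of_nonneg_right (g2.trans (le_abs_self M)) hpos.le
      have g4 : |M| * F x < (|M| + 1) * F x := by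
        rw [hFx']
        nlinarith
      have g5 : (|M| + 1) * F x = ε * (Real.exp ((|M| + 1) * (x - a)) * (|M| + 1)) := by
        rw [hFx']; ring
      show F' x < ε * (Real.exp ((|M| + 1) * (x - a)) * (|M| + 1))
      linarith
  have hlim : Tendsto (fun ε : ℝ => ε * Real.exp ((|M| + 1) * (t - a))) (𝓝[>] 0) (𝓝 0) := by
    have : Tendsto (fun ε : ℝ => ε * Real.exp ((|M| + 1) * (t - a))) (𝓝 0)
        (𝓝 (0 * Real.exp ((|M| + 1) * (t - a)))) := (continuous_id.mul continuous_const).tendsto 0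
    rw [zero_mul] at this
    exact this.mono_left nhdsWithin_le_nhds
  refine ge_of_tendsto hlim ?_
  filter_upwards [self_mem_nhdsWithin] with ε hε
  exact key ε hε

/-- one phase -/
lemma phase (Z V1 V2 c mu Am W W' : ℝ → ℝ) (k a b M : ℝ) (ha : 0 ≤ a)
    (hZ : ∀ t, 0 ≤ t → HasDerivWithinAt Z (mu t * Z t + k * Am t ^ 4 * V1 t) (Set.Ici 0) t)
    (hV : ∀ t, 0 ≤ t → HasDerivWithinAt V1 (c t * V2 t - V1 t) (Set.Ici 0) t)
    (hW : ∀ t, HasDerivAt W (W' t) t)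
    (hin : ∀ t, a ≤ t → t < b → (mu t + 1) * W t * V1 t + k * Am t ^ 4 * V1 t ≤
      W' t * V1 t + W t * (c t * V2 t))
    (hmu : ∀ t, 0 ≤ t → mu t ≤ M) (h0 : Z a ≤ W a * V1 a) :
    ∀ t ∈ Set.Icc a b, Z t ≤ W t * V1 t := by
  intro t ht
  have h := cmp (fun t => Z t - W t * V1 t)
    (fun t => (mu t * Z t + k * Am t ^ 4 * V1 t) - (W' t * V1 t + W t * (c t * V2 t - V1 t)))
    mu a b M ?_ ?_ ?_ ?_ (by linarith) t ht
  · linarith
  · intro x hx
    have hx0 : 0 ≤ x := ha.trans hx.1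
    have e1 : ContinuousWithinAt Z (Set.Icc a b) x :=
      (hZ x hx0).continuousWithinAt.mono (fun y hy => ha.trans hy.1)
    have e2 : ContinuousWithinAt V1 (Set.Icc a b) x :=
      (hV x hx0).continuousWithinAt.mono (fun y hy => ha.trans hy.1)
    exact e1.sub ((hW x).continuousAt.continuousWithinAt.mul e2)
  · intro x hx
    have hx0 : 0 ≤ x := ha.trans hx.1
    have hs : Set.Ici x ⊆ Set.Ici 0 := Set.Ici_subset_Ici.mpr hx0
    exact ((hZ x hx0).mono hs).sub ((hW x).hasDerivWithinAt.mul ((hV x hx0).mono hs))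
  · intro x hx
    have := hin x hx.1 hx.2
    linarith
  · intro x hx
    exact hmu x (ha.trans hx.1)

lemma ev (a b r : ℝ) (hr : 0 < r) :
    Tendsto (fun D : ℝ => (a + b * Real.log D) * D ^ (-r)) atTop (𝓝 0) := by
  have h1 : Tendsto (fun D : ℝ => D ^ (-r)) atTop (𝓝 0) := tendsto_rpow_neg_atTop hr
  have h2 : Tendsto (fun D : ℝ => Real.log D / D ^ r) atTop (𝓝 0) :=
    (isLittleO_log_rpow_atTop hr).tendsto_div_nhds_zero
  have h3 := (h1.const_mul a).add (h2.const_mul b)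
  rw [mul_zero, mul_zero, add_zero] at h3
  refine h3.congr' ?_
  filter_upwards [eventually_gt_atTop (0:ℝ)] with D hD
  rw [Real.rpow_neg hD.le]
  field_simp

/-- the facts for large `D` -/
lemma evD (α e0 e1 : ℝ) (j : ℕ) (h1 : α < 1) (he0 : 0 < e0) (he1 : 0 < e1) : ∀ᶠ D : ℝ in atTop,
    1 ≤ D ∧
    4 * (((j : ℝ) + 4) * 2 ^ (j + 5)) * D ^ (-((1 - α) / 2)) * (1 + 2 * Real.log (2 ^ (j + 6) * D)) ≤ 1 ∧
    2 ≤ D ^ e1 ∧
    2 ^ (2 * j + 10) * (2 + 5 * Real.log (2 ^ (j + 6) * D)) ≤ D ^ e0 ∧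
    2 * (1 + 2 ^ (2 * j + 10) * Real.exp 4) ≤ D ^ e0 := by
  have t1 := (ev (1 + 2 * Real.log (2 ^ (j + 6))) 2 ((1 - α) / 2) (by linarith)).const_mul
    (4 * (((j : ℝ) + 4) * 2 ^ (j + 5)))
  rw [mul_zero] at t1
  have t2 := (ev (2 + 5 * Real.log (2 ^ (j + 6))) 5 e0 he0).const_mul ((2:ℝ) ^ (2 * j + 10))
  rw [mul_zero] at t2
  filter_upwards [eventually_ge_atTop (1 : ℝ), t1.eventually_le_const one_pos, t2.eventually_le_const one_pos,
    (tendsto_rpow_atTop he1).eventually_ge_atTop 2,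
    (tendsto_rpow_atTop he0).eventually_ge_atTop (2 * (1 + 2 ^ (2 * j + 10) * Real.exp 4))]
    with D hD1 g1 g2 g3 g4
  have hD0 : 0 < D := by linarith
  have hlog : Real.log (2 ^ (j + 6) * D) = Real.log (2 ^ (j + 6)) + Real.log D :=
    Real.log_mul (by positivity) hD0.ne'
  refine ⟨hD1, ?_, g3, ?_, g4⟩
  · rw [hlog]
    calc _ = 4 * ((↑j + 4) * 2 ^ (j + 5)) * ((1 + 2 * Real.log (2 ^ (j + 6)) + 2 * Real.log D) *
        D ^ (-((1 - α) / 2))) := by ring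
      _ ≤ 1 := g1
  · rw [hlog]
    have hp : 0 < D ^ e0 := Real.rpow_pos_of_pos hD0 _
    have : (2:ℝ) ^ (2 * j + 10) * ((2 + 5 * Real.log (2 ^ (j + 6)) + 5 * Real.log D) * D ^ (-e0)) * D ^ e0
        ≤ 1 * D ^ e0 := mul_le_mul_of_nonneg_right g2 hp.le
    rw [Real.rpow_neg hD0.le] at this
    calc _ = (2:ℝ) ^ (2 * j + 10) * ((2 + 5 * Real.log (2 ^ (j + 6)) + 5 * Real.log D) * (D ^ e0)⁻¹) *
        D ^ e0 := by field_simp; ring
      _ ≤ 1 * D ^ e0 := this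
      _ = D ^ e0 := one_mul _

lemma evK (α e0 e1 : ℝ) (j : ℕ) (h1 : α < 1) (he0 : 0 < e0) (he1 : 0 < e1) : ∃ K1 : ℝ, 1 ≤ K1 ∧
    ∀ K, K1 ≤ K →
    1 ≤ DK α K ∧
    4 * (((j : ℝ) + 4) * 2 ^ (j + 5)) * DK α K ^ (-((1 - α) / 2)) *
      (1 + 2 * Real.log (2 ^ (j + 6) * DK α K)) ≤ 1 ∧
    2 ≤ DK α K ^ e1 ∧
    2 ^ (2 * j + 10) * (2 + 5 * Real.log (2 ^ (j + 6) * DK α K)) ≤ DK α K ^ e0 ∧
    2 * (1 + 2 ^ (2 * j + 10) * Real.exp 4) ≤ DK α K ^ e0 := by
  have h : Tendsto (fun K : ℝ => DK α K) atTop atTop := by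
    unfold DK
    exact tendsto_rpow_atTop (by have : 0 < 1 - α := by linarith
                                 positivity)
  obtain ⟨K1, hK1⟩ := eventually_atTop.mp (h.eventually (evD α e0 e1 j h1 he0 he1))
  exact ⟨max K1 1, le_max_right _ _, fun K hK => hK1 K ((le_max_left _ _).trans hK)⟩

/-- scalar inequality, phase A -/
lemma sc1 {mu W W' V1 V2 c τ kA : ℝ} (h1 : mu ≤ τ * c) (h2 : V1 ≤ V2) (h3 : 1 ≤ c) (h4 : τ ≤ 1)
    (hW : 0 ≤ W) (hV : 0 < V1) (hWW : kA + τ * W ≤ W') :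
    (mu + 1) * W * V1 + kA * V1 ≤ W' * V1 + W * (c * V2) := by
  have a1 : c * V1 ≤ c * V2 := mul_le_mul_of_nonneg_left h2 (by linarith)
  have a2 := mul_le_mul_of_nonneg_left a1 hW
  have a3 := mul_le_mul_of_nonneg_right hWW hV.le
  have a4 : mu * (W * V1) ≤ τ * c * (W * V1) := mul_le_mul_of_nonneg_right h1 (by positivity)
  have a5 : 0 ≤ (1 - τ) * (c - 1) * (W * V1) := by
    have : 0 ≤ 1 - τ := by linarith
    have : 0 ≤ c - 1 := by linarith
    positivity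
  nlinarith

/-- scalar inequality, phase B -/
lemma sc2 {mu W k V1 x kA : ℝ} (h1 : mu ≤ 1) (h2 : 2 * V1 ≤ x) (h3 : kA ≤ k) (hk : 0 ≤ k)
    (hW : 0 ≤ W) (hV : 0 < V1) :
    (mu + 1) * W * V1 + kA * V1 ≤ 2 * k * V1 + W * x := by
  have g4 := mul_le_mul_of_nonneg_left h2 hW
  have g6 := mul_le_mul_of_nonneg_right h3 hV.le
  have g7 : (mu + 1) * W * V1 ≤ 2 * W * V1 :=
    mul_le_mul_of_nonneg_right (mul_le_mul_of_nonneg_right (by linarith) hW) hV.le
  have g8 : 0 ≤ k * V1 := by positivity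
  linarith

/-- scalar inequality, phase C -/
lemma sc3 {mu w E k V1 x kA : ℝ} (h1 : mu ≤ 1) (h2 : 0 ≤ x) (h3 : kA ≤ k)
    (hk : 0 ≤ k) (hE : 1 ≤ E) (hw : 0 ≤ w) (hV : 0 < V1) :
    (mu + 1) * (w * E) * V1 + kA * V1 ≤ (k * E + w * (E * 2)) * V1 + (w * E) * x := by
  have hW : 0 ≤ w * E := by positivity
  have g4 : 0 ≤ w * E * x := by positivity
  have g5 : kA ≤ k * E := by nlinarith
  have g6 := mul_le_mul_of_nonneg_right g5 hV.le
  have g7 : (mu + 1) * (w * E) * V1 ≤ 2 * (w * E) * V1 :=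
    mul_le_mul_of_nonneg_right (mul_le_mul_of_nonneg_right (by linarith) hW) hV.le
  linarith

/-- scalar inequality after `tp` -/
lemma sc4 {mu E Q B v k A4 V1 : ℝ} (hmu0 : 0 ≤ mu) (hmx : mu ≤ E / 2) (hE : 0 < E) (hB : 0 < B)
    (hv : 0 < v) (hk : 0 < k) (hA : A4 ≤ 1) (hV0 : 0 < V1) (hV : V1 ≤ Real.exp 4 * E * v)
    (hQ : Q = (B + 2 * k * Real.exp 4) * v) :
    mu * (Q + B * v - Q * E) + k * A4 * V1 ≤ Q * E := by
  have hE4 : 0 < Real.exp 4 := Real.exp_pos _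
  have hQ0 : 0 ≤ Q := by rw [hQ]; positivity
  have a1 : k * A4 * V1 ≤ k * (Real.exp 4 * E * v) := by
    have b1 : k * A4 * V1 ≤ k * 1 * V1 :=
      mul_le_mul_of_nonneg_right (mul_le_mul_of_nonneg_left hA hk.le) hV0.le
    have b2 := mul_le_mul_of_nonneg_left hV hk.le
    linarith
  have a2 : mu * (Q + B * v - Q * E) ≤ E / 2 * (Q + B * v) := by
    have b1 : mu * (Q + B * v) ≤ E / 2 * (Q + B * v) :=
      mul_le_mul_of_nonneg_right hmx (by positivity)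
    have b2 : 0 ≤ mu * (Q * E) := by positivity
    linarith
  have a3 : E / 2 * (Q + B * v) + k * (Real.exp 4 * E * v) = Q * E := by
    rw [hQ]; ring
  linarith

/-- the data of one hub -/
structure HH {j : ℕ} (s : Sys j) (i : Fin j) (k B Lm τ M : ℝ) : Prop where
  D1 : 1 ≤ s.D
  α0 : 0 < s.α
  α1 : s.α < 1
  e0pos : 0 < s.e0
  eppos : 0 < s.ep
  ei0 : 0 ≤ s.ei i
  ei1 : s.ei i ≤ s.e0 / 16
  eple : s.ep ≤ s.e0 / 1000
  e0le : s.e0 ≤ (1 - s.α) / 1000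
  L0 : 0 ≤ s.L
  LLm : s.L ≤ Lm
  expLm : Real.exp Lm = 2 ^ (j + 6) * s.D
  expL : ∀ x : ℝ, Real.exp (x * s.L) = s.D ^ x
  Ki2 : 2 ≤ s.Kv i
  KiD : s.Kv i ≤ s.D
  logKi : Real.log (s.Kv i / 2) ≤ Lm
  tM0 : 0 < s.tM
  Am0 : ∀ t, 0 ≤ t → 0 ≤ s.Am t
  Am1 : ∀ t, s.Am t ≤ 1
  AmE : ∀ t, 0 ≤ t → t ≤ s.tM → s.Am t ≤ 2 ^ (j + 6) * s.D * Real.exp (t - s.tM)
  k0 : 0 < k
  hk' : k = 2 ^ (2 * j + 10) * s.D ^ (s.α + s.ep)
  hB : B = s.D ^ (s.α + 3 * s.e0)
  mu0 : ∀ t, 0 ≤ t → 0 ≤ s.mu t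
  muM : ∀ t, 0 ≤ t → s.mu t ≤ M
  muτ : ∀ t, 0 ≤ t → s.mu t ≤ τ * cc s.Y (s.Kv i) t
  τ0 : 0 < τ
  τ1 : 4 * τ * (1 + 2 * Lm) ≤ 1
  g4 : 2 ^ (2 * j + 10) * (2 + 5 * Lm) ≤ s.D ^ s.e0
  g5 : 2 * (1 + 2 ^ (2 * j + 10) * Real.exp 4) ≤ s.D ^ s.e0
  V0 : ∀ d t, 0 ≤ t → 0 < s.V i d t
  c0 : ∀ t, 0 ≤ t → 0 < cc s.Y (s.Kv i) t
  Vd : ∀ t, 0 ≤ t → HasDerivWithinAt (s.V i 1) (cc s.Y (s.Kv i) t * s.V i 2 t - s.V i 1 t)
        (Set.Ici 0) t
  Zd : ∀ t, 0 ≤ t → HasDerivWithinAt (s.Z i) (s.mu t * s.Z i t + k * s.Am t ^ 4 * s.V i 1 t)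
        (Set.Ici 0) t
  Z0 : s.Z i 0 = 0
  mono : ∀ t, 0 ≤ t → t ≤ s.tM + Real.log (s.Kv i / 2) →
    1 ≤ cc s.Y (s.Kv i) t ∧ s.V i 1 t ≤ s.V i 2 t
  hcc : ∀ t, s.tM ≤ t → cc s.Y (s.Kv i) t ≤ 2 * s.Kv i * Real.exp (-(t - s.tM))
  grow : ∀ t, s.tM ≤ t → t ≤ s.tM + (1 - s.ep) * (s.gam i * s.L) →
    2 * s.V i 1 t ≤ cc s.Y (s.Kv i) t * s.V i 2 t
  Vtp : ∀ t, s.tp ≤ t → s.V i 1 t ≤ Real.exp 4 * Real.exp (-(t - s.tp)) * s.V i 1 s.tp

section
variable {j : ℕ} {s : Sys j} {i : Fin j} {k B Lm τ M : ℝ}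

lemma HH.τ4 (H : HH s i k B Lm τ M) : 4 * τ ≤ 1 := by
  have h1 := H.τ1
  have h2 := H.τ0
  have h3 : 0 ≤ Lm := H.L0.trans H.LLm
  nlinarith

/-- `mu ≤ 1` after `TA` -/
lemma HH.mu1 (H : HH s i k B Lm τ M) {t : ℝ} (ht : s.tM + Real.log (s.Kv i / 2) ≤ t) : s.mu t ≤ 1 := by
  have hKi2 := H.Ki2
  have hKi0 : 0 < s.Kv i := by linarith
  have hlogKi0 : 0 ≤ Real.log (s.Kv i / 2) := Real.log_nonneg (by linarith)
  have htM := H.tM0
  have ht0 : 0 ≤ t := by linarith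
  refine (H.muτ t ht0).trans ?_
  have g1 := H.hcc t (by linarith)
  have g2 : Real.exp (-(t - s.tM)) ≤ 2 / s.Kv i := by
    have : 2 / s.Kv i = Real.exp (-Real.log (s.Kv i / 2)) := by
      rw [Real.exp_neg, Real.exp_log (by positivity)]
      field_simp
    rw [this]
    exact Real.exp_le_exp.mpr (by linarith)
  have g3 : cc s.Y (s.Kv i) t ≤ 4 := by
    refine g1.trans ?_
    calc 2 * s.Kv i * Real.exp (-(t - s.tM)) ≤ 2 * s.Kv i * (2 / s.Kv i) :=
          mul_le_mul_of_nonneg_left g2 (by positivity)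
      _ = 4 := by field_simp; norm_num
  calc τ * cc s.Y (s.Kv i) t ≤ τ * 4 := mul_le_mul_of_nonneg_left g3 H.τ0.le
    _ ≤ 1 := by linarith [H.τ4]

lemma HH.Am4 (H : HH s i k B Lm τ M) {t : ℝ} (ht : 0 ≤ t) : s.Am t ^ 4 ≤ 1 :=
  pow_le_one₀ (H.Am0 t ht) (H.Am1 t)

lemma HH.Am4' (H : HH s i k B Lm τ M) {t : ℝ} (ht : 0 ≤ t) : s.Am t ^ 4 ≤ s.Am t := by
  have := pow_le_pow_of_le_one (H.Am0 t ht) (H.Am1 t) (show 1 ≤ 4 by norm_num)
  simpa using this

/-- phase 0 -/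
lemma HH.ph0 (H : HH s i k B Lm τ M) : ∀ t ∈ Set.Icc 0 (s.tM - Lm),
    s.Z i t ≤ 2 * k * Real.exp (t - (s.tM - Lm)) * s.V i 1 t := by
  have hk0 := H.k0
  have hLm0 : 0 ≤ Lm := H.L0.trans H.LLm
  have hKi2 := H.Ki2
  have hlogKi0 : 0 ≤ Real.log (s.Kv i / 2) := Real.log_nonneg (by linarith)
  obtain ⟨t1, ht1⟩ : ∃ t1, t1 = s.tM - Lm := ⟨_, rfl⟩
  rw [← ht1]
  refine phase (s.Z i) (s.V i 1) (s.V i 2) (cc s.Y (s.Kv i)) s.mu s.Am
    (fun t => 2 * k * Real.exp (t - t1)) (fun t => 2 * k * Real.exp (t - t1)) k 0 t1 M le_rfl H.Zd H.Vd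
    ?_ ?_ H.muM ?_
  · intro t
    have h1 : HasDerivAt (fun t : ℝ => t - t1) 1 t := (hasDerivAt_id t).sub_const t1
    have h2 := h1.exp.const_mul (2 * k)
    rw [mul_one] at h2
    exact h2
  · intro t ht0 htt1
    obtain ⟨m1, m2⟩ := H.mono t ht0 (by linarith)
    refine sc1 (H.muτ t ht0) m2 m1 (by linarith [H.τ4, H.τ0]) (by positivity) (H.V0 1 t ht0) ?_
    have g0 : s.Am t ≤ Real.exp (t - t1) := by
      refine (H.AmE t ht0 (by linarith)).trans (le_of_eq ?_)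
      rw [ht1, show t - (s.tM - Lm) = Lm + (t - s.tM) by ring, Real.exp_add, H.expLm]
    have g1 := (H.Am4' ht0).trans g0
    have hE : 0 < Real.exp (t - t1) := Real.exp_pos _
    have g2 := mul_le_mul_of_nonneg_left g1 hk0.le
    have g3 : τ * (2 * k * Real.exp (t - t1)) ≤ k * Real.exp (t - t1) := by
      have h4 : 0 ≤ (1 - 2 * τ) * (k * Real.exp (t - t1)) := by
        have : 0 ≤ 1 - 2 * τ := by linarith [H.τ4, H.τ0]
        positivity
      linarith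
    linarith
  · rw [H.Z0]
    have := H.V0 1 0 le_rfl
    positivity

lemma HH.ph0' (H : HH s i k B Lm τ M) {t : ℝ} (ht0 : 0 ≤ t) (htb : t ≤ max (s.tM - Lm) 0) :
    s.Z i t ≤ 2 * k * s.V i 1 t := by
  have hVt := H.V0 1 t ht0
  have hk0 := H.k0
  rcases le_or_gt t (s.tM - Lm) with h | h
  · refine (H.ph0 t ⟨ht0, h⟩).trans ?_
    refine mul_le_mul_of_nonneg_right ?_ hVt.le
    have : Real.exp (t - (s.tM - Lm)) ≤ 1 := Real.exp_le_one_iff.mpr (by linarith)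
    nlinarith
  · have h0 : t = 0 := by
      rcases le_max_iff.mp htb with h' | h'
      · exact absurd h' (not_le.mpr h)
      · linarith
    rw [h0, H.Z0]
    have := H.V0 1 0 le_rfl
    positivity

/-- phases 1 and B -/
lemma HH.ph1 (H : HH s i k B Lm τ M) {t1 b1 TA TB TC : ℝ} (ht1 : t1 = s.tM - Lm)
    (hb1 : b1 = max t1 0) (hTA : TA = s.tM + Real.log (s.Kv i / 2))
    (hTB : TB = s.tM + (1 - s.ep) * (s.gam i * s.L)) (hTC : TC = max TA TB) :
    ∀ t ∈ Set.Icc b1 TC, s.Z i t ≤ (2 * k * (1 + (t - t1))) * s.V i 1 t := by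
  have hk0 := H.k0
  have hLm0 : 0 ≤ Lm := H.L0.trans H.LLm
  have hKi2 := H.Ki2
  have htM0 := H.tM0
  have hlogKi0 : 0 ≤ Real.log (s.Kv i / 2) := Real.log_nonneg (by linarith)
  have hb10 : 0 ≤ b1 := by rw [hb1]; exact le_max_right _ _
  have hb1t : t1 ≤ b1 := by rw [hb1]; exact le_max_left _ _
  have hlogKi := H.logKi
  have hTAt1 : TA - t1 ≤ 2 * Lm := by
    rw [hTA, ht1]
    linarith
  refine phase (s.Z i) (s.V i 1) (s.V i 2) (cc s.Y (s.Kv i)) s.mu s.Am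
    (fun t => 2 * k * (1 + (t - t1))) (fun t => 2 * k) k b1 TC M hb10 H.Zd H.Vd
    ?_ ?_ H.muM ?_
  · intro t
    have h1 : HasDerivAt (fun t : ℝ => 1 + (t - t1)) 1 t := ((hasDerivAt_id t).sub_const t1).const_add 1
    have h2 := h1.const_mul (2 * k)
    rw [mul_one] at h2
    exact h2
  · intro t hbt htC
    have ht0 : 0 ≤ t := hb10.trans hbt
    have htt1 : 0 ≤ t - t1 := by linarith
    have hVt := H.V0 1 t ht0
    have hτ0 := H.τ0
    rcases le_or_gt t TA with h | h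
    · obtain ⟨m1, m2⟩ := H.mono t ht0 (by linarith)
      refine sc1 (H.muτ t ht0) m2 m1 (by linarith [H.τ4]) (by positivity) hVt ?_
      have g1 := mul_le_mul_of_nonneg_left (H.Am4 ht0) hk0.le
      have g2 : τ * (2 * k * (1 + (t - t1))) ≤ k := by
        have e1 : 2 * τ * (1 + (t - t1)) ≤ 1 := by
          have e2 : 2 * τ * (1 + (t - t1)) ≤ 2 * τ * (1 + 2 * Lm) :=
            mul_le_mul_of_nonneg_left (by linarith) (by positivity)
          have e3 : 0 ≤ 2 * τ * (1 + 2 * Lm) := by positivity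
          linarith [H.τ1]
        calc τ * (2 * k * (1 + (t - t1))) = 2 * τ * (1 + (t - t1)) * k := by ring
          _ ≤ 1 * k := mul_le_mul_of_nonneg_right e1 hk0.le
          _ = k := one_mul _
      linarith
    · have htB : t ≤ TB := by
        rw [hTC] at htC
        rcases lt_max_iff.mp htC with h' | h'
        · exact absurd h'.le (not_le.mpr h)
        · exact h'.le
      have g1 := H.grow t (by linarith) (by rw [← hTB]; exact htB)
      have g2 := H.mu1 (t := t) (by linarith)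
      have g5 := mul_le_mul_of_nonneg_left (H.Am4 ht0) hk0.le
      rw [mul_one] at g5
      exact sc2 g2 g1 g5 hk0.le (by positivity) hVt
  · refine (H.ph0' hb10 (by rw [← ht1, ← hb1])).trans ?_
    refine mul_le_mul_of_nonneg_right ?_ (H.V0 1 b1 hb10).le
    have : 0 ≤ b1 - t1 := by linarith
    nlinarith

/-- phase C -/
lemma HH.ph2 (H : HH s i k B Lm τ M) {t1 b1 TA TB TC w : ℝ} (ht1 : t1 = s.tM - Lm)
    (hb1 : b1 = max t1 0) (hTA : TA = s.tM + Real.log (s.Kv i / 2))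
    (hTB : TB = s.tM + (1 - s.ep) * (s.gam i * s.L)) (hTC : TC = max TA TB)
    (hw : w = 2 * k * (1 + (TC - t1))) :
    ∀ t ∈ Set.Icc TC s.tp, s.Z i t ≤
        ((w + k * (t - TC)) * Real.exp (2 * (t - TC))) * s.V i 1 t := by
  have hk0 := H.k0
  have hLm0 : 0 ≤ Lm := H.L0.trans H.LLm
  have hKi2 := H.Ki2
  have htM0 := H.tM0
  have hlogKi0 : 0 ≤ Real.log (s.Kv i / 2) := Real.log_nonneg (by linarith)
  have hb10 : 0 ≤ b1 := by rw [hb1]; exact le_max_right _ _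
  have hATC : TA ≤ TC := by rw [hTC]; exact le_max_left _ _
  have hbTC : b1 ≤ TC := by
    rw [hb1]
    exact max_le (by linarith) (by linarith)
  have hTC0 : 0 ≤ TC := hb10.trans hbTC
  have hw0 : 0 ≤ w := by
    have : 0 ≤ TC - t1 := by linarith
    rw [hw]; positivity
  refine phase (s.Z i) (s.V i 1) (s.V i 2) (cc s.Y (s.Kv i)) s.mu s.Am
    (fun t => (w + k * (t - TC)) * Real.exp (2 * (t - TC)))
    (fun t => k * Real.exp (2 * (t - TC)) +
      (w + k * (t - TC)) * (Real.exp (2 * (t - TC)) * 2)) k TC s.tp M hTC0 H.Zd H.Vd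
    ?_ ?_ H.muM ?_
  · intro t
    have h0 : HasDerivAt (fun t : ℝ => t - TC) 1 t := (hasDerivAt_id t).sub_const TC
    have h1 : HasDerivAt (fun t : ℝ => w + k * (t - TC)) k t := by
      have := (h0.const_mul k).const_add w
      rwa [mul_one] at this
    have h2 : HasDerivAt (fun t : ℝ => Real.exp (2 * (t - TC))) (Real.exp (2 * (t - TC)) * 2) t := by
      have h3 := (h0.const_mul 2).exp
      rwa [mul_one] at h3
    exact h1.mul h2
  · intro t hCt _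
    have ht0 : 0 ≤ t := hTC0.trans hCt
    have hVt := H.V0 1 t ht0
    have hV2t := H.V0 2 t ht0
    have hct := H.c0 t ht0
    have g2 := H.mu1 (t := t) (by linarith)
    have hE1 : 1 ≤ Real.exp (2 * (t - TC)) := Real.one_le_exp (by linarith)
    have g5 := mul_le_mul_of_nonneg_left (H.Am4 ht0) hk0.le
    rw [mul_one] at g5
    have h6 : 0 ≤ t - TC := by linarith
    exact sc3 g2 (by positivity) g5 hk0.le hE1 (by positivity) hVt
  · have := H.ph1 ht1 hb1 hTA hTB hTC TC ⟨hbTC, le_rfl⟩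
    rw [← hw] at this
    simpa using this

lemma HH.kB (H : HH s i k B Lm τ M) : k * (2 + 5 * Lm) * s.D ^ (4 * s.ep + 2 * s.ei i) ≤ B := by
  have hD1 := H.D1
  have hD0 : 0 < s.D := by linarith
  rw [H.hk', H.hB]
  have e1 : 2 ^ (2 * j + 10) * s.D ^ (s.α + s.ep) * (2 + 5 * Lm) * s.D ^ (4 * s.ep + 2 * s.ei i) =
      2 ^ (2 * j + 10) * (2 + 5 * Lm) * (s.D ^ (s.α + s.ep) * s.D ^ (4 * s.ep + 2 * s.ei i)) := by ring
  rw [e1, ← Real.rpow_add hD0]
  calc 2 ^ (2 * j + 10) * (2 + 5 * Lm) * s.D ^ (s.α + s.ep + (4 * s.ep + 2 * s.ei i))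
      ≤ s.D ^ s.e0 * s.D ^ (s.α + s.ep + (4 * s.ep + 2 * s.ei i)) :=
        mul_le_mul_of_nonneg_right H.g4 (by positivity)
    _ = s.D ^ (s.e0 + (s.α + s.ep + (4 * s.ep + 2 * s.ei i))) := by rw [← Real.rpow_add hD0]
    _ ≤ s.D ^ (s.α + 3 * s.e0) := Real.rpow_le_rpow_of_exponent_le hD1
        (by linarith [H.eple, H.ei1, H.e0pos])

/-- the bound up to `tp` -/
lemma HH.bd (H : HH s i k B Lm τ M) {t : ℝ} (ht0 : 0 ≤ t) (htp : t ≤ s.tp) :
    s.Z i t ≤ B * s.V i 1 t := by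
  obtain ⟨TA, hTA⟩ : ∃ TA, TA = s.tM + Real.log (s.Kv i / 2) := ⟨_, rfl⟩
  obtain ⟨TB, hTB⟩ : ∃ TB, TB = s.tM + (1 - s.ep) * (s.gam i * s.L) := ⟨_, rfl⟩
  obtain ⟨t1, ht1⟩ : ∃ t1, t1 = s.tM - Lm := ⟨_, rfl⟩
  obtain ⟨b1, hb1⟩ : ∃ b1, b1 = max t1 0 := ⟨_, rfl⟩
  obtain ⟨TC, hTC⟩ : ∃ TC, TC = max TA TB := ⟨_, rfl⟩
  obtain ⟨w, hw⟩ : ∃ w, w = 2 * k * (1 + (TC - t1)) := ⟨_, rfl⟩
  have hk0 := H.k0
  have hL0 := H.L0
  have hLLm := H.LLm
  have hLm0 : 0 ≤ Lm := hL0.trans hLLm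
  have hep0 := H.eppos
  have hei0 := H.ei0
  have hei1 := H.ei1
  have hepl := H.eple
  have he0l := H.e0le
  have hα0 := H.α0
  have hD1 := H.D1
  have hlogKi := H.logKi
  have hgam0 : 0 ≤ s.gam i ∧ s.gam i ≤ 1 := by
    unfold Sys.gam
    constructor <;> linarith
  have hVt := H.V0 1 t ht0
  have hTBt1 : TB - t1 ≤ 2 * Lm := by
    have e1 : s.gam i * s.L ≤ 1 * s.L := mul_le_mul_of_nonneg_right hgam0.2 hL0
    have e2 : (1 - s.ep) * (s.gam i * s.L) ≤ 1 * (s.gam i * s.L) :=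
      mul_le_mul_of_nonneg_right (by linarith) (mul_nonneg hgam0.1 hL0)
    rw [hTB, ht1]
    linarith
  have hTAt1 : TA - t1 ≤ 2 * Lm := by
    rw [hTA, ht1]
    linarith
  have hTCt1 : TC - t1 ≤ 2 * Lm := by
    rw [hTC]
    rcases le_total TA TB with h | h
    · rw [max_eq_right h]; exact hTBt1
    · rw [max_eq_left h]; exact hTAt1
  have hBTC : TB ≤ TC := by rw [hTC]; exact le_max_right _ _
  have htpTC : s.tp - TC ≤ (2 * s.ep + s.ei i) * s.L := by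
    have h1 : s.tp - TB = (1 + s.ep) * s.L - (1 - s.ep) * ((1 - s.ei i) * s.L) := by
      rw [hTB]; unfold Sys.tp Sys.gam; ring
    have h2 : 0 ≤ s.ep * s.ei i * s.L := by positivity
    linarith
  have hDe1 : 1 ≤ s.D ^ (4 * s.ep + 2 * s.ei i) := Real.one_le_rpow hD1 (by positivity)
  have hkk : 0 ≤ k * (2 + 5 * Lm) := by positivity
  have hBk' : k * (2 + 5 * Lm) ≤ B := by
    refine le_trans ?_ H.kB
    exact le_mul_of_one_le_right hkk hDe1
  have hkL : 0 ≤ k * Lm := by positivity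
  rcases le_or_gt t b1 with h | h
  · refine (H.ph0' ht0 (by rw [← ht1, ← hb1]; exact h)).trans (mul_le_mul_of_nonneg_right ?_ hVt.le)
    refine le_trans ?_ hBk'
    linarith
  rcases le_or_gt t TC with h' | h'
  · refine (H.ph1 ht1 hb1 hTA hTB hTC t ⟨h.le, h'⟩).trans (mul_le_mul_of_nonneg_right ?_ hVt.le)
    refine le_trans ?_ hBk'
    have e1 : t - t1 ≤ 2 * Lm := by linarith
    have e2 := mul_le_mul_of_nonneg_left e1 hk0.le
    linarith
  · refine (H.ph2 ht1 hb1 hTA hTB hTC hw t ⟨h'.le, htp⟩).trans (mul_le_mul_of_nonneg_right ?_ hVt.le)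
    refine le_trans ?_ H.kB
    have e1 : t - TC ≤ (2 * s.ep + s.ei i) * s.L := by linarith
    have e2 : (2 * s.ep + s.ei i) * s.L ≤ Lm := by
      have : (2 * s.ep + s.ei i) * s.L ≤ 1 * s.L :=
        mul_le_mul_of_nonneg_right (by linarith) hL0
      linarith
    have e3 : Real.exp (2 * (t - TC)) ≤ s.D ^ (4 * s.ep + 2 * s.ei i) := by
      rw [← H.expL]
      exact Real.exp_le_exp.mpr (by linarith)
    have e4 : w + k * (t - TC) ≤ k * (2 + 5 * Lm) := by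
      rw [hw]
      have a1 := mul_le_mul_of_nonneg_left hTCt1 hk0.le
      have a2 := mul_le_mul_of_nonneg_left (e1.trans e2) hk0.le
      linarith
    exact mul_le_mul e4 e3 (Real.exp_pos _).le hkk

/-- after `tp` -/
lemma HH.aft (H : HH s i k B Lm τ M) {t : ℝ} (htp : s.tp ≤ t) :
    s.Z i t ≤ s.D ^ (s.α + 4 * s.e0) * s.V i 1 s.tp := by
  have hk0 := H.k0
  have hL0 := H.L0
  have hep0 := H.eppos
  have htM0 := H.tM0
  have hD1 := H.D1
  have hD0 : 0 < s.D := by linarith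
  have he0 := H.e0pos
  have hepl := H.eple
  have hB0 : 0 < B := by rw [H.hB]; positivity
  have hKi2 := H.Ki2
  have hKiD := H.KiD
  have hτ0 := H.τ0
  have hτ4 := H.τ4
  have hLe : 0 ≤ (1 + s.ep) * s.L := by positivity
  have htpM : s.tM ≤ s.tp := by
    unfold Sys.tp
    linarith
  have htp0 : 0 ≤ s.tp := htM0.le.trans htpM
  obtain ⟨v, hv⟩ : ∃ v, v = s.V i 1 s.tp := ⟨_, rfl⟩
  have hv0 : 0 < v := by rw [hv]; exact H.V0 1 _ htp0
  have hE4 : 0 < Real.exp 4 := Real.exp_pos _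
  obtain ⟨Q, hQ⟩ : ∃ Q, Q = (B + 2 * k * Real.exp 4) * v := ⟨_, rfl⟩
  have hQ0 : 0 ≤ Q := by rw [hQ]; positivity
  have hfin := cmp (fun x => s.Z i x - (Q + B * v - Q * Real.exp (-(x - s.tp))))
    (fun x => (s.mu x * s.Z i x + k * s.Am x ^ 4 * s.V i 1 x) - (Q * Real.exp (-(x - s.tp))))
    s.mu s.tp t M ?_ ?_ ?_ ?_ ?_ t ⟨htp, le_rfl⟩
  · have hE : 0 < Real.exp (-(t - s.tp)) := Real.exp_pos _
    have h1 : s.Z i t ≤ Q + B * v := by
      have : 0 ≤ Q * Real.exp (-(t - s.tp)) := by positivity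
      linarith
    refine h1.trans ?_
    rw [← hv, hQ]
    have e1 : (B + 2 * k * Real.exp 4) * v + B * v = (2 * B + 2 * k * Real.exp 4) * v := by ring
    rw [e1]
    refine mul_le_mul_of_nonneg_right ?_ hv0.le
    have e2 : k ≤ 2 ^ (2 * j + 10) * B := by
      rw [H.hk', H.hB]
      exact mul_le_mul_of_nonneg_left (Real.rpow_le_rpow_of_exponent_le hD1 (by linarith))
        (by positivity)
    calc 2 * B + 2 * k * Real.exp 4 ≤ 2 * B + 2 * (2 ^ (2 * j + 10) * B) * Real.exp 4 := by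
          have := mul_le_mul_of_nonneg_right e2 hE4.le
          linarith
      _ = 2 * (1 + 2 ^ (2 * j + 10) * Real.exp 4) * B := by ring
      _ ≤ s.D ^ s.e0 * B := mul_le_mul_of_nonneg_right H.g5 hB0.le
      _ = s.D ^ (s.α + 4 * s.e0) := by
          rw [H.hB, ← Real.rpow_add hD0]
          congr 1
          ring
  · intro x hx
    have hx0 : 0 ≤ x := htp0.trans hx.1
    have e1 : ContinuousWithinAt (s.Z i) (Set.Icc s.tp t) x :=
      (H.Zd x hx0).continuousWithinAt.mono (fun y hy => htp0.trans hy.1)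
    refine e1.sub (Continuous.continuousWithinAt ?_)
    fun_prop
  · intro x hx
    have hx0 : 0 ≤ x := htp0.trans hx.1
    have hs : Set.Ici x ⊆ Set.Ici 0 := Set.Ici_subset_Ici.mpr hx0
    refine ((H.Zd x hx0).mono hs).sub (HasDerivAt.hasDerivWithinAt ?_)
    have h0 : HasDerivAt (fun t : ℝ => -(t - s.tp)) (-1) x := ((hasDerivAt_id x).sub_const s.tp).neg
    have h1 := (h0.exp.const_mul Q).const_sub (Q + B * v)
    convert h1 using 1
    ring
  · intro x hx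
    have hx0 : 0 ≤ x := htp0.trans hx.1
    have hV1 := H.Vtp x hx.1
    rw [← hv] at hV1
    have hE : 0 < Real.exp (-(x - s.tp)) := Real.exp_pos _
    have hmx : s.mu x ≤ Real.exp (-(x - s.tp)) / 2 := by
      refine (H.muτ x hx0).trans ?_
      have g1 := H.hcc x (htpM.trans hx.1)
      have g2 : Real.exp (-(x - s.tM)) = Real.exp (-(x - s.tp)) * Real.exp (-((1 + s.ep) * s.L)) := by
        rw [← Real.exp_add]
        congr 1
        unfold Sys.tp
        ring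
      have g3 : Real.exp (-((1 + s.ep) * s.L)) ≤ 1 / s.D := by
        rw [← neg_mul, H.expL, one_div, ← Real.rpow_neg_one]
        exact Real.rpow_le_rpow_of_exponent_le hD1 (by linarith)
      have g4 : cc s.Y (s.Kv i) x ≤ 2 * Real.exp (-(x - s.tp)) := by
        refine g1.trans ?_
        rw [g2]
        calc 2 * s.Kv i * (Real.exp (-(x - s.tp)) * Real.exp (-((1 + s.ep) * s.L)))
            ≤ 2 * s.D * (Real.exp (-(x - s.tp)) * (1 / s.D)) := by
              refine mul_le_mul (by linarith) (mul_le_mul_of_nonneg_left g3 hE.le) (by positivity)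
                (by positivity)
          _ = 2 * Real.exp (-(x - s.tp)) := by field_simp
      calc τ * cc s.Y (s.Kv i) x ≤ τ * (2 * Real.exp (-(x - s.tp))) :=
            mul_le_mul_of_nonneg_left g4 hτ0.le
        _ = (4 * τ) * (Real.exp (-(x - s.tp)) / 2) := by ring
        _ ≤ 1 * (Real.exp (-(x - s.tp)) / 2) := mul_le_mul_of_nonneg_right hτ4 (by positivity)
        _ = Real.exp (-(x - s.tp)) / 2 := one_mul _
    have := sc4 (H.mu0 x hx0) hmx hE hB0 hv0 hk0 (H.Am4 hx0) (H.V0 1 x hx0) hV1 hQ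
    linarith
  · intro x hx
    exact H.muM x (htp0.trans hx.1)
  · have := H.bd htp0 le_rfl
    rw [← hv] at this
    simp only [sub_self, neg_zero, Real.exp_zero, mul_one]
    linarith

end

theorem zb (h1 : S_CB) (h2 : S_VV) (h3 : S_MONO) (h4 : S_TM) (h5 : S_YF) : S_ZB := by
  intro α e0 ep e1 N j hP he1
  obtain ⟨K1a, hCB⟩ := h1 α e0 ep e1 N j hP he1
  obtain ⟨K1b, hVV⟩ := h2 α e0 ep e1 N j hP he1
  obtain ⟨K1c, hK1c, hDD⟩ := evK α e0 e1 j hP.2.1 hP.2.2.2.2.2.1 he1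
  refine ⟨max K1a (max K1b K1c), ?_⟩
  intro s hα he0 hep hN he1' hK hF
  have hCB' := hCB s hα he0 hep hN he1' ((le_max_left _ _).trans hK) hF
  have hVV' := hVV s hα he0 hep hN he1' ((le_max_left _ _).trans ((le_max_right _ _).trans hK)) hF
  have hDD' := hDD s.K ((le_max_right _ _).trans ((le_max_right _ _).trans hK))
  subst hα he0 hep hN he1'
  obtain ⟨-, hKv, hcc, hKD, hcK⟩ := hCB'
  obtain ⟨-, -, -, hVtp, -, -, -⟩ := hVV'
  have hDdef : s.D = DK s.α s.K := rfl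
  rw [← hDdef] at hDD'
  obtain ⟨hD1, hg2, hg3, hg4, hg5⟩ := hDD'
  obtain ⟨ha0, ha1, hN3, hj1, hjN, he0pos, he0le, heppos, heple, he1pos, hK2⟩ := hF.par
  have hN3' : (3 : ℝ) ≤ (s.N : ℝ) := by exact_mod_cast hN3
  have hD0 : 0 < s.D := by linarith
  -- small parameters
  have hNN : (1:ℝ) ≤ (s.N : ℝ) ^ 2 := one_le_pow₀ (by linarith)
  have he0le' : s.e0 ≤ (1 - s.α) / 1000 := by
    refine he0le.trans ?_
    apply div_le_div_of_nonneg_left (by linarith) (by norm_num)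
    linarith
  have h16 : 0 < 1 / (16 * (s.N : ℝ)) := by positivity
  have h16' : 1 / (16 * (s.N : ℝ)) ≤ 1 / 16 := by
    apply div_le_div_of_nonneg_left (by norm_num) (by norm_num)
    linarith
  have heple' : s.ep ≤ s.e0 / 1000 := by
    refine heple.trans ?_
    have e1 : (1 / (16 * (s.N : ℝ))) ^ s.N ≤ 1 := pow_le_one₀ h16.le (h16'.trans (by norm_num))
    have e2 : s.e0 * (1 / (16 * (s.N : ℝ))) ^ s.N ≤ s.e0 := by
      calc s.e0 * (1 / (16 * (s.N : ℝ))) ^ s.N ≤ s.e0 * 1 := mul_le_mul_of_nonneg_left e1 he0pos.le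
        _ = s.e0 := mul_one _
    calc s.e0 * (1 / (16 * (s.N : ℝ))) ^ s.N / (1000 * (s.N : ℝ) ^ 2)
        ≤ s.e0 / (1000 * (s.N : ℝ) ^ 2) := div_le_div_of_nonneg_right e2 (by positivity)
      _ ≤ s.e0 / 1000 := by
          apply div_le_div_of_nonneg_left he0pos.le (by norm_num)
          linarith
  have hei : ∀ i, 0 ≤ s.ei i ∧ s.ei i ≤ s.e0 / 16 := by
    intro i
    unfold Sys.ei
    split_ifs with h
    · exact ⟨le_rfl, by positivity⟩
    · refine ⟨by positivity, ?_⟩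
      have e1 : (1 / (16 * (s.N : ℝ))) ^ i.val ≤ (1 / (16 * (s.N : ℝ))) ^ 1 :=
        pow_le_pow_of_le_one h16.le (h16'.trans (by norm_num)) (by omega)
      rw [pow_one] at e1
      calc s.e0 * (1 / (16 * (s.N : ℝ))) ^ i.val ≤ s.e0 * (1 / 16) :=
            mul_le_mul_of_nonneg_left (e1.trans h16') he0pos.le
        _ = s.e0 / 16 := by ring
  -- logarithms
  have hlogD : Real.log s.D = s.L := by
    have hK0 : 0 < s.K := by linarith
    rw [hDdef]
    unfold DK Sys.L LK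
    rw [Real.log_rpow hK0]
    ring
  obtain ⟨Lm, hLm⟩ : ∃ Lm, Lm = Real.log (2 ^ (j + 6) * s.D) := ⟨_, rfl⟩
  rw [← hLm] at hg2 hg4
  have hL0 : 0 ≤ s.L := by rw [← hlogD]; exact Real.log_nonneg hD1
  have h2j : (1 : ℝ) ≤ 2 ^ (j + 6) := one_le_pow₀ (by norm_num)
  have hLLm : s.L ≤ Lm := by
    rw [← hlogD, hLm]
    exact Real.log_le_log hD0 (le_mul_of_one_le_left hD0.le h2j)
  have hLm0 : 0 ≤ Lm := hL0.trans hLLm
  have hexpLm : Real.exp Lm = 2 ^ (j + 6) * s.D := by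
    rw [hLm, Real.exp_log (by positivity)]
  have hexpL : ∀ x : ℝ, Real.exp (x * s.L) = s.D ^ x := by
    intro x
    rw [← hlogD, Real.rpow_def_of_pos hD0, mul_comm]
  have hKleD : s.K ≤ s.D := by
    have h1 : 1 ≤ s.D ^ s.α := Real.one_le_rpow hD1 ha0.le
    have hK0 : 0 < s.K := by linarith
    calc s.K ≤ s.K * s.D ^ s.α := le_mul_of_one_le_right hK0.le h1
      _ = s.D := hKD
  -- the facts on `Y`
  have hz12 := hF.z2
  have hz1 := hF.z1
  obtain ⟨-, hTM⟩ := h4 s.α s.z s.Y ha0 ha1 hz12 hz1 hF.hY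
  obtain ⟨-, hYr, hYl⟩ := hTM s.tM hF.tMpos.le hF.htM
  have hY1 : ∀ t, 0 ≤ t → s.Y 1 t ≤ 1 := fun t ht => (hF.hY.le 1 t ht).trans hz1.le
  obtain ⟨k, hk⟩ : ∃ k, k = s.kap * 2 ^ (j + 4) := ⟨_, rfl⟩
  have hk' : k = 2 ^ (2 * j + 10) * s.D ^ (s.α + s.ep) := by
    rw [hk]; unfold Sys.kap; ring
  have hk0 : 0 < k := by rw [hk']; positivity
  obtain ⟨B, hB⟩ : ∃ B, B = s.D ^ (s.α + 3 * s.e0) := ⟨_, rfl⟩
  obtain ⟨M, hM⟩ : ∃ M : ℝ, ∀ t, 0 ≤ t → s.mu t ≤ M := by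
    refine ⟨((j:ℝ) + 4) * (2:ℝ) ^ (j + 5) * s.D ^ (s.α + s.ep - 1) * (1 + s.K), fun t ht => ?_⟩
    have i0 : Fin j := ⟨0, hj1⟩
    unfold Sys.mu
    exact mul_le_mul_of_nonneg_left (hcK i0 t ht).2.2.1 (by positivity)
  have hlam1 : lam s.α 1 = 1 := by unfold lam; simp
  have main : ∀ i, ∃ τ, HH s i k B Lm τ M := by
    intro i
    obtain ⟨hei0, hei1⟩ := hei i
    obtain ⟨hKi2, hKiK⟩ := hKv i
    have hKi0 : 0 < s.Kv i := by linarith
    refine ⟨((j:ℝ) + 4) * (2:ℝ) ^ (j + 5) * s.D ^ (s.α + s.ep - 1) * s.D ^ (s.ei i), ?_⟩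
    refine ⟨hD1, ha0, ha1, he0pos, heppos, hei0, hei1, heple', he0le', hL0, hLLm, hexpLm, hexpL, hKi2,
      hKiK.trans hKleD, ?_, hF.tMpos, ?_, fun t => min_le_right _ _, ?_, hk0, hk', hB, ?_, hM, ?_, by positivity,
      ?_, hg4, hg5, fun d t ht => (hF.hV i).pos d t ht, fun t ht => (hcK i t ht).2.2.2, ?_, ?_, hF.Z0 i,
      ?_, fun t ht => (hcc i t ht).2.1, ?_, fun t ht => hVtp i 1 t le_rfl (by omega) ht⟩
    · refine le_trans ?_ hLLm
      rw [← hlogD]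
      exact Real.log_le_log (by positivity) (by linarith)
    · intro t ht
      have := hY1 t ht
      unfold Sys.Am
      have h : 0 ≤ 1 - s.Y 1 t := by linarith
      exact le_min (by positivity) zero_le_one
    · intro t ht0 ht
      refine (min_le_left _ _).trans ?_
      exact mul_le_mul_of_nonneg_left (hYl t ht0 ht).2.1 (by positivity)
    · intro t ht
      have h := (hcK i t ht).1
      have h' := (hcK i t ht).2.2.2
      have : 0 ≤ cc s.Y s.K t := h'.le.trans h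
      unfold Sys.mu
      positivity
    · intro t ht
      have h := (hcK i t ht).2.1
      have e1 : cc s.Y s.K t ≤ s.D ^ (s.ei i) * cc s.Y (s.Kv i) t := by
        calc cc s.Y s.K t = s.D ^ (s.ei i) * (s.D ^ (-(s.ei i)) * cc s.Y s.K t) := by
              rw [← mul_assoc, ← Real.rpow_add hD0, add_neg_cancel, Real.rpow_zero, one_mul]
          _ ≤ _ := mul_le_mul_of_nonneg_left h (by positivity)
      unfold Sys.mu
      calc _ ≤ ((j:ℝ) + 4) * (2:ℝ) ^ (j + 5) * s.D ^ (s.α + s.ep - 1) *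
            (s.D ^ (s.ei i) * cc s.Y (s.Kv i) t) := mul_le_mul_of_nonneg_left e1 (by positivity)
        _ = _ := by ring
    · refine le_trans ?_ hg2
      refine mul_le_mul_of_nonneg_right ?_ (by linarith)
      rw [mul_assoc _ (s.D ^ (s.α + s.ep - 1)), ← Real.rpow_add hD0]
      have : s.D ^ (s.α + s.ep - 1 + s.ei i) ≤ s.D ^ (-((1 - s.α) / 2)) :=
        Real.rpow_le_rpow_of_exponent_le hD1 (by linarith)
      calc 4 * (((j:ℝ) + 4) * (2:ℝ) ^ (j + 5) * s.D ^ (s.α + s.ep - 1 + s.ei i))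
          = 4 * (((j:ℝ) + 4) * (2:ℝ) ^ (j + 5)) * s.D ^ (s.α + s.ep - 1 + s.ei i) := by ring
        _ ≤ _ := mul_le_mul_of_nonneg_left this (by positivity)
    · intro t ht
      have := (hF.hV i).deriv 1 t ht
      rw [hlam1, one_mul] at this
      exact this
    · intro t ht
      have := hF.Zd i t ht
      have e : s.mu t * s.Z i t + s.kap * s.x4 i t = s.mu t * s.Z i t + k * s.Am t ^ 4 * s.V i 1 t := by
        rw [hk]; unfold Sys.x4; ring
      rw [e] at this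
      exact this
    · have hlogKi0 : 0 ≤ Real.log (s.Kv i / 2) := Real.log_nonneg (by linarith)
      have htM0 := hF.tMpos
      have hmono := h3 s.α s.z (s.Kv i) s.Y (s.V i) ha0 ha1 (by linarith) hz1 (by linarith) hF.hY (hF.hV i)
        (s.tM + Real.log (s.Kv i / 2)) (by linarith) (by
          have h6 := (hYr (s.tM + Real.log (s.Kv i / 2)) (by linarith)).1
          have h7 : Real.exp (-(s.tM + Real.log (s.Kv i / 2) - s.tM)) = 2 / s.Kv i := by
            rw [show -(s.tM + Real.log (s.Kv i / 2) - s.tM) = -Real.log (s.Kv i / 2) by ring,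
              Real.exp_neg, Real.exp_log (by positivity)]
            field_simp
          rw [h7] at h6
          calc (1:ℝ) = s.Kv i * (2 / s.Kv i / 2) := by field_simp
            _ ≤ s.Kv i * s.Y 1 (s.tM + Real.log (s.Kv i / 2)) := mul_le_mul_of_nonneg_left h6 hKi0.le)
      intro t ht0 ht
      obtain ⟨g1, g2⟩ := hmono t ht0 ht
      exact ⟨g1, (g2 1 le_rfl).1⟩
    · intro t ht htB
      have ht0 : 0 ≤ t := hF.tMpos.le.trans ht
      have g1 := hF.grow i 1 t le_rfl (by omega) ht htB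
      rw [hlam1, one_mul] at g1
      refine le_trans ?_ g1
      exact mul_le_mul_of_nonneg_right hg3 ((hF.hV i).pos 1 t ht0).le
  refine ⟨fun i t h1 h2 => ?_, fun i t h1 => ?_⟩
  · obtain ⟨τ, H⟩ := main i
    rw [← hB]
    exact H.bd h1 h2
  · obtain ⟨τ, H⟩ := main i
    exact H.aft h1

end Pool.Agent.TH902.J2259
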