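import Pool.Agent.TH614.HS.Defs

/-! Project HS, job 3571: dual chord relations (line relation). -/

set_option autoImplicit false

namespace Pool.Agent.TH902.J3571

open Pool.Agent.TH614.HS

variable {L : Type} [Field L]

/-- points of the line and of the dual line are orthogonal -/
theorem pairing {x0 x1 x2 y0 y1 y2 : L} (hPL : PL x0 x1 x2 y0 y1 y2) {P0 P1 P2 Y R0 R1 R2 Z : L}
    (hP : OnL x0 x1 x2 y0 y1 y2 P0 P1 P2 Y) (hR : OnL y0 y1 y2 x0 x1 x2 R0 R1 R2 Z) :
    Y * Z + P0 * R0 + P1 * R1 + P2 * R2 = 0 := by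
  obtain ⟨hx0, -, -, hy0, -, -, hq⟩ := hPL
  obtain ⟨-, p2, p3⟩ := hP
  obtain ⟨-, r2, r3⟩ := hR
  have e1 : x0 * P1 = x1 * P0 + Y * y2 := by linear_combination p3
  have e2 : x0 * P2 = x2 * P0 - Y * y1 := by linear_combination -p2
  have e3 : y0 * R1 = y1 * R0 + Z * x2 := by linear_combination r3
  have e4 : y0 * R2 = y2 * R0 - Z * x1 := by linear_combination -r2
  have key : (x0 * y0) * (Y * Z + P0 * R0 + P1 * R1 + P2 * R2) = 0 := by
    have f1 : (x0 * P1) * (y0 * R1) = (x1 * P0 + Y * y2) * (y1 * R0 + Z * x2) := by rw [e1, e3]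
    have f2 : (x0 * P2) * (y0 * R2) = (x2 * P0 - Y * y1) * (y2 * R0 - Z * x1) := by rw [e2, e4]
    linear_combination f1 + f2 + (P0 * R0 + Y * Z) * hq
  exact (mul_eq_zero.1 key).resolve_left (mul_ne_zero hx0 hy0)

/-- the coordinates of a dual point in terms of `m1, m2` -/
theorem formula (_h2 : (2 : L) ≠ 0) {th x0 x1 x2 y0 y1 y2 s t mu eta mu2 eta2 H be g rho : L}
    (hth : th ^ 2 = 3) (hPL : PL x0 x1 x2 y0 y1 y2) (hs : s ≠ 0) (ht : t ≠ 0)
    (hU : ChU th x0 x1 x2 y0 y1 y2 s t mu eta mu2 eta2 H be g rho) {R0 R1 R2 Z k1 k2 : L}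
    (hR : OnL y0 y1 y2 x0 x1 x2 R0 R1 R2 Z) (hk2 : 4 * k2 = -m2 th s t R0 R1 R2 Z)
    (hk1 : 2 * g * k1 = -(m1 s t R0 R2 + g * rho * m2 th s t R0 R1 R2 Z)) :
    Z = k1 * (1 + rho * th) - k2 * ((g ^ 2 / (1 + g ^ 2) + rho ^ 2) * th) ∧
    R0 / s = -(k1 * (g + rho)) + k2 * (2 * g * rho + (g ^ 2 / (1 + g ^ 2) + rho ^ 2)) ∧
    R2 / t = k1 * (g - rho) + k2 * ((g ^ 2 / (1 + g ^ 2) + rho ^ 2) - 2 * g * rho) ∧
    s * t * R1 = k1 * (th + rho) + k2 * (4 - (g ^ 2 / (1 + g ^ 2) + rho ^ 2)) := by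
  obtain ⟨-, -, hg, -, hind, hrel⟩ := hU
  set c : L := g ^ 2 / (1 + g ^ 2) + rho ^ 2 with hc
  set V' := R0 / s with hV'
  set U' := R2 / t with hU'
  set W' := s * t * R1 with hW'
  have hm1 : m1 s t R0 R2 = V' - U' := rfl
  have hm2 : m2 th s t R0 R1 R2 Z = V' + U' + th * Z - W' := rfl
  rw [hm2] at hk2 hk1
  rw [hm1] at hk1
  -- the difference
  set dZ := Z - k1 * (1 + rho * th) + k2 * (c * th) with hdZ
  set dV := V' + k1 * (g + rho) - k2 * (2 * g * rho + c) with hdV
  set dU := U' - k1 * (g - rho) - k2 * (c - 2 * g * rho) with hdU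
  set dW := W' - k1 * (th + rho) - k2 * (4 - c) with hdW
  have q1 : dV = dU := by
    rw [hdV, hdU]
    linear_combination hk1 - g * rho * hk2
  have q2 : dW = 2 * dV + th * dZ := by
    have : dV + dU + th * dZ - dW = 0 := by
      rw [hdV, hdU, hdZ, hdW]
      linear_combination hk2 + (-k1 * rho + k2 * c) * hth
    linear_combination -this - q1
  have key := hind (g * (dZ + th * dV)) ((dZ + th * dV) * rho + dV) (by
    intro P0 P1 P2 Y hP
    have hpr := pairing hPL hP hR
    obtain ⟨-, -, E1, E2⟩ := hrel P0 P1 P2 Y hP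
    have hl1 : l1 s t P0 P2 = s * P0 - t * P2 := rfl
    have hl2 : l2 th s t P0 P1 P2 Y = s * P0 + t * P2 - th * Y - P1 / (s * t) := rfl
    rw [hl1, hl2] at E1 E2 ⊢
    have g0 : P0 * R0 = (s * P0) * V' := by rw [hV']; field_simp
    have g2 : P2 * R2 = (t * P2) * U' := by rw [hU']; field_simp
    have g1 : P1 * R1 = (P1 / (s * t)) * W' := by rw [hW']; field_simp
    rw [g0, g1, g2] at hpr
    set V := s * P0
    set U := t * P2
    set W := P1 / (s * t)
    have hd : dZ * Y + dV * V + dU * U + dW * W = 0 := by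
      rw [hdV, hdU, hdZ, hdW]
      linear_combination hpr - k1 * E1 - k2 * E2
    rw [← q1, q2] at hd
    linear_combination hd - (dZ + th * dV) * E1 + dV * W * hth)
  obtain ⟨k3, k4⟩ := key
  have k5 : dZ + th * dV = 0 := (mul_eq_zero.1 k3).resolve_left hg
  rw [k5, zero_mul, zero_add] at k4
  rw [k4, mul_zero, add_zero] at k5
  have k6 : dU = 0 := by rw [← q1]; exact k4
  have k7 : dW = 0 := by rw [q2, k4, k5]; ring
  refine ⟨?_, ?_, ?_, ?_⟩
  · linear_combination k5
  · linear_combination k4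
  · linear_combination k6
  · linear_combination k7

theorem CH2 : S_CH2 := by
  intro L _ th x0 x1 x2 y0 y1 y2 s t mu eta mu2 eta2 H be g rho h2 hth hPL hs ht hU
  have hg : g ≠ 0 := hU.2.2.1
  have h4 : (4 : L) ≠ 0 := by
    have : (4 : L) = 2 * 2 := by norm_num
    rw [this]
    exact mul_ne_zero h2 h2
  have F : ∀ R0 R1 R2 Z : L, OnL y0 y1 y2 x0 x1 x2 R0 R1 R2 Z → _ := fun R0 R1 R2 Z hR =>
    formula h2 hth hPL hs ht hU (k1 := -(m1 s t R0 R2 + g * rho * m2 th s t R0 R1 R2 Z) / (2 * g))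
      (k2 := -m2 th s t R0 R1 R2 Z / 4) hR (by field_simp) (by field_simp)
  have hy0 : y0 ≠ 0 := hPL.2.2.2.1
  have hq := hPL.2.2.2.2.2.2
  refine ⟨?_, ?_⟩
  · -- vanishing
    have N : ∀ R0 R1 R2 Z : L, OnL y0 y1 y2 x0 x1 x2 R0 R1 R2 Z → m1 s t R0 R2 = 0 →
        m2 th s t R0 R1 R2 Z = 0 → R0 = 0 ∧ Z = 0 := by
      intro R0 R1 R2 Z hR e1 e2
      obtain ⟨f1, f2, -, -⟩ := F R0 R1 R2 Z hR
      rw [e1, e2] at f1 f2
      constructor
      · have : R0 / s = 0 := by rw [f2]; ring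
        rcases div_eq_zero_iff.1 this with h | h
        · exact h
        · exact absurd h hs
      · rw [f1]; ring
    intro a b hab
    have hA := hab y0 y1 y2 0 ⟨by ring, by ring, by ring⟩
    have hB := hab 0 x2 (-x1) y0 ⟨by linear_combination -hq, by ring, by ring⟩
    set uA := m1 s t y0 y2 with huA
    set vA := m2 th s t y0 y1 y2 0 with hvA
    set uB := m1 s t 0 (-x1) with huB
    set vB := m2 th s t 0 x2 (-x1) y0 with hvB
    by_cases hdet : uA * vB - vA * uB = 0
    · exfalso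
      -- the combination `p A + r B`
      have comb : ∀ p r : L, p * uA + r * uB = 0 → p * vA + r * vB = 0 → p = 0 ∧ r = 0 := by
        intro p r e1 e2
        have := N (p * y0) (p * y1 + r * x2) (p * y2 - r * x1) (r * y0)
          ⟨by linear_combination -r * hq, by ring, by ring⟩
          (by
            rw [← e1, huA, huB]
            simp only [m1]
            ring)
          (by
            rw [← e2, hvA, hvB]
            simp only [m2]
            ring)
        exact ⟨(mul_eq_zero.1 this.1).resolve_right hy0, (mul_eq_zero.1 this.2).resolve_right hy0⟩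
      have c1 := comb vB (-vA) (by linear_combination hdet) (by ring)
      have c2 := comb uB (-uA) (by ring) (by linear_combination -hdet)
      have c3 := comb 1 0 (by rw [neg_eq_zero.1 c2.2]; ring) (by rw [neg_eq_zero.1 c1.2]; ring)
      exact one_ne_zero c3.1
    · constructor
      · have : a * (uA * vB - vA * uB) = 0 := by linear_combination vB * hA - vA * hB
        exact (mul_eq_zero.1 this).resolve_right hdet
      · have : b * (uA * vB - vA * uB) = 0 := by linear_combination uA * hB - uB * hA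
        exact (mul_eq_zero.1 this).resolve_right hdet
  · intro R0 R1 R2 Z hR
    obtain ⟨f1, -, -, f4⟩ := F R0 R1 R2 Z hR
    set M1 := m1 s t R0 R2
    set M2 := m2 th s t R0 R1 R2 Z
    set c : L := g ^ 2 / (1 + g ^ 2) + rho ^ 2
    have e : Z - th * (s * t * R1) = -2 * (-(M1 + g * rho * M2) / (2 * g)) - 4 * th * (-M2 / 4) := by
      rw [f4]
      nth_rewrite 1 [f1]
      linear_combination (-(-(M1 + g * rho * M2) / (2 * g))) * hth
    rw [e]
    field_simp
    ring

end Pool.Agent.TH902.J3571
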