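import Mathlib
import Pool.Agent.Helper281.Sc.Basic
import Pool.Agent.Helper281.Sc.Sub

set_option autoImplicit false

namespace Pool.Agent.TH902.J519

open Pool.Agent.Helper281.Sc Set Topology

/-! ### the comonotone coupling -/

/-- Cumulative sums. -/
def cum (x : ℕ → ℝ) (n : ℕ) : ℝ := ∑ i ∈ Finset.range n, x i

theorem cum_succ (x : ℕ → ℝ) (n : ℕ) : cum x (n + 1) = cum x n + x n := by
  rw [cum, Finset.sum_range_succ, ← cum]

theorem cum_zero (x : ℕ → ℝ) : cum x 0 = 0 := by simp [cum]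

theorem cum_mono {x : ℕ → ℝ} (hx : ∀ i, 0 ≤ x i) {m n : ℕ} (h : m ≤ n) : cum x m ≤ cum x n :=
  Finset.sum_le_sum_of_subset_of_nonneg (Finset.range_mono h) fun i _ _ => hx i

theorem cum_nonneg {x : ℕ → ℝ} (hx : ∀ i, 0 ≤ x i) (n : ℕ) : 0 ≤ cum x n :=
  Finset.sum_nonneg fun i _ => hx i

/-- The comonotone coupling. -/
def cpl (x u : ℕ → ℝ) (v a : ℕ) : ℝ :=
  min (cum x (v + 1)) (cum u (a + 1)) - min (cum x v) (cum u (a + 1)) -
    min (cum x (v + 1)) (cum u a) + min (cum x v) (cum u a)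

theorem min4 {A B C D : ℝ} (h : A ≤ B) (h' : C ≤ D) :
    0 ≤ min B D - min A D - min B C + min A C := by
  rcases le_total B D with h1 | h1 <;> rcases le_total A D with h2 | h2 <;>
    rcases le_total B C with h3 | h3 <;> rcases le_total A C with h4 | h4 <;>
    simp only [min_eq_left, min_eq_right, h1, h2, h3, h4] <;> linarith

theorem cpl_nonneg {x u : ℕ → ℝ} (hx : ∀ i, 0 ≤ x i) (hu : ∀ i, 0 ≤ u i) (v a : ℕ) :
    0 ≤ cpl x u v a :=
  min4 (cum_mono hx (Nat.le_succ v)) (cum_mono hu (Nat.le_succ a))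

theorem cpl_zero_left {x u : ℕ → ℝ} {v : ℕ} (h : x v = 0) (a : ℕ) : cpl x u v a = 0 := by
  rw [cpl, cum_succ x, h, add_zero]
  ring

theorem cpl_zero_right {x u : ℕ → ℝ} {a : ℕ} (h : u a = 0) (v : ℕ) : cpl x u v a = 0 := by
  rw [cpl, cum_succ u, h, add_zero]
  ring

theorem cpl_zero_of_le {x u : ℕ → ℝ} (hx : ∀ i, 0 ≤ x i) (hu : ∀ i, 0 ≤ u i) {v a : ℕ}
    (h : cum x (v + 1) ≤ cum u a) : cpl x u v a = 0 := by
  have h1 := cum_mono hx (Nat.le_succ v)
  have h2 := cum_mono hu (Nat.le_succ a)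
  simp only [Nat.succ_eq_add_one] at h1 h2
  rw [cpl, min_eq_left (h.trans h2), min_eq_left (h1.trans (h.trans h2)), min_eq_left h,
    min_eq_left (h1.trans h)]
  ring

theorem cpl_zero_of_ge {x u : ℕ → ℝ} (hx : ∀ i, 0 ≤ x i) (hu : ∀ i, 0 ≤ u i) {v a : ℕ}
    (h : cum u (a + 1) ≤ cum x v) : cpl x u v a = 0 := by
  have h1 := cum_mono hx (Nat.le_succ v)
  have h2 := cum_mono hu (Nat.le_succ a)
  simp only [Nat.succ_eq_add_one] at h1 h2
  rw [cpl, min_eq_right (h.trans h1), min_eq_right h, min_eq_right (h2.trans (h.trans h1)),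
    min_eq_right (h2.trans h)]
  ring

theorem cpl_chain {x u : ℕ → ℝ} (hx : ∀ i, 0 ≤ x i) (hu : ∀ i, 0 ≤ u i) {v a v' a' : ℕ}
    (h : cpl x u v a ≠ 0) (h' : cpl x u v' a' ≠ 0) (hv : v < v') : a ≤ a' := by
  by_contra hlt
  push Not at hlt
  have h1 : cum u a < cum x (v + 1) := by
    by_contra h2
    exact h (cpl_zero_of_le hx hu (not_lt.1 h2))
  have h2 : cum x v' < cum u (a' + 1) := by
    by_contra h2
    exact h' (cpl_zero_of_ge hx hu (not_lt.1 h2))
  have h3 := cum_mono hx (Nat.succ_le_of_lt hv)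
  have h4 := cum_mono hu (Nat.succ_le_of_lt hlt)
  simp only [Nat.succ_eq_add_one] at h3 h4
  linarith

theorem sum_cpl_right {x u : ℕ → ℝ} (hx : ∀ i, 0 ≤ x i) {A : ℕ} {v : ℕ}
    (hA : cum x (v + 1) ≤ cum u A) : ∑ a ∈ Finset.range A, cpl x u v a = x v := by
  have key : ∀ A, ∑ a ∈ Finset.range A, cpl x u v a =
      (min (cum x (v + 1)) (cum u A) - min (cum x v) (cum u A)) -
        (min (cum x (v + 1)) (cum u 0) - min (cum x v) (cum u 0)) := by
    intro A
    induction A with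
    | zero => simp
    | succ n ih =>
      rw [Finset.sum_range_succ, ih, cpl]
      ring
  have h1 := cum_mono hx (Nat.le_succ v)
  simp only [Nat.succ_eq_add_one] at h1
  rw [key, min_eq_left hA, min_eq_left (h1.trans hA), cum_zero, min_eq_right (cum_nonneg hx _),
    min_eq_right (cum_nonneg hx _), cum_succ]
  ring

theorem cpl_symm (x u : ℕ → ℝ) (v a : ℕ) : cpl x u v a = cpl u x a v := by
  rw [cpl, cpl, min_comm (cum x (v + 1)) (cum u (a + 1)), min_comm (cum x v) (cum u (a + 1)),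
    min_comm (cum x (v + 1)) (cum u a), min_comm (cum x v) (cum u a)]
  ring

theorem continuous_cum {W : Type*} [TopologicalSpace W] {x : W → ℕ → ℝ} (hx : Continuous x)
    (n : ℕ) : Continuous fun w => cum (x w) n :=
  continuous_finsetSum _ fun i _ => (continuous_apply i).comp hx

theorem continuous_cpl {W : Type*} [TopologicalSpace W] {x u : W → ℕ → ℝ} (hx : Continuous x)
    (hu : Continuous u) (v a : ℕ) : Continuous fun w => cpl (x w) (u w) v a := by
  unfold cpl
  exact ((((continuous_cum hx _).min (continuous_cum hu _)).sub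
    ((continuous_cum hx _).min (continuous_cum hu _))).sub
    ((continuous_cum hx _).min (continuous_cum hu _))).add
    ((continuous_cum hx _).min (continuous_cum hu _))

/-! ### marginals -/

/-- First marginal. -/
def mg1 (w : Finset (ℕ × ℕ)) (z : ℕ × ℕ → ℝ) (v : ℕ) : ℝ := ∑ e ∈ w, if e.1 = v then z e else 0

/-- Second marginal. -/
def mg2 (w : Finset (ℕ × ℕ)) (z : ℕ × ℕ → ℝ) (a : ℕ) : ℝ := ∑ e ∈ w, if e.2 = a then z e else 0

theorem cum_mg1 (w : Finset (ℕ × ℕ)) (z : ℕ × ℕ → ℝ) (n : ℕ) :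
    cum (mg1 w z) n = ∑ e ∈ w, if e.1 < n then z e else 0 := by
  unfold cum mg1
  rw [Finset.sum_comm]
  refine Finset.sum_congr rfl fun e _ => ?_
  rw [Finset.sum_ite_eq]
  simp

theorem cum_mg2 (w : Finset (ℕ × ℕ)) (z : ℕ × ℕ → ℝ) (n : ℕ) :
    cum (mg2 w z) n = ∑ e ∈ w, if e.2 < n then z e else 0 := by
  unfold cum mg2
  rw [Finset.sum_comm]
  refine Finset.sum_congr rfl fun e _ => ?_
  rw [Finset.sum_ite_eq]
  simp

/-- For a chain the joint distribution function is the minimum of the marginal ones. -/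
theorem min_cum {w : Finset (ℕ × ℕ)} {z : ℕ × ℕ → ℝ} (hz : ∀ e, 0 ≤ z e)
    (hw : ∀ x ∈ w, ∀ y ∈ w, x ≤ y ∨ y ≤ x) (v a : ℕ) :
    min (cum (mg1 w z) v) (cum (mg2 w z) a) = ∑ e ∈ w, if e.1 < v ∧ e.2 < a then z e else 0 := by
  rw [cum_mg1, cum_mg2]
  by_cases h : ∀ e ∈ w, e.1 < v → e.2 < a
  · have h1 : (∑ e ∈ w, if e.1 < v then z e else 0) ≤ ∑ e ∈ w, if e.2 < a then z e else 0 := by
      refine Finset.sum_le_sum fun e he => ?_
      by_cases h2 : e.1 < v
      · rw [if_pos h2, if_pos (h e he h2)]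
      · rw [if_neg h2]
        split_ifs
        · exact hz e
        · exact le_rfl
    rw [min_eq_left h1]
    refine Finset.sum_congr rfl fun e he => ?_
    by_cases h2 : e.1 < v
    · rw [if_pos h2, if_pos ⟨h2, h e he h2⟩]
    · rw [if_neg h2, if_neg fun h3 => h2 h3.1]
  · push Not at h
    obtain ⟨f, hf, hf1, hf2⟩ := h
    have h : ∀ e ∈ w, e.2 < a → e.1 < v := by
      intro e he he2
      rcases hw e he f hf with h3 | h3
      · exact lt_of_le_of_lt h3.1 hf1
      · exact absurd (lt_of_le_of_lt (hf2.trans h3.2) he2) (lt_irrefl _)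
    have h1 : (∑ e ∈ w, if e.2 < a then z e else 0) ≤ ∑ e ∈ w, if e.1 < v then z e else 0 := by
      refine Finset.sum_le_sum fun e he => ?_
      by_cases h2 : e.2 < a
      · rw [if_pos h2, if_pos (h e he h2)]
      · rw [if_neg h2]
        split_ifs
        · exact hz e
        · exact le_rfl
    rw [min_eq_right h1]
    refine Finset.sum_congr rfl fun e he => ?_
    by_cases h2 : e.2 < a
    · rw [if_pos h2, if_pos ⟨h e he h2, h2⟩]
    · rw [if_neg h2, if_neg fun h3 => h2 h3.2]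

/-- A nonnegative function supported on a chain is the coupling of its marginals. -/
theorem cpl_mg {w : Finset (ℕ × ℕ)} {z : ℕ × ℕ → ℝ} (hz : ∀ e, 0 ≤ z e)
    (hw : ∀ x ∈ w, ∀ y ∈ w, x ≤ y ∨ y ≤ x) (hz0 : ∀ e, e ∉ w → z e = 0) (v a : ℕ) :
    cpl (mg1 w z) (mg2 w z) v a = z (v, a) := by
  rw [cpl, min_cum hz hw, min_cum hz hw, min_cum hz hw, min_cum hz hw, ← Finset.sum_sub_distrib,
    ← Finset.sum_sub_distrib, ← Finset.sum_add_distrib]
  have : z (v, a) = ∑ e ∈ w, if e = (v, a) then z e else 0 := by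
    rw [Finset.sum_ite_eq']
    by_cases h : (v, a) ∈ w
    · rw [if_pos h]
    · rw [if_neg h, hz0 _ h]
  rw [this]
  refine Finset.sum_congr rfl fun e _ => ?_
  obtain ⟨b, c⟩ := e
  simp only [Prod.mk.injEq]
  rcases lt_trichotomy b v with h1 | h1 | h1 <;> rcases lt_trichotomy c a with h2 | h2 | h2
  · have e1 : b < v + 1 := by omega
    have e2 : c < a + 1 := by omega
    have e3 : ¬ (b = v ∧ c = a) := by omega
    simp [h1, h2, e1, e2, e3]
  · have e1 : b < v + 1 := by omega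
    have e2 : c < a + 1 := by omega
    have e3 : ¬ (b = v ∧ c = a) := by omega
    have e4 : ¬ c < a := by omega
    simp [h1, e1, e2, e3, e4]
  · have e2 : ¬ c < a + 1 := by omega
    have e3 : ¬ (b = v ∧ c = a) := by omega
    have e4 : ¬ c < a := by omega
    simp [e2, e3, e4]
  · have e1 : b < v + 1 := by omega
    have e2 : c < a + 1 := by omega
    have e3 : ¬ (b = v ∧ c = a) := by omega
    have e4 : ¬ b < v := by omega
    simp [h2, e1, e2, e3, e4]
  · have e1 : b < v + 1 := by omega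
    have e2 : c < a + 1 := by omega
    have e3 : ¬ b < v := by omega
    have e4 : ¬ c < a := by omega
    simp [h1, h2]
  · have e2 : ¬ c < a + 1 := by omega
    have e3 : ¬ (b = v ∧ c = a) := by omega
    have e4 : ¬ c < a := by omega
    simp [e2, e3, e4]
  · have e1 : ¬ b < v + 1 := by omega
    have e3 : ¬ (b = v ∧ c = a) := by omega
    have e4 : ¬ b < v := by omega
    simp [e1, e3, e4]
  · have e1 : ¬ b < v + 1 := by omega
    have e3 : ¬ (b = v ∧ c = a) := by omega
    have e4 : ¬ b < v := by omega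
    simp [e1, e3, e4]
  · have e1 : ¬ b < v + 1 := by omega
    have e3 : ¬ (b = v ∧ c = a) := by omega
    have e4 : ¬ b < v := by omega
    simp [e1, e3, e4]

theorem mg1_mem {w : Finset (ℕ × ℕ)} {z : ℕ × ℕ → ℝ} (hz : z ∈ Simp w) :
    mg1 w z ∈ Simp (w.image Prod.fst) := by
  refine ⟨fun v => ?_, fun v hv => ?_, ?_⟩
  · refine Finset.sum_nonneg fun e _ => ?_
    split_ifs
    · exact hz.1 e
    · exact le_rfl
  · refine Finset.sum_eq_zero fun e he => ?_
    rw [if_neg]
    rintro rfl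
    exact hv (Finset.mem_image_of_mem _ he)
  · unfold mg1
    rw [Finset.sum_comm, ← hz.2.2]
    refine Finset.sum_congr rfl fun e he => ?_
    rw [Finset.sum_ite_eq, if_pos (Finset.mem_image_of_mem _ he)]

theorem mg2_mem {w : Finset (ℕ × ℕ)} {z : ℕ × ℕ → ℝ} (hz : z ∈ Simp w) :
    mg2 w z ∈ Simp (w.image Prod.snd) := by
  refine ⟨fun v => ?_, fun v hv => ?_, ?_⟩
  · refine Finset.sum_nonneg fun e _ => ?_
    split_ifs
    · exact hz.1 e
    · exact le_rfl
  · refine Finset.sum_eq_zero fun e he => ?_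
    rw [if_neg]
    rintro rfl
    exact hv (Finset.mem_image_of_mem _ he)
  · unfold mg2
    rw [Finset.sum_comm, ← hz.2.2]
    refine Finset.sum_congr rfl fun e he => ?_
    rw [Finset.sum_ite_eq, if_pos (Finset.mem_image_of_mem _ he)]

theorem cum_le_one {s : Finset ℕ} {x : ℕ → ℝ} (hx : x ∈ Simp s) (n : ℕ) : cum x n ≤ 1 := by
  rw [← hx.2.2]
  unfold cum
  rw [← Finset.sum_filter_add_sum_filter_not (Finset.range n) (fun i => i ∈ s)]
  have h1 : ∑ i ∈ (Finset.range n).filter (fun i => i ∉ s), x i = 0 :=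
    Finset.sum_eq_zero fun i hi => hx.2.1 i (Finset.mem_filter.1 hi).2
  rw [h1, add_zero]
  refine Finset.sum_le_sum_of_subset_of_nonneg (fun i hi => (Finset.mem_filter.1 hi).2) ?_
  intro i _ _
  exact hx.1 i

theorem cum_eq_one {s : Finset ℕ} {x : ℕ → ℝ} (hx : x ∈ Simp s) {n : ℕ} (hn : ∀ i ∈ s, i < n) :
    cum x n = 1 := by
  rw [← hx.2.2]
  unfold cum
  symm
  refine Finset.sum_subset (fun i hi => Finset.mem_range.2 (hn i hi)) ?_
  intro i _ hi
  exact hx.2.1 i hi

/-- a bound for a finite set -/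
theorem exists_bd (s : Finset ℕ) : ∃ n, ∀ i ∈ s, i < n :=
  ⟨s.sup id + 1, fun i hi => Nat.lt_succ_of_le (Finset.le_sup (f := id) hi)⟩

theorem sum_cpl_snd {s t : Finset ℕ} {x u : ℕ → ℝ} (hx : x ∈ Simp s) (hu : u ∈ Simp t) (v : ℕ) :
    ∑ a ∈ t, cpl x u v a = x v := by
  obtain ⟨n, hn⟩ := exists_bd t
  have h1 : ∑ a ∈ t, cpl x u v a = ∑ a ∈ Finset.range n, cpl x u v a := by
    refine Finset.sum_subset (fun i hi => Finset.mem_range.2 (hn i hi)) ?_
    intro i _ hi
    exact cpl_zero_right (hu.2.1 i hi) v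
  rw [h1]
  apply sum_cpl_right hx.1
  rw [cum_eq_one hu hn]
  exact cum_le_one hx _

theorem sum_cpl_fst {s t : Finset ℕ} {x u : ℕ → ℝ} (hx : x ∈ Simp s) (hu : u ∈ Simp t) (a : ℕ) :
    ∑ v ∈ s, cpl x u v a = u a := by
  have := sum_cpl_snd hu hx a
  rw [← this]
  refine Finset.sum_congr rfl fun v _ => cpl_symm _ _ _ _

/-- the support of the coupling -/
noncomputable def sp (s t : Finset ℕ) (x u : ℕ → ℝ) : Finset (ℕ × ℕ) :=
  open Classical in (s ×ˢ t).filter fun e => cpl x u e.1 e.2 ≠ 0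

theorem cpl_mem {s t : Finset ℕ} {x u : ℕ → ℝ} (hx : x ∈ Simp s) (hu : u ∈ Simp t) :
    (fun e : ℕ × ℕ => cpl x u e.1 e.2) ∈ Simp (sp s t x u) := by
  classical
  refine ⟨fun e => cpl_nonneg hx.1 hu.1 _ _, fun e he => ?_, ?_⟩
  · by_contra h
    apply he
    rw [sp, Finset.mem_filter, Finset.mem_product]
    refine ⟨⟨?_, ?_⟩, h⟩
    · by_contra h1
      exact h (cpl_zero_left (hx.2.1 _ h1) _)
    · by_contra h1
      exact h (cpl_zero_right (hu.2.1 _ h1) _)
  · rw [sp, Finset.sum_filter_ne_zero, Finset.sum_product]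
    rw [← hx.2.2]
    exact Finset.sum_congr rfl fun v _ => sum_cpl_snd hx hu v

theorem sp_chain {s t : Finset ℕ} {x u : ℕ → ℝ} (hx : x ∈ Simp s) (hu : u ∈ Simp t)
    (e : ℕ × ℕ) (he : e ∈ sp s t x u) (f : ℕ × ℕ) (hf : f ∈ sp s t x u) : e ≤ f ∨ f ≤ e := by
  classical
  rw [sp, Finset.mem_filter] at he hf
  rcases lt_trichotomy e.1 f.1 with h | h | h
  · exact Or.inl ⟨h.le, cpl_chain hx.1 hu.1 he.2 hf.2 h⟩
  · rcases le_total e.2 f.2 with h' | h'
    · exact Or.inl ⟨h.le, h'⟩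
    · exact Or.inr ⟨h.ge, h'⟩
  · exact Or.inr ⟨h.le, cpl_chain hx.1 hu.1 hf.2 he.2 h⟩

/-! ### finite complexes -/

section
variable {V : Type*} {K : Set (Finset V)}

theorem continuous_val : Continuous fun x : Rlz K => x.1 := by
  rw [Rlz.continuous_iff]
  intro s hs
  exact continuous_subtype_val

instance t2_Rlz : T2Space (Rlz K) :=
  T2Space.of_injective_continuous (f := fun x : Rlz K => x.1) Subtype.val_injective continuous_val

theorem isCompact_Simp (s : Finset V) : IsCompact (Simp s) := by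
  refine IsCompact.of_isClosed_subset (isCompact_univ_pi
    (fun _ : V => isCompact_Icc (a := (0:ℝ)) (b := 1))) (isClosed_Simp s) ?_
  intro x hx v _
  refine ⟨hx.1 v, ?_⟩
  by_cases hv : v ∈ s
  · rw [← hx.2.2]
    exact Finset.single_le_sum (fun w _ => hx.1 w) hv
  · rw [hx.2.1 v hv]
    norm_num

theorem compact_Rlz (hK : K.Finite) : CompactSpace (Rlz K) := by
  have : Finite K := hK
  have : ∀ s : K, CompactSpace (Simp (s : Finset V)) :=
    fun s => isCompact_iff_compactSpace.1 (isCompact_Simp _)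
  have h := Rlz.isQuotientMap_glue K
  exact ⟨by rw [← h.surjective.range_eq]; exact isCompact_range h.continuous⟩

theorem isEmbedding_val (hK : K.Finite) : IsClosedEmbedding fun x : Rlz K => x.1 := by
  have := compact_Rlz hK
  exact (continuous_val).isClosedEmbedding Subtype.val_injective

theorem continuous_into (hK : K.Finite) {W : Type*} [TopologicalSpace W] {f : W → Rlz K}
    (h : ∀ v, Continuous fun w => (f w).1 v) : Continuous f := by
  rw [(isEmbedding_val hK).isEmbedding.continuous_iff]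
  exact continuous_pi h

end

/-- Extension along a quotient map. -/
theorem glue_exists {W Z X : Type*} [TopologicalSpace W] [CompactSpace W] [TopologicalSpace Z]
    [T2Space Z] [TopologicalSpace X] (q : W → Z) (hq : Continuous q) (hs : Function.Surjective q)
    (g : W → X) (hg : Continuous g) (h : ∀ a b, q a = q b → g a = g b) :
    ∃ r : Z → X, Continuous r ∧ ∀ w, r (q w) = g w := by
  have hQ : IsQuotientMap q := hq.isClosedMap.isQuotientMap hq hs
  refine ⟨fun z => g (hs z).choose, ?_, fun w => h _ _ (hs (q w)).choose_spec⟩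
  rw [hQ.continuous_iff]
  refine hg.congr fun w => ?_
  exact (h _ _ (hs (q w)).choose_spec).symm

end Pool.Agent.TH902.J519
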