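import Pool.Agent.TH716.C3.Stmts
import Pool.Agent.TH902.J519a

set_option autoImplicit false

namespace Pool.Agent.TH902.J519

open Pool.Agent.TH716.C3 Pool.Agent.Helper281.Sc Set Topology unitInterval

/-! ### the complexes -/

theorem isCx_Th (p : ℕ) : IsCx (Th p) := by
  refine ⟨fun h => Finset.not_nonempty_empty h.1, fun s hs t hts ht => ⟨ht, ?_⟩⟩
  rcases hs.2 with h | ⟨j, hj, h⟩
  · left
    rw [h] at hts
    exact (Finset.subset_singleton_iff.1 hts).resolve_left ht.ne_empty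
  · right
    refine ⟨j, hj, ?_⟩
    rcases h with h | h | h
    · exact Or.inl (hts.trans h)
    · exact Or.inr (Or.inl (hts.trans h))
    · exact Or.inr (Or.inr (hts.trans h))

theorem isCx_Cn {K : Set (Finset ℕ)} (hK : IsCx K) (c : ℕ) : IsCx (Cn K c) := by
  refine ⟨fun h => Finset.not_nonempty_empty h.1, fun s hs t hts ht => ⟨ht, ?_⟩⟩
  rcases Finset.eq_empty_or_nonempty (t.erase c) with h | h
  · exact Or.inl h
  · right
    have h2 := Finset.erase_subset_erase c hts
    rcases hs.2 with h3 | h3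
    · rw [h3] at h2
      exact absurd (Finset.subset_empty.1 h2) h.ne_empty
    · exact hK.2 _ h3 _ h2 h

theorem finite_Th (p : ℕ) : (Th p).Finite := by
  refine Set.Finite.subset (Finset.finite_toSet (Finset.range (2 * p + 1)).powerset) ?_
  intro s hs
  rw [Finset.mem_coe, Finset.mem_powerset]
  rcases hs.2 with h | ⟨j, hj, h⟩
  · rw [h]
    intro i hi
    rw [Finset.mem_singleton] at hi
    rw [Finset.mem_range]
    omega
  · have h2 : s ⊆ {0, 2 * j + 1, 2 * j + 2} := by
      rcases h with h | h | h <;> refine h.trans ?_ <;> intro i hi <;>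
        simp only [Finset.mem_insert, Finset.mem_singleton] at hi ⊢ <;> omega
    intro i hi
    have h3 := h2 hi
    simp only [Finset.mem_insert, Finset.mem_singleton] at h3
    rw [Finset.mem_range]
    omega

theorem finite_Cn {K : Set (Finset ℕ)} (hK : K.Finite) (c : ℕ) : (Cn K c).Finite := by
  have h1 : (insert ∅ K : Set (Finset ℕ)).Finite := hK.insert _
  refine Set.Finite.subset (h1.union (h1.image (insert c))) ?_
  intro s hs
  have h2 : s.erase c ∈ insert ∅ K := hs.2
  by_cases hc : c ∈ s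
  · right
    exact ⟨s.erase c, h2, Finset.insert_erase hc⟩
  · left
    rwa [Finset.erase_eq_of_notMem hc] at h2

theorem finite_Pr {K T : Set (Finset ℕ)} (hK : K.Finite) (hT : T.Finite) : (Pr K T).Finite := by
  have h : (⋃ a ∈ K, ⋃ b ∈ T, ((a ×ˢ b).powerset : Set (Finset (ℕ × ℕ)))).Finite :=
    hK.biUnion fun a _ => hT.biUnion fun b _ => Finset.finite_toSet _
  refine h.subset ?_
  intro s hs
  simp only [mem_iUnion]
  refine ⟨_, hs.1, _, hs.2.1, ?_⟩
  rw [Finset.mem_coe, Finset.mem_powerset]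
  intro e he
  rw [Finset.mem_product]
  exact ⟨Finset.mem_image_of_mem _ he, Finset.mem_image_of_mem _ he⟩

theorem finite_Gad {U : Type} [DecidableEq U] (l : ℕ) (p y : ℕ → U) (z : U) :
    (Gad l p y z).Finite := by
  have h : (⋃ i ∈ Iic l, ((({p i, p (nx l i), y i} ∪ {p (nx l i), y i, y (nx l i)} ∪
      {y i, y (nx l i), z} : Finset U)).powerset : Set (Finset U))).Finite :=
    (finite_Iic l).biUnion fun i _ => Finset.finite_toSet _
  refine h.subset ?_
  rintro s ⟨_, i, hi, hs⟩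
  simp only [mem_iUnion]
  refine ⟨i, hi, ?_⟩
  rw [Finset.mem_coe, Finset.mem_powerset]
  rcases hs with hs | hs | hs
  · exact hs.trans (Finset.subset_union_left.trans Finset.subset_union_left)
  · exact hs.trans (Finset.subset_union_right.trans Finset.subset_union_left)
  · exact hs.trans Finset.subset_union_right

theorem finite_Lc {K : Set (Finset ℕ)} (hK : K.Finite) (rs : List (List (ℕ × Bool))) :
    (Lc K rs).Finite := by
  refine Set.Finite.union ?_ ?_
  · have h := (finite_Pr hK (finite_Th rs.length)).image (fun t => t.image (Sum.inl : ℕ × ℕ → (ℕ × ℕ) ⊕ (ℕ × ℕ)))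
    refine h.subset ?_
    rintro s ⟨t, ht, rfl⟩
    exact ⟨t, ht, rfl⟩
  · have h : (⋃ j ∈ Iio rs.length, Gad (2 + 3 * (rs.getD j []).length)
      (fun i => (Sum.inl (wk j (rs.getD j []) i) : (ℕ × ℕ) ⊕ (ℕ × ℕ))) (fun i => Sum.inr (j, i))
      (Sum.inr (j, 3 + 3 * (rs.getD j []).length))).Finite :=
      (finite_Iio _).biUnion fun j _ => finite_Gad _ _ _ _
    refine h.subset ?_
    rintro s ⟨j, hj, hs⟩
    simp only [mem_iUnion]
    exact ⟨j, hj, hs⟩

/-! ### the product map -/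

theorem sp_mem {K T : Set (Finset ℕ)} (hK : IsCx K) (hT : IsCx T) {s t : Finset ℕ} {x u : ℕ → ℝ}
    (hs : s ∈ K) (ht : t ∈ T) (hx : x ∈ Simp s) (hu : u ∈ Simp t) : sp s t x u ∈ Pr K T := by
  classical
  have hne : (sp s t x u).Nonempty := Simp_nonempty (cpl_mem hx hu)
  refine ⟨hK.2 s hs _ ?_ (hne.image _), hT.2 t ht _ ?_ (hne.image _), sp_chain hx hu⟩
  · intro v hv
    obtain ⟨e, he, rfl⟩ := Finset.mem_image.1 hv
    rw [sp, Finset.mem_filter, Finset.mem_product] at he
    exact he.1.1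
  · intro v hv
    obtain ⟨e, he, rfl⟩ := Finset.mem_image.1 hv
    rw [sp, Finset.mem_filter, Finset.mem_product] at he
    exact he.1.2

/-- Extension by zero. -/
def lft (z : ℕ × ℕ → ℝ) : (ℕ × ℕ) ⊕ (ℕ × ℕ) → ℝ
  | Sum.inl e => z e
  | Sum.inr _ => 0

theorem lft_mem {z : ℕ × ℕ → ℝ} {w : Finset (ℕ × ℕ)} (hz : z ∈ Simp w) :
    lft z ∈ Simp (w.image Sum.inl : Finset ((ℕ × ℕ) ⊕ (ℕ × ℕ))) := by
  refine ⟨?_, ?_, ?_⟩
  · rintro (e | e)
    · exact hz.1 e
    · exact le_rfl
  · rintro (e | e) he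
    · apply hz.2.1
      intro h
      exact he (Finset.mem_image_of_mem _ h)
    · rfl
  · rw [Finset.sum_image fun a _ b _ h => Sum.inl_injective h]
    exact hz.2.2

/-- The map from the product of the realizations. -/
noncomputable def jj {K : Set (Finset ℕ)} (hK : IsCx K) (rs : List (List (ℕ × Bool))) (x : Rlz K)
    (u : Rlz (Th rs.length)) : Rlz (Lc K rs) :=
  ⟨lft fun e => cpl x.1 u.1 e.1 e.2, by
    obtain ⟨s, hs, hx⟩ := x.2
    obtain ⟨t, ht, hu⟩ := u.2
    exact ⟨_, Or.inl ⟨_, sp_mem hK (isCx_Th _) hs ht hx hu, rfl⟩, lft_mem (cpl_mem hx hu)⟩⟩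

theorem continuous_jj {K : Set (Finset ℕ)} (hK : IsCx K) (hf : K.Finite)
    (rs : List (List (ℕ × Bool))) {W : Type} [TopologicalSpace W] {f : W → Rlz K}
    {g : W → Rlz (Th rs.length)} (h1 : Continuous f) (h2 : Continuous g) :
    Continuous fun w => jj hK rs (f w) (g w) := by
  apply continuous_into (finite_Lc hf rs)
  rintro (e | e)
  · exact continuous_cpl (continuous_val.comp h1) (continuous_val.comp h2) _ _
  · exact continuous_const

theorem jj_inj {K : Set (Finset ℕ)} (hK : IsCx K) (rs : List (List (ℕ × Bool))) {x x' : Rlz K}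
    {u u' : Rlz (Th rs.length)} (h : jj hK rs x u = jj hK rs x' u') : x = x' ∧ u = u' := by
  have h1 : ∀ v a, cpl x.1 u.1 v a = cpl x'.1 u'.1 v a := by
    intro v a
    exact congrFun (congrArg Subtype.val h) (Sum.inl (v, a))
  obtain ⟨s, _, hx⟩ := x.2
  obtain ⟨s', _, hx'⟩ := x'.2
  obtain ⟨t, _, hu⟩ := u.2
  obtain ⟨t', _, hu'⟩ := u'.2
  have hx2 := Simp_mono (Finset.subset_union_left (s₂ := s')) hx
  have hx2' := Simp_mono (Finset.subset_union_right (s₁ := s)) hx'
  have hu2 := Simp_mono (Finset.subset_union_left (s₂ := t')) hu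
  have hu2' := Simp_mono (Finset.subset_union_right (s₁ := t)) hu'
  constructor
  · apply Subtype.ext
    funext v
    rw [← sum_cpl_snd hx2 hu2 v, ← sum_cpl_snd hx2' hu2' v]
    exact Finset.sum_congr rfl fun a _ => h1 v a
  · apply Subtype.ext
    funext a
    rw [← sum_cpl_fst hx2 hu2 a, ← sum_cpl_fst hx2' hu2' a]
    exact Finset.sum_congr rfl fun v _ => h1 v a

theorem jj_surj {K : Set (Finset ℕ)} (hK : IsCx K) (rs : List (List (ℕ × Bool)))
    (z : Rlz (Lc K rs)) {t : Finset (ℕ × ℕ)} (ht : t ∈ Pr K (Th rs.length))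
    (hz : z.1 ∈ Simp (t.image Sum.inl : Finset ((ℕ × ℕ) ⊕ (ℕ × ℕ)))) :
    ∃ x u, z = jj hK rs x u := by
  have hz' : (fun e => z.1 (Sum.inl e)) ∈ Simp t := by
    refine ⟨fun e => hz.1 _, fun e he => hz.2.1 _ ?_, ?_⟩
    · intro h
      obtain ⟨f, hf, hfe⟩ := Finset.mem_image.1 h
      rw [Sum.inl_injective hfe] at hf
      exact he hf
    · rw [← hz.2.2, Finset.sum_image fun a _ b _ h => Sum.inl_injective h]
  refine ⟨⟨mg1 t fun e => z.1 (Sum.inl e), _, ht.1, mg1_mem hz'⟩,
    ⟨mg2 t fun e => z.1 (Sum.inl e), _, ht.2.1, mg2_mem hz'⟩, ?_⟩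
  apply Subtype.ext
  funext w
  rcases w with ⟨v, a⟩ | w
  · exact (cpl_mg hz'.1 ht.2.2 hz'.2.1 v a).symm
  · apply hz.2.1
    intro h
    obtain ⟨f, _, hf⟩ := Finset.mem_image.1 h
    cases hf

/-- The base point of the wedge. -/
def v0 (p : ℕ) : Rlz (Th p) :=
  ⟨fun w => if w = 0 then 1 else 0, {0}, ⟨by simp, Or.inl rfl⟩, fun w => by
    dsimp only; split_ifs <;> norm_num, fun w hw => if_neg (by simpa using hw), by simp⟩

theorem jj_v0 {K : Set (Finset ℕ)} (hK : IsCx K) (rs : List (List (ℕ × Bool))) (x : Rlz K) :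
    jj hK rs x (v0 _) = i0 K rs x := by
  apply Subtype.ext
  funext w
  rcases w with ⟨v, a⟩ | w
  · obtain ⟨s, hs, hx⟩ := x.2
    show cpl x.1 (v0 rs.length).1 v a = if a = 0 then x.1 v else 0
    by_cases ha : a = 0
    · subst ha
      rw [if_pos rfl]
      have h0 : (v0 rs.length).1 ∈ Simp ({0} : Finset ℕ) :=
        ⟨fun w => by dsimp only [v0]; split_ifs <;> norm_num,
          fun w hw => if_neg (by simpa using hw), by simp [v0]⟩
      have := sum_cpl_snd hx h0 v
      rwa [Finset.sum_singleton] at this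
    · rw [if_neg ha]
      exact cpl_zero_right (if_neg ha) v
  · rfl

end Pool.Agent.TH902.J519
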