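import Pool.Agent.TH902.J519b

set_option autoImplicit false

namespace Pool.Agent.TH902.J519

open Pool.Agent.TH716.C3 Pool.Agent.Helper281.Sc Set Topology unitInterval

/-! ### the circles -/

/-- The parametrized `j`-th circle. -/
def thv (j : ℕ) (t : ℝ) (w : ℕ) : ℝ :=
  if w = 0 then max (max (1 - 3 * t) (3 * t - 2)) 0 else
    if w = 2 * j + 1 then max 0 (min (3 * t) (2 - 3 * t)) else
      if w = 2 * j + 2 then max 0 (min (3 * t - 1) (3 - 3 * t)) else 0

theorem continuous_thv (j w : ℕ) : Continuous fun t => thv j t w := by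
  unfold thv
  split_ifs
  · fun_prop
  · fun_prop
  · fun_prop
  · exact continuous_const

theorem thv1 (j : ℕ) {t : ℝ} (h0 : 0 ≤ t) (h1 : 3 * t ≤ 1) :
    thv j t = fun w => if w = 0 then 1 - 3 * t else if w = 2 * j + 1 then 3 * t else 0 := by
  funext w
  unfold thv
  rw [max_eq_left (show 3 * t - 2 ≤ 1 - 3 * t by linarith),
    max_eq_left (show (0 : ℝ) ≤ 1 - 3 * t by linarith), min_eq_left (show 3 * t ≤ 2 - 3 * t by linarith),
    max_eq_right (show 0 ≤ 3 * t by linarith),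
    min_eq_left (show 3 * t - 1 ≤ 3 - 3 * t by linarith),
    max_eq_left (show 3 * t - 1 ≤ 0 by linarith)]
  split_ifs <;> rfl

theorem thv2 (j : ℕ) {t : ℝ} (h0 : 1 ≤ 3 * t) (h1 : 3 * t ≤ 2) :
    thv j t = fun w => if w = 2 * j + 1 then 2 - 3 * t else if w = 2 * j + 2 then 3 * t - 1 else 0 := by
  funext w
  unfold thv
  rw [max_eq_right (show max (1 - 3 * t) (3 * t - 2) ≤ 0 from max_le (by linarith) (by linarith)),
    min_eq_right (show 2 - 3 * t ≤ 3 * t by linarith),
    max_eq_right (show 0 ≤ 2 - 3 * t by linarith),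
    min_eq_left (show 3 * t - 1 ≤ 3 - 3 * t by linarith),
    max_eq_right (show 0 ≤ 3 * t - 1 by linarith)]
  by_cases hw : w = 0
  · rw [if_pos hw, if_neg (by omega), if_neg (by omega)]
  · rw [if_neg hw]

theorem thv3 (j : ℕ) {t : ℝ} (h0 : 2 ≤ 3 * t) (h1 : t ≤ 1) :
    thv j t = fun w => if w = 0 then 3 * t - 2 else if w = 2 * j + 2 then 3 - 3 * t else 0 := by
  funext w
  unfold thv
  rw [max_eq_right (show 1 - 3 * t ≤ 3 * t - 2 by linarith),
    max_eq_left (show (0 : ℝ) ≤ 3 * t - 2 by linarith),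
    min_eq_right (show 2 - 3 * t ≤ 3 * t by linarith),
    max_eq_left (show 2 - 3 * t ≤ 0 by linarith),
    min_eq_right (show 3 - 3 * t ≤ 3 * t - 1 by linarith),
    max_eq_right (show 0 ≤ 3 - 3 * t by linarith)]
  by_cases hw : w = 2 * j + 1
  · rw [if_neg (by omega), if_pos hw, if_neg (by omega), if_neg (by omega)]
  · rw [if_neg hw]

theorem simp2 {a b : ℕ} (hab : a ≠ b) {α β : ℝ} (hα : 0 ≤ α) (hβ : 0 ≤ β) (h : α + β = 1) :
    (fun w => if w = a then α else if w = b then β else 0) ∈ Simp ({a, b} : Finset ℕ) := by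
  refine ⟨fun w => ?_, fun w hw => ?_, ?_⟩
  · dsimp only
    split_ifs
    · exact hα
    · exact hβ
    · exact le_rfl
  · simp only [Finset.mem_insert, Finset.mem_singleton, not_or] at hw
    simp [hw.1, hw.2]
  · rw [Finset.sum_pair hab, if_pos rfl, if_neg hab.symm, if_pos rfl, h]

theorem thv_mem {p j : ℕ} (hj : j < p) {t : ℝ} (h0 : 0 ≤ t) (h1 : t ≤ 1) :
    ∃ s ∈ Th p, thv j t ∈ Simp s := by
  by_cases h2 : 3 * t ≤ 1
  · refine ⟨{0, 2 * j + 1}, ⟨by simp, Or.inr ⟨j, hj, Or.inl subset_rfl⟩⟩, ?_⟩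
    rw [thv1 j h0 h2]
    exact simp2 (by omega) (by linarith) (by linarith) (by ring)
  · by_cases h3 : 3 * t ≤ 2
    · refine ⟨{2 * j + 1, 2 * j + 2}, ⟨by simp, Or.inr ⟨j, hj, Or.inr (Or.inl subset_rfl)⟩⟩, ?_⟩
      rw [thv2 j (by linarith) h3]
      exact simp2 (by omega) (by linarith) (by linarith) (by ring)
    · refine ⟨{0, 2 * j + 2}, ⟨by simp, Or.inr ⟨j, hj, Or.inr (Or.inr subset_rfl)⟩⟩, ?_⟩
      rw [thv3 j (by linarith) h1]
      exact simp2 (by omega) (by linarith) (by linarith) (by ring)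

/-- The parametrized `j`-th circle. -/
def th {p j : ℕ} (hj : j < p) (t : I) : Rlz (Th p) := ⟨thv j t, thv_mem hj t.2.1 t.2.2⟩

theorem continuous_th {p j : ℕ} (hj : j < p) : Continuous (th hj) := by
  apply continuous_into (finite_Th p)
  intro w
  exact (continuous_thv j w).comp continuous_subtype_val

theorem th_zero {p j : ℕ} (hj : j < p) : th hj 0 = v0 p := by
  apply Subtype.ext
  show thv j ((0 : I) : ℝ) = _
  rw [Icc.coe_zero, thv1 j le_rfl (by norm_num)]
  funext w
  simp [v0]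

theorem th_one {p j : ℕ} (hj : j < p) : th hj 1 = v0 p := by
  apply Subtype.ext
  show thv j ((1 : I) : ℝ) = _
  rw [Icc.coe_one, thv3 j (by norm_num) le_rfl]
  funext w
  have : (3 : ℝ) - 3 * 1 = 0 := by norm_num
  rw [this]
  norm_num [v0]

theorem thv_a (j : ℕ) (t : ℝ) : thv j t (2 * j + 1) = max 0 (min (3 * t) (2 - 3 * t)) := by
  unfold thv
  rw [if_neg (by omega), if_pos rfl]

theorem thv_b (j : ℕ) (t : ℝ) : thv j t (2 * j + 2) = max 0 (min (3 * t - 1) (3 - 3 * t)) := by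
  unfold thv
  rw [if_neg (by omega), if_neg (by omega), if_pos rfl]

theorem thv_a' {j k : ℕ} (h : j ≠ k) (t : ℝ) : thv j t (2 * k + 1) = 0 := by
  unfold thv
  rw [if_neg (by omega), if_neg (by omega), if_neg (by omega)]

theorem thv_b' {j k : ℕ} (h : j ≠ k) (t : ℝ) : thv j t (2 * k + 2) = 0 := by
  unfold thv
  rw [if_neg (by omega), if_neg (by omega), if_neg (by omega)]

/-- The endpoints are detected by two coordinates. -/
theorem thv_end {j : ℕ} {t : ℝ} (h0 : 0 ≤ t) (h1 : t ≤ 1) (ha : thv j t (2 * j + 1) = 0)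
    (hb : thv j t (2 * j + 2) = 0) : t = 0 ∨ t = 1 := by
  rw [thv_a] at ha
  rw [thv_b] at hb
  have ha' : min (3 * t) (2 - 3 * t) ≤ 0 := by
    rw [← ha]
    exact le_max_right _ _
  have hb' : min (3 * t - 1) (3 - 3 * t) ≤ 0 := by
    rw [← hb]
    exact le_max_right _ _
  rcases min_le_iff.1 ha' with h | h
  · left; linarith
  · rcases min_le_iff.1 hb' with h' | h'
    · exfalso; linarith
    · right; linarith

theorem thv_inj {j : ℕ} {t t' : ℝ} (h0 : 0 ≤ t) (h1 : t ≤ 1) (h0' : 0 ≤ t') (h1' : t' ≤ 1)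
    (ha : thv j t (2 * j + 1) = thv j t' (2 * j + 1))
    (hb : thv j t (2 * j + 2) = thv j t' (2 * j + 2)) :
    t = t' ∨ ((t = 0 ∨ t = 1) ∧ (t' = 0 ∨ t' = 1)) := by
  by_cases ha0 : thv j t (2 * j + 1) = 0
  · by_cases hb0 : thv j t (2 * j + 2) = 0
    · right
      exact ⟨thv_end h0 h1 ha0 hb0, thv_end h0' h1' (ha ▸ ha0) (hb ▸ hb0)⟩
    · left
      have hb0' : thv j t' (2 * j + 2) ≠ 0 := hb ▸ hb0
      have ha0' : thv j t' (2 * j + 1) = 0 := ha ▸ ha0
      rw [thv_a] at ha0 ha0'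
      rw [thv_b] at hb0 hb0'
      rw [thv_b, thv_b] at hb
      have e1 : ∀ s : ℝ, max 0 (min (3 * s - 1) (3 - 3 * s)) ≠ 0 →
          max 0 (min (3 * s) (2 - 3 * s)) = 0 → 2 ≤ 3 * s ∧
            max 0 (min (3 * s - 1) (3 - 3 * s)) = 3 - 3 * s := by
        intro s hs1 hs2
        have hs2' : min (3 * s) (2 - 3 * s) ≤ 0 := by
          rw [← hs2]
          exact le_max_right _ _
        have hs1' : 0 < min (3 * s - 1) (3 - 3 * s) := by
          by_contra h
          exact hs1 (max_eq_left (not_lt.1 h))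
        have h3 := lt_min_iff.1 hs1'
        rcases min_le_iff.1 hs2' with h | h
        · exfalso; linarith
        · have : 2 ≤ 3 * s := by linarith
          refine ⟨this, ?_⟩
          rw [max_eq_right hs1'.le, min_eq_right (by linarith)]
      have h2 := e1 t hb0 ha0
      have h2' := e1 t' hb0' ha0'
      rw [h2.2, h2'.2] at hb
      linarith
  · left
    have ha0' : thv j t' (2 * j + 1) ≠ 0 := ha ▸ ha0
    rw [thv_a, thv_a] at ha
    rw [thv_b, thv_b] at hb
    rw [thv_a] at ha0 ha0'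
    have e1 : ∀ s : ℝ, max 0 (min (3 * s) (2 - 3 * s)) ≠ 0 → (0 < 3 * s ∧ 3 * s < 2) := by
      intro s hs
      have hs1' : 0 < min (3 * s) (2 - 3 * s) := by
        by_contra h
        exact hs (max_eq_left (not_lt.1 h))
      have h3 := lt_min_iff.1 hs1'
      exact ⟨h3.1, by linarith⟩
    have h2 := e1 t ha0
    have h2' := e1 t' ha0'
    rw [max_eq_right (le_min h2.1.le (by linarith)),
      max_eq_right (le_min h2'.1.le (by linarith))] at ha
    rw [min_eq_left (show 3 * t - 1 ≤ 3 - 3 * t by linarith),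
      min_eq_left (show 3 * t' - 1 ≤ 3 - 3 * t' by linarith)] at hb
    rcases le_total (3 * t) 1 with h | h <;> rcases le_total (3 * t') 1 with h' | h'
    · rw [min_eq_left (by linarith), min_eq_left (by linarith)] at ha
      linarith
    · rw [min_eq_left (by linarith), min_eq_right (by linarith)] at ha
      rw [max_eq_left (by linarith), max_eq_right (by linarith)] at hb
      linarith
    · rw [min_eq_right (by linarith), min_eq_left (by linarith)] at ha
      rw [max_eq_right (by linarith), max_eq_left (by linarith)] at hb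
      linarith
    · rw [min_eq_right (by linarith), min_eq_right (by linarith)] at ha
      linarith

theorem th_inj {p j k : ℕ} (hj : j < p) (hk : k < p) {t t' : I} (h : th hj t = th hk t') :
    (j = k ∧ t = t') ∨ ((t = 0 ∨ t = 1) ∧ (t' = 0 ∨ t' = 1)) := by
  have hw : ∀ w, thv j t w = thv k t' w := fun w => congrFun (congrArg Subtype.val h) w
  have c0 : ∀ s : I, (s : ℝ) = 0 ∨ (s : ℝ) = 1 → s = 0 ∨ s = 1 := by
    rintro s (h | h)
    · left; exact Subtype.ext h
    · right; exact Subtype.ext h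
  by_cases hjk : j = k
  · subst hjk
    rcases thv_inj t.2.1 t.2.2 t'.2.1 t'.2.2 (hw _) (hw _) with h1 | h1
    · exact Or.inl ⟨rfl, Subtype.ext h1⟩
    · exact Or.inr ⟨c0 _ h1.1, c0 _ h1.2⟩
  · right
    have e1 := hw (2 * j + 1)
    have e2 := hw (2 * j + 2)
    rw [thv_a' (Ne.symm hjk)] at e1
    rw [thv_b' (Ne.symm hjk)] at e2
    have e3 := hw (2 * k + 1)
    have e4 := hw (2 * k + 2)
    rw [thv_a' hjk] at e3
    rw [thv_b' hjk] at e4
    exact ⟨c0 _ (thv_end t.2.1 t.2.2 e1 e2), c0 _ (thv_end t'.2.1 t'.2.2 e3.symm e4.symm)⟩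

theorem th_v0 {p j : ℕ} (hj : j < p) {t : I} (h : th hj t = v0 p) : t = 0 ∨ t = 1 := by
  rw [← th_zero hj] at h
  rcases th_inj hj hj h with h1 | h1
  · exact Or.inl h1.2
  · exact h1.1

theorem simp2_eq {a b : ℕ} (hab : a ≠ b) {u : ℕ → ℝ} (hu : u ∈ Simp ({a, b} : Finset ℕ)) :
    (u = fun w => if w = a then 1 - u b else if w = b then u b else 0) ∧ 0 ≤ u b ∧ u b ≤ 1 := by
  have h1 := hu.2.2
  rw [Finset.sum_pair hab] at h1
  refine ⟨?_, hu.1 b, by linarith [hu.1 a]⟩
  funext w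
  split_ifs with h2 h3
  · rw [h2]; linarith
  · rw [h3]
  · apply hu.2.1
    simp [h2, h3]

theorem th_surj {p : ℕ} (u : Rlz (Th p)) : u = v0 p ∨ ∃ j, ∃ hj : j < p, ∃ t : I, u = th hj t := by
  obtain ⟨s, hs, hu⟩ := u.2
  rcases hs.2 with h | ⟨j, hj, h⟩
  · left
    subst h
    apply Subtype.ext
    funext w
    show u.1 w = if w = 0 then 1 else 0
    by_cases hw : w = 0
    · rw [if_pos hw, hw]
      have := hu.2.2
      rwa [Finset.sum_singleton] at this
    · rw [if_neg hw]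
      exact hu.2.1 w (by simpa using hw)
  · right
    refine ⟨j, hj, ?_⟩
    rcases h with h | h | h
    · obtain ⟨h1, h2, h3⟩ := simp2_eq (by omega) (Simp_mono h hu)
      refine ⟨⟨u.1 (2 * j + 1) / 3, by constructor <;> linarith⟩, Subtype.ext ?_⟩
      show u.1 = thv j (u.1 (2 * j + 1) / 3)
      rw [thv1 j (by linarith) (by linarith)]
      have e : 3 * (u.1 (2 * j + 1) / 3) = u.1 (2 * j + 1) := by ring
      rw [e]
      exact h1
    · obtain ⟨h1, h2, h3⟩ := simp2_eq (by omega) (Simp_mono h hu)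
      refine ⟨⟨(1 + u.1 (2 * j + 2)) / 3, by constructor <;> linarith⟩, Subtype.ext ?_⟩
      show u.1 = thv j ((1 + u.1 (2 * j + 2)) / 3)
      rw [thv2 j (by linarith) (by linarith)]
      have e : 2 - 3 * ((1 + u.1 (2 * j + 2)) / 3) = 1 - u.1 (2 * j + 2) := by ring
      have e' : 3 * ((1 + u.1 (2 * j + 2)) / 3) - 1 = u.1 (2 * j + 2) := by ring
      rw [e, e']
      exact h1
    · obtain ⟨h1, h2, h3⟩ := simp2_eq (by omega) (Simp_mono h hu)
      refine ⟨⟨1 - u.1 (2 * j + 2) / 3, by constructor <;> linarith⟩, Subtype.ext ?_⟩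
      show u.1 = thv j (1 - u.1 (2 * j + 2) / 3)
      rw [thv3 j (by linarith) (by linarith)]
      have e : 3 * (1 - u.1 (2 * j + 2) / 3) - 2 = 1 - u.1 (2 * j + 2) := by ring
      have e' : 3 - 3 * (1 - u.1 (2 * j + 2) / 3) = u.1 (2 * j + 2) := by ring
      rw [e, e']
      exact h1

/-! ### the cone -/

/-- The cone map. -/
noncomputable def q1 {K : Set (Finset ℕ)} {c : ℕ} (hc : ∀ s ∈ K, ∀ v ∈ s, v < c) (x : Rlz K)
    (s : I) : Rlz (Cn K c) :=
  ⟨fun v => (1 - s) * x.1 v + s * (if v = c then 1 else 0), by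
    obtain ⟨A, hA, hx⟩ := x.2
    have hcA : c ∉ A := fun h => lt_irrefl _ (hc A hA c h)
    refine ⟨insert c A, ⟨Finset.insert_nonempty _ _, Or.inr ?_⟩, ?_, ?_, ?_⟩
    · rwa [Finset.erase_insert hcA]
    · intro v
      have h0 := s.2.1
      have h1 : (0 : ℝ) ≤ 1 - s := by linarith [s.2.2]
      have h2 := mul_nonneg h1 (hx.1 v)
      have h3 : (0 : ℝ) ≤ s * (if v = c then 1 else 0) := by
        split_ifs <;> simp [h0]
      dsimp only
      linarith
    · intro v hv
      rw [Finset.mem_insert, not_or] at hv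
      dsimp only
      rw [hx.2.1 v hv.2, if_neg hv.1]
      ring
    · rw [Finset.sum_add_distrib, ← Finset.mul_sum, ← Finset.mul_sum, Finset.sum_insert hcA,
        hx.2.2, hx.2.1 c hcA, Finset.sum_ite_eq' (insert c A) c, if_pos (Finset.mem_insert_self _ _)]
      ring⟩

theorem x_c {K : Set (Finset ℕ)} {c : ℕ} (hc : ∀ s ∈ K, ∀ v ∈ s, v < c) (x : Rlz K) :
    x.1 c = 0 := by
  obtain ⟨A, hA, hx⟩ := x.2
  exact hx.2.1 c fun h => lt_irrefl _ (hc A hA c h)

theorem q1_c {K : Set (Finset ℕ)} {c : ℕ} (hc : ∀ s ∈ K, ∀ v ∈ s, v < c) (x : Rlz K) (s : I) :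
    (q1 hc x s).1 c = s := by
  show (1 - (s : ℝ)) * x.1 c + s * (if c = c then 1 else 0) = s
  rw [x_c hc, if_pos rfl]
  ring

theorem q1_inj {K : Set (Finset ℕ)} {c : ℕ} (hc : ∀ s ∈ K, ∀ v ∈ s, v < c) {x x' : Rlz K}
    {s s' : I} (h : q1 hc x s = q1 hc x' s') : s = s' ∧ (x = x' ∨ s = 1) := by
  have hs : s = s' := by
    apply Subtype.ext
    rw [← q1_c hc x s, ← q1_c hc x' s', h]
  refine ⟨hs, ?_⟩
  subst hs
  by_cases h1 : s = 1
  · exact Or.inr h1
  · left
    apply Subtype.ext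
    funext v
    have h2 : (1 - (s : ℝ)) * x.1 v + s * (if v = c then 1 else 0) =
      (1 - (s : ℝ)) * x'.1 v + s * (if v = c then 1 else 0) := congrFun (congrArg Subtype.val h) v
    have h3 : (1 - (s : ℝ)) ≠ 0 := by
      intro h4
      apply h1
      apply Subtype.ext
      rw [Icc.coe_one]
      linarith
    have h4 : (1 - (s : ℝ)) * x.1 v = (1 - (s : ℝ)) * x'.1 v := by linarith
    exact mul_left_cancel₀ h3 h4

theorem q1_surj {K : Set (Finset ℕ)} {c : ℕ} (hc : ∀ s ∈ K, ∀ v ∈ s, v < c)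
    (x0 : Rlz K) (x : Rlz (Cn K c)) : ∃ y s, x = q1 hc y s := by
  obtain ⟨A, hA, hx⟩ := x.2
  have hsum : x.1 c + ∑ v ∈ A.erase c, x.1 v = 1 := by
    by_cases hcs : c ∈ A
    · rw [Finset.add_sum_erase _ _ hcs, hx.2.2]
    · rw [Finset.erase_eq_of_notMem hcs, hx.2.2, hx.2.1 c hcs]
      ring
  have hnn : 0 ≤ ∑ v ∈ A.erase c, x.1 v := Finset.sum_nonneg fun v _ => hx.1 v
  have h1 : x.1 c ≤ 1 := by linarith
  by_cases h : x.1 c = 1
  · refine ⟨x0, 1, ?_⟩
    apply Subtype.ext
    funext v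
    show x.1 v = (1 - ((1 : I) : ℝ)) * x0.1 v + ((1 : I) : ℝ) * (if v = c then 1 else 0)
    rw [Icc.coe_one]
    by_cases hv : v = c
    · rw [if_pos hv, hv, h]
      ring
    · rw [if_neg hv]
      by_cases hvs : v ∈ A
      · have h2 : ∑ v ∈ A.erase c, x.1 v = 0 := by linarith
        rw [Finset.sum_eq_zero_iff_of_nonneg fun v _ => hx.1 v] at h2
        rw [h2 v (Finset.mem_erase.2 ⟨hv, hvs⟩)]
        ring
      · rw [hx.2.1 v hvs]
        ring
  · have hpos : 0 < 1 - x.1 c := by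
      rcases lt_or_eq_of_le h1 with h2 | h2
      · linarith
      · exact absurd h2 h
    have hK : A.erase c ∈ K := by
      rcases hA.2 with h2 | h2
      · rw [h2, Finset.sum_empty] at hsum
        exact absurd (by linarith) h
      · exact h2
    refine ⟨⟨fun v => if v = c then 0 else x.1 v / (1 - x.1 c), A.erase c, hK, ?_, ?_, ?_⟩,
      ⟨x.1 c, hx.1 c, h1⟩, ?_⟩
    · intro v
      dsimp only
      split_ifs
      · exact le_rfl
      · exact div_nonneg (hx.1 v) hpos.le
    · intro v hv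
      dsimp only
      split_ifs with h2
      · rfl
      · rw [hx.2.1 v fun h3 => hv (Finset.mem_erase.2 ⟨h2, h3⟩)]
        simp
    · have e : ∑ v ∈ A.erase c, (if v = c then 0 else x.1 v / (1 - x.1 c)) =
          ∑ v ∈ A.erase c, x.1 v / (1 - x.1 c) :=
        Finset.sum_congr rfl fun v hv => if_neg (Finset.ne_of_mem_erase hv)
      rw [e, ← Finset.sum_div, div_eq_one_iff_eq hpos.ne']
      linarith
    · apply Subtype.ext
      funext v
      show x.1 v = (1 - x.1 c) * (if v = c then 0 else x.1 v / (1 - x.1 c)) +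
        x.1 c * (if v = c then 1 else 0)
      by_cases hv : v = c
      · rw [if_pos hv, if_pos hv, hv]
        ring
      · rw [if_neg hv, if_neg hv, mul_div_cancel₀ _ hpos.ne']
        ring

theorem continuous_q1 {K : Set (Finset ℕ)} (hK : K.Finite) {c : ℕ}
    (hc : ∀ s ∈ K, ∀ v ∈ s, v < c) {W : Type} [TopologicalSpace W] {f : W → Rlz K} {g : W → I}
    (h1 : Continuous f) (h2 : Continuous g) : Continuous fun w => q1 hc (f w) (g w) := by
  apply continuous_into (finite_Cn hK c)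
  intro v
  have h3 : Continuous fun w => (f w).1 v := (continuous_apply v).comp (continuous_val.comp h1)
  have h4 : Continuous fun w => ((g w : I) : ℝ) := continuous_subtype_val.comp h2
  exact ((continuous_const.sub h4).mul h3).add (h4.mul continuous_const)

end Pool.Agent.TH902.J519
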