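import Pool.Agent.TH168.Mil.Defs

/-!
# One-variable calculus for the oscillating pattern (MP_7d7bd6_gt)
-/

set_option autoImplicit false

namespace Pool.Agent.TH902.Mil

open Set Filter Topology MeasureTheory
open scoped ContDiff

/-- a function with its first two derivatives -/
structure D2 (w w1 w2 : ℝ → ℝ) : Prop where
  d1 : ∀ x, HasDerivAt w (w1 x) x
  d2 : ∀ x, HasDerivAt w1 (w2 x) x

theorem D2.deriv_eq {w w1 w2 : ℝ → ℝ} (h : D2 w w1 w2) : deriv w = w1 :=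
  funext fun x => (h.d1 x).deriv

theorem D2.deriv2_eq {w w1 w2 : ℝ → ℝ} (h : D2 w w1 w2) : deriv (deriv w) = w2 := by
  rw [h.deriv_eq]
  exact funext fun x => (h.d2 x).deriv

theorem D2.of_smooth {w : ℝ → ℝ} (h : ContDiff ℝ ∞ w) : D2 w (deriv w) (deriv (deriv w)) := by
  have h1 : ContDiff ℝ ∞ (deriv w) := (contDiff_infty_iff_deriv.mp h).2
  refine ⟨fun x => ?_, fun x => ?_⟩
  · exact (h.differentiable (by simp) x).hasDerivAt
  · exact (h1.differentiable (by simp) x).hasDerivAt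

theorem D2.add {w w1 w2 v v1 v2 : ℝ → ℝ} (h : D2 w w1 w2) (h' : D2 v v1 v2) :
    D2 (fun x => w x + v x) (fun x => w1 x + v1 x) (fun x => w2 x + v2 x) :=
  ⟨fun x => (h.d1 x).add (h'.d1 x), fun x => (h.d2 x).add (h'.d2 x)⟩

theorem D2.sub {w w1 w2 v v1 v2 : ℝ → ℝ} (h : D2 w w1 w2) (h' : D2 v v1 v2) :
    D2 (fun x => w x - v x) (fun x => w1 x - v1 x) (fun x => w2 x - v2 x) :=
  ⟨fun x => (h.d1 x).sub (h'.d1 x), fun x => (h.d2 x).sub (h'.d2 x)⟩

theorem D2.const_mul {w w1 w2 : ℝ → ℝ} (c : ℝ) (h : D2 w w1 w2) :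
    D2 (fun x => c * w x) (fun x => c * w1 x) (fun x => c * w2 x) :=
  ⟨fun x => (h.d1 x).const_mul c, fun x => (h.d2 x).const_mul c⟩

theorem D2.mul {w w1 w2 v v1 v2 : ℝ → ℝ} (h : D2 w w1 w2) (h' : D2 v v1 v2) :
    D2 (fun x => w x * v x) (fun x => w1 x * v x + w x * v1 x)
      (fun x => w2 x * v x + 2 * (w1 x * v1 x) + w x * v2 x) := by
  refine ⟨fun x => (h.d1 x).mul (h'.d1 x), fun x => ?_⟩
  have := ((h.d2 x).mul (h'.d1 x)).add ((h.d1 x).mul (h'.d2 x))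
  refine HasDerivAt.congr_deriv this ?_
  ring

theorem h2_d2 {w w1 w2 W W1 W2 S P Q R : ℝ → ℝ} (hw : D2 w w1 w2) (hW : D2 W W1 W2)
    (hS : ∀ x, HasDerivAt S (P x) x) (hP : ∀ x, HasDerivAt P (Q x) x)
    (hQ : ∀ x, HasDerivAt Q (R x) x) (h0 : ∀ x, P x ≠ 0) :
    D2 (fun u => w u * W (S u) / P u ^ 2)
      (fun u => w1 u * W (S u) / P u ^ 2 + w u * W1 (S u) / P u -
        2 * w u * W (S u) * Q u / P u ^ 3)
      (fun u => w u * W2 (S u) + (w2 u * W (S u) / P u ^ 2 + 2 * w1 u * W1 (S u) / P u -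
        4 * w1 u * W (S u) * Q u / P u ^ 3 - 3 * w u * W1 (S u) * Q u / P u ^ 2 -
        2 * w u * W (S u) * R u / P u ^ 3 + 6 * w u * W (S u) * Q u ^ 2 / P u ^ 4)) := by
  have hWS : ∀ x, HasDerivAt (fun u => W (S u)) (W1 (S x) * P x) x := fun x =>
    (hW.d1 (S x)).comp x (hS x)
  have hWS1 : ∀ x, HasDerivAt (fun u => W1 (S u)) (W2 (S x) * P x) x := fun x =>
    (hW.d2 (S x)).comp x (hS x)
  have hP2 : ∀ (n : ℕ) (x : ℝ), HasDerivAt (fun u => P u ^ n) (n * P x ^ (n - 1) * Q x) x :=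
    fun n x => (hP x).pow n
  refine ⟨fun x => ?_, fun x => ?_⟩
  · have hx := h0 x
    have := ((hw.d1 x).mul (hWS x)).div (hP2 2 x) (pow_ne_zero 2 hx)
    refine HasDerivAt.congr_deriv this ?_
    simp only [Pi.mul_apply]
    field_simp
    push_cast
    ring
  · have hx := h0 x
    have e1 := ((hw.d2 x).mul (hWS x)).div (hP2 2 x) (pow_ne_zero 2 hx)
    have e2 := ((hw.d1 x).mul (hWS1 x)).div (hP x) hx
    have e3 := ((((hw.d1 x).const_mul 2).mul (hWS x)).mul (hQ x)).div (hP2 3 x) (pow_ne_zero 3 hx)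
    have := (e1.add e2).sub e3
    refine HasDerivAt.congr_deriv this ?_
    simp only [Pi.mul_apply]
    field_simp
    push_cast
    ring

theorem h1_d2 {w w1 w2 W W1 W2 S P Q R : ℝ → ℝ} (hw : D2 w w1 w2) (hW : D2 W W1 W2)
    (hS : ∀ x, HasDerivAt S (P x) x) (hP : ∀ x, HasDerivAt P (Q x) x)
    (hQ : ∀ x, HasDerivAt Q (R x) x) (h0 : ∀ x, P x ≠ 0) :
    D2 (fun u => w u * W (S u) / P u)
      (fun u => w u * W1 (S u) + (w1 u * W (S u) / P u - w u * W (S u) * Q u / P u ^ 2))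
      (fun u => w2 u * W (S u) / P u + 2 * w1 u * W1 (S u) - 2 * w1 u * W (S u) * Q u / P u ^ 2 +
        w u * W2 (S u) * P u - w u * W1 (S u) * Q u / P u - w u * W (S u) * R u / P u ^ 2 +
        2 * w u * W (S u) * Q u ^ 2 / P u ^ 3) := by
  have hWS : ∀ x, HasDerivAt (fun u => W (S u)) (W1 (S x) * P x) x := fun x =>
    (hW.d1 (S x)).comp x (hS x)
  have hWS1 : ∀ x, HasDerivAt (fun u => W1 (S u)) (W2 (S x) * P x) x := fun x =>
    (hW.d2 (S x)).comp x (hS x)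
  have hP2 : ∀ (n : ℕ) (x : ℝ), HasDerivAt (fun u => P u ^ n) (n * P x ^ (n - 1) * Q x) x :=
    fun n x => (hP x).pow n
  refine ⟨fun x => ?_, fun x => ?_⟩
  · have hx := h0 x
    have := ((hw.d1 x).mul (hWS x)).div (hP x) hx
    refine HasDerivAt.congr_deriv this ?_
    simp only [Pi.mul_apply]
    field_simp
    ring
  · have hx := h0 x
    have e1 := (hw.d1 x).mul (hWS1 x)
    have e2 := ((hw.d2 x).mul (hWS x)).div (hP x) hx
    have e3 := (((hw.d1 x).mul (hWS x)).mul (hQ x)).div (hP2 2 x) (pow_ne_zero 2 hx)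
    have := e1.add (e2.sub e3)
    refine HasDerivAt.congr_deriv this ?_
    simp only [Pi.mul_apply]
    field_simp
    push_cast
    ring

theorem am {a b A B : ℝ} (h1 : |a| ≤ A) (h2 : |b| ≤ B) : |a * b| ≤ A * B := by
  rw [abs_mul]
  exact mul_le_mul h1 h2 (abs_nonneg _) (le_trans (abs_nonneg _) h1)

theorem b2 {w w1 w2 W W1 P Q R A B : ℝ} (hP : 1 ≤ P) (hw : |w| ≤ A) (hw1 : |w1| ≤ A)
    (hw2 : |w2| ≤ A) (hW : |W| ≤ B) (hW1 : |W1| ≤ B) (hQ : |Q| ≤ 3 * P) (hR : |R| ≤ 9 * P) :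
    |w * W / P ^ 2| ≤ A * B / P ^ 2 ∧
    |w1 * W / P ^ 2 + w * W1 / P - 2 * w * W * Q / P ^ 3| ≤ 8 * (A * B) / P ∧
    |w2 * W / P ^ 2 + 2 * w1 * W1 / P - 4 * w1 * W * Q / P ^ 3 - 3 * w * W1 * Q / P ^ 2 -
        2 * w * W * R / P ^ 3 + 6 * w * W * Q ^ 2 / P ^ 4| ≤ 96 * (A * B) / P := by
  have hP0 : 0 < P := by linarith
  obtain ⟨i, hi⟩ : ∃ i, i = P⁻¹ := ⟨_, rfl⟩
  obtain ⟨q, hq⟩ : ∃ q, q = Q / P := ⟨_, rfl⟩
  obtain ⟨s, hs⟩ : ∃ s, s = R / P := ⟨_, rfl⟩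
  have hi0 : 0 < i := by rw [hi]; positivity
  have hi1 : i ≤ 1 := by rw [hi]; exact inv_le_one_of_one_le₀ hP
  have hq3 : |q| ≤ 3 := by
    rw [hq, abs_div, abs_of_pos hP0, div_le_iff₀ hP0]; exact hQ
  have hs9 : |s| ≤ 9 := by
    rw [hs, abs_div, abs_of_pos hP0, div_le_iff₀ hP0]; exact hR
  have hA : 0 ≤ A := (abs_nonneg _).trans hw
  have hB : 0 ≤ B := (abs_nonneg _).trans hW
  have hAB : 0 ≤ A * B := mul_nonneg hA hB
  have hii : i ^ 2 ≤ i := by nlinarith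
  have hi2 : |i ^ 2| ≤ i := by rw [abs_of_nonneg (by positivity)]; exact hii
  have hi' : |i| ≤ i := by rw [abs_of_pos hi0]
  have hq2 : |q ^ 2| ≤ 9 := by
    rw [abs_pow]; nlinarith [abs_nonneg q]
  have hABi : 0 ≤ A * B * i := mul_nonneg hAB hi0.le
  refine ⟨?_, ?_, ?_⟩
  · rw [abs_div, abs_of_pos (pow_pos hP0 2)]
    exact div_le_div_of_nonneg_right (am hw hW) (by positivity)
  · have e : w1 * W / P ^ 2 + w * W1 / P - 2 * w * W * Q / P ^ 3 =
        w1 * W * i ^ 2 + w * W1 * i - 2 * (w * W * q * i ^ 2) := by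
      rw [hi, hq]; field_simp
    rw [e, mul_div_assoc]
    have t1 := am (am hw1 hW) hi2
    have t2 := am (am hw hW1) hi'
    have t3 := am (am (am hw hW) hq3) hi2
    have : 8 * (A * B / P) = 8 * (A * B * i) := by rw [hi]; ring
    rw [this]
    rw [abs_le] at t1 t2 t3 ⊢
    constructor <;> nlinarith
  · have e : w2 * W / P ^ 2 + 2 * w1 * W1 / P - 4 * w1 * W * Q / P ^ 3 -
        3 * w * W1 * Q / P ^ 2 - 2 * w * W * R / P ^ 3 + 6 * w * W * Q ^ 2 / P ^ 4 =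
        w2 * W * i ^ 2 + 2 * (w1 * W1 * i) - 4 * (w1 * W * q * i ^ 2) -
        3 * (w * W1 * q * i) - 2 * (w * W * s * i ^ 2) + 6 * (w * W * q ^ 2 * i ^ 2) := by
      rw [hi, hq, hs]; field_simp
    rw [e, mul_div_assoc]
    have t1 := am (am hw2 hW) hi2
    have t2 := am (am hw1 hW1) hi'
    have t3 := am (am (am hw1 hW) hq3) hi2
    have t4 := am (am (am hw hW1) hq3) hi'
    have t5 := am (am (am hw hW) hs9) hi2
    have t6 := am (am (am hw hW) hq2) hi2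
    have : 96 * (A * B / P) = 96 * (A * B * i) := by rw [hi]; ring
    rw [this]
    rw [abs_le] at t1 t2 t3 t4 t5 t6 ⊢
    constructor <;> nlinarith

theorem b1 {w w1 w2 W W1 W2 P Q R A B : ℝ} (hP : 1 ≤ P) (hw : |w| ≤ A) (hw1 : |w1| ≤ A)
    (hw2 : |w2| ≤ A) (hW : |W| ≤ B) (hW1 : |W1| ≤ B) (hW2 : |W2| ≤ B) (hQ : |Q| ≤ 3 * P)
    (hR : |R| ≤ 9 * P) :
    |w * W / P| ≤ A * B / P ∧
    |w1 * W / P - w * W * Q / P ^ 2| ≤ 4 * (A * B) / P ∧
    |w2 * W / P + 2 * w1 * W1 - 2 * w1 * W * Q / P ^ 2 +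
        w * W2 * P - w * W1 * Q / P - w * W * R / P ^ 2 +
        2 * w * W * Q ^ 2 / P ^ 3| ≤ 40 * (A * B) * P := by
  have hP0 : 0 < P := by linarith
  obtain ⟨i, hi⟩ : ∃ i, i = P⁻¹ := ⟨_, rfl⟩
  obtain ⟨q, hq⟩ : ∃ q, q = Q / P := ⟨_, rfl⟩
  obtain ⟨s, hs⟩ : ∃ s, s = R / P := ⟨_, rfl⟩
  have hi0 : 0 < i := by rw [hi]; positivity
  have hi1 : i ≤ 1 := by rw [hi]; exact inv_le_one_of_one_le₀ hP
  have hq3 : |q| ≤ 3 := by
    rw [hq, abs_div, abs_of_pos hP0, div_le_iff₀ hP0]; exact hQ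
  have hs9 : |s| ≤ 9 := by
    rw [hs, abs_div, abs_of_pos hP0, div_le_iff₀ hP0]; exact hR
  have hA : 0 ≤ A := (abs_nonneg _).trans hw
  have hB : 0 ≤ B := (abs_nonneg _).trans hW
  have hAB : 0 ≤ A * B := mul_nonneg hA hB
  have hi' : |i| ≤ i := by rw [abs_of_pos hi0]
  have hi1' : |i| ≤ 1 := by rw [abs_of_pos hi0]; exact hi1
  have hPP : |P| ≤ P := by rw [abs_of_pos hP0]
  have hq2 : |q ^ 2| ≤ 9 := by
    rw [abs_pow]; nlinarith [abs_nonneg q]
  have hABP : A * B ≤ A * B * P := le_mul_of_one_le_right hAB hP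
  refine ⟨?_, ?_, ?_⟩
  · rw [abs_div, abs_of_pos hP0]
    exact div_le_div_of_nonneg_right (am hw hW) hP0.le
  · have e : w1 * W / P - w * W * Q / P ^ 2 = w1 * W * i - w * W * q * i := by
      rw [hi, hq]; field_simp
    rw [e, mul_div_assoc]
    have t1 := am (am hw1 hW) hi'
    have t3 := am (am (am hw hW) hq3) hi'
    have : 4 * (A * B / P) = 4 * (A * B * i) := by rw [hi]; ring
    rw [this]
    rw [abs_le] at t1 t3 ⊢
    constructor <;> nlinarith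
  · have e : w2 * W / P + 2 * w1 * W1 - 2 * w1 * W * Q / P ^ 2 +
        w * W2 * P - w * W1 * Q / P - w * W * R / P ^ 2 +
        2 * w * W * Q ^ 2 / P ^ 3 =
        w2 * W * i + 2 * (w1 * W1) - 2 * (w1 * W * q * i) +
        w * W2 * P - w * W1 * q - w * W * s * i +
        2 * (w * W * q ^ 2 * i) := by
      rw [hi, hq, hs]; field_simp
    rw [e]
    have t1 := am (am hw2 hW) hi1'
    have t2 := am hw1 hW1
    have t3 := am (am (am hw1 hW) hq3) hi1'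
    have t4 := am (am hw hW2) hPP
    have t5 := am (am hw hW1) hq3
    have t6 := am (am (am hw hW) hs9) hi1'
    have t7 := am (am (am hw hW) hq2) hi1'
    rw [abs_le] at t1 t2 t3 t4 t5 t6 t7 ⊢
    constructor <;> nlinarith

/-- boundedness of functions which are constant outside a compact interval -/
theorem bdd_of_const {f : ℝ → ℝ} (hf : ContDiff ℝ ∞ f) {a b c1 c2 : ℝ}
    (h1 : ∀ x < a, f x = c1) (h2 : ∀ x, b < x → f x = c2) :
    ∃ N : ℝ, 1 ≤ N ∧ ∀ x, |f x| ≤ N ∧ |deriv f x| ≤ N ∧ |deriv (deriv f) x| ≤ N := by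
  have hd1 : ContDiff ℝ ∞ (deriv f) := (contDiff_infty_iff_deriv.mp hf).2
  have hd2 : ContDiff ℝ ∞ (deriv (deriv f)) := (contDiff_infty_iff_deriv.mp hd1).2
  have g1 : ∀ x < a, deriv f x = 0 := by
    intro x hx
    have : f =ᶠ[𝓝 x] fun _ => c1 := by
      filter_upwards [Iio_mem_nhds hx] with y hy using h1 y hy
    rw [this.deriv_eq]; simp
  have g2 : ∀ x, b < x → deriv f x = 0 := by
    intro x hx
    have : f =ᶠ[𝓝 x] fun _ => c2 := by
      filter_upwards [Ioi_mem_nhds hx] with y hy using h2 y hy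
    rw [this.deriv_eq]; simp
  have k1 : ∀ x < a, deriv (deriv f) x = 0 := by
    intro x hx
    have : deriv f =ᶠ[𝓝 x] fun _ => 0 := by
      filter_upwards [Iio_mem_nhds hx] with y hy using g1 y hy
    rw [this.deriv_eq]; simp
  have k2 : ∀ x, b < x → deriv (deriv f) x = 0 := by
    intro x hx
    have : deriv f =ᶠ[𝓝 x] fun _ => 0 := by
      filter_upwards [Ioi_mem_nhds hx] with y hy using g2 y hy
    rw [this.deriv_eq]; simp
  obtain ⟨N0, hN0⟩ := (isCompact_Icc (a := a) (b := b)).exists_bound_of_continuousOn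
    hf.continuous.continuousOn
  obtain ⟨N1, hN1⟩ := (isCompact_Icc (a := a) (b := b)).exists_bound_of_continuousOn
    hd1.continuous.continuousOn
  obtain ⟨N2, hN2⟩ := (isCompact_Icc (a := a) (b := b)).exists_bound_of_continuousOn
    hd2.continuous.continuousOn
  refine ⟨1 + |c1| + |c2| + |N0| + |N1| + |N2|, by
    have := abs_nonneg c1; have := abs_nonneg c2; have := abs_nonneg N0
    have := abs_nonneg N1; have := abs_nonneg N2; linarith, fun x => ?_⟩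
  have a1 := abs_nonneg c1
  have a2 := abs_nonneg c2
  have a3 := abs_nonneg N0
  have a4 := abs_nonneg N1
  have a5 := abs_nonneg N2
  have b3 := le_abs_self N0
  have b4 := le_abs_self N1
  have b5 := le_abs_self N2
  by_cases hxa : x < a
  · rw [h1 x hxa, g1 x hxa, k1 x hxa, abs_zero]
    refine ⟨by linarith, by linarith, by linarith⟩
  · by_cases hxb : b < x
    · rw [h2 x hxb, g2 x hxb, k2 x hxb, abs_zero]
      refine ⟨by linarith, by linarith, by linarith⟩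
    · have hx : x ∈ Icc a b := ⟨not_lt.mp hxa, not_lt.mp hxb⟩
      have e0 := hN0 x hx
      have e1 := hN1 x hx
      have e2 := hN2 x hx
      rw [Real.norm_eq_abs] at e0 e1 e2
      refine ⟨by linarith, by linarith, by linarith⟩

theorem D2_sin : D2 Real.sin Real.cos (fun x => -Real.sin x) :=
  ⟨fun x => Real.hasDerivAt_sin x, fun x => Real.hasDerivAt_cos x⟩

theorem D2_cos2 : D2 (fun x => Real.cos (2 * x)) (fun x => -2 * Real.sin (2 * x))
    (fun x => -4 * Real.cos (2 * x)) := by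
  have h : ∀ x : ℝ, HasDerivAt (fun x => 2 * x) 2 x := fun x => by
    simpa using (hasDerivAt_id x).const_mul 2
  refine ⟨fun x => ?_, fun x => ?_⟩
  · have := (Real.hasDerivAt_cos (2 * x)).comp x (h x)
    refine HasDerivAt.congr_deriv this ?_
    ring
  · have := ((Real.hasDerivAt_sin (2 * x)).comp x (h x)).const_mul (-2)
    refine HasDerivAt.congr_deriv this ?_
    ring

theorem D2_cosh : D2 (fun x => Real.cos (x / 2)) (fun x => -(1 / 2) * Real.sin (x / 2))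
    (fun x => -(1 / 4) * Real.cos (x / 2)) := by
  have h : ∀ x : ℝ, HasDerivAt (fun x => x / 2) (1 / 2) x := fun x => by
    simpa using (hasDerivAt_id x).div_const 2
  refine ⟨fun x => ?_, fun x => ?_⟩
  · have := (Real.hasDerivAt_cos (x / 2)).comp x (h x)
    refine HasDerivAt.congr_deriv this ?_
    ring
  · have := ((Real.hasDerivAt_sin (x / 2)).comp x (h x)).const_mul (-(1 / 2))
    refine HasDerivAt.congr_deriv this ?_
    ring

theorem D2_sinh : D2 (fun x => Real.sin (x / 2)) (fun x => (1 / 2) * Real.cos (x / 2))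
    (fun x => -(1 / 4) * Real.sin (x / 2)) := by
  have h : ∀ x : ℝ, HasDerivAt (fun x => x / 2) (1 / 2) x := fun x => by
    simpa using (hasDerivAt_id x).div_const 2
  refine ⟨fun x => ?_, fun x => ?_⟩
  · have := (Real.hasDerivAt_sin (x / 2)).comp x (h x)
    refine HasDerivAt.congr_deriv this ?_
    ring
  · have := ((Real.hasDerivAt_cos (x / 2)).comp x (h x)).const_mul (1 / 2)
    refine HasDerivAt.congr_deriv this ?_
    ring

theorem abs_le_four {x : ℝ} (h : |x| ≤ 1) : |x| ≤ 4 := h.trans (by norm_num)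

theorem W_bounds (S : ℝ) :
    (|Real.sin S| ≤ 4 ∧ |Real.cos S| ≤ 4 ∧ |-Real.sin S| ≤ 4) ∧
    (|Real.cos (2 * S)| ≤ 4 ∧ |-2 * Real.sin (2 * S)| ≤ 4 ∧ |-4 * Real.cos (2 * S)| ≤ 4) ∧
    (|Real.cos (S / 2)| ≤ 4 ∧ |-(1 / 2) * Real.sin (S / 2)| ≤ 4 ∧
      |-(1 / 4) * Real.cos (S / 2)| ≤ 4) ∧
    (|Real.sin (S / 2)| ≤ 4 ∧ |(1 / 2) * Real.cos (S / 2)| ≤ 4 ∧
      |-(1 / 4) * Real.sin (S / 2)| ≤ 4) := by
  have s := Real.abs_sin_le_one
  have c := Real.abs_cos_le_one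
  have h : ∀ (a x : ℝ), |x| ≤ 1 → |a| ≤ 4 → |a * x| ≤ 4 := by
    intro a x hx ha
    rw [abs_mul]
    nlinarith [abs_nonneg a, abs_nonneg x]
  refine ⟨⟨abs_le_four (s _), abs_le_four (c _), ?_⟩,
    ⟨abs_le_four (c _), h _ _ (s _) (by norm_num [abs_le]), h _ _ (c _) (by norm_num [abs_le])⟩,
    ⟨abs_le_four (c _), h _ _ (s _) (by norm_num [abs_le]), h _ _ (c _) (by norm_num [abs_le])⟩,
    ⟨abs_le_four (s _), h _ _ (c _) (by norm_num [abs_le]), h _ _ (s _) (by norm_num [abs_le])⟩⟩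
  rw [abs_neg]
  exact abs_le_four (s _)

theorem sq_bounds {a b c N : ℝ} (hN : 1 ≤ N) (h0 : |a| ≤ N) (h1 : |b| ≤ N) (h2 : |c| ≤ N) :
    |a * a| ≤ 4 * N ^ 2 ∧ |b * a + a * b| ≤ 4 * N ^ 2 ∧
      |c * a + 2 * (b * b) + a * c| ≤ 4 * N ^ 2 := by
  have m : ∀ {a b : ℝ}, |a| ≤ N → |b| ≤ N → |a * b| ≤ N ^ 2 := by
    intro a b ha hb
    have := am ha hb
    nlinarith
  have m00 := m h0 h0
  have m10 := m h1 h0
  have m01 := m h0 h1
  have m20 := m h2 h0
  have m11 := m h1 h1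
  have m02 := m h0 h2
  have hN2 : 0 ≤ N ^ 2 := by positivity
  rw [abs_le] at m00 m10 m01 m20 m11 m02
  refine ⟨?_, ?_, ?_⟩ <;> rw [abs_le] <;> constructor <;> linarith

theorem lin_bounds {a b c N : ℝ} (hN : 1 ≤ N) (h0 : |a| ≤ N) (h1 : |b| ≤ N) (h2 : |c| ≤ N) :
    |a| ≤ 9 * N ^ 2 ∧ |b - 2 * a| ≤ 9 * N ^ 2 ∧ |c - 4 * b + 4 * a| ≤ 9 * N ^ 2 := by
  have hN2 : N ≤ N ^ 2 := by nlinarith
  rw [abs_le] at h0 h1 h2
  refine ⟨?_, ?_, ?_⟩ <;> rw [abs_le] <;> constructor <;> linarith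

end Pool.Agent.TH902.Mil
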